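import Mathlib

-- part Pool.Agent.Lib.MP_4ffbf9_nt.Branch
section

/-!
Growth of polynomial functions along a real branch at infinity of a plane curve.
-/

set_option autoImplicit false

namespace Pool.Agent.Lib.MP_4ffbf9_nt

open Polynomial Filter Topology Finset

/-- Evaluation of a bivariate rational polynomial: outer variable `x`, inner variable `z`. -/
noncomputable def ev (x z : ℝ) : ℚ[X][X] →+* ℝ :=
  eval₂RingHom (eval₂RingHom (algebraMap ℚ ℝ) z) x

theorem ev_C (x z : ℝ) (p : ℚ[X]) : ev x z (C p) = aeval z p := by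
  simp [ev, aeval_def]

theorem ev_X (x z : ℝ) : ev x z X = x := by simp [ev]

theorem ev_map (x z : ℝ) (p : ℚ[X]) : ev x z (p.map C) = aeval x p := by
  simp only [ev, coe_eval₂RingHom, eval₂_map, aeval_def]
  congr 1
  ext c
  simp

/-- Derivative in the inner variable. -/
noncomputable def dz (G : ℚ[X][X]) : ℚ[X][X] := G.sum fun i c => monomial i (derivative c)

theorem coeff_dz (G : ℚ[X][X]) (i : ℕ) : (dz G).coeff i = derivative (G.coeff i) := by
  rw [dz, coeff_sum, Polynomial.sum, sum_eq_single i]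
  · simp
  · intro b _ hb; rw [coeff_monomial, if_neg hb]
  · intro h; rw [notMem_support_iff.1 h]; simp

theorem dz_add (G H : ℚ[X][X]) : dz (G + H) = dz G + dz H := by
  ext1 i; simp [coeff_dz]

theorem dz_sub (G H : ℚ[X][X]) : dz (G - H) = dz G - dz H := by
  ext1 i; simp [coeff_dz]

theorem dz_mul (G H : ℚ[X][X]) : dz (G * H) = dz G * H + G * dz H := by
  ext1 i
  simp only [coeff_dz, coeff_add, coeff_mul, derivative_sum, derivative_mul, sum_add_distrib]

theorem dz_C (p : ℚ[X]) : dz (C p) = C (derivative p) := by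
  ext1 i; simp only [coeff_dz, coeff_C]; split_ifs <;> simp

theorem dz_map (p : ℚ[X]) : dz (p.map C) = 0 := by
  ext1 i; simp [coeff_dz]

theorem dz_X : dz X = 0 := by
  rw [← dz_map X, Polynomial.map_X]

theorem ev_eq_sum (x z : ℝ) (G : ℚ[X][X]) : ev x z G =
    ∑ i ∈ G.support, ∑ j ∈ (G.coeff i).support, ((G.coeff i).coeff j : ℝ) * x ^ i * z ^ j := by
  simp only [ev, coe_eval₂RingHom, eval₂_eq_sum, Polynomial.sum, sum_mul]
  exact sum_congr rfl fun i _ => sum_congr rfl fun j _ => by simp; ring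

theorem ev_derivative_eq_sum (x z : ℝ) (G : ℚ[X][X]) : x * ev x z (derivative G) =
    ∑ i ∈ G.support, ∑ j ∈ (G.coeff i).support,
      ((G.coeff i).coeff j : ℝ) * x ^ i * z ^ j * i := by
  rw [derivative_apply, Polynomial.sum, map_sum, mul_sum]
  refine sum_congr rfl fun i _ => ?_
  rw [map_mul, map_pow, ev_X, ev_C, map_mul, aeval_def, eval₂_eq_sum, Polynomial.sum, sum_mul,
    sum_mul, mul_sum]
  refine sum_congr rfl fun j _ => ?_
  cases i with
  | zero => simp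
  | succ i => simp; ring

theorem ev_dz_eq_sum (x z : ℝ) (G : ℚ[X][X]) : z * ev x z (dz G) =
    ∑ i ∈ G.support, ∑ j ∈ (G.coeff i).support,
      ((G.coeff i).coeff j : ℝ) * x ^ i * z ^ j * j := by
  rw [dz, Polynomial.sum, map_sum, mul_sum]
  refine sum_congr rfl fun i _ => ?_
  rw [← C_mul_X_pow_eq_monomial, map_mul, map_pow, ev_X, ev_C, derivative_apply, Polynomial.sum,
    map_sum, sum_mul, mul_sum]
  refine sum_congr rfl fun j _ => ?_
  cases j with
  | zero => simp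
  | succ j => simp; ring

/-- The weighted leading form of weight `e`, dehomogenised. -/
noncomputable def lf (k a e : ℕ) (G : ℚ[X][X]) : ℚ[X] :=
  ∑ i ∈ G.support, ∑ j ∈ (G.coeff i).support,
    if k * i + a * j = e then monomial i ((G.coeff i).coeff j) else 0

section lim

variable {ι : Type*} {l : Filter ι} {x z t s : ι → ℝ} {k a : ℕ} {ξ : ℝ}

theorem tendsto_mono (ht : Tendsto t l atTop) (hx : Tendsto (fun p => x p / t p ^ k) l (𝓝 ξ))
    (hz : Tendsto (fun p => z p / t p ^ a) l (𝓝 1)) {i j e : ℕ} (he : k * i + a * j ≤ e) :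
    Tendsto (fun p => x p ^ i * z p ^ j / t p ^ e) l
      (𝓝 (if k * i + a * j = e then ξ ^ i else 0)) := by
  obtain ⟨m, rfl⟩ := Nat.exists_eq_add_of_le he
  have h1 : Tendsto (fun p => (t p)⁻¹ ^ m) l (𝓝 (0 ^ m)) := ht.inv_tendsto_atTop.pow m
  have h2 := ((hx.pow i).mul (hz.pow j)).mul h1
  have h3 : ξ ^ i * 1 ^ j * (0 : ℝ) ^ m = if k * i + a * j = k * i + a * j + m then ξ ^ i else 0 := by
    cases m with
    | zero => simp
    | succ m => simp
  rw [h3] at h2
  refine h2.congr fun p => ?_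
  simp only [pow_add, div_eq_mul_inv, mul_inv, inv_pow]
  ring

theorem tendsto_ev (ht : Tendsto t l atTop) (hx : Tendsto (fun p => x p / t p ^ k) l (𝓝 ξ))
    (hz : Tendsto (fun p => z p / t p ^ a) l (𝓝 1)) {G : ℚ[X][X]} {e : ℕ}
    (he : ∀ i j, (G.coeff i).coeff j ≠ 0 → k * i + a * j ≤ e) :
    Tendsto (fun p => ev (x p) (z p) G / t p ^ e) l (𝓝 (aeval ξ (lf k a e G))) := by
  simp only [ev_eq_sum, lf, map_sum, sum_div]
  refine tendsto_finsetSum _ fun i _ => tendsto_finsetSum _ fun j hj => ?_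
  have h1 := (tendsto_mono ht hx hz (he i j (mem_support_iff.1 hj))).const_mul
    ((G.coeff i).coeff j : ℝ)
  convert h1 using 2
  · ring
  · split_ifs <;> simp [aeval_monomial]

theorem tendsto_der (ht : Tendsto t l atTop) (hx : Tendsto (fun p => x p / t p ^ k) l (𝓝 ξ))
    (hξ : ξ ≠ 0) (hz : Tendsto (fun p => z p / t p ^ a) l (𝓝 1)) {V₁ V₂ : ι → ℝ}
    (hV₁ : Tendsto (fun p => V₁ p / (x p * s p)) l (𝓝 k))
    (hV₂ : Tendsto (fun p => V₂ p / (z p * s p)) l (𝓝 a)) {G : ℚ[X][X]} {e : ℕ}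
    (he : ∀ i j, (G.coeff i).coeff j ≠ 0 → k * i + a * j ≤ e) :
    Tendsto (fun p => (V₁ p * ev (x p) (z p) (derivative G) + V₂ p * ev (x p) (z p) (dz G)) /
      (s p * t p ^ e)) l (𝓝 (e * aeval ξ (lf k a e G))) := by
  have hx0 : ∀ᶠ p in l, x p ≠ 0 := by
    filter_upwards [hx.eventually_ne hξ] with p hp h
    exact hp (by rw [h, zero_div])
  have hz0 : ∀ᶠ p in l, z p ≠ 0 := by
    filter_upwards [hz.eventually_ne one_ne_zero] with p hp h
    exact hp (by rw [h, zero_div])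
  have h0 : Tendsto (fun p => ∑ i ∈ G.support, ∑ j ∈ (G.coeff i).support,
      ((G.coeff i).coeff j : ℝ) * (x p ^ i * z p ^ j / t p ^ e) *
        (V₁ p / (x p * s p) * i + V₂ p / (z p * s p) * j)) l (𝓝 (e * aeval ξ (lf k a e G))) := by
    simp only [lf, map_sum, mul_sum]
    refine tendsto_finsetSum _ fun i _ => tendsto_finsetSum _ fun j hj => ?_
    have h1 := ((tendsto_mono ht hx hz (he i j (mem_support_iff.1 hj))).const_mul
      ((G.coeff i).coeff j : ℝ)).mul ((hV₁.mul_const (i : ℝ)).add (hV₂.mul_const (j : ℝ)))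
    convert h1 using 2
    split_ifs with h
    · rw [← h]; simp [aeval_monomial]; ring
    · simp
  refine h0.congr' ?_
  filter_upwards [hx0, hz0] with p hp hq
  have h2 : ev (x p) (z p) (derivative G) = (x p)⁻¹ * (x p * ev (x p) (z p) (derivative G)) := by
    field_simp
  have h3 : ev (x p) (z p) (dz G) = (z p)⁻¹ * (z p * ev (x p) (z p) (dz G)) := by field_simp
  rw [h2, h3, ev_derivative_eq_sum, ev_dz_eq_sum]
  simp only [mul_sum, ← sum_add_distrib, sum_div]
  refine sum_congr rfl fun i _ => sum_congr rfl fun j _ => ?_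
  simp only [div_eq_mul_inv, mul_inv]
  ring

end lim

theorem exists_lf {k a : ℕ} (ha : 0 < a) {G : ℚ[X][X]} (hG : G ≠ 0) :
    ∃ e, (∀ i j, (G.coeff i).coeff j ≠ 0 → k * i + a * j ≤ e) ∧ lf k a e G ≠ 0 ∧
      (lf k a e G).natDegree ≤ G.natDegree ∧
      ∀ i, (lf k a e G).coeff i ≠ 0 → ∃ j, k * i + a * j = e := by
  classical
  have hne : (G.support.sigma fun i => (G.coeff i).support).Nonempty := by
    obtain ⟨i, hi⟩ := support_nonempty.2 hG
    obtain ⟨j, hj⟩ := support_nonempty.2 (mem_support_iff.1 hi)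
    exact ⟨⟨i, j⟩, mem_sigma.2 ⟨hi, hj⟩⟩
  obtain ⟨⟨i₀, j₀⟩, h0, hmax⟩ := exists_max_image _ (fun c => k * c.1 + a * c.2) hne
  rw [mem_sigma] at h0
  have hco : ∀ e i, (lf k a e G).coeff i = ∑ j ∈ (G.coeff i).support,
      if k * i + a * j = e then (G.coeff i).coeff j else 0 := by
    intro e i
    rw [lf, finsetSum_coeff, sum_eq_single i, finsetSum_coeff]
    · exact sum_congr rfl fun j _ => by split_ifs <;> simp
    · intro b _ hb
      rw [finsetSum_coeff]
      exact sum_eq_zero fun j _ => by split_ifs <;> simp [coeff_monomial, hb]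
    · intro h; rw [notMem_support_iff.1 h]; simp
  refine ⟨k * i₀ + a * j₀, fun i j hij => ?_, ?_, ?_, fun i hi => ?_⟩
  · refine hmax ⟨i, j⟩ (mem_sigma.2 ⟨mem_support_iff.2 ?_, mem_support_iff.2 hij⟩)
    intro h; rw [h] at hij; simp at hij
  · intro h
    have h1 := hco (k * i₀ + a * j₀) i₀
    rw [h, coeff_zero, sum_eq_single j₀, if_pos rfl] at h1
    · exact mem_support_iff.1 h0.2 h1.symm
    · intro b _ hb
      rw [if_neg]
      intro h2
      exact hb (Nat.eq_of_mul_eq_mul_left ha (by omega))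
    · intro h2; exact absurd h0.2 h2
  · rw [natDegree_le_iff_coeff_eq_zero]
    intro i hi
    rw [hco, coeff_eq_zero_of_natDegree_lt hi]; simp
  · rw [hco] at hi
    obtain ⟨j, -, hj⟩ := exists_ne_zero_of_sum_ne_zero hi
    exact ⟨j, by by_contra h; exact hj (if_neg h)⟩

theorem tendsto_aeval_div {ι : Type*} {l : Filter ι} {x t : ι → ℝ} {k : ℕ} {ξ : ℝ}
    (ht : Tendsto t l atTop) (hk : 0 < k) (hx : Tendsto (fun p => x p / t p ^ k) l (𝓝 ξ))
    {P : ℚ[X]} {n : ℕ} (hP : P.natDegree ≤ n) :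
    Tendsto (fun p => aeval (x p) P / t p ^ (k * n)) l (𝓝 (P.coeff n * ξ ^ n)) := by
  have h1 : ∀ i ∈ range (n + 1), Tendsto (fun p => (P.coeff i : ℝ) * (x p ^ i * t p ^ 0 / t p ^ (k * n)))
      l (𝓝 (P.coeff i * (if k * i + 1 * 0 = k * n then ξ ^ i else 0))) := by
    intro i hi
    refine (tendsto_mono (a := 1) ht hx ?_ ?_).const_mul _
    · refine tendsto_const_nhds.congr' ?_
      filter_upwards [ht.eventually_gt_atTop 0] with p hp
      rw [pow_one, div_self hp.ne']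
    · have := Nat.mul_le_mul_left k (Nat.lt_succ_iff.1 (mem_range.1 hi)); omega
  have h2 := tendsto_finsetSum _ h1
  rw [sum_eq_single n] at h2
  · simp only [mul_zero, add_zero, if_true] at h2
    refine h2.congr fun p => ?_
    rw [aeval_eq_sum_range' (Nat.lt_succ_of_le hP), sum_div]
    exact sum_congr rfl fun i _ => by simp [Algebra.smul_def]; ring
  · intro b _ hb
    rw [if_neg, mul_zero]
    intro h
    exact hb (Nat.eq_of_mul_eq_mul_left hk (by omega))
  · intro h; exact absurd (self_mem_range_succ n) h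

theorem aeval_derivative_eq (x : ℝ) (P : ℚ[X]) :
    ∀ z, ev x z (derivative (P.map C)) = aeval x (derivative P) := by
  intro z; rw [derivative_map, ev_map]

/-- Lower bound for `P(x) - R(z)` at the integral points of a branch. -/
theorem branch_bound {ι : Type*} {l : Filter ι} {x z t s : ι → ℝ} {k a : ℕ} {ξ : ℝ}
    (ht : Tendsto t l atTop) (hk : 0 < k) (ha : 0 < a)
    (hx : Tendsto (fun p => x p / t p ^ k) l (𝓝 ξ))
    (hξ : ξ ≠ 0) (hz : Tendsto (fun p => z p / t p ^ a) l (𝓝 1)) {Q V₁ V₂ : ℚ[X][X]}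
    (hQ : Q.Monic) (hQ1 : Q ≠ 1) (hQ0 : ∀ᶠ p in l, ev (x p) (z p) Q = 0)
    (hD : V₁ * derivative Q + V₂ * dz Q = 0)
    (hV₁ : Tendsto (fun p => ev (x p) (z p) V₁ / (x p * s p)) l (𝓝 k))
    (hV₂ : Tendsto (fun p => ev (x p) (z p) V₂ / (z p * s p)) l (𝓝 a))
    (hind : ∀ (e : ℕ) (φ : ℚ[X]), φ ≠ 0 → φ.natDegree < Q.natDegree →
      (∀ i, φ.coeff i ≠ 0 → ∃ j, k * i + a * j = e) → aeval ξ φ ≠ 0)
    {P R ρ₁ π₁ ρ₂ π₂ : ℚ[X]} (hP : P ≠ 0) (hR : R ≠ 0) {N r₁ r₂ : ℕ} (hN₁ : k * P.natDegree = N)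
    (hN₂ : a * R.natDegree = N) (h₁ : ρ₁ * derivative P = π₁ * P)
    (h₂ : ρ₂ * derivative R = π₂ * R) (hρ₁ : ρ₁ ≠ 0) (hρ₂ : ρ₂ ≠ 0)
    (hr₁ : ρ₁.natDegree = r₁) (hr₂ : ρ₂.natDegree = r₂)
    (hJ : ∀ᶠ p in l, ∃ j : ℤ, ev (x p) (z p) V₁ * aeval (x p) π₁ * aeval (z p) ρ₂ -
      ev (x p) (z p) V₂ * aeval (z p) π₂ * aeval (x p) ρ₁ = j)
    (hs : ∃ c : ℝ, 0 < c ∧ ∀ᶠ p in l, c ≤ |s p| * t p ^ (k * r₁ + a * r₂)) :
    ∃ κ : ℝ, 0 < κ ∧ ∀ᶠ p in l, aeval (x p) P ≠ aeval (z p) R →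
      κ * t p ^ N ≤ |aeval (x p) P - aeval (z p) R| * (|s p| * t p ^ (k * r₁ + a * r₂)) := by
  set F : ℚ[X][X] := P.map C - C R with hF
  set G := F %ₘ Q with hG
  have hFG : F = G + Q * (F /ₘ Q) := (modByMonic_add_div F Q).symm
  have hevF : ∀ p, ev (x p) (z p) F = aeval (x p) P - aeval (z p) R := fun p => by
    rw [hF, map_sub, ev_map, ev_C]
  have hev : ∀ᶠ p in l, ev (x p) (z p) G = aeval (x p) P - aeval (z p) R := by
    filter_upwards [hQ0] with p hp
    rw [← hevF, hFG, map_add, map_mul, hp, zero_mul, add_zero]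
  have hevD : ∀ᶠ p in l, ev (x p) (z p) V₁ * ev (x p) (z p) (derivative G) +
      ev (x p) (z p) V₂ * ev (x p) (z p) (dz G) = ev (x p) (z p) V₁ * aeval (x p) (derivative P) -
        ev (x p) (z p) V₂ * aeval (z p) (derivative R) := by
    filter_upwards [hQ0] with p hp
    have e1 := congrArg (fun H => ev (x p) (z p) (derivative H)) hFG
    have e2 := congrArg (fun H => ev (x p) (z p) (dz H)) hFG
    have e3 := congrArg (ev (x p) (z p)) hD
    simp only [derivative_mul, dz_add, dz_mul, map_add, map_mul, hp, map_zero]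
      at e1 e2 e3
    rw [hF, derivative_sub, map_sub, aeval_derivative_eq, derivative_C, map_zero, ← hF] at e1
    rw [hF, dz_sub, map_sub, dz_map, dz_C, map_zero, ev_C, ← hF] at e2
    linear_combination (-ev (x p) (z p) V₁) * e1 - ev (x p) (z p) V₂ * e2 -
      ev (x p) (z p) (F /ₘ Q) * e3
  by_cases hG0 : G = 0
  · refine ⟨1, one_pos, ?_⟩
    filter_upwards [hev] with p hp hne
    rw [hG0, map_zero] at hp
    exact absurd (sub_eq_zero.1 hp.symm) hne
  obtain ⟨e, he, hl0, hld, hls⟩ := exists_lf (k := k) ha hG0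
  have hc := hind e _ hl0 (hld.trans_lt (natDegree_modByMonic_lt F hQ hQ1)) hls
  set c := aeval ξ (lf k a e G) with hcdef
  have L1 := (tendsto_ev ht hx hz he).congr' (f₂ := fun p =>
    (aeval (x p) P - aeval (z p) R) / t p ^ e) (by filter_upwards [hev] with p hp; rw [hp])
  have L2 := (tendsto_der ht hx hξ hz hV₁ hV₂ he).congr' (f₂ := fun p =>
    (ev (x p) (z p) V₁ * aeval (x p) (derivative P) -
        ev (x p) (z p) V₂ * aeval (z p) (derivative R)) / (s p * t p ^ e))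
    (by filter_upwards [hevD] with p hp; rw [hp])
  rw [← hcdef] at L1 L2
  have ht1 := ht.eventually_ge_atTop 1
  have hF1 : ∀ᶠ p in l, |c| / 2 * t p ^ e ≤ |aeval (x p) P - aeval (z p) R| := by
    filter_upwards [ht1, L1.abs.eventually (lt_mem_nhds (half_lt_self (abs_pos.2 hc)))]
      with p hp hq
    have h0 : 0 < t p ^ e := by positivity
    rw [abs_div, abs_of_pos h0, lt_div_iff₀ h0] at hq
    exact hq.le
  by_cases heN : N ≤ e
  · obtain ⟨c', hc', hs⟩ := hs
    refine ⟨|c| / 2 * c', by have := abs_pos.2 hc; positivity, ?_⟩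
    filter_upwards [ht1, hF1, hs] with p hp hq hr _
    calc |c| / 2 * c' * t p ^ N ≤ |c| / 2 * c' * t p ^ e :=
          mul_le_mul_of_nonneg_left (pow_le_pow_right₀ hp heN) (by positivity)
      _ = |c| / 2 * t p ^ e * c' := by ring
      _ ≤ _ := mul_le_mul hq hr hc'.le (abs_nonneg _)
  have LP := tendsto_aeval_div ht hk hx (P := P) le_rfl
  have LR := tendsto_aeval_div ht ha hz (P := R) le_rfl
  have L₁ := tendsto_aeval_div ht hk hx hr₁.le
  have L₂ := tendsto_aeval_div ht ha hz hr₂.le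
  rw [hN₁] at LP
  rw [hN₂] at LR
  have hcP : (P.coeff P.natDegree : ℝ) * ξ ^ P.natDegree ≠ 0 :=
    mul_ne_zero (by exact_mod_cast leadingCoeff_ne_zero.2 hP) (pow_ne_zero _ hξ)
  have hcR : (R.coeff R.natDegree : ℝ) * 1 ^ R.natDegree ≠ 0 :=
    mul_ne_zero (by exact_mod_cast leadingCoeff_ne_zero.2 hR) (pow_ne_zero _ one_ne_zero)
  have hc₁ : (ρ₁.coeff r₁ : ℝ) * ξ ^ r₁ ≠ 0 :=
    mul_ne_zero (by rw [← hr₁]; exact_mod_cast leadingCoeff_ne_zero.2 hρ₁) (pow_ne_zero _ hξ)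
  have hc₂ : (ρ₂.coeff r₂ : ℝ) * 1 ^ r₂ ≠ 0 :=
    mul_ne_zero (by rw [← hr₂]; exact_mod_cast leadingCoeff_ne_zero.2 hρ₂)
      (pow_ne_zero _ one_ne_zero)
  set cP := (P.coeff P.natDegree : ℝ) * ξ ^ P.natDegree with hcPdef
  set cR := (R.coeff R.natDegree : ℝ) * 1 ^ R.natDegree
  set c₁ := (ρ₁.coeff r₁ : ℝ) * ξ ^ r₁
  set c₂ := (ρ₂.coeff r₂ : ℝ) * 1 ^ r₂
  have LD : Tendsto (fun p => ev (x p) (z p) V₁ * aeval (x p) (derivative P) / (s p * t p ^ N)) l
      (𝓝 (N * cP)) := by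
    have hwt : ∀ i j, ((P.map C).coeff i).coeff j ≠ 0 → k * i + a * j ≤ N := by
      intro i j hij
      rw [coeff_map, coeff_C] at hij
      split_ifs at hij with hj
      · rw [hj, mul_zero, add_zero, ← hN₁]
        exact Nat.mul_le_mul_left k (le_natDegree_of_ne_zero hij)
      · exact absurd rfl hij
    have h3 := tendsto_der ht hx hξ hz hV₁ hV₂ hwt
    have h4 := tendsto_ev ht hx hz hwt
    simp only [ev_map] at h4
    rcases l.eq_or_neBot with hl | hl
    · rw [hl]; exact tendsto_bot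
    rw [tendsto_nhds_unique h4 LP] at h3
    simpa only [aeval_derivative_eq, dz_map, map_zero, mul_zero, add_zero] using h3
  have hNe : (e : ℝ) - N ≠ 0 := sub_ne_zero.2 (by exact_mod_cast (by omega : e ≠ N))
  have LW := ((LP.mul L2).sub (LD.mul L1)).mul (L₁.mul L₂)
  have hw : (cP * (e * c) - N * cP * c) * (c₁ * c₂) ≠ 0 := by
    rw [show cP * (e * c) - N * cP * c = (e - N) * cP * c by ring]
    exact mul_ne_zero (mul_ne_zero (mul_ne_zero hNe hcP) hc) (mul_ne_zero hc₁ hc₂)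
  set w := (cP * (e * c) - N * cP * c) * (c₁ * c₂)
  have LPR := LP.mul LR
  have hPR : cP * cR ≠ 0 := mul_ne_zero hcP hcR
  have hw0 := abs_pos.2 hw
  have hPR0 := abs_pos.2 hPR
  have hc0 := abs_pos.2 hc
  refine ⟨|cP * cR| / 2 / (2 * |w|) * (|c| / 2), by positivity, ?_⟩
  filter_upwards [ht1, hF1, hJ, LW.eventually_ne hw,
    LW.abs.eventually (gt_mem_nhds (show |w| < 2 * |w| by linarith)),
    LPR.abs.eventually (lt_mem_nhds (half_lt_self hPR0))] with p hp hq ⟨j, hj⟩ hW0 hW hPRp _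
  have ht0 : 0 < t p := by linarith
  have hs0 : s p ≠ 0 := by
    intro h; apply hW0; simp [h]
  have e1 := congrArg (aeval (x p)) h₁
  have e2 := congrArg (aeval (z p)) h₂
  simp only [map_mul] at e1 e2
  have hid : (aeval (x p) P / t p ^ N * ((ev (x p) (z p) V₁ * aeval (x p) (derivative P) -
        ev (x p) (z p) V₂ * aeval (z p) (derivative R)) / (s p * t p ^ e)) -
      ev (x p) (z p) V₁ * aeval (x p) (derivative P) / (s p * t p ^ N) *
        ((aeval (x p) P - aeval (z p) R) / t p ^ e)) *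
      (aeval (x p) ρ₁ / t p ^ (k * r₁) * (aeval (z p) ρ₂ / t p ^ (a * r₂))) =
      (aeval (x p) P / t p ^ N * (aeval (z p) R / t p ^ N)) * j * t p ^ N /
        (s p * t p ^ e * t p ^ (k * r₁ + a * r₂)) := by
    rw [← hj, pow_add]
    field_simp
    linear_combination (ev (x p) (z p) V₁ * aeval (z p) R * aeval (z p) ρ₂) * e1 -
      (ev (x p) (z p) V₂ * aeval (x p) P * aeval (x p) ρ₁) * e2
  rw [hid] at hW hW0
  have hj0 : j ≠ 0 := by rintro rfl; exact hW0 (by simp)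
  have hj1 : (1 : ℝ) ≤ |(j : ℝ)| := by exact_mod_cast Int.one_le_abs hj0
  have hden : 0 < |s p| * t p ^ e * t p ^ (k * r₁ + a * r₂) := by
    have := abs_pos.2 hs0; positivity
  rw [abs_div, abs_mul, abs_mul, abs_mul (s p * _), abs_mul (s p), abs_of_pos (pow_pos ht0 N),
    abs_of_pos (pow_pos ht0 e), abs_of_pos (pow_pos ht0 (k * r₁ + a * r₂)), div_lt_iff₀ hden] at hW
  have h5 : |cP * cR| / 2 * 1 * t p ^ N ≤ 2 * |w| * (|s p| * t p ^ e * t p ^ (k * r₁ + a * r₂)) :=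
    le_trans (mul_le_mul_of_nonneg_right (mul_le_mul hPRp.le hj1 zero_le_one (abs_nonneg _))
      (by positivity)) hW.le
  calc |cP * cR| / 2 / (2 * |w|) * (|c| / 2) * t p ^ N
      = (|cP * cR| / 2 * 1 * t p ^ N) * (|c| / 2 / (2 * |w|)) := by ring
    _ ≤ (2 * |w| * (|s p| * t p ^ e * t p ^ (k * r₁ + a * r₂))) * (|c| / 2 / (2 * |w|)) :=
        mul_le_mul_of_nonneg_right h5 (by positivity)
    _ = (|c| / 2 * t p ^ e) * (|s p| * t p ^ (k * r₁ + a * r₂)) := by field_simp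
    _ ≤ _ := mul_le_mul_of_nonneg_right hq (by positivity)

/-- Logarithmic derivative of a split polynomial. -/
theorem exists_logderiv {ι : Type*} (s : Finset ι) (c : ι → ℤ) (ρ : ℤ[X])
    (h : ∀ i ∈ s, X + C (c i) ∣ ρ) :
    ∃ π : ℤ[X], ρ * derivative (∏ i ∈ s, (X + C (c i))) = π * ∏ i ∈ s, (X + C (c i)) := by
  classical
  induction s using Finset.induction_on with
  | empty => exact ⟨0, by simp⟩
  | insert a s ha ih =>
    obtain ⟨π, hπ⟩ := ih fun i hi => h i (mem_insert_of_mem hi)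
    obtain ⟨q, hq⟩ := h a (mem_insert_self _ _)
    refine ⟨π + q, ?_⟩
    rw [prod_insert ha, derivative_mul, derivative_X_add_C]
    linear_combination (X + C (c a)) * hπ + (∏ i ∈ s, (X + C (c i))) * hq

end Pool.Agent.Lib.MP_4ffbf9_nt
end

-- part Pool.Agent.Lib.MP_4ffbf9_nt.Shape
section

/-!
Reduction of products of bounded spread to finitely many shapes.
-/

set_option autoImplicit false

namespace Pool.Agent.Lib.MP_4ffbf9_nt

open Filter Finset

theorem finite_of_eventually_false {T : Set (ℕ × ℕ)} (hfib : ∀ b, {q ∈ T | q.2 ≤ b}.Finite)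
    (h : ∀ l : Filter (ℕ × ℕ), (∀ᶠ q in l, q ∈ T) → Tendsto (fun q => (q.2 : ℝ)) l atTop →
      ∀ᶠ _q in l, False) : T.Finite := by
  have h1 := h (comap Prod.snd atTop ⊓ 𝓟 T)
    (eventually_inf_principal.2 (Eventually.of_forall fun _ hq => hq))
    ((tendsto_natCast_atTop_atTop.comp tendsto_comap).mono_left inf_le_left)
  rw [eventually_inf_principal, eventually_comap, eventually_atTop] at h1
  obtain ⟨b, hb⟩ := h1
  refine (hfib b).subset fun q hq => ⟨hq, ?_⟩
  by_contra h2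
  exact hb q.2 (by omega) q rfl hq

theorem exists_shape {n S : ℕ} (hn : 0 < n) (x : Fin n → ℕ) (h0 : ∀ i, 0 < x i)
    (hS : ∀ i j, x i ≤ x j + S) : ∃ (b : ℕ) (o : Fin n → Fin (S + 1)), 0 < b ∧
      (∀ i, x i = b + o i) ∧ (univ.image x).card = (univ.image fun i => (o i : ℕ)).card := by
  obtain ⟨j, -, hj⟩ := exists_min_image univ x ⟨⟨0, hn⟩, mem_univ _⟩
  have h1 : ∀ i, x i - x j < S + 1 := fun i => by have := hS i j; omega
  have h2 : ∀ i, x i = x j + (x i - x j) := fun i => by have := hj i (mem_univ i); omega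
  refine ⟨x j, fun i => ⟨x i - x j, h1 i⟩, h0 j, h2, ?_⟩
  rw [← card_image_of_injective (univ.image fun i => x i - x j) (add_right_injective (x j)),
    image_image]
  congr 2
  exact funext h2

theorem le_prod_add {n : ℕ} (hn : 0 < n) (x : ℕ) (o : Fin n → ℕ) : x ≤ ∏ i, (x + o i) := by
  rcases Nat.eq_zero_or_pos x with rfl | hx
  · exact Nat.zero_le _
  · exact (Nat.le_add_right x (o ⟨0, hn⟩)).trans (single_le_prod' (f := fun i => x + o i)
      (fun i _ => by omega) (mem_univ _))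

/-- The fibres over a bounded second base are finite. -/
theorem fibre_finite {A D n m : ℕ} (hA : 0 < A) (hn : 0 < n) (o : Fin n → ℕ) (o' : Fin m → ℕ)
    {θ : ℝ} (hθ : θ ≤ 1) (b : ℕ) :
    {q : ℕ × ℕ | (0 < q.2 ∧ |(A : ℝ) * (∏ i, (q.1 + o i) : ℕ) - D * (∏ i, (q.2 + o' i) : ℕ)| ≤
      ((∏ i, (q.2 + o' i) : ℕ) : ℝ) ^ θ) ∧ q.2 ≤ b}.Finite := by
  refine ((Set.finite_Iic ((D + 1) * ∏ i, (b + o' i))).prod (Set.finite_Iic b)).subset ?_
  rintro ⟨x, z⟩ ⟨⟨hz, h⟩, hb⟩
  refine ⟨?_, hb⟩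
  simp only at hz h hb
  have h1 : (1 : ℝ) ≤ (∏ i, (z + o' i) : ℕ) := by
    exact_mod_cast one_le_prod' fun i _ => by omega
  have h2 := (le_abs_self _).trans (h.trans (Real.rpow_le_rpow_of_exponent_le h1 hθ))
  rw [Real.rpow_one] at h2
  have h3 : A * ∏ i, (x + o i) ≤ (D + 1) * ∏ i, (z + o' i) := by
    have : (A : ℝ) * (∏ i, (x + o i) : ℕ) ≤ (D + 1) * (∏ i, (z + o' i) : ℕ) := by linarith
    exact_mod_cast this
  calc x ≤ A * ∏ i, (x + o i) := (le_prod_add hn x o).trans (Nat.le_mul_of_pos_left _ hA)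
    _ ≤ _ := h3
    _ ≤ _ := Nat.mul_le_mul_left _ (prod_le_prod' fun i _ => by omega)

theorem rpow_le_of_one_le {Z W θ : ℝ} (hZ : 1 < Z) (hW : Z ≤ W) (h : 1 ≤ Z ^ θ) :
    Z ^ θ ≤ W ^ θ := by
  refine Real.rpow_le_rpow (by linarith) hW ?_
  by_contra h0
  exact absurd h (not_le.2 (Real.rpow_lt_one_of_one_lt_of_neg hZ (not_le.1 h0)))

theorem one_le_abs_sub {a b : ℕ} (h : a ≠ b) : (1 : ℝ) ≤ |(a : ℝ) - b| := by
  have h1 : (1 : ℤ) ≤ |(a : ℤ) - b| := Int.one_le_abs (sub_ne_zero.2 (by exact_mod_cast h))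
  exact_mod_cast h1

end Pool.Agent.Lib.MP_4ffbf9_nt
end
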