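import Mathlib
import Pool.Agent.Lib.MP_4ffbf9_nt.Shape
import Pool.Agent.Shared.Subspace.Main

/-!
Gap between two split polynomials of the same degree.
-/

set_option autoImplicit false

namespace Pool.Agent.Lib.MP_4ffbf9_nt

open Polynomial Filter Topology Finset Asymptotics

theorem aeval_map_int (p : ℤ[X]) (m : ℤ) :
    aeval (m : ℝ) (p.map (Int.castRingHom ℚ)) = ((p.eval m : ℤ) : ℝ) := by
  rw [show Int.castRingHom ℚ = algebraMap ℤ ℚ from rfl, aeval_map_algebraMap]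
  exact aeval_algebraMap_apply_eq_algebraMap_eval m p

theorem split_top {M : ℚ[X]} {m : ℕ} (hM : M.Monic) (hd : M.natDegree = m + 2)
    (h1 : M.coeff (m + 1) = 0) :
    ∃ N : ℚ[X], N.natDegree ≤ m ∧ X * M = X ^ (m + 3) + C (M.coeff m) * X ^ (m + 1) + N := by
  refine ⟨X * M - X ^ (m + 3) - C (M.coeff m) * X ^ (m + 1), ?_, by ring⟩
  rw [natDegree_le_iff_coeff_eq_zero]
  intro i hi
  obtain ⟨j, rfl⟩ : ∃ j, i = j + 1 := ⟨i - 1, by omega⟩
  rw [coeff_sub, coeff_sub, coeff_X_mul, coeff_X_pow, coeff_C_mul, coeff_X_pow]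
  have h2 : M.coeff (m + 2) = 1 := by rw [← hd]; exact hM
  rcases (by omega : j = m ∨ j = m + 1 ∨ j = m + 2 ∨ m + 2 < j) with h | h | h | h
  · simp [h]
  · simp [h, h1]
  · simp [h, h2]
  · rw [coeff_eq_zero_of_natDegree_lt (by omega), if_neg (by omega), if_neg (by omega)]; simp

/-- The split polynomial `A ∏ (X + c i)` and its logarithmic derivative. -/
theorem split_facts {n : ℕ} (c : Fin n → ℤ) (A : ℤ) (hA : A ≠ 0) :
    ∃ P ρ π : ℤ[X], P ≠ 0 ∧ ρ ≠ 0 ∧ P.natDegree = n ∧ ρ.natDegree = (univ.image c).card ∧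
      ρ * derivative P = π * P ∧ ∀ x : ℤ, P.eval x = A * ∏ i, (x + c i) := by
  have hm : ∀ (s : Finset ℤ), (∏ j ∈ s, (X + C j : ℤ[X])).Monic :=
    fun s => monic_prod_of_monic _ _ fun j _ => monic_X_add_C j
  have hm' : (∏ i, (X + C (c i) : ℤ[X])).Monic := monic_prod_of_monic _ _ fun j _ => monic_X_add_C _
  obtain ⟨π, hπ⟩ := exists_logderiv univ c (∏ j ∈ univ.image c, (X + C j))
    fun i _ => dvd_prod_of_mem _ (mem_image_of_mem c (mem_univ i))
  refine ⟨C A * ∏ i, (X + C (c i)), _, π, mul_ne_zero (C_ne_zero.2 hA) hm'.ne_zero,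
    (hm (univ.image c)).ne_zero, ?_, ?_, ?_, fun x => ?_⟩
  · rw [natDegree_C_mul hA, natDegree_prod_of_monic _ _ fun j _ => monic_X_add_C _]
    simp only [natDegree_X_add_C]; simp
  · rw [natDegree_prod_of_monic _ _ fun j _ => monic_X_add_C _]
    simp only [natDegree_X_add_C]; simp
  · rw [derivative_C_mul]; linear_combination C A * hπ
  · simp [eval_prod]

theorem map_facts {p : ℤ[X]} (hp : p ≠ 0) :
    p.map (Int.castRingHom ℚ) ≠ 0 ∧ (p.map (Int.castRingHom ℚ)).natDegree = p.natDegree :=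
  ⟨(Polynomial.map_ne_zero_iff (RingHom.injective_int _)).2 hp,
    natDegree_map_eq_of_injective (RingHom.injective_int _) p⟩

theorem false_of_gap {ι : Type*} {l : Filter ι} {t : ι → ℝ} (ht : Tendsto t l atTop)
    {κ K η : ℝ} (hκ : 0 < κ) (hη : 0 < η) : ∀ᶠ p in l, ¬ κ * t p ^ η ≤ K := by
  filter_upwards [(((tendsto_rpow_atTop hη).comp ht).const_mul_atTop hκ).eventually_gt_atTop K]
    with p hp
  exact not_le.2 hp

/-- Both polynomials split, curve given: contradiction with a small difference. -/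
theorem split_branch {ι : Type*} {l : Filter ι} {u w : ι → ℤ} {s : ι → ℝ} {α : ℝ} {n : ℕ}
    (ht : Tendsto (fun p => (w p : ℝ)) l atTop)
    (hx : Tendsto (fun p => (u p : ℝ) / w p) l (𝓝 α)) (hα : α ≠ 0) {Q V₁ V₂ : ℚ[X][X]}
    (hQ : Q.Monic) (hQ1 : Q ≠ 1) (hQ0 : ∀ᶠ p in l, ev (u p) (w p) Q = 0)
    (hD : V₁ * derivative Q + V₂ * dz Q = 0)
    (hV₁ : Tendsto (fun p => ev (u p) (w p) V₁ / (u p * s p)) l (𝓝 1))
    (hV₂ : Tendsto (fun p => ev (u p) (w p) V₂ / (w p * s p)) l (𝓝 1))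
    (hind : ∀ φ : ℚ[X], φ ≠ 0 → φ.natDegree < Q.natDegree → aeval α φ ≠ 0)
    (hint : ∀ p, ∃ v₁ v₂ : ℤ, ev (u p) (w p) V₁ = v₁ ∧ ev (u p) (w p) V₂ = v₂)
    {c₀ c₁ : ℝ} (hc₀ : 0 < c₀) (hs : ∀ᶠ p in l, c₀ ≤ |s p| * w p ∧ |s p| ≤ c₁)
    (hn : 0 < n) (c c' : Fin n → ℤ) {A B : ℤ} (hA : A ≠ 0) (hB : B ≠ 0) {K η : ℝ} (hη : 0 < η)
    (hF : ∀ᶠ p in l, A * ∏ i, (u p + c i) ≠ B * ∏ i, (w p + c' i) ∧
      |((A * ∏ i, (u p + c i) - B * ∏ i, (w p + c' i) : ℤ) : ℝ)| *
        (w p : ℝ) ^ ((univ.image c).card + (univ.image c').card) * (w p : ℝ) ^ η ≤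
          K * (w p : ℝ) ^ n) : ∀ᶠ _p in l, False := by
  obtain ⟨P, ρ₁, π₁, hP, hρ₁, hPd, hd₁, h₁, eP⟩ := split_facts c A hA
  obtain ⟨R, ρ₂, π₂, hR, hρ₂, hRd, hd₂, h₂, eR⟩ := split_facts c' B hB
  have hpos := ht.eventually_ge_atTop 1
  have hr : 1 ≤ (univ.image c).card :=
    card_pos.2 ⟨c ⟨0, hn⟩, mem_image_of_mem c (mem_univ _)⟩
  obtain ⟨κ, hκ, hb⟩ := branch_bound (t := fun p => (w p : ℝ)) (k := 1) (a := 1) (s := s)
    ht one_pos one_pos (by simpa using hx) hα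
    (tendsto_const_nhds.congr' (by
      filter_upwards [hpos] with p hp
      rw [pow_one, div_self (by linarith)])) hQ hQ1 hQ0 hD (by simpa using hV₁)
    (by simpa using hV₂) (fun _ φ h1 h2 _ => hind φ h1 h2) (map_facts hP).1 (map_facts hR).1
    (N := n) (by rw [(map_facts hP).2, hPd, one_mul]) (by rw [(map_facts hR).2, hRd, one_mul])
    (ρ₁ := ρ₁.map (Int.castRingHom ℚ)) (π₁ := π₁.map (Int.castRingHom ℚ))
    (ρ₂ := ρ₂.map (Int.castRingHom ℚ)) (π₂ := π₂.map (Int.castRingHom ℚ))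
    (by rw [derivative_map, ← Polynomial.map_mul, h₁, Polynomial.map_mul])
    (by rw [derivative_map, ← Polynomial.map_mul, h₂, Polynomial.map_mul])
    (map_facts hρ₁).1 (map_facts hρ₂).1 ((map_facts hρ₁).2.trans hd₁) ((map_facts hρ₂).2.trans hd₂)
    (Eventually.of_forall fun p => by
      obtain ⟨v₁, v₂, e₁, e₂⟩ := hint p
      refine ⟨v₁ * π₁.eval (u p) * ρ₂.eval (w p) - v₂ * π₂.eval (w p) * ρ₁.eval (u p), ?_⟩
      simp only [e₁, e₂, aeval_map_int]; push_cast; ring)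
    ⟨c₀, hc₀, by
      filter_upwards [hs, hpos] with p hp hq
      refine hp.1.trans (mul_le_mul_of_nonneg_left ?_ (abs_nonneg _))
      exact le_self_pow₀ hq (by omega)⟩
  filter_upwards [hb, hF, hpos, hs, false_of_gap (K := K * c₁) ht hκ hη] with p h1 h2 h3 h4 h5
  simp only [aeval_map_int, eP, eR, one_mul] at h1
  have h6 := h1 (by exact_mod_cast h2.1)
  rw [← Int.cast_sub] at h6
  apply h5
  have h0 : (0 : ℝ) < w p := by linarith
  have h7 : (0 : ℝ) < (w p : ℝ) ^ η := Real.rpow_pos_of_pos h0 η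
  have hK : 0 ≤ K * (w p : ℝ) ^ n := le_trans (by positivity) h2.2
  refine le_of_mul_le_mul_right ?_ (pow_pos h0 n)
  calc κ * (w p : ℝ) ^ η * (w p : ℝ) ^ n = κ * (w p : ℝ) ^ n * (w p : ℝ) ^ η := by ring
    _ ≤ _ := mul_le_mul_of_nonneg_right h6 h7.le
    _ = |s p| * (|((A * ∏ i, (u p + c i) - B * ∏ i, (w p + c' i) : ℤ) : ℝ)| *
        (w p : ℝ) ^ ((univ.image c).card + (univ.image c').card) * (w p : ℝ) ^ η) := by ring
    _ ≤ c₁ * (K * (w p : ℝ) ^ n) := mul_le_mul h4.2 h2.2 (by positivity) ((abs_nonneg _).trans h4.2)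
    _ = _ := by ring

/-- Second order approximation along the sequence. -/
theorem second_order {ι : Type*} {l : Filter ι} {u w : ι → ℝ} {α : ℝ} {m : ℕ}
    (ht : Tendsto w l atTop) (hx : Tendsto (fun p => u p / w p) l (𝓝 α)) (hα : 0 < α)
    {M₁ M₂ : ℚ[X]} (hM₁ : M₁.Monic) (hd₁ : M₁.natDegree = m + 2) (h₁ : M₁.coeff (m + 1) = 0)
    (hM₂ : M₂.Monic) (hd₂ : M₂.natDegree = m + 2) (h₂ : M₂.coeff (m + 1) = 0) {A B : ℚ}
    (hA : A ≠ 0) (hAB : A * α ^ (m + 2) = B) {η : ℝ} (hη0 : 0 < η) (hη : η ≤ 1)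
    (hF : (fun p => (A * aeval (u p) M₁ - B * aeval (w p) M₂) / w p ^ m) =O[l]
      fun p => w p ^ (-η)) :
    ∃ κ : ℝ, κ ∈ IntermediateField.adjoin ℚ {α} ∧
      (fun p => w p * (u p - α * w p) - κ) =O[l] fun p => w p ^ (-η) := by
  obtain ⟨N₁, hN₁, e₁⟩ := split_top hM₁ hd₁ h₁
  obtain ⟨N₂, hN₂, e₂⟩ := split_top hM₂ hd₂ h₂
  have hA' : (A : ℝ) ≠ 0 := by exact_mod_cast hA
  set μ : ℝ → ℝ := fun v => A * ∑ i ∈ range (m + 2), v ^ i * α ^ (m + 2 - 1 - i) with hμ
  have hμα : μ α ≠ 0 := mul_ne_zero hA' (sum_pos (fun i _ => by positivity) (by simp)).ne'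
  have hμd : DifferentiableAt ℝ μ α := by rw [hμ]; fun_prop
  set G : ℝ → ℝ := fun v => (B * M₂.coeff m - A * M₁.coeff m * v ^ m) / μ v with hG
  have hGd : DifferentiableAt ℝ G α := DifferentiableAt.div (by fun_prop) hμd hμα
  have hpos := ht.eventually_ge_atTop 1
  have hone : Tendsto (fun p => w p / w p ^ 1) l (𝓝 1) := tendsto_const_nhds.congr' (by
    filter_upwards [hpos] with p hp
    rw [pow_one, div_self (by linarith)])
  have hinv : (fun p => (w p)⁻¹) =O[l] fun p => w p ^ (-η) := by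
    refine IsBigO.of_bound' ?_
    filter_upwards [hpos] with p hp
    rw [Real.norm_of_nonneg (by positivity), Real.norm_of_nonneg (by positivity),
      ← Real.rpow_neg_one]
    exact Real.rpow_le_rpow_of_exponent_le hp (by linarith)
  have hg0 : Tendsto (fun p => w p ^ (-η)) l (𝓝 0) := (tendsto_rpow_neg_atTop hη0).comp ht
  have L₁ := tendsto_aeval_div (k := 1) ht one_pos (by simpa using hx) hN₁
  have L₂ := tendsto_aeval_div (k := 1) ht one_pos hone hN₂
  rw [one_mul] at L₁ L₂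
  set e : ι → ℝ := fun p => ((A * aeval (u p) M₁ - B * aeval (w p) M₂) / w p ^ m +
    (B * (aeval (w p) N₂ / w p ^ m) - A * (aeval (u p) N₁ / w p ^ m) / (u p / w p)) * (w p)⁻¹) *
      (μ (u p / w p))⁻¹ with he
  have hμl : Tendsto (fun p => μ (u p / w p)) l (𝓝 (μ α)) := hμd.continuousAt.tendsto.comp hx
  have heO : e =O[l] fun p => w p ^ (-η) := by
    have h3 := ((L₂.const_mul (B : ℝ)).sub ((L₁.const_mul (A : ℝ)).div hx hα.ne')).isBigO_one ℝ
    have h4 := (hF.add ((h3.mul hinv).congr_right fun p => one_mul _)).mul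
      ((hμl.inv₀ hμα).isBigO_one ℝ)
    exact h4.congr_right fun p => mul_one _
  have hid : ∀ᶠ p in l, e p + G (u p / w p) = w p * (u p - α * w p) := by
    filter_upwards [hpos, hx.eventually_ne hα.ne', hμl.eventually_ne hμα] with p hp hq hr
    have hw : w p ≠ 0 := by linarith
    have hu : u p ≠ 0 := fun h => hq (by rw [h, zero_div])
    have a₁ := congrArg (aeval (u p)) e₁
    have a₂ := congrArg (aeval (w p)) e₂
    simp only [map_mul, map_add, map_pow, aeval_X, aeval_C, eq_ratCast] at a₁ a₂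
    have a₃ : μ (u p / w p) * (u p / w p - α) = A * ((u p / w p) ^ (m + 2) - α ^ (m + 2)) := by
      rw [hμ, mul_assoc, geom_sum₂_mul]
    have b₁ : aeval (u p) N₁ = u p * aeval (u p) M₁ - u p ^ (m + 3) - M₁.coeff m * u p ^ (m + 1) := by
      linear_combination -a₁
    have b₂ : aeval (w p) N₂ = w p * aeval (w p) M₂ - w p ^ (m + 3) - M₂.coeff m * w p ^ (m + 1) := by
      linear_combination -a₂
    have a₄ : w p * (u p - α * w p) = w p ^ 2 * (A * (u p / w p) ^ (m + 2) - B) *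
        (μ (u p / w p))⁻¹ := by
      rw [← hAB, ← mul_sub, ← a₃]; field_simp
    rw [a₄, he, hG]
    simp only [b₁, b₂, div_pow]
    field_simp
    ring
  have hlim : Tendsto (fun p => w p * (u p - α * w p)) l (𝓝 (0 + G α)) :=
    ((heO.trans_tendsto hg0).add (hGd.continuousAt.tendsto.comp hx)).congr' hid
  have hv : (fun p => u p / w p - α) =O[l] fun p => w p ^ (-η) := by
    have h5 := ((hlim.mul ht.inv_tendsto_atTop).isBigO_one ℝ).mul hinv
    refine h5.congr' ?_ (Eventually.of_forall fun p => one_mul _)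
    filter_upwards [hpos] with p hp
    have hw : w p ≠ 0 := by linarith
    simp only [Pi.inv_apply]
    field_simp
  refine ⟨G α, ?_, ?_⟩
  · have hm := IntermediateField.mem_adjoin_simple_self ℚ α
    have hq : ∀ q : ℚ, (q : ℝ) ∈ IntermediateField.adjoin ℚ {α} := fun q =>
      IntermediateField.algebraMap_mem _ q
    exact div_mem (sub_mem (mul_mem (hq _) (hq _)) (mul_mem (mul_mem (hq _) (hq _)) (pow_mem hm _)))
      (mul_mem (hq _) (sum_mem fun i _ => mul_mem (pow_mem hm _) (pow_mem hm _)))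
  · have h6 := heO.add ((hGd.isBigO_sub.comp_tendsto hx).trans hv)
    refine h6.congr' ?_ EventuallyEq.rfl
    filter_upwards [hid] with p hp
    rw [← hp]; simp only [Function.comp]; ring

theorem monic_facts {n : ℕ} (c : Fin n → ℤ) :
    (∏ i, (X + C (c i : ℚ))).Monic ∧ (∏ i, (X + C (c i : ℚ))).natDegree = n ∧
      (∏ i, (X + C (c i : ℚ))).nextCoeff = ((∑ i, c i : ℤ) : ℚ) ∧
      ∀ x : ℝ, aeval x (∏ i, (X + C (c i : ℚ))) = ∏ i, (x + c i) := by
  refine ⟨monic_prod_of_monic _ _ fun j _ => monic_X_add_C _, ?_, ?_, fun x => ?_⟩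
  · rw [natDegree_prod_of_monic _ _ fun j _ => monic_X_add_C _]
    simp only [natDegree_X_add_C]; simp
  · rw [Monic.nextCoeff_prod _ _ fun j _ => monic_X_add_C _]
    simp only [nextCoeff_X_add_C]; simp
  · simp [map_prod]

theorem tendsto_of_prod {ι : Type*} {l : Filter ι} {u : ι → ℝ} {n : ℕ} (c : Fin n → ℝ)
    (hu : ∀ᶠ p in l, 0 ≤ u p) (h : Tendsto (fun p => ∏ i, (u p + c i)) l atTop) :
    Tendsto u l atTop := by
  refine tendsto_atTop.2 fun b => ?_
  filter_upwards [hu, h.eventually_gt_atTop (∏ i, (|b| + |c i|))] with p hp hq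
  by_contra hb
  refine absurd ((le_abs_self _).trans ?_) (not_le.2 hq)
  rw [abs_prod]
  refine prod_le_prod (fun i _ => abs_nonneg _) fun i _ => (abs_add_le _ _).trans ?_
  rw [abs_of_nonneg hp]
  linarith [le_abs_self b]

theorem tendsto_ratio {ι : Type*} {l : Filter ι} {u t : ι → ℝ} {n k : ℕ} (hn : 0 < n) (hk : 0 < k)
    (c : Fin n → ℤ) (ht : Tendsto t l atTop) (hu : ∀ᶠ p in l, 0 ≤ u p) {β : ℝ} (hβ : 0 < β)
    (h : Tendsto (fun p => (∏ i, (u p + c i)) / t p ^ (k * n)) l (𝓝 β)) :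
    Tendsto (fun p => u p / t p ^ k) l (𝓝 (β ^ ((n : ℝ)⁻¹))) := by
  have hpos := ht.eventually_gt_atTop 0
  have h1 : Tendsto (fun p => ∏ i, (u p + c i)) l atTop := by
    refine (((tendsto_pow_atTop (Nat.mul_pos hk hn).ne').comp ht).atTop_mul_pos hβ h).congr' ?_
    filter_upwards [hpos] with p hp
    simp only [Function.comp]; field_simp
  have h2 := tendsto_of_prod (fun i => (c i : ℝ)) hu h1
  have hupos := h2.eventually_gt_atTop 0
  obtain ⟨hm, hd, -, he⟩ := monic_facts c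
  have h3 := tendsto_aeval_div (x := u) (k := 1) (ξ := 1) h2 one_pos (tendsto_const_nhds.congr' (by
    filter_upwards [hupos] with p hp
    rw [pow_one, div_self hp.ne'])) hd.le
  have h4 : (∏ i, (X + C (c i : ℚ))).coeff n = 1 := by
    have := hm.coeff_natDegree; rwa [hd] at this
  simp only [he, h4, Rat.cast_one, one_pow, one_mul] at h3
  have h5 := (h.div h3 one_ne_zero).rpow_const (p := (n : ℝ)⁻¹) (Or.inl (by rw [div_one]; exact hβ.ne'))
  rw [div_one] at h5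
  refine h5.congr' ?_
  filter_upwards [hpos, hupos, h1.eventually_gt_atTop 0] with p hp hq hr
  have : (∏ i, (u p + c i)) / t p ^ (k * n) / ((∏ i, (u p + c i)) / u p ^ n) =
      (u p / t p ^ k) ^ n := by
    rw [div_pow, ← pow_mul]; field_simp
  simp only [Pi.div_apply]
  rw [this, Real.pow_rpow_inv_natCast (by positivity) hn.ne']

theorem line_case {ι : Type*} {l : Filter ι} {u w : ι → ℤ} {α : ℚ} {n : ℕ}
    (ht : Tendsto (fun p => (w p : ℝ)) l atTop)
    (hx : Tendsto (fun p => (u p : ℝ) / w p) l (𝓝 α)) (hα : (α : ℝ) ≠ 0)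
    (hδ : Tendsto (fun p => (u p : ℝ) - α * w p) l (𝓝 0))
    (hn : 0 < n) (c c' : Fin n → ℤ) {A B : ℤ} (hA : A ≠ 0) (hB : B ≠ 0) {K η : ℝ} (hη : 0 < η)
    (hF : ∀ᶠ p in l, A * ∏ i, (u p + c i) ≠ B * ∏ i, (w p + c' i) ∧
      |((A * ∏ i, (u p + c i) - B * ∏ i, (w p + c' i) : ℤ) : ℝ)| *
        (w p : ℝ) ^ ((univ.image c).card + (univ.image c').card) * (w p : ℝ) ^ η ≤
          K * (w p : ℝ) ^ n) : ∀ᶠ _p in l, False := by
  have hpos := ht.eventually_ge_atTop 1
  have hden : (0 : ℝ) < α.den := by exact_mod_cast α.den_pos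
  have hnum : (α.num : ℝ) = α * α.den := by exact_mod_cast (Rat.mul_den_eq_num α).symm
  refine split_branch (s := fun p => α.den / w p) (Q := X - C (C α * X)) (V₁ := C (C (α.num : ℚ)))
    (V₂ := C (C (α.den : ℚ))) ht hx hα (monic_X_sub_C _) ?_ ?_ ?_ ?_ ?_ ?_ ?_ (c₁ := α.den) hden ?_
    hn c c' hA hB hη hF
  · intro h
    have := congrArg natDegree h
    rw [natDegree_X_sub_C, natDegree_one] at this
    exact one_ne_zero this
  · have h1 := (hδ.const_mul (α.den : ℝ)).abs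
    rw [mul_zero, abs_zero] at h1
    filter_upwards [h1.eventually (gt_mem_nhds one_pos)] with p hp
    have h2 : (α.den : ℝ) * (u p - α * w p) = ((α.den * u p - α.num * w p : ℤ) : ℝ) := by
      push_cast; rw [hnum]; ring
    rw [h2, ← Int.cast_abs] at hp
    have h3 : α.den * u p - α.num * w p = 0 := Int.abs_lt_one_iff.1 (by exact_mod_cast hp)
    rw [h3, Int.cast_zero, mul_eq_zero] at h2
    simpa [ev_X, ev_C] using h2.resolve_left hden.ne'
  · rw [dz_sub, dz_X, dz_C, derivative_sub, derivative_X, derivative_C, derivative_C_mul,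
      derivative_X, ← Rat.mul_den_eq_num]
    simp only [map_mul, map_one]; ring
  · have h1 := (hx.inv₀ hα).const_mul (α : ℝ)
    rw [mul_inv_cancel₀ hα] at h1
    refine h1.congr fun p => ?_
    simp only [ev_C, aeval_C, eq_ratCast, Rat.cast_intCast, hnum]
    field_simp
  · refine tendsto_const_nhds.congr' ?_
    filter_upwards [hpos] with p hp
    have : (w p : ℝ) ≠ 0 := by linarith
    simp only [ev_C, aeval_C, eq_ratCast, Rat.cast_natCast]
    field_simp
  · intro φ h1 h2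
    rw [natDegree_X_sub_C, Nat.lt_one_iff] at h2
    rw [eq_C_of_natDegree_eq_zero h2] at h1 ⊢
    simpa using h1
  · intro p
    exact ⟨α.num, α.den, by simp, by simp⟩
  · filter_upwards [hpos] with p hp
    have h0 : (0 : ℝ) < w p := by linarith
    rw [abs_of_pos (by positivity)]
    exact ⟨le_of_eq (by field_simp), div_le_self hden.le hp⟩

theorem lin_ne_zero {α : ℝ} (hα : Irrational α) {a b : ℚ} (h : a * α + b = 0) : a = 0 ∧ b = 0 := by
  have ha : a = 0 := by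
    by_contra ha
    have ha' : (a : ℝ) ≠ 0 := by exact_mod_cast ha
    exact hα ⟨-b / a, by push_cast; field_simp; linarith⟩
  rw [ha] at h
  exact ⟨ha, by simpa using h⟩

theorem conic_case {ι : Type*} {l : Filter ι} {u w : ι → ℤ} {α : ℝ} {n : ℕ}
    (ht : Tendsto (fun p => (w p : ℝ)) l atTop)
    (hx : Tendsto (fun p => (u p : ℝ) / w p) l (𝓝 α)) (hα : Irrational α) {ψ : Fin 4 → ℤ}
    (hψ : ψ ≠ 0) (hQ : ∀ᶠ p in l, ψ 0 * u p ^ 2 + ψ 1 * (u p * w p) + ψ 2 * w p ^ 2 + ψ 3 = 0)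
    (hn : 0 < n) (c c' : Fin n → ℤ) {A B : ℤ} (hA : A ≠ 0) (hB : B ≠ 0) {K η : ℝ} (hη : 0 < η)
    (hF : ∀ᶠ p in l, A * ∏ i, (u p + c i) ≠ B * ∏ i, (w p + c' i) ∧
      |((A * ∏ i, (u p + c i) - B * ∏ i, (w p + c' i) : ℤ) : ℝ)| *
        (w p : ℝ) ^ ((univ.image c).card + (univ.image c').card) * (w p : ℝ) ^ η ≤
          K * (w p : ℝ) ^ n) : ∀ᶠ _p in l, False := by
  rcases l.eq_or_neBot with hl | hl
  · rw [hl]; exact eventually_bot
  have hpos := ht.eventually_ge_atTop 1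
  have hQ' : ∀ᶠ p in l, (ψ 0 : ℝ) * u p ^ 2 + ψ 1 * (u p * w p) + ψ 2 * w p ^ 2 + ψ 3 = 0 := by
    filter_upwards [hQ] with p hp
    exact_mod_cast hp
  have hrel : (ψ 0 : ℝ) * α ^ 2 + ψ 1 * α + ψ 2 = 0 := by
    have h1 := ((((hx.pow 2).const_mul (ψ 0 : ℝ)).add (hx.const_mul (ψ 1 : ℝ))).add_const
      (ψ 2 : ℝ)).add ((ht.inv_tendsto_atTop.pow 2).const_mul (ψ 3 : ℝ))
    have h2 := tendsto_nhds_unique h1 (tendsto_const_nhds.congr' (f₁ := fun _ => (0 : ℝ)) (by
      filter_upwards [hQ', hpos] with p hp hq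
      have : (w p : ℝ) ≠ 0 := by linarith
      simp only [Pi.inv_apply]
      field_simp
      linear_combination -hp))
    simpa using h2
  have h0 : ψ 0 ≠ 0 := by
    intro h0
    have h1 := lin_ne_zero hα (a := ψ 1) (b := ψ 2) (by simpa [h0] using hrel)
    have h2 : ψ 1 = 0 := by exact_mod_cast h1.1
    have h3 : ψ 2 = 0 := by exact_mod_cast h1.2
    obtain ⟨p, hp⟩ := hQ.exists
    apply hψ
    ext i
    fin_cases i
    · exact h0
    · exact h2
    · exact h3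
    · simpa [h0, h2, h3] using hp
  have h0' : (ψ 0 : ℝ) ≠ 0 := by exact_mod_cast h0
  have hlam : 2 * (ψ 0 : ℝ) * α + ψ 1 ≠ 0 := by
    intro h
    have h1 := (lin_ne_zero hα (a := 2 * ψ 0) (b := ψ 1) (by simpa using h)).1
    exact h0 (by exact_mod_cast (mul_eq_zero.1 h1).resolve_left two_ne_zero)
  set Q : ℚ[X][X] := X ^ 2 + (C (C ((ψ 1 : ℚ) / ψ 0) * X) * X +
    C (C ((ψ 2 : ℚ) / ψ 0) * X ^ 2 + C ((ψ 3 : ℚ) / ψ 0))) with hQdef
  have hlt : (C (C ((ψ 1 : ℚ) / ψ 0) * X) * X +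
      C (C ((ψ 2 : ℚ) / ψ 0) * X ^ 2 + C ((ψ 3 : ℚ) / ψ 0)) : ℚ[X][X]).degree < (2 : ℕ) :=
    degree_linear_le.trans_lt (by norm_num)
  have hQm : Q.Monic := monic_X_pow_add hlt
  have hQd : Q.natDegree = 2 := by
    rw [hQdef, natDegree_add_eq_left_of_degree_lt (by rwa [degree_X_pow]), natDegree_X_pow]
  have e1 : ∀ x z : ℝ, ev x z (C (C (ψ 0 : ℚ)) * dz Q) = ψ 1 * x + 2 * ψ 2 * z := by
    intro x z
    rw [hQdef, sq, sq]
    simp only [dz_add, dz_mul, dz_X, dz_C, map_mul, map_add, ev_C, ev_X,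
      derivative_C, derivative_X, map_zero, aeval_C, aeval_X, map_one, eq_ratCast]
    push_cast
    field_simp
    ring
  have e2 : ∀ x z : ℝ, ev x z (-(C (C (ψ 0 : ℚ)) * derivative Q)) = -(2 * ψ 0 * x + ψ 1 * z) := by
    intro x z
    rw [hQdef, sq]
    simp only [map_neg, map_mul, map_add, ev_C, ev_X, derivative_mul,
      derivative_C, derivative_X, map_zero, aeval_C, aeval_X, map_one, eq_ratCast]
    push_cast
    field_simp
    ring
  refine split_branch (s := fun _ => -(2 * (ψ 0 : ℝ) * α + ψ 1)) (Q := Q)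
    (V₁ := C (C (ψ 0 : ℚ)) * dz Q) (V₂ := -(C (C (ψ 0 : ℚ)) * derivative Q)) ht hx hα.ne_zero
    hQm ?_ ?_ (by ring) ?_ ?_ ?_ ?_ (c₁ := |2 * (ψ 0 : ℝ) * α + ψ 1|) (abs_pos.2 hlam) ?_
    hn c c' hA hB hη hF
  · intro h; rw [h, natDegree_one] at hQd; omega
  · filter_upwards [hQ'] with p hp
    simp only [hQdef, map_mul, map_add, ev_C, ev_X, aeval_C, aeval_X, map_pow, eq_ratCast]
    push_cast
    field_simp
    linear_combination hp
  · have h1 := (((hx.inv₀ hα.ne_zero).const_mul (2 * (ψ 2 : ℝ))).const_add (ψ 1 : ℝ)).div_const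
      (-(2 * (ψ 0 : ℝ) * α + ψ 1))
    have h2 : (ψ 1 + 2 * (ψ 2 : ℝ) * α⁻¹) / -(2 * (ψ 0 : ℝ) * α + ψ 1) = 1 := by
      have := hα.ne_zero
      rw [div_eq_one_iff_eq (neg_ne_zero.2 hlam)]
      field_simp
      linear_combination 2 * hrel
    rw [h2] at h1
    refine h1.congr' ?_
    filter_upwards [hx.eventually_ne hα.ne_zero] with p hp
    have hu : (u p : ℝ) ≠ 0 := fun h => hp (by rw [h, zero_div])
    rw [e1]
    field_simp
  · have h1 := ((hx.const_mul (2 * (ψ 0 : ℝ))).add_const (ψ 1 : ℝ)).div_const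
      (2 * (ψ 0 : ℝ) * α + ψ 1)
    rw [div_self hlam] at h1
    refine h1.congr' ?_
    filter_upwards [hpos] with p hp
    have : (w p : ℝ) ≠ 0 := by linarith
    rw [e2]
    field_simp
  · intro φ h1 h2 h3
    rw [hQd] at h2
    rw [eq_X_add_C_of_natDegree_le_one (Nat.lt_succ_iff.1 h2)] at h1 h3
    obtain ⟨h4, h5⟩ := lin_ne_zero hα (a := φ.coeff 1) (b := φ.coeff 0) (by simpa using h3)
    exact h1 (by rw [h4, h5]; simp)
  · intro p
    exact ⟨ψ 1 * u p + 2 * ψ 2 * w p, -(2 * ψ 0 * u p + ψ 1 * w p), by rw [e1]; push_cast; rfl,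
      by rw [e2]; push_cast; rfl⟩
  · filter_upwards [hpos] with p hp
    rw [abs_neg]
    exact ⟨le_mul_of_one_le_right (abs_nonneg _) hp, le_rfl⟩

theorem equal_core {ι : Type*} {l : Filter ι} {u w : ι → ℤ} {n : ℕ}
    (ht : Tendsto (fun p => (w p : ℝ)) l atTop) (hu : ∀ᶠ p in l, 0 ≤ u p)
    (hn : 0 < n) (c c' : Fin n → ℤ) (hc : ∑ i, c i = 0) (hc' : ∑ i, c' i = 0) {A B : ℤ}
    (hA : 0 < A) (hB : 0 < B) {K η : ℝ} (hη : 0 < η) (hη1 : η ≤ 1)
    (hF : ∀ᶠ p in l, A * ∏ i, (u p + c i) ≠ B * ∏ i, (w p + c' i) ∧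
      |((A * ∏ i, (u p + c i) - B * ∏ i, (w p + c' i) : ℤ) : ℝ)| *
        (w p : ℝ) ^ ((univ.image c).card + (univ.image c').card) * (w p : ℝ) ^ η ≤
          K * (w p : ℝ) ^ n) : ∀ᶠ _p in l, False := by
  have hpos := ht.eventually_ge_atTop 1
  have hr : 1 ≤ (univ.image c).card := card_pos.2 ⟨c ⟨0, hn⟩, mem_image_of_mem c (mem_univ _)⟩
  have hr' : 1 ≤ (univ.image c').card := card_pos.2 ⟨c' ⟨0, hn⟩, mem_image_of_mem c' (mem_univ _)⟩
  have hF2 : ∀ᶠ p in l, |((A * ∏ i, (u p + c i) - B * ∏ i, (w p + c' i) : ℤ) : ℝ)| *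
      (w p : ℝ) ^ 2 * (w p : ℝ) ^ η ≤ K * (w p : ℝ) ^ n := by
    filter_upwards [hF, hpos] with p hp hq
    refine le_trans (mul_le_mul_of_nonneg_right (mul_le_mul_of_nonneg_left
      (pow_le_pow_right₀ hq (by omega)) (abs_nonneg _)) (by positivity)) hp.2
  by_cases hn1 : n = 1
  · filter_upwards [hF, hF2, hpos, false_of_gap (K := K) ht one_pos hη] with p h1 h2 h3 h4
    have h5 : (1 : ℝ) ≤ |((A * ∏ i, (u p + c i) - B * ∏ i, (w p + c' i) : ℤ) : ℝ)| := by
      exact_mod_cast Int.one_le_abs (sub_ne_zero.2 h1.1)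
    apply h4
    have h6 : (0 : ℝ) < w p := by linarith
    refine le_of_mul_le_mul_right (le_trans ?_ h2) (pow_pos h6 n)
    rw [mul_right_comm]
    exact mul_le_mul_of_nonneg_right (mul_le_mul h5 (pow_le_pow_right₀ h3 (by omega))
      (by positivity) (abs_nonneg _)) (by positivity)
  obtain ⟨m, rfl⟩ : ∃ m, n = m + 2 := ⟨n - 2, by omega⟩
  obtain ⟨hM₁, hd₁, hx₁, e₁⟩ := monic_facts c
  obtain ⟨hM₂, hd₂, hx₂, e₂⟩ := monic_facts c'
  rw [nextCoeff_of_natDegree_pos (by omega), hc, hd₁] at hx₁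
  rw [nextCoeff_of_natDegree_pos (by omega), hc', hd₂] at hx₂
  have hA' : (0 : ℝ) < A := by exact_mod_cast hA
  have hB' : (0 : ℝ) < B := by exact_mod_cast hB
  have hO : (fun p => (((A : ℚ) : ℝ) * aeval (u p : ℝ) (∏ i, (X + C (c i : ℚ))) -
      ((B : ℚ) : ℝ) * aeval (w p : ℝ) (∏ i, (X + C (c' i : ℚ)))) / (w p : ℝ) ^ m) =O[l]
      fun p => (w p : ℝ) ^ (-η) := by
    refine IsBigO.of_bound K ?_
    filter_upwards [hF2, hpos] with p hp hq
    have h6 : (0 : ℝ) < w p := by linarith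
    have h7 := Real.rpow_pos_of_pos h6 η
    push_cast at hp
    rw [e₁, e₂, Real.rpow_neg h6.le, Real.norm_eq_abs, Real.norm_eq_abs, abs_div,
      abs_of_pos (pow_pos h6 m), abs_of_pos (inv_pos.2 h7), ← div_eq_mul_inv,
      div_le_div_iff₀ (pow_pos h6 m) h7]
    push_cast
    refine le_of_mul_le_mul_right ?_ (pow_pos h6 2)
    rw [mul_right_comm, mul_assoc K, ← pow_add]
    exact hp
  have hg0 : Tendsto (fun p => (w p : ℝ) ^ (-η)) l (𝓝 0) := (tendsto_rpow_neg_atTop hη).comp ht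
  have hone : Tendsto (fun p => (w p : ℝ) / w p ^ 1) l (𝓝 1) := tendsto_const_nhds.congr' (by
    filter_upwards [hpos] with p hp
    rw [pow_one, div_self (by linarith)])
  have hx : Tendsto (fun p => (u p : ℝ) / w p) l (𝓝 (((B : ℝ) / A) ^ (((m + 2 : ℕ) : ℝ)⁻¹))) := by
    have h1 := tendsto_aeval_div (k := 1) ht one_pos hone hd₂.le
    have h2 : (∏ i, (X + C (c' i : ℚ))).coeff (m + 2) = 1 := by
      have := hM₂.coeff_natDegree; rwa [hd₂] at this
    have h3 := (((hO.trans_tendsto hg0).mul (ht.inv_tendsto_atTop.pow 2)).add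
      (h1.const_mul (B : ℝ))).div_const (A : ℝ)
    simp only [h2, Rat.cast_one, one_pow, mul_one, zero_mul, zero_add] at h3
    have h4 := tendsto_ratio (k := 1) (u := fun p => (u p : ℝ)) hn one_pos c ht
      (by filter_upwards [hu] with p hp; exact_mod_cast hp) (div_pos hB' hA') (h3.congr' (by
        filter_upwards [hpos] with p hp
        have h6 : (w p : ℝ) ≠ 0 := by linarith
        rw [e₁, e₂]
        simp only [Pi.inv_apply, Rat.cast_intCast, one_mul]
        field_simp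
        ring))
    simpa only [pow_one] using h4
  set α : ℝ := ((B : ℝ) / A) ^ (((m + 2 : ℕ) : ℝ)⁻¹) with hαdef
  have hα : 0 < α := Real.rpow_pos_of_pos (div_pos hB' hA') _
  have hαn : α ^ (m + 2) = B / A := Real.rpow_inv_natCast_pow (div_pos hB' hA').le (by omega)
  obtain ⟨κ, hκ, hκO⟩ := second_order ht hx hα hM₁ hd₁ (by simpa using hx₁) hM₂ hd₂
    (by simpa using hx₂) (A := A) (B := B) (by exact_mod_cast hA.ne')
    (by rw [hαn]; push_cast; field_simp) hη hη1 hO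
  have hlim : Tendsto (fun p => (w p : ℝ) * (u p - α * w p)) l (𝓝 (0 + κ)) :=
    ((hκO.trans_tendsto hg0).add_const κ).congr fun p => by ring
  by_cases hirr : Irrational α
  swap
  · obtain ⟨q, hq⟩ : ∃ q : ℚ, (q : ℝ) = α := by simpa [Irrational] using hirr
    rw [← hq] at hx hα hlim
    refine line_case ht hx hα.ne' ?_ hn c c' hA.ne' hB.ne' hη hF
    have h1 := hlim.mul ht.inv_tendsto_atTop
    rw [mul_zero] at h1
    refine h1.congr' ?_
    filter_upwards [hpos] with p hp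
    have h6 : (w p : ℝ) ≠ 0 := by linarith
    simp only [Pi.inv_apply]
    field_simp
  have halg : IsAlgebraic ℚ α := by
    refine IsAlgebraic.of_pow (n := m + 2) (by omega) ?_
    rw [hαn]
    have := isAlgebraic_algebraMap (R := ℚ) (A := ℝ) ((B : ℚ) / A)
    simpa using this
  have hK : ∀ y ∈ IntermediateField.adjoin ℚ {α}, IsAlgebraic ℚ y := fun y hy =>
    mem_algebraicClosure_iff.1 (IntermediateField.adjoin_le_iff.2
      (Set.singleton_subset_iff.2 (mem_algebraicClosure_iff.2 halg)) hy)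
  have hm := IntermediateField.mem_adjoin_simple_self ℚ α
  obtain ⟨Ψ, hΨ0, hΨ⟩ := Pool.Agent.Subspace.subspace 2 le_rfl
    (!![1, -(2 * α), α ^ 2, 0; 0, 1, -α, -κ; 0, 0, 1, 0; 0, 0, 0, 1] : Matrix (Fin 4) (Fin 4) ℝ)
    (by
      intro i j
      fin_cases i <;> fin_cases j <;> refine hK _ ?_ <;>
        first
        | exact zero_mem _
        | exact one_mem _
        | exact neg_mem hm
        | exact neg_mem hκ
        | exact pow_mem hm 2
        | exact neg_mem (mul_mem (ofNat_mem _ 2) hm))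
    (by
      rw [Matrix.det_of_isUpperTriangular]
      · simp [Fin.prod_univ_four]
      · intro i j hij
        fin_cases i <;> fin_cases j <;> first | rfl | exact absurd hij (by decide))
    (half_pos (half_pos hη))
  have hsmall : Tendsto (fun p => ((w p : ℝ) * (u p - α * w p)) ^ 2 *
      (|(w p : ℝ) * (u p - α * w p) - κ| * (w p : ℝ) ^ (η / 2)) * ((α + 1) ^ 2) ^ (η / 2 / 2)) l
      (𝓝 ((0 + κ) ^ 2 * 0 * ((α + 1) ^ 2) ^ (η / 2 / 2))) := by
    refine ((hlim.pow 2).mul ?_).mul_const _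
    refine ((hκO.abs_left.mul (isBigO_refl (fun p => (w p : ℝ) ^ (η / 2)) l)).trans_tendsto ?_)
    refine ((tendsto_rpow_neg_atTop (half_pos hη)).comp ht).congr' ?_
    filter_upwards [hpos] with p hp
    simp only [Function.comp]
    rw [← Real.rpow_add (by linarith)]
    congr 1; ring
  rw [mul_zero, zero_mul] at hsmall
  have hall : ∀ᶠ p in l, ∀ ψ ∈ Ψ,
      ¬ ψ 0 * u p ^ 2 + ψ 1 * (u p * w p) + ψ 2 * w p ^ 2 + ψ 3 = 0 := by
    refine (eventually_all_finset Ψ).2 fun ψ hψ => ?_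
    refine eventually_inf_principal.1 (conic_case (l := l ⊓ 𝓟 {p | ψ 0 * u p ^ 2 +
      ψ 1 * (u p * w p) + ψ 2 * w p ^ 2 + ψ 3 = 0}) (ht.mono_left inf_le_left)
      (hx.mono_left inf_le_left) hirr (hΨ0 ψ hψ)
      (eventually_inf_principal.2 (Eventually.of_forall fun p hp => hp)) hn c c' hA.ne' hB.ne' hη
      (hF.filter_mono inf_le_left))
  filter_upwards [hall, hpos, hu, hsmall.eventually (gt_mem_nhds one_pos),
    hx.eventually (gt_mem_nhds (lt_add_one α))] with p h1 h2 h3 h4 h5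
  have h6 : (0 : ℝ) < w p := by linarith
  have h7 : (0 : ℝ) ≤ u p := by exact_mod_cast h3
  rw [div_lt_iff₀ h6] at h5
  have h8 : (w p : ℝ) ≤ (α + 1) * w p := le_mul_of_one_le_left h6.le (by linarith)
  obtain ⟨ψ, hψ, h9⟩ := hΨ ![u p ^ 2, u p * w p, w p ^ 2, 1] 0 ((α + 1) ^ 2 * (w p : ℝ) ^ 2)
    (by
      intro i
      rw [← mul_pow, sq]
      fin_cases i
      · simpa [sq, abs_of_nonneg h7] using mul_le_mul h5.le h5.le h7 (by positivity)
      · simpa [sq, abs_of_nonneg h7, abs_of_pos h6] using mul_le_mul h5.le h8 h6.le (by positivity)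
      · simpa [sq, abs_of_pos h6] using mul_le_mul h8 h8 h6.le (by positivity)
      · refine le_trans (le_of_eq ?_) (one_le_pow₀ (h2.trans h8))
        simp)
    (by intro i; simp)
    (by
      refine le_trans (le_of_eq ?_) (h4.le.trans (by simp))
      rw [Real.mul_rpow (by positivity) (by positivity), ← Real.rpow_natCast (w p : ℝ) 2,
        ← Real.rpow_mul h6.le, show ((2 : ℕ) : ℝ) * (η / 2 / 2) = η / 2 by push_cast; ring]
      simp only [Fin.prod_univ_four, Fin.sum_univ_four]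
      simp
      rw [show (u p : ℝ) ^ 2 + -(2 * α * (u p * w p)) + α ^ 2 * w p ^ 2 = (u p - α * w p) ^ 2 by ring,
        show (u p : ℝ) * w p + -(α * w p ^ 2) + -κ = w p * (u p - α * w p) - κ by ring,
        abs_of_nonneg (sq_nonneg _)]
      ring)
  exact h1 ψ hψ (by simpa [Fin.sum_univ_four] using h9)

end Pool.Agent.Lib.MP_4ffbf9_nt
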