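import Mathlib

-- part Pool.Agent.Lib.MP_4ffbf9_nt.Norm
section

/-!
The sum of the absolute values of the coefficients of an integer polynomial.
-/

set_option autoImplicit false

namespace Pool.Agent.Lib.MP_4ffbf9_nt

open Polynomial Finset

/-- Sum of the absolute values of the coefficients. -/
noncomputable def nrm (p : ℤ[X]) : ℤ := ∑ i ∈ p.support, |p.coeff i|

theorem nrm_nonneg (p : ℤ[X]) : 0 ≤ nrm p := sum_nonneg fun _ _ => abs_nonneg _

theorem nrm_eq_of_subset (p : ℤ[X]) {s : Finset ℕ} (h : p.support ⊆ s) :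
    nrm p = ∑ i ∈ s, |p.coeff i| := by
  unfold nrm
  refine sum_subset h fun i _ hi => ?_
  rw [notMem_support_iff.1 hi, abs_zero]

theorem nrm_eq_range (p : ℤ[X]) {n : ℕ} (h : p.natDegree ≤ n) :
    nrm p = ∑ i ∈ range (n + 1), |p.coeff i| :=
  nrm_eq_of_subset p fun i hi =>
    mem_range.2 (Nat.lt_succ_of_le ((le_natDegree_of_mem_supp i hi).trans h))

theorem abs_coeff_le_nrm (p : ℤ[X]) (i : ℕ) : |p.coeff i| ≤ nrm p := by
  by_cases hi : i ∈ p.support
  · exact single_le_sum (f := fun i => |p.coeff i|) (fun _ _ => abs_nonneg _) hi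
  · rw [notMem_support_iff.1 hi, abs_zero]; exact nrm_nonneg p

@[simp] theorem nrm_zero : nrm 0 = 0 := by simp [nrm]

theorem nrm_add_le (p q : ℤ[X]) : nrm (p + q) ≤ nrm p + nrm q := by
  rw [nrm_eq_of_subset (p + q) (s := p.support ∪ q.support) support_add,
    nrm_eq_of_subset p (s := p.support ∪ q.support) subset_union_left,
    nrm_eq_of_subset q (s := p.support ∪ q.support) subset_union_right, ← sum_add_distrib]
  refine sum_le_sum fun i _ => ?_
  rw [coeff_add]; exact abs_add_le _ _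

@[simp] theorem nrm_neg (p : ℤ[X]) : nrm (-p) = nrm p := by simp [nrm]

theorem nrm_sub_le (p q : ℤ[X]) : nrm (p - q) ≤ nrm p + nrm q := by
  rw [sub_eq_add_neg, ← nrm_neg q]; exact nrm_add_le _ _

theorem nrm_sum_le {ι : Type*} (s : Finset ι) (f : ι → ℤ[X]) :
    nrm (∑ i ∈ s, f i) ≤ ∑ i ∈ s, nrm (f i) := by
  classical
  induction s using Finset.induction_on with
  | empty => simp
  | insert a s ha ih =>
    rw [sum_insert ha, sum_insert ha]
    exact (nrm_add_le _ _).trans (by linarith)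

theorem nrm_monomial (n : ℕ) (a : ℤ) : nrm (monomial n a) = |a| := by
  rw [nrm_eq_of_subset _ (support_monomial_subset n a)]; simp

@[simp] theorem nrm_C (a : ℤ) : nrm (C a) = |a| := by
  rw [← monomial_zero_left, nrm_monomial]

@[simp] theorem nrm_one : nrm 1 = 1 := by rw [← C_1, nrm_C, abs_one]

@[simp] theorem nrm_X : nrm X = 1 := by rw [← monomial_one_one_eq_X, nrm_monomial, abs_one]

theorem nrm_mul_le (p q : ℤ[X]) : nrm (p * q) ≤ nrm p * nrm q := by
  rw [mul_eq_sum_sum]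
  refine (nrm_sum_le _ _).trans ?_
  conv_rhs => rw [nrm, nrm, sum_mul_sum]
  refine sum_le_sum fun i _ => ?_
  rw [Polynomial.sum]
  refine (nrm_sum_le _ _).trans (sum_le_sum fun j _ => ?_)
  rw [nrm_monomial, abs_mul]

theorem nrm_pow_le (p : ℤ[X]) (n : ℕ) : nrm (p ^ n) ≤ nrm p ^ n := by
  induction n with
  | zero => simp
  | succ n ih =>
    rw [pow_succ, pow_succ]
    exact (nrm_mul_le _ _).trans (mul_le_mul_of_nonneg_right ih (nrm_nonneg _))

theorem nrm_prod_le {ι : Type*} (s : Finset ι) (f : ι → ℤ[X]) :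
    nrm (∏ i ∈ s, f i) ≤ ∏ i ∈ s, nrm (f i) := by
  classical
  induction s using Finset.induction_on with
  | empty => simp
  | insert a s ha ih =>
    rw [prod_insert ha, prod_insert ha]
    exact (nrm_mul_le _ _).trans (mul_le_mul_of_nonneg_left ih (nrm_nonneg _))

theorem nrm_le_of_coeff (p : ℤ[X]) {n : ℕ} (h : p.natDegree ≤ n) {B : ℤ}
    (hB : ∀ i, |p.coeff i| ≤ B) : nrm p ≤ (n + 1) * B := by
  rw [nrm_eq_range p h]
  calc ∑ i ∈ range (n + 1), |p.coeff i| ≤ ∑ _i ∈ range (n + 1), B := sum_le_sum fun i _ => hB i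
    _ = (n + 1) * B := by simp

theorem nrm_derivative_le (p : ℤ[X]) {n : ℕ} (h : p.natDegree ≤ n) :
    nrm (derivative p) ≤ n * nrm p := by
  rw [derivative_apply, Polynomial.sum]
  refine (nrm_sum_le _ _).trans ?_
  conv_rhs => rw [nrm, mul_sum]
  refine sum_le_sum fun i hi => ?_
  rw [C_mul_X_pow_eq_monomial, nrm_monomial, abs_mul, mul_comm]
  refine mul_le_mul_of_nonneg_right ?_ (abs_nonneg _)
  rw [Nat.abs_cast]
  exact_mod_cast (le_natDegree_of_mem_supp i hi).trans h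

theorem abs_eval_le (p : ℤ[X]) {n : ℕ} (h : p.natDegree ≤ n) {t R : ℤ} (ht : |t| ≤ R)
    (hR : 1 ≤ R) : |p.eval t| ≤ nrm p * R ^ n := by
  rw [eval_eq_sum_range' (Nat.lt_succ_of_le h), nrm_eq_range p h, sum_mul]
  refine (abs_sum_le_sum_abs _ _).trans (sum_le_sum fun i hi => ?_)
  rw [abs_mul, abs_pow]
  refine mul_le_mul_of_nonneg_left ?_ (abs_nonneg _)
  exact (pow_le_pow_left₀ (abs_nonneg _) ht i).trans
    (pow_le_pow_right₀ hR (Nat.lt_succ_iff.1 (mem_range.1 hi)))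

theorem nrm_wronskian_le (p q : ℤ[X]) {n : ℕ} (hp : p.natDegree ≤ n) (hq : q.natDegree ≤ n) :
    nrm (wronskian p q) ≤ 2 * n * (nrm p * nrm q) := by
  unfold wronskian
  refine (nrm_sub_le _ _).trans ?_
  have h1 := (nrm_mul_le p (derivative q)).trans
    (mul_le_mul_of_nonneg_left (nrm_derivative_le q hq) (nrm_nonneg p))
  have h2 := (nrm_mul_le (derivative p) q).trans
    (mul_le_mul_of_nonneg_right (nrm_derivative_le p hp) (nrm_nonneg q))
  nlinarith

/-- Lower bound for the value of a polynomial at a large integer. -/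
theorem pow_le_two_mul_abs_eval (p : ℤ[X]) (hp : p ≠ 0) {t : ℤ} (ht : 2 * nrm p ≤ t) :
    t ^ p.natDegree ≤ 2 * |p.eval t| := by
  have hlc : 1 ≤ |p.leadingCoeff| := Int.one_le_abs (leadingCoeff_ne_zero.2 hp)
  have hn : 1 ≤ nrm p := hlc.trans (abs_coeff_le_nrm p _)
  have ht1 : 1 ≤ t := by linarith
  rcases Nat.eq_zero_or_pos p.natDegree with h0 | h0
  · rw [h0, pow_zero]
    have : p.eval t = p.leadingCoeff := by
      conv_lhs => rw [eq_C_of_natDegree_eq_zero h0, eval_C]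
      rw [leadingCoeff, h0]
    rw [this]; linarith
  · obtain ⟨d, hd⟩ : ∃ d, p.natDegree = d + 1 := ⟨p.natDegree - 1, by omega⟩
    have he : p.eval t = (eraseLead p).eval t + p.leadingCoeff * t ^ p.natDegree := by
      conv_lhs => rw [← eraseLead_add_C_mul_X_pow p]
      simp
    have hdeg : (eraseLead p).natDegree ≤ d := by
      have := eraseLead_natDegree_le p
      omega
    have hn2 : nrm (eraseLead p) ≤ nrm p := by
      rw [nrm_eq_of_subset _ (s := p.support) (by rw [eraseLead_support]; exact erase_subset _ _)]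
      refine sum_le_sum fun i _ => ?_
      rw [eraseLead_coeff]
      split_ifs
      · simp
      · exact le_rfl
    have h1 : |(eraseLead p).eval t| ≤ nrm p * t ^ d :=
      (abs_eval_le _ hdeg (by rw [abs_of_pos (by linarith)]) ht1).trans
        (mul_le_mul_of_nonneg_right hn2 (by positivity))
    have h2 : t ^ p.natDegree ≤ |p.leadingCoeff * t ^ p.natDegree| := by
      rw [abs_mul, abs_of_pos (show 0 < t ^ p.natDegree by positivity)]
      exact le_mul_of_one_le_left (by positivity) hlc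
    have h3 : |p.leadingCoeff * t ^ p.natDegree| ≤ |p.eval t| + |(eraseLead p).eval t| := by
      have : p.leadingCoeff * t ^ p.natDegree = p.eval t - (eraseLead p).eval t := by
        rw [he]; ring
      rw [this]; exact abs_sub _ _
    have h4 : 2 * (nrm p * t ^ d) ≤ t ^ p.natDegree := by
      rw [hd, pow_succ]
      have : 0 ≤ t ^ d := by positivity
      nlinarith
    linarith

end Pool.Agent.Lib.MP_4ffbf9_nt
end

-- part Pool.Agent.Lib.MP_4ffbf9_nt.Hsub
section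

/-!
Homogeneous substitution at a rational point, multiplicity bound, Wronskian lemmas.
-/

set_option autoImplicit false

namespace Pool.Agent.Lib.MP_4ffbf9_nt

open Polynomial Finset

/-- `u ^ e * p ((t + r X) / u)` as an integer polynomial, for `natDegree p ≤ e`. -/
noncomputable def hsub (t u r : ℤ) (e : ℕ) (p : ℤ[X]) : ℤ[X] :=
  ∑ i ∈ range (e + 1), C (p.coeff i * u ^ (e - i)) * (C t + C r * X) ^ i

theorem hsub_map {t u r : ℤ} (hu : u ≠ 0) {e : ℕ} {p : ℤ[X]} (hp : p.natDegree ≤ e) :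
    (hsub t u r e p).map (Int.castRingHom ℚ) =
      C ((u : ℚ) ^ e) * (p.map (Int.castRingHom ℚ)).comp (C ((t : ℚ) / u) + C ((r : ℚ) / u) * X) := by
  have hu' : (u : ℚ) ≠ 0 := by exact_mod_cast hu
  have hp' : (p.map (Int.castRingHom ℚ)).natDegree < e + 1 :=
    Nat.lt_succ_of_le (natDegree_map_le.trans hp)
  rw [comp, eval₂_eq_sum_range' _ hp', mul_sum, hsub, Polynomial.map_sum]
  refine sum_congr rfl fun i hi => ?_
  have hi' : i ≤ e := Nat.lt_succ_iff.1 (mem_range.1 hi)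
  have h1 : (C ((t : ℚ) / u) + C ((r : ℚ) / u) * X : ℚ[X]) =
      C ((u : ℚ)⁻¹) * (C (t : ℚ) + C (r : ℚ) * X) := by
    rw [mul_add, ← mul_assoc, ← C_mul, ← C_mul, div_eq_inv_mul, div_eq_inv_mul]
  rw [h1, mul_pow, ← C_pow, coeff_map, ← mul_assoc, ← mul_assoc, ← C_mul, ← C_mul]
  rw [Polynomial.map_mul, Polynomial.map_pow, Polynomial.map_add, Polynomial.map_mul, map_C, map_C,
    map_C, map_X]
  simp only [eq_intCast (Int.castRingHom ℚ), Int.cast_mul, Int.cast_pow]
  congr 2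
  obtain ⟨j, rfl⟩ := Nat.exists_eq_add_of_le hi'
  rw [Nat.add_sub_cancel_left, pow_add, inv_pow]
  field_simp

theorem map_int_injective : Function.Injective (Polynomial.map (Int.castRingHom ℚ)) :=
  Polynomial.map_injective _ (RingHom.injective_int _)

theorem hsub_mul {t u r : ℤ} (hu : u ≠ 0) {e f : ℕ} {p q : ℤ[X]} (hp : p.natDegree ≤ e)
    (hq : q.natDegree ≤ f) : hsub t u r (e + f) (p * q) = hsub t u r e p * hsub t u r f q := by
  apply map_int_injective
  rw [Polynomial.map_mul, hsub_map hu hp, hsub_map hu hq,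
    hsub_map hu (natDegree_mul_le.trans (add_le_add hp hq)), Polynomial.map_mul, mul_comp, pow_add,
    C_mul]
  ring

theorem hsub_add (t u r : ℤ) (e : ℕ) (p q : ℤ[X]) :
    hsub t u r e (p + q) = hsub t u r e p + hsub t u r e q := by
  simp only [hsub, ← sum_add_distrib, coeff_add, add_mul, C_add]

theorem hsub_C_mul (t u r : ℤ) (e : ℕ) (a : ℤ) (p : ℤ[X]) :
    hsub t u r e (C a * p) = C a * hsub t u r e p := by
  simp only [hsub, mul_sum, coeff_C_mul, C_mul, mul_assoc]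

@[simp] theorem hsub_zero (t u r : ℤ) (e : ℕ) : hsub t u r e 0 = 0 := by simp [hsub]

theorem hsub_sub (t u r : ℤ) (e : ℕ) (p q : ℤ[X]) :
    hsub t u r e (p - q) = hsub t u r e p - hsub t u r e q := by
  simp only [hsub, ← sum_sub_distrib, coeff_sub, sub_mul, C_sub]

theorem hsub_one {t r : ℤ} {e : ℕ} {p : ℤ[X]} (hp : p.natDegree ≤ e) :
    hsub t 1 r e p = p.comp (C t + C r * X) := by
  rw [comp, eval₂_eq_sum_range' _ (Nat.lt_succ_of_le hp), hsub]
  simp

theorem coeff_zero_hsub (t u r : ℤ) (e : ℕ) (p : ℤ[X]) :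
    (hsub t u r e p).coeff 0 = ∑ i ∈ range (e + 1), p.coeff i * u ^ (e - i) * t ^ i := by
  rw [coeff_zero_eq_eval_zero, hsub, eval_finsetSum]
  simp

theorem abs_coeff_lin_pow_le {t r h : ℤ} (ht : |t| ≤ h) (hh : 1 ≤ h) (i k : ℕ) :
    |((C t + C r * X) ^ i).coeff k| ≤ (2 * h) ^ i * |r| ^ k := by
  induction i generalizing k with
  | zero =>
    rw [pow_zero, pow_zero, one_mul, coeff_one]
    split_ifs with hk
    · simp [hk]
    · simp
  | succ i ih =>
    rw [pow_succ, mul_add, coeff_add, coeff_mul_C, ← mul_assoc]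
    have h0 : 0 ≤ (2 * h) ^ i := by positivity
    have h1 : |((C t + C r * X) ^ i).coeff k * t| ≤ (2 * h) ^ i * |r| ^ k * h := by
      rw [abs_mul]
      exact mul_le_mul (ih k) ht (abs_nonneg _) (by positivity)
    have h2 : |((C t + C r * X) ^ i * C r * X).coeff k| ≤ (2 * h) ^ i * |r| ^ k * h := by
      cases k with
      | zero => simp; positivity
      | succ k =>
        rw [coeff_mul_X, coeff_mul_C, abs_mul]
        calc _ ≤ (2 * h) ^ i * |r| ^ k * |r| := mul_le_mul_of_nonneg_right (ih k) (abs_nonneg _)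
          _ = (2 * h) ^ i * |r| ^ (k + 1) * 1 := by ring
          _ ≤ _ := mul_le_mul_of_nonneg_left hh (by positivity)
    refine (abs_add_le _ _).trans ?_
    rw [pow_succ]
    linarith

theorem abs_coeff_hsub_le {t u r h : ℤ} (ht : |t| ≤ h) (hu : |u| ≤ h) (hh : 1 ≤ h) {e : ℕ}
    {p : ℤ[X]} (hp : p.natDegree ≤ e) (k : ℕ) :
    |(hsub t u r e p).coeff k| ≤ nrm p * (2 * h) ^ e * |r| ^ k := by
  rw [hsub, finsetSum_coeff, nrm_eq_range p hp, sum_mul, sum_mul]
  refine (abs_sum_le_sum_abs _ _).trans (sum_le_sum fun i hi => ?_)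
  have hi' : i ≤ e := Nat.lt_succ_iff.1 (mem_range.1 hi)
  rw [coeff_C_mul, abs_mul, abs_mul, abs_pow, mul_assoc, mul_assoc]
  refine mul_le_mul_of_nonneg_left ?_ (abs_nonneg _)
  obtain ⟨j, rfl⟩ := Nat.exists_eq_add_of_le hi'
  rw [Nat.add_sub_cancel_left, pow_add]
  have h1 : |u| ^ j ≤ (2 * h) ^ j := pow_le_pow_left₀ (abs_nonneg _) (by linarith) j
  calc |u| ^ j * |((C t + C r * X) ^ i).coeff k| ≤ (2 * h) ^ j * ((2 * h) ^ i * |r| ^ k) :=
        mul_le_mul h1 (abs_coeff_lin_pow_le ht hh i k) (abs_nonneg _) (by positivity)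
    _ = _ := by ring

/-- Vanishing of the substituted polynomial at `0` is vanishing at the rational point. -/
theorem pow_dvd_of_X_pow_dvd_hsub {t u r : ℤ} (hu : u ≠ 0) (hr : r ≠ 0) {e n : ℕ} {p : ℤ[X]}
    (hp : p.natDegree ≤ e) (h : X ^ n ∣ hsub t u r e p) :
    (X - C ((t : ℚ) / u)) ^ n ∣ p.map (Int.castRingHom ℚ) := by
  have hu' : (u : ℚ) ≠ 0 := by exact_mod_cast hu
  have hr' : (r : ℚ) ≠ 0 := by exact_mod_cast hr
  obtain ⟨q, hq⟩ := h
  have h1 := congrArg (Polynomial.map (Int.castRingHom ℚ)) hq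
  rw [hsub_map hu hp, Polynomial.map_mul, Polynomial.map_pow, map_X] at h1
  have h2 := congrArg (fun z => z.comp (C ((u : ℚ) / r) * (X - C ((t : ℚ) / u)))) h1
  have h3 : (C ((t : ℚ) / u) + C ((r : ℚ) / u) * X : ℚ[X]).comp
      (C ((u : ℚ) / r) * (X - C ((t : ℚ) / u))) = X := by
    rw [add_comp, mul_comp, C_comp, C_comp, X_comp, ← mul_assoc, ← C_mul,
      show (r : ℚ) / u * (u / r) = 1 by field_simp, C_1]
    ring
  simp only [mul_comp, C_comp, comp_assoc, h3, comp_X, pow_comp, X_comp, mul_pow] at h2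
  have hunit : IsUnit (C ((u : ℚ) ^ e)) := isUnit_C.2 (IsUnit.mk0 _ (pow_ne_zero _ hu'))
  rw [← hunit.dvd_mul_left, h2]
  exact Dvd.dvd.mul_right (Dvd.intro_left _ rfl) _

theorem hsub_ne_zero {t u r : ℤ} (hu : u ≠ 0) (hr : r ≠ 0) {e : ℕ} {p : ℤ[X]}
    (hp : p.natDegree ≤ e) (hp0 : p ≠ 0) : hsub t u r e p ≠ 0 := by
  intro h
  have h1 := pow_dvd_of_X_pow_dvd_hsub (t := t) hu hr hp (n := e + 1) (by rw [h]; exact dvd_zero _)
  have h2 : p.map (Int.castRingHom ℚ) ≠ 0 := fun h0 =>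
    hp0 (map_int_injective (by rw [h0, Polynomial.map_zero]))
  have h3 := natDegree_le_of_dvd h1 h2
  rw [natDegree_pow, natDegree_X_sub_C] at h3
  have h4 : (p.map (Int.castRingHom ℚ)).natDegree ≤ e := natDegree_map_le.trans hp
  omega

/-- A nonzero integer polynomial vanishing to order `K` at `t / u` has norm at least the `K`-th
power of the height of `t / u`. -/
theorem pow_le_nrm_of_dvd {t u : ℤ} (hu : u ≠ 0) (ht : t ≠ 0) (hcop : IsCoprime t u) {W : ℤ[X]}
    (hW : W ≠ 0) {K : ℕ} (h : (X - C ((t : ℚ) / u)) ^ K ∣ W.map (Int.castRingHom ℚ)) :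
    |t| ^ K ≤ nrm W ∧ |u| ^ K ≤ nrm W := by
  have hu' : (u : ℚ) ≠ 0 := by exact_mod_cast hu
  set q : ℤ[X] := C u * X - C t with hq
  have hq1 : q.coeff 1 = u := by
    rw [hq, coeff_sub, coeff_C_mul, coeff_X_one, coeff_C, if_neg one_ne_zero]; ring
  have hq0 : q.coeff 0 = -t := by simp [hq]
  have hprim : q.IsPrimitive := by
    rw [isPrimitive_iff_isUnit_of_C_dvd]
    intro a ha
    rw [C_dvd_iff_dvd_coeff] at ha
    have h1 := ha 1
    have h0 := ha 0
    rw [hq1] at h1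
    rw [hq0, dvd_neg] at h0
    exact hcop.isUnit_of_dvd' h0 h1
  have hprimK : ∀ n : ℕ, (q ^ n).IsPrimitive := by
    intro n
    induction n with
    | zero => rw [pow_zero]; exact isPrimitive_one
    | succ n ih => rw [pow_succ]; exact ih.mul hprim
  have hmap : q.map (Int.castRingHom ℚ) = C (u : ℚ) * (X - C ((t : ℚ) / u)) := by
    rw [mul_sub, ← C_mul, mul_div_cancel₀ _ hu']
    simp [hq]
  have hdvd : q ^ K ∣ W := by
    rw [IsPrimitive.Int.dvd_iff_map_cast_dvd_map_cast _ _ (hprimK K), Polynomial.map_pow, hmap,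
      mul_pow, ← C_pow]
    exact (isUnit_C.2 (IsUnit.mk0 _ (pow_ne_zero _ hu'))).mul_left_dvd.2 h
  obtain ⟨V, hV⟩ := hdvd
  have hV0 : V ≠ 0 := by rintro rfl; exact hW (by rw [hV, mul_zero])
  have hqdeg : q.natDegree = 1 := by
    rw [hq, natDegree_sub_C, natDegree_C_mul_X _ hu]
  have hlc : q.leadingCoeff = u := by rw [leadingCoeff, hqdeg, hq1]
  have htc : q.trailingCoeff = -t := by
    rw [trailingCoeff_eq_coeff_zero (by rw [hq0]; exact neg_ne_zero.2 ht), hq0]
  have htcK : ∀ n : ℕ, (q ^ n).trailingCoeff = (-t) ^ n := by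
    intro n
    induction n with
    | zero => rw [pow_zero, pow_zero, trailingCoeff_eq_coeff_zero (by simp)]; simp
    | succ n ih => rw [pow_succ, trailingCoeff_mul, ih, htc, pow_succ]
  constructor
  · have h1 : W.trailingCoeff = (-t) ^ K * V.trailingCoeff := by rw [hV, trailingCoeff_mul, htcK]
    have h2 : 1 ≤ |V.trailingCoeff| := Int.one_le_abs (trailingCoeff_nonzero_iff_nonzero.2 hV0)
    refine le_trans ?_ (abs_coeff_le_nrm W W.natTrailingDegree)
    change _ ≤ |W.trailingCoeff|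
    rw [h1, abs_mul, abs_pow, abs_neg]
    exact le_mul_of_one_le_right (by positivity) h2
  · have h1 : W.leadingCoeff = u ^ K * V.leadingCoeff := by
      rw [hV, leadingCoeff_mul, leadingCoeff_pow, hlc]
    have h2 : 1 ≤ |V.leadingCoeff| := Int.one_le_abs (leadingCoeff_ne_zero.2 hV0)
    refine le_trans ?_ (abs_coeff_le_nrm W W.natDegree)
    change _ ≤ |W.leadingCoeff|
    rw [h1, abs_mul, abs_pow]
    exact le_mul_of_one_le_right (by positivity) h2

theorem coeff_X_mul_derivative (p : ℤ[X]) (n : ℕ) :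
    (X * derivative p).coeff n = n * p.coeff n := by
  cases n with
  | zero => simp
  | succ n => rw [coeff_X_mul, coeff_derivative]; push_cast; ring

theorem natDegree_X_mul_derivative_le (p : ℤ[X]) : (X * derivative p).natDegree ≤ p.natDegree := by
  rw [natDegree_le_iff_coeff_eq_zero]
  intro n hn
  rw [coeff_X_mul_derivative, coeff_eq_zero_of_natDegree_lt hn, mul_zero]

theorem natDegree_eq_of_wronskian_eq_zero {a b : ℤ[X]} (ha : a ≠ 0) (hb : b ≠ 0)
    (h : wronskian a b = 0) : a.natDegree = b.natDegree := by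
  have h1 : a * (X * derivative b) = (X * derivative a) * b := by
    have : a * derivative b = derivative a * b := sub_eq_zero.1 h
    linear_combination X * this
  have h2 := congrArg (fun p => p.coeff (a.natDegree + b.natDegree)) h1
  simp only [coeff_mul_add_eq_of_natDegree_le le_rfl (natDegree_X_mul_derivative_le b),
    coeff_mul_add_eq_of_natDegree_le (natDegree_X_mul_derivative_le a) le_rfl,
    coeff_X_mul_derivative, coeff_natDegree] at h2
  have h3 : (a.leadingCoeff * b.leadingCoeff) * ((a.natDegree : ℤ) - b.natDegree) = 0 := by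
    linear_combination -h2
  rcases mul_eq_zero.1 h3 with h4 | h4
  · exact absurd h4 (mul_ne_zero (leadingCoeff_ne_zero.2 ha) (leadingCoeff_ne_zero.2 hb))
  · omega

theorem proportional_of_wronskian_eq_zero {a b : ℤ[X]} (ha : a ≠ 0) (hb : b ≠ 0)
    (h : wronskian a b = 0) : C b.leadingCoeff * a = C a.leadingCoeff * b := by
  by_contra hne
  have hE : C b.leadingCoeff * a - C a.leadingCoeff * b ≠ 0 := sub_ne_zero.2 hne
  have hW : wronskian (C b.leadingCoeff * a - C a.leadingCoeff * b) b = 0 := by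
    have : a * derivative b - derivative a * b = 0 := h
    unfold wronskian
    simp only [derivative_sub, derivative_mul, derivative_C, zero_mul, zero_add]
    linear_combination C b.leadingCoeff * this
  have h1 := natDegree_eq_of_wronskian_eq_zero hE hb hW
  have h2 := natDegree_eq_of_wronskian_eq_zero ha hb h
  apply leadingCoeff_ne_zero.2 hE
  rw [leadingCoeff, h1, coeff_sub, coeff_C_mul, coeff_C_mul, coeff_natDegree, ← h2, coeff_natDegree]
  ring

theorem abs_le_gcd_mul {a b x y : ℤ} (ha : a ≠ 0) (hy : y ≠ 0) (h : a * x = b * y) :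
    |y| ≤ (Int.gcd x y : ℤ) * |a| := by
  have h1 : y ∣ (Int.gcd x y : ℤ) * a := by
    rw [Int.gcd_eq_gcd_ab]
    exact ⟨b * Int.gcdA x y + Int.gcdB x y * a, by linear_combination (Int.gcdA x y) * h⟩
  have h2 : (Int.gcd x y : ℤ) ≠ 0 := by
    rw [Ne, Nat.cast_eq_zero, Int.gcd_eq_zero_iff]; exact fun h => hy h.2
  have h3 := Int.le_of_dvd (abs_pos.2 (mul_ne_zero h2 ha)) ((abs_dvd_abs _ _).2 h1)
  rwa [abs_mul, Nat.abs_cast] at h3

end Pool.Agent.Lib.MP_4ffbf9_nt
end

-- part Pool.Agent.Lib.MP_4ffbf9_nt.Key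
section

/-!
The key lemma: a small syzygy gives a second small linear relation between the values.
-/

set_option autoImplicit false

namespace Pool.Agent.Lib.MP_4ffbf9_nt

open Polynomial Finset

theorem trailingCoeff_C' (a : ℤ) : (C a).trailingCoeff = a := by
  by_cases ha : a = 0
  · simp [ha]
  · rw [trailingCoeff_eq_coeff_zero (by simpa using ha), coeff_C_zero]

theorem prop_case {t u h : ℤ} (hu : u ≠ 0) (hth : |t| ≤ h) (huh : |u| ≤ h)
    {P₁ P₂ U₁ U₂ : ℤ[X]} {m₁ m₂ μ₁ μ₂ : ℕ} (hT : μ₁ + m₁ = μ₂ + m₂)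
    (hP₁ : P₁.natDegree ≤ m₁) (hP₂ : P₂.natDegree ≤ m₂) (hU₁ : U₁.natDegree ≤ μ₁)
    (hU₂ : U₂.natDegree ≤ μ₂) {x₁ x₂ : ℤ} (hx₁ : x₁ ≠ 0) (hx₂ : x₂ ≠ 0)
    (e₁ : (hsub t u 1 m₁ P₁).coeff 0 = x₁) (e₂ : (hsub t u 1 m₂ P₂).coeff 0 = x₂)
    {α β : ℤ} (hα : α ≠ 0) (hU0 : U₁ ≠ 0) (h0 : C α * (U₁ * P₁) = C β * (U₂ * P₂)) :
    ∃ a b : ℤ, a ≠ 0 ∧ a * x₁ = b * x₂ ∧ |a| ≤ |α| * (nrm U₁ * (2 * h) ^ μ₁) ∧
      |b| ≤ |β| * (nrm U₂ * (2 * h) ^ μ₂) := by
  have hh : 1 ≤ h := (Int.one_le_abs hu).trans huh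
  have h1 := congrArg (hsub t u 1 (μ₁ + m₁)) h0
  rw [hsub_C_mul, hsub_C_mul, hsub_mul hu hU₁ hP₁, hT, hsub_mul hu hU₂ hP₂] at h1
  have h2 := congrArg trailingCoeff h1
  simp only [trailingCoeff_mul, trailingCoeff_C'] at h2
  rw [trailingCoeff_eq_coeff_zero (p := hsub t u 1 m₁ P₁) (by rw [e₁]; exact hx₁),
    trailingCoeff_eq_coeff_zero (p := hsub t u 1 m₂ P₂) (by rw [e₂]; exact hx₂), e₁, e₂] at h2
  refine ⟨α * (hsub t u 1 μ₁ U₁).trailingCoeff, β * (hsub t u 1 μ₂ U₂).trailingCoeff,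
    mul_ne_zero hα (trailingCoeff_nonzero_iff_nonzero.2 (hsub_ne_zero hu one_ne_zero hU₁ hU0)),
    by linear_combination h2, ?_, ?_⟩
  · rw [abs_mul]
    refine mul_le_mul_of_nonneg_left ?_ (abs_nonneg _)
    simpa [trailingCoeff] using abs_coeff_hsub_le (r := 1) hth huh hh hU₁
      (hsub t u 1 μ₁ U₁).natTrailingDegree
  · rw [abs_mul]
    refine mul_le_mul_of_nonneg_left ?_ (abs_nonneg _)
    simpa [trailingCoeff] using abs_coeff_hsub_le (r := 1) hth huh hh hU₂
      (hsub t u 1 μ₂ U₂).natTrailingDegree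

theorem abs_coeff_mul_le {p q : ℤ[X]} {a b r : ℤ} (ha : 0 ≤ a)
    (hp : ∀ k, |p.coeff k| ≤ a * |r| ^ k) (hq : ∀ k, |q.coeff k| ≤ b * |r| ^ k) (k : ℕ) :
    |(p * q).coeff k| ≤ (k + 1) * (a * b) * |r| ^ k := by
  rw [coeff_mul]
  refine (abs_sum_le_sum_abs _ _).trans ?_
  have : ∀ c ∈ antidiagonal k, |p.coeff c.1 * q.coeff c.2| ≤ a * b * |r| ^ k := by
    intro c hc
    rw [abs_mul, ← mem_antidiagonal.1 hc, pow_add]
    calc _ ≤ (a * |r| ^ c.1) * (b * |r| ^ c.2) :=
          mul_le_mul (hp _) (hq _) (abs_nonneg _) (by positivity)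
      _ = _ := by ring
  refine (sum_le_sum this).trans ?_
  rw [sum_const, Nat.card_antidiagonal, nsmul_eq_mul]
  push_cast
  exact le_of_eq (by ring)

theorem one_le_nrm {p : ℤ[X]} (hp : p ≠ 0) : 1 ≤ nrm p :=
  (Int.one_le_abs (leadingCoeff_ne_zero.2 hp)).trans (abs_coeff_le_nrm p _)

theorem key {t u r h : ℤ} (hu : u ≠ 0) (ht : t ≠ 0) (hr : r ≠ 0) (hcop : IsCoprime t u)
    (hth : |t| ≤ h) (huh : |u| ≤ h) (hh : h ≤ |t| ∨ h ≤ |u|)
    (P U Ξ : Fin 3 → ℤ[X]) (m μ : Fin 3 → ℕ) (T K : ℕ) (hT : ∀ i, μ i + m i = T)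
    (hPm : ∀ i, (P i).natDegree ≤ m i) (hUμ : ∀ i, (U i).natDegree ≤ μ i) (hU0 : U ≠ 0)
    (hsum : ∑ i, U i * P i = 0) (x Λ : Fin 3 → ℤ) (hx : ∀ i, x i ≠ 0)
    (hΞ : ∀ i, hsub t u r (m i) (P i) = C (x i) * Ξ i)
    (hx0 : ∀ i, (hsub t u r (m i) (P i)).coeff 0 = x i)
    (hΛ : ∀ i k, |(Ξ i).coeff k| ≤ Λ i * |r| ^ k) (v₀ v₁ : ℤ) (hv : v₁ ≠ 0)
    (N : ℤ) (hN : ∀ i, nrm (U i * P i) ≤ N) (hK : 2 * T * (N * N) < h ^ K) :
    (∃ w : Fin 3 → ℤ, ∑ i, w i * x i = 0 ∧ v₀ * w 1 ≠ v₁ * w 0 ∧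
      ∀ i, |w i| ≤ (K + 1) * (nrm (U i) * (2 * h) ^ μ i * Λ i) * |r| ^ K) ∨
    (∃ i j, i ≠ j ∧ ∃ a b : ℤ, a ≠ 0 ∧ a * x i = b * x j ∧
      |a| ≤ N * (nrm (U i) * (2 * h) ^ μ i) ∧ |b| ≤ N * (nrm (U j) * (2 * h) ^ μ j)) := by
  have hh1 : 1 ≤ h := (Int.one_le_abs hu).trans huh
  have hr1 : 1 ≤ |r| := Int.one_le_abs hr
  have hydeg : ∀ i, (U i * P i).natDegree ≤ T := fun i =>
    natDegree_mul_le.trans (by rw [← hT i]; exact add_le_add (hUμ i) (hPm i))
  have hY : ∀ i, hsub t u r T (U i * P i) = C (x i) * (hsub t u r (μ i) (U i) * Ξ i) := by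
    intro i
    rw [← hT i, hsub_mul hu (hUμ i) (hPm i), hΞ i]; ring
  have hx1 : ∀ i, (hsub t u 1 (m i) (P i)).coeff 0 = x i := by
    intro i
    rw [← hx0 i, coeff_zero_hsub, coeff_zero_hsub]
  have hP0 : ∀ i, P i ≠ 0 := by
    intro i h0
    have := hx0 i
    rw [h0, hsub_zero, coeff_zero] at this
    exact hx i this.symm
  have hΛ0 : ∀ i, 0 ≤ Λ i := fun i => by simpa using (abs_nonneg _).trans (hΛ i 0)
  rw [Fin.sum_univ_three] at hsum
  by_cases hA : ∃ k ≤ K, v₀ * (hsub t u r (μ 1) (U 1) * Ξ 1).coeff k ≠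
      v₁ * (hsub t u r (μ 0) (U 0) * Ξ 0).coeff k
  · obtain ⟨k, hk, hne⟩ := hA
    left
    refine ⟨fun i => (hsub t u r (μ i) (U i) * Ξ i).coeff k, ?_, hne, fun i => ?_⟩
    · have h1 := congrArg (fun p => (hsub t u r T p).coeff k) hsum
      simp only [hsub_add, hY, hsub_zero, coeff_add, coeff_C_mul, coeff_zero] at h1
      rw [Fin.sum_univ_three]
      linear_combination h1
    · have h0 : 0 ≤ nrm (U i) * (2 * h) ^ μ i := mul_nonneg (nrm_nonneg _) (by positivity)
      refine (abs_coeff_mul_le h0 (abs_coeff_hsub_le hth huh hh1 (hUμ i)) (hΛ i) k).trans ?_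
      have h1 : 0 ≤ nrm (U i) * (2 * h) ^ μ i * Λ i := mul_nonneg h0 (hΛ0 i)
      have h2 : (k : ℤ) + 1 ≤ K + 1 := by exact_mod_cast Nat.succ_le_succ hk
      exact mul_le_mul (mul_le_mul_of_nonneg_right h2 h1) (pow_le_pow_right₀ hr1 hk)
        (by positivity) (by positivity)
  · right
    push Not at hA
    have hW : wronskian (U 0 * P 0) (U 1 * P 1) = 0 := by
      by_contra hW
      set z : ℤ[X] := C (v₀ * x 0) * (U 1 * P 1) - C (v₁ * x 1) * (U 0 * P 0) with hz
      have hzdeg : z.natDegree ≤ T :=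
        (natDegree_sub_le _ _).trans (max_le ((natDegree_C_mul_le _ _).trans (hydeg 1))
          ((natDegree_C_mul_le _ _).trans (hydeg 0)))
      have h1 : X ^ (K + 1) ∣ hsub t u r T z := by
        rw [X_pow_dvd_iff]
        intro d hd
        rw [hz, hsub_sub, hsub_C_mul, hsub_C_mul, hY, hY, coeff_sub]
        simp only [coeff_C_mul]
        linear_combination (x 0 * x 1) * hA d (Nat.lt_succ_iff.1 hd)
      have h2 := pow_dvd_of_X_pow_dvd_hsub hu hr hzdeg h1
      have h3 := pow_sub_one_dvd_derivative_of_pow_dvd h2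
      rw [Nat.add_sub_cancel, derivative_map] at h3
      have h2' : (X - C ((t : ℚ) / u)) ^ K ∣ z.map (Int.castRingHom ℚ) :=
        (pow_dvd_pow _ (Nat.le_succ K)).trans h2
      have h4 : C (v₁ * x 1) * wronskian (U 0 * P 0) (U 1 * P 1) =
          derivative z * (U 1 * P 1) - z * derivative (U 1 * P 1) := by
        rw [hz, wronskian]
        simp only [derivative_sub, derivative_C_mul]
        ring
      have h5 : (X - C ((t : ℚ) / u)) ^ K ∣
          (wronskian (U 0 * P 0) (U 1 * P 1)).map (Int.castRingHom ℚ) := by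
        have hunit : IsUnit (C ((Int.castRingHom ℚ) (v₁ * x 1))) :=
          isUnit_C.2 (IsUnit.mk0 _ (by simpa using ⟨hv, hx 1⟩))
        rw [← hunit.dvd_mul_left, ← map_C, ← Polynomial.map_mul, h4, Polynomial.map_sub,
          Polynomial.map_mul, Polynomial.map_mul _ (p := z)]
        exact dvd_sub (h3.mul_right _) (h2'.mul_right _)
      obtain ⟨h6, h7⟩ := pow_le_nrm_of_dvd hu ht hcop hW h5
      have h8 : h ^ K ≤ nrm (wronskian (U 0 * P 0) (U 1 * P 1)) := by
        rcases hh with hh | hh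
        · exact (pow_le_pow_left₀ (by linarith) hh K).trans h6
        · exact (pow_le_pow_left₀ (by linarith) hh K).trans h7
      have h9 := nrm_wronskian_le _ _ (hydeg 0) (hydeg 1)
      have h10 : nrm (U 0 * P 0) * nrm (U 1 * P 1) ≤ N * N :=
        mul_le_mul (hN 0) (hN 1) (nrm_nonneg _) ((nrm_nonneg _).trans (hN 0))
      have h11 : 2 * (T : ℤ) * (nrm (U 0 * P 0) * nrm (U 1 * P 1)) ≤ 2 * T * (N * N) :=
        mul_le_mul_of_nonneg_left h10 (by positivity)
      linarith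
    have fin : ∀ i j : Fin 3, i ≠ j → ∀ α β : ℤ, α ≠ 0 → U i ≠ 0 → |α| ≤ N → |β| ≤ N →
        C α * (U i * P i) = C β * (U j * P j) →
        ∃ i j, i ≠ j ∧ ∃ a b : ℤ, a ≠ 0 ∧ a * x i = b * x j ∧
          |a| ≤ N * (nrm (U i) * (2 * h) ^ μ i) ∧ |b| ≤ N * (nrm (U j) * (2 * h) ^ μ j) := by
      intro i j hij α β hα hUi h1 h2 h3
      obtain ⟨a, b, ha, hab, h4, h5⟩ := prop_case hu hth huh ((hT i).trans (hT j).symm) (hPm i)
        (hPm j) (hUμ i) (hUμ j) (hx i) (hx j) (hx1 i) (hx1 j) hα hUi h3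
      exact ⟨i, j, hij, a, b, ha, hab,
        h4.trans (mul_le_mul_of_nonneg_right h1 (mul_nonneg (nrm_nonneg _) (by positivity))),
        h5.trans (mul_le_mul_of_nonneg_right h2 (mul_nonneg (nrm_nonneg _) (by positivity)))⟩
    by_cases h0 : U 0 = 0
    · have h1 : U 1 ≠ 0 := by
        intro h1
        apply hU0
        rw [h0, h1, zero_mul, zero_mul, zero_add, zero_add] at hsum
        have h2 : U 2 = 0 := (mul_eq_zero.1 hsum).resolve_right (hP0 2)
        funext i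
        fin_cases i
        · exact h0
        · exact h1
        · exact h2
      have hN1 : 1 ≤ N := (one_le_nrm (mul_ne_zero h1 (hP0 1))).trans (hN 1)
      refine fin 1 2 (by decide) 1 (-1) one_ne_zero h1 (by simpa using hN1) (by simpa using hN1) ?_
      rw [h0, zero_mul, zero_add] at hsum
      rw [C_neg, C_1]
      linear_combination hsum
    · have hN1 : 1 ≤ N := (one_le_nrm (mul_ne_zero h0 (hP0 0))).trans (hN 0)
      by_cases h1 : U 1 = 0
      · refine fin 0 2 (by decide) 1 (-1) one_ne_zero h0 (by simpa using hN1)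
          (by simpa using hN1) ?_
        rw [h1, zero_mul, add_zero] at hsum
        rw [C_neg, C_1]
        linear_combination hsum
      · have h2 := proportional_of_wronskian_eq_zero (mul_ne_zero h0 (hP0 0))
          (mul_ne_zero h1 (hP0 1)) hW
        exact fin 0 1 (by decide) _ _ (leadingCoeff_ne_zero.2 (mul_ne_zero h1 (hP0 1))) h0
          ((abs_coeff_le_nrm _ _).trans (hN 1)) ((abs_coeff_le_nrm _ _).trans (hN 0)) h2

end Pool.Agent.Lib.MP_4ffbf9_nt
end

-- part Pool.Agent.Lib.MP_4ffbf9_nt.Siegel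
section

/-!
Small syzygies of three integer polynomials, from Siegel's lemma.
-/

set_option autoImplicit false

namespace Pool.Agent.Lib.MP_4ffbf9_nt

open Polynomial Finset Matrix

attribute [local instance] Matrix.seminormedAddCommGroup

theorem exists_syzygy (P : Fin 3 → ℤ[X]) (μ : Fin 3 → ℕ) (T κ : ℕ) (Λ : ℤ) (hΛ1 : 1 ≤ Λ)
    (hP : ∀ i k, |(P i).coeff k| ≤ Λ) (hdeg : ∀ i, (P i).natDegree + μ i ≤ T)
    (hcount : (κ + 1) * (T + 1) ≤ κ * (μ 0 + μ 1 + μ 2 + 3)) :
    ∃ U : Fin 3 → ℤ[X], U ≠ 0 ∧ (∀ i, (U i).natDegree ≤ μ i) ∧ ∑ i, U i * P i = 0 ∧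
      ∀ i k, |(U i).coeff k| ≤ (((μ 0 + μ 1 + μ 2 + 3 : ℕ) : ℤ) * Λ) ^ κ := by
  classical
  let β := (i : Fin 3) × Fin (μ i + 1)
  let A : Matrix (Fin (T + 1)) β ℤ := fun e b => (monomial (b.2 : ℕ) (1 : ℤ) * P b.1).coeff e
  have hβ : Fintype.card β = μ 0 + μ 1 + μ 2 + 3 := by
    simp only [β, Fintype.card_sigma, Fintype.card_fin, Fin.sum_univ_three]; ring
  have hα : Fintype.card (Fin (T + 1)) = T + 1 := Fintype.card_fin _
  have hlt : T + 1 < μ 0 + μ 1 + μ 2 + 3 := by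
    by_contra hc
    push Not at hc
    have := Nat.mul_le_mul_left κ hc
    nlinarith
  obtain ⟨x, hx0, hxA, hxn⟩ := Int.Matrix.exists_ne_zero_int_vec_norm_le A
    (by rw [hα, hβ]; exact hlt) (by rw [hα]; omega)
  rw [hα, hβ] at hxn
  have hA : ‖A‖ ≤ Λ := by
    rw [Matrix.norm_le_iff (by exact_mod_cast (by linarith : (0 : ℤ) ≤ Λ))]
    intro e b
    rw [Int.norm_eq_abs]
    have : |A e b| ≤ Λ := by
      simp only [A, ← C_mul_X_pow_eq_monomial, C_1, one_mul, coeff_X_pow_mul']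
      split_ifs
      · exact hP _ _
      · simp; linarith
    exact_mod_cast this
  have hbound : ∀ b, |x b| ≤ (((μ 0 + μ 1 + μ 2 + 3 : ℕ) : ℤ) * Λ) ^ κ := by
    intro b
    have h1 : ‖x b‖ ≤ ‖x‖ := norm_le_pi_norm x b
    rw [Int.norm_eq_abs] at h1
    have hΛr : (1 : ℝ) ≤ Λ := by exact_mod_cast hΛ1
    have hn1 : (1 : ℝ) ≤ ((μ 0 + μ 1 + μ 2 + 3 : ℕ) : ℝ) := by
      exact_mod_cast (by omega : 1 ≤ μ 0 + μ 1 + μ 2 + 3)
    have hbase : ((μ 0 + μ 1 + μ 2 + 3 : ℕ) : ℝ) * max 1 ‖A‖ ≤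
        ((μ 0 + μ 1 + μ 2 + 3 : ℕ) : ℝ) * Λ :=
      mul_le_mul_of_nonneg_left (max_le hΛr hA) (by linarith)
    have hpos : (0 : ℝ) < ((μ 0 + μ 1 + μ 2 + 3 : ℕ) : ℝ) - ((T + 1 : ℕ) : ℝ) := by
      have : ((T + 1 : ℕ) : ℝ) < ((μ 0 + μ 1 + μ 2 + 3 : ℕ) : ℝ) := by exact_mod_cast hlt
      linarith
    have hexp : ((T + 1 : ℕ) : ℝ) / (((μ 0 + μ 1 + μ 2 + 3 : ℕ) : ℝ) - ((T + 1 : ℕ) : ℝ)) ≤ κ := by
      rw [div_le_iff₀ hpos]
      have : (((κ + 1) * (T + 1) : ℕ) : ℝ) ≤ ((κ * (μ 0 + μ 1 + μ 2 + 3) : ℕ) : ℝ) := by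
        exact_mod_cast hcount
      push_cast at this ⊢
      nlinarith
    have h2 : ‖x‖ ≤ (((μ 0 + μ 1 + μ 2 + 3 : ℕ) : ℝ) * Λ) ^ (κ : ℝ) := by
      refine hxn.trans ((Real.rpow_le_rpow (by positivity) hbase (by positivity)).trans ?_)
      exact Real.rpow_le_rpow_of_exponent_le (by nlinarith) hexp
    rw [Real.rpow_natCast] at h2
    have h3 := h1.trans h2
    exact_mod_cast h3
  let U : Fin 3 → ℤ[X] := fun i => ∑ k : Fin (μ i + 1), monomial (k : ℕ) (x ⟨i, k⟩)
  have hcoeff : ∀ i (k : Fin (μ i + 1)), (U i).coeff k = x ⟨i, k⟩ := by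
    intro i k
    simp only [U, finsetSum_coeff, coeff_monomial]
    rw [Finset.sum_eq_single k]
    · simp
    · intro j _ hj
      rw [if_neg (fun h => hj (Fin.ext h))]
    · simp
  have hUdeg : ∀ i, (U i).natDegree ≤ μ i := by
    intro i
    refine natDegree_sum_le_of_forall_le _ _ fun k _ => ?_
    exact (natDegree_monomial_le _).trans (Nat.lt_succ_iff.1 k.2)
  refine ⟨U, ?_, hUdeg, ?_, ?_⟩
  · intro hU
    apply hx0
    funext b
    have := hcoeff b.1 b.2
    rw [hU] at this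
    simpa using this.symm
  · have hdegS : (∑ i, U i * P i).natDegree ≤ T := by
      refine natDegree_sum_le_of_forall_le _ _ fun i _ => ?_
      refine natDegree_mul_le.trans ?_
      have := hUdeg i
      have := hdeg i
      omega
    ext e
    rw [coeff_zero]
    by_cases he : e ≤ T
    · have h1 := congrFun hxA ⟨e, Nat.lt_succ_of_le he⟩
      simp only [Matrix.mulVec, dotProduct, Pi.zero_apply, A] at h1
      rw [← h1, Fintype.sum_sigma, finsetSum_coeff]
      refine sum_congr rfl fun i _ => ?_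
      simp only [U, sum_mul, finsetSum_coeff]
      refine sum_congr rfl fun k _ => ?_
      have : (monomial (k : ℕ) (x ⟨i, k⟩) : ℤ[X]) = C (x ⟨i, k⟩) * monomial (k : ℕ) 1 := by
        rw [C_mul_monomial, mul_one]
      rw [this, mul_assoc, coeff_C_mul, mul_comm]
    · exact coeff_eq_zero_of_natDegree_lt (by omega)
  · intro i k
    by_cases hk : k ≤ μ i
    · rw [show k = ((⟨k, Nat.lt_succ_of_le hk⟩ : Fin (μ i + 1)) : ℕ) from rfl, hcoeff]
      exact hbound _
    · rw [coeff_eq_zero_of_natDegree_lt (by have := hUdeg i; omega), abs_zero]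
      have : (0 : ℤ) ≤ Λ := by linarith
      positivity

end Pool.Agent.Lib.MP_4ffbf9_nt
end

-- part Pool.Agent.Lib.MP_4ffbf9_nt.Uniform
section

/-!
The key lemma with a common degree bound, combined with Siegel's lemma.
-/

set_option autoImplicit false

namespace Pool.Agent.Lib.MP_4ffbf9_nt

open Polynomial Finset

theorem third_le (x v : Fin 3 → ℤ) {V B : ℤ} (hv : ∀ i, v i ≠ 0) (hV : ∀ i, |v i| ≤ V)
    (hs : ∑ i, v i * x i = 0) {i j : Fin 3} (hij : i ≠ j) (hi : |x i| ≤ B) (hj : |x j| ≤ B)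
    (k : Fin 3) : |x k| ≤ 2 * V * B := by
  have hV1 : 1 ≤ V := (Int.one_le_abs (hv 0)).trans (hV 0)
  have hB : 0 ≤ B := (abs_nonneg _).trans hi
  by_cases hki : k = i
  · rw [hki]; nlinarith
  by_cases hkj : k = j
  · rw [hkj]; nlinarith
  have hdec : ∀ i j k l : Fin 3, i ≠ j → k ≠ i → k ≠ j → l ≠ k → l = i ∨ l = j := by decide
  have h1 : v k * x k = -∑ l ∈ univ.erase k, v l * x l := by
    rw [← add_sum_erase _ _ (mem_univ k)] at hs; linarith
  have h2 : |x k| ≤ |v k * x k| := by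
    rw [abs_mul]; exact le_mul_of_one_le_left (abs_nonneg _) (Int.one_le_abs (hv k))
  have h3 : ∀ l ∈ univ.erase k, |v l * x l| ≤ V * B := by
    intro l hl
    rw [abs_mul]
    refine mul_le_mul (hV l) ?_ (abs_nonneg _) (by linarith)
    rcases hdec i j k l hij hki hkj (ne_of_mem_erase hl) with h | h <;> rw [h] <;> assumption
  rw [h1, abs_neg] at h2
  have h4 := (abs_sum_le_sum_abs _ _).trans (sum_le_sum h3)
  rw [sum_const, card_erase_of_mem (mem_univ k), card_univ, Fintype.card_fin, nsmul_eq_mul] at h4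
  have h5 : ((3 - 1 : ℕ) : ℤ) = 2 := by norm_num
  rw [h5] at h4
  linarith

theorem key_uniform {t u r h : ℤ} (hu : u ≠ 0) (ht : t ≠ 0) (hr : r ≠ 0) (hcop : IsCoprime t u)
    (hth : |t| ≤ h) (huh : |u| ≤ h) (hh : h ≤ |t| ∨ h ≤ |u|)
    (P Ξ : Fin 3 → ℤ[X]) (m μ K : ℕ) (hμ : 3 * m ≤ 4 * μ) (hμm : μ ≤ m) (E : ℤ)
    (hE1 : 4 * (m : ℤ) + 3 ≤ E) (hE2 : (K : ℤ) + 1 ≤ E) (hE3 : 2 ^ m ≤ E) (hK : E ^ 21 < h ^ K)
    (hPm : ∀ i, (P i).natDegree ≤ m) (hPn : ∀ i, nrm (P i) ≤ E)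
    (x : Fin 3 → ℤ) (hx : ∀ i, x i ≠ 0)
    (hΞ : ∀ i, hsub t u r m (P i) = C (x i) * Ξ i)
    (hx0 : ∀ i, (hsub t u r m (P i)).coeff 0 = x i)
    (hΛ : ∀ i k, |(Ξ i).coeff k| ≤ E * |r| ^ k)
    (v : Fin 3 → ℤ) (V : ℤ) (hv : ∀ i, v i ≠ 0) (hV : ∀ i, |v i| ≤ V) (hvx : ∑ i, v i * x i = 0)
    (G : ℤ) (hG : ∀ i j, i ≠ j → (Int.gcd (x i) (x j) : ℤ) ≤ G) (k : Fin 3) :
    |x k| ≤ 4 * V ^ 2 * G * E ^ 20 * h ^ μ * |r| ^ K := by
  have hh1 : 1 ≤ h := (Int.one_le_abs hu).trans huh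
  have hr1 : 1 ≤ |r| := Int.one_le_abs hr
  have hV1 : 1 ≤ V := (Int.one_le_abs (hv 0)).trans (hV 0)
  have hm0 : (0 : ℤ) ≤ m := Int.natCast_nonneg m
  have hE : 1 ≤ E := by linarith
  have hμm' : (μ : ℤ) ≤ m := by exact_mod_cast hμm
  have hG0 : 0 ≤ G := le_trans (Int.natCast_nonneg _) (hG 0 1 (by decide))
  obtain ⟨U, hU0, hUμ, hsum, hUc⟩ := exists_syzygy P (fun _ => μ) (μ + m) 4 E hE
    (fun i k => (abs_coeff_le_nrm _ _).trans (hPn i)) (fun i => by have := hPm i; omega)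
    (by omega)
  have hUn : ∀ i, nrm (U i) ≤ E ^ 9 := by
    intro i
    refine (nrm_le_of_coeff _ (hUμ i) (hUc i)).trans ?_
    have h1 : ((μ + μ + μ + 3 : ℕ) : ℤ) ≤ E := by push_cast; linarith
    calc ((μ : ℤ) + 1) * (((μ + μ + μ + 3 : ℕ) : ℤ) * E) ^ 4 ≤ E * (E * E) ^ 4 := by
          gcongr; linarith
      _ = E ^ 9 := by ring
  have hN : ∀ i, nrm (U i * P i) ≤ E ^ 10 := fun i =>
    (nrm_mul_le _ _).trans (by
      rw [pow_succ]
      exact mul_le_mul (hUn i) (hPn i) (nrm_nonneg _) (by positivity))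
  have h2h : (2 * h) ^ μ ≤ E * h ^ μ := by
    rw [mul_pow]
    exact mul_le_mul_of_nonneg_right ((pow_le_pow_right₀ (by norm_num) hμm).trans hE3)
      (by positivity)
  have hUh : ∀ i, nrm (U i) * (2 * h) ^ μ ≤ E ^ 10 * h ^ μ := fun i =>
    calc nrm (U i) * (2 * h) ^ μ ≤ E ^ 9 * (E * h ^ μ) :=
          mul_le_mul (hUn i) h2h (by positivity) (by positivity)
      _ = _ := by ring
  have hK' : 2 * ((μ + m : ℕ) : ℤ) * (E ^ 10 * E ^ 10) < h ^ K := by
    refine lt_of_le_of_lt ?_ hK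
    have : 2 * ((μ + m : ℕ) : ℤ) ≤ E := by push_cast; linarith
    calc _ ≤ E * (E ^ 10 * E ^ 10) := mul_le_mul_of_nonneg_right this (by positivity)
      _ = E ^ 21 := by ring
  set B : ℤ := 2 * V * E ^ 20 * h ^ μ * |r| ^ K with hB
  have hfin : ∀ i j : Fin 3, i ≠ j → ∀ a b : ℤ, a ≠ 0 → a * x i = b * x j → |a| ≤ B → |b| ≤ B →
      |x k| ≤ 4 * V ^ 2 * G * E ^ 20 * h ^ μ * |r| ^ K := by
    intro i j hij a b ha hab h1 h2
    have hb : b ≠ 0 := by
      rintro rfl
      rw [zero_mul] at hab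
      exact mul_ne_zero ha (hx i) hab
    have h3 : |x j| ≤ G * B := (abs_le_gcd_mul ha (hx j) hab).trans
      (mul_le_mul (hG i j hij) h1 (abs_nonneg _) hG0)
    have h4 : |x i| ≤ G * B := (abs_le_gcd_mul hb (hx i) hab.symm).trans
      (mul_le_mul (hG j i hij.symm) h2 (abs_nonneg _) hG0)
    refine (third_le x v hv hV hvx hij h4 h3 k).trans (le_of_eq ?_)
    rw [hB]; ring
  rcases key hu ht hr hcop hth huh hh P U Ξ (fun _ => m) (fun _ => μ) (μ + m) K (fun _ => rfl) hPm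
    hUμ hU0 hsum x (fun _ => E) hx hΞ hx0 hΛ (v 0) (v 1) (hv 1) (E ^ 10) hN hK' with
    ⟨w, hw, hne, hwb⟩ | ⟨i, j, hij, a, b, ha, hab, h1, h2⟩
  · have hwb' : ∀ i, |w i| ≤ E ^ 20 * h ^ μ * |r| ^ K := by
      intro i
      refine (hwb i).trans (mul_le_mul_of_nonneg_right ?_ (by positivity))
      calc ((K : ℤ) + 1) * (nrm (U i) * (2 * h) ^ μ * E) ≤ E * (E ^ 10 * h ^ μ * E) :=
            mul_le_mul hE2 (mul_le_mul_of_nonneg_right (hUh i) (by linarith))
              (mul_nonneg (mul_nonneg (nrm_nonneg _) (by positivity)) (by linarith)) (by linarith)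
        _ = E ^ 12 * h ^ μ := by ring
        _ ≤ E ^ 20 * h ^ μ :=
            mul_le_mul_of_nonneg_right (pow_le_pow_right₀ hE (by norm_num)) (by positivity)
    have hΔ : ∀ i j, |v i * w j - v j * w i| ≤ B := by
      intro i j
      refine (abs_sub _ _).trans ?_
      rw [abs_mul, abs_mul]
      have h1 := mul_le_mul (hV i) (hwb' j) (abs_nonneg _) (by linarith)
      have h2 := mul_le_mul (hV j) (hwb' i) (abs_nonneg _) (by linarith)
      rw [hB]
      linarith
    rw [Fin.sum_univ_three] at hw hvx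
    exact hfin 1 2 (by decide) (v 0 * w 1 - v 1 * w 0) (v 2 * w 0 - v 0 * w 2) (sub_ne_zero.2 hne)
      (by linear_combination (v 0) * hw - (w 0) * hvx) (hΔ 0 1) (hΔ 2 0)
  · have hb : ∀ i, E ^ 10 * (nrm (U i) * (2 * h) ^ μ) ≤ B := by
      intro i
      calc E ^ 10 * (nrm (U i) * (2 * h) ^ μ) ≤ E ^ 10 * (E ^ 10 * h ^ μ) :=
            mul_le_mul_of_nonneg_left (hUh i) (by positivity)
        _ = 1 * E ^ 20 * h ^ μ * 1 := by ring
        _ ≤ B := by
            rw [hB]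
            have : 1 ≤ |r| ^ K := one_le_pow₀ hr1
            gcongr
            linarith
    exact hfin i j hij a b ha hab (h1.trans (hb i)) (h2.trans (hb j))

end Pool.Agent.Lib.MP_4ffbf9_nt
end

-- part Pool.Agent.Lib.MP_4ffbf9_nt.Core
section

/-!
The core contradiction for three products of values of small polynomials at a large integer.
-/

set_option autoImplicit false

namespace Pool.Agent.Lib.MP_4ffbf9_nt

open Polynomial Finset

theorem eval_ne_zero_of_large {p : ℤ[X]} (hp : p ≠ 0) {t : ℤ} (ht : 2 * nrm p ≤ t) :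
    p.eval t ≠ 0 := by
  intro h
  have h1 := pow_le_two_mul_abs_eval p hp ht
  have h2 := one_le_nrm hp
  rw [h, abs_zero, mul_zero] at h1
  have : 0 < t ^ p.natDegree := pow_pos (by linarith) _
  linarith

theorem two_pow_ge (m : ℕ) : (m : ℤ) + 1 ≤ 2 ^ m := by exact_mod_cast Nat.lt_two_pow_self

theorem core_large {t H V Q R : ℤ} (P : Fin 3 → ℤ[X]) (x a : Fin 3 → ℤ) (m : Fin 3 → ℕ)
    {r : ℤ} {M N : ℕ} (hH : 2 ≤ H) (hN : 3 ≤ N) (hmM : ∀ i, m i ≤ M) (k : Fin 3) (hk : m k = M)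
    (hMN : 32 * N ≤ M) (hdeg : ∀ i, (P i).natDegree ≤ m i) (hnrm : ∀ i, nrm (P i) ≤ H ^ (3 * m i))
    (heval : ∀ i, (P i).eval t = x i) (hlow : ∀ i, t ^ m i ≤ 2 ^ m i * x i) (hr0 : 0 < r)
    (hr : r ≤ H ^ (3 * N) * t ^ N) (hdiv : ∀ i, C (x i) ∣ (P i).comp (C t + C r * X))
    (ha : ∀ i, a i ≠ 0) (haV : ∀ i, |a i| ≤ V) (hs : ∑ i, a i * x i = 0) (hRr : R ≤ r)
    (hQ : 1 ≤ Q) (hG : ∀ i j, i ≠ j → (Int.gcd (x i) (x j) : ℤ) ≤ Q * R)
    (hHt : H ^ (30000 * N) ≤ t ^ 2) (ht : 4 * V ^ 2 * Q ≤ t) : False := by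
  have hV1 : 1 ≤ V := (Int.one_le_abs (ha 0)).trans (haV 0)
  have ht4 : 4 ≤ t := by nlinarith
  have ht0 : 0 < t := by linarith
  have hH1 : 1 ≤ H := by linarith
  have hx : ∀ i, 0 < x i := by
    intro i
    have h1 := (pow_pos ht0 (m i)).trans_le (hlow i)
    exact (mul_pos_iff_of_pos_left (by positivity)).1 h1
  choose Ξ hΞ using hdiv
  set j := M / N with hj
  set K := j / 64 + 1 with hK
  have hj32 : 32 ≤ j := (Nat.le_div_iff_mul_le (by omega)).2 hMN
  have hjN : j * N ≤ M := Nat.div_mul_le_self M N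
  have hMj : M ≤ 2 * j * N := by
    have := Nat.lt_div_mul_add (a := M) (b := N) (by omega)
    rw [← hj] at this
    nlinarith
  have h2H : ∀ e : ℕ, (2 : ℤ) ^ e ≤ H ^ e := fun e => pow_le_pow_left₀ (by norm_num) hH e
  have hE3 : (2 : ℤ) ^ M ≤ H ^ (5 * M) := (h2H M).trans (pow_le_pow_right₀ hH1 (by omega))
  have hM0 : (0 : ℤ) ≤ M := Int.natCast_nonneg M
  have hE1 : 4 * (M : ℤ) + 3 ≤ H ^ (5 * M) := by
    have h1 := two_pow_ge (5 * M)
    have h2 := h2H (5 * M)
    have h3 : (3 : ℤ) ≤ M := by exact_mod_cast (by omega : 3 ≤ M)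
    push_cast at h1
    linarith
  have hKM : (K : ℤ) ≤ M := by
    have : j ≤ M := le_trans (Nat.le_mul_of_pos_right j (by omega)) hjN
    exact_mod_cast (by omega : K ≤ M)
  have hEK : (H ^ (5 * M)) ^ 21 < t ^ K := by
    refine lt_of_pow_lt_pow_left₀ 30000 (by positivity) ?_
    calc ((H ^ (5 * M)) ^ 21) ^ 30000 = H ^ (30000 * 105 * M) := by
          rw [← pow_mul, ← pow_mul]; congr 1; ring
      _ ≤ H ^ (30000 * N * (210 * j)) := pow_le_pow_right₀ hH1 (by nlinarith)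
      _ = (H ^ (30000 * N)) ^ (210 * j) := by rw [← pow_mul]
      _ ≤ (t ^ 2) ^ (210 * j) := pow_le_pow_left₀ (by positivity) hHt _
      _ = t ^ (420 * j) := by rw [← pow_mul]; congr 1; ring
      _ < t ^ (K * 30000) := pow_lt_pow_right₀ (by linarith) (by omega)
      _ = (t ^ K) ^ 30000 := by rw [pow_mul]
  have hsubeq : ∀ i, hsub t 1 r M (P i) = (P i).comp (C t + C r * X) := fun i =>
    hsub_one ((hdeg i).trans (hmM i))
  have main := key_uniform (t := t) (u := 1) (r := r) (h := t) one_ne_zero ht0.ne' hr0.ne'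
    isCoprime_one_right (by rw [abs_of_pos ht0]) (by rw [abs_one]; linarith)
    (Or.inl (le_abs_self t)) P Ξ M ((3 * M + 3) / 4) K (by omega) (by omega) (H ^ (5 * M)) hE1
    (by linarith) hE3 hEK (fun i => (hdeg i).trans (hmM i))
    (fun i => (hnrm i).trans (pow_le_pow_right₀ hH1 (by have := hmM i; omega))) x
    (fun i => (hx i).ne') (fun i => by rw [hsubeq, hΞ])
    (fun i => by rw [hsubeq, coeff_zero_eq_eval_zero, eval_comp, ← heval i]; simp)
    (by
      intro i e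
      have h1 := abs_coeff_hsub_le (t := t) (u := 1) (r := r) (h := t) (by rw [abs_of_pos ht0])
        (by rw [abs_one]; linarith) (by linarith) (hdeg i) e
      rw [hsub_one (hdeg i), hΞ, coeff_C_mul, abs_mul, abs_of_pos (hx i)] at h1
      have h2 : t ^ m i * |(Ξ i).coeff e| ≤ t ^ m i * (H ^ (5 * M) * |r| ^ e) := by
        calc t ^ m i * |(Ξ i).coeff e| ≤ 2 ^ m i * x i * |(Ξ i).coeff e| :=
              mul_le_mul_of_nonneg_right (hlow i) (abs_nonneg _)
          _ = 2 ^ m i * (x i * |(Ξ i).coeff e|) := by ring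
          _ ≤ 2 ^ m i * (H ^ (3 * m i) * (2 * t) ^ m i * |r| ^ e) := by
              refine mul_le_mul_of_nonneg_left (h1.trans ?_) (by positivity)
              have := hnrm i
              gcongr
          _ = t ^ m i * ((2 ^ m i * 2 ^ m i * H ^ (3 * m i)) * |r| ^ e) := by
              rw [mul_pow]; ring
          _ ≤ t ^ m i * (H ^ (5 * M) * |r| ^ e) := by
              have h3 : 2 ^ m i * 2 ^ m i * H ^ (3 * m i) ≤ H ^ (5 * M) := by
                calc 2 ^ m i * 2 ^ m i * H ^ (3 * m i) ≤ H ^ m i * H ^ m i * H ^ (3 * m i) := by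
                      have := h2H (m i)
                      gcongr
                  _ = H ^ (5 * m i) := by ring
                  _ ≤ _ := pow_le_pow_right₀ hH1 (by have := hmM i; omega)
              gcongr
      exact le_of_mul_le_mul_left h2 (by positivity))
    a V ha haV hs (Q * R) hG k
  rw [abs_of_pos (hx k), abs_of_pos hr0] at main
  have hH3 : H ^ (3 * N) ≤ t := by
    refine le_of_pow_le_pow_left₀ two_ne_zero ht0.le (le_trans ?_ hHt)
    rw [← pow_mul]
    exact pow_le_pow_right₀ hH1 (by omega)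
  have hr2 : r ≤ t ^ (2 * N) := by
    calc r ≤ t * t ^ N := hr.trans (mul_le_mul_of_nonneg_right hH3 (by positivity))
      _ = t ^ (N + 1) := by ring
      _ ≤ _ := pow_le_pow_right₀ (by linarith) (by omega)
  have hR0 : 0 ≤ R := by
    have h1 := le_trans (Int.natCast_nonneg _) (hG 0 1 (by decide))
    by_contra h2
    nlinarith
  have hfin : t ^ M ≤ t ^ (1 + K + (3 * M + 3) / 4 + 2 * N * (K + 1)) := by
    calc t ^ M ≤ 2 ^ M * x k := by rw [← hk]; exact hlow k
      _ ≤ H ^ (5 * M) * (4 * V ^ 2 * (Q * R) * (H ^ (5 * M)) ^ 20 * t ^ ((3 * M + 3) / 4) * r ^ K) :=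
          mul_le_mul hE3 main (hx k).le (by positivity)
      _ = (4 * V ^ 2 * Q) * (H ^ (5 * M)) ^ 21 * t ^ ((3 * M + 3) / 4) * (R * r ^ K) := by ring
      _ ≤ t * t ^ K * t ^ ((3 * M + 3) / 4) * (t ^ (2 * N) * (t ^ (2 * N)) ^ K) := by
          have := hEK.le
          have := hRr.trans hr2
          gcongr
      _ = _ := by ring
  have h1 := (pow_le_pow_iff_right₀ (by linarith : (1 : ℤ) < t)).1 hfin
  have h2 : 64 * (N * K) ≤ M + 64 * N := by
    have : 64 * K ≤ j + 64 := by omega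
    nlinarith
  have h3 : K ≤ N * K := Nat.le_mul_of_pos_left K (by omega)
  have h4 : 2 * N * (K + 1) = 2 * (N * K) + 2 * N := by ring
  omega

theorem core_small {t H V Q R : ℤ} (P : Fin 3 → ℤ[X]) (x r a : Fin 3 → ℤ) (m N : Fin 3 → ℕ)
    {M : ℕ} (hH : 2 ≤ H) (hN : ∀ i, 1 ≤ N i) (hm : ∀ i, 1 ≤ m i) (hmM : ∀ i, m i ≤ M) (k : Fin 3)
    (hk : m k = M) (hNM : N 0 + N 1 + N 2 ≤ M) (hdeg : ∀ i, (P i).natDegree ≤ m i)
    (hnrm : ∀ i, nrm (P i) ≤ H ^ (3 * m i)) (heval : ∀ i, (P i).eval t = x i)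
    (hlow : ∀ i, t ^ m i ≤ 2 ^ m i * x i) (hr0 : ∀ i, 0 < r i)
    (hr : ∀ i, r i ≤ H ^ (3 * N i) * t ^ N i)
    (hder : ∀ i, x i ∣ r i * (derivative (P i)).eval t)
    (ha : ∀ i, a i ≠ 0) (haV : ∀ i, |a i| ≤ V) (hs : ∑ i, a i * x i = 0) (hR : 0 < R)
    (hRr : ∀ i, R ∣ r i) (hQ : 1 ≤ Q) (hG : ∀ i j, i ≠ j → (Int.gcd (x i) (x j) : ℤ) ≤ Q * R)
    (ht : 6 * V ^ 3 * Q * H ^ (9 * M) < t) : False := by
  have hV1 : 1 ≤ V := (Int.one_le_abs (ha 0)).trans (haV 0)
  have hH1 : 1 ≤ H := by linarith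
  have hH9 : 1 ≤ H ^ (9 * M) := one_le_pow₀ hH1
  have hV3 : 1 ≤ V ^ 3 := one_le_pow₀ hV1
  have hVQ : 1 ≤ V ^ 3 * Q := by nlinarith
  have ht0 : 0 < t := lt_of_le_of_lt (by positivity) ht
  have ht1 : 1 ≤ t := ht0
  have hx : ∀ i, 0 < x i := by
    intro i
    have h1 := (pow_pos ht0 (m i)).trans_le (hlow i)
    exact (mul_pos_iff_of_pos_left (by positivity)).1 h1
  have h2H : ∀ e : ℕ, (2 : ℤ) ^ e ≤ H ^ e := fun e => pow_le_pow_left₀ (by norm_num) hH e
  have hMH : (M : ℤ) ≤ H ^ M := by linarith [two_pow_ge M, h2H M]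
  have hnrm' : ∀ i, nrm (P i) ≤ H ^ (3 * M) := fun i =>
    (hnrm i).trans (pow_le_pow_right₀ hH1 (by have := hmM i; omega))
  have hdeg' : ∀ i, (P i).natDegree ≤ M := fun i => (hdeg i).trans (hmM i)
  have hP0 : ∀ i, P i ≠ 0 := by
    intro i h0
    have := heval i
    rw [h0, eval_zero] at this
    exact (hx i).ne this
  have hlowk : t ^ M ≤ H ^ M * x k := by
    rw [← hk]; exact (hlow k).trans (mul_le_mul_of_nonneg_right (h2H _) (hx k).le)
  -- the polynomial identity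
  have hD : C (a 0) * P 0 + C (a 1) * P 1 + C (a 2) * P 2 = 0 := by
    by_contra hD
    refine eval_ne_zero_of_large hD (t := t) ?_ ?_
    · have h1 : ∀ i, nrm (C (a i) * P i) ≤ V * H ^ (3 * M) := fun i =>
        (nrm_mul_le _ _).trans (by
          rw [nrm_C]; exact mul_le_mul (haV i) (hnrm' i) (nrm_nonneg _) (by linarith))
      have h2 := (nrm_add_le _ _).trans (add_le_add ((nrm_add_le _ _).trans
        (add_le_add (h1 0) (h1 1))) (h1 2))
      have h3 : V * H ^ (3 * M) ≤ V ^ 3 * Q * H ^ (9 * M) := by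
        refine mul_le_mul ?_ (pow_le_pow_right₀ hH1 (by omega)) (by positivity) (by positivity)
        calc V = V ^ 1 * 1 := by ring
          _ ≤ V ^ 3 * Q := mul_le_mul (pow_le_pow_right₀ hV1 (by norm_num)) hQ (by norm_num)
            (by positivity)
      linarith
    · rw [Fin.sum_univ_three] at hs
      simp only [eval_add, eval_mul, eval_C, heval]
      exact hs
  by_cases hW : wronskian (P 0) (P 1) = 0
  · have h1 := congrArg (eval t) (proportional_of_wronskian_eq_zero (hP0 0) (hP0 1) hW)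
    simp only [eval_mul, eval_C, heval] at h1
    have hQR : 0 ≤ Q * R := by positivity
    have h2 : |x 1| ≤ Q * R * H ^ (3 * M) :=
      (abs_le_gcd_mul (leadingCoeff_ne_zero.2 (hP0 1)) (hx 1).ne' h1).trans
        (mul_le_mul (hG 0 1 (by decide)) ((abs_coeff_le_nrm _ _).trans (hnrm' 1)) (abs_nonneg _) hQR)
    have h3 : |x 0| ≤ Q * R * H ^ (3 * M) :=
      (abs_le_gcd_mul (leadingCoeff_ne_zero.2 (hP0 0)) (hx 0).ne' h1.symm).trans
        (mul_le_mul (hG 1 0 (by decide)) ((abs_coeff_le_nrm _ _).trans (hnrm' 0)) (abs_nonneg _) hQR)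
    have h4 := third_le x a ha haV hs (show (0 : Fin 3) ≠ 1 by decide) h3 h2 k
    rw [abs_of_pos (hx k)] at h4
    obtain ⟨M', hM'⟩ : ∃ M', M = M' + 1 := ⟨M - 1, by have := hm k; omega⟩
    have h5 : R ≤ H ^ (3 * M) * t ^ M' := by
      refine (Int.le_of_dvd (hr0 0) (hRr 0)).trans ((hr 0).trans ?_)
      have := hN 1
      exact mul_le_mul (pow_le_pow_right₀ hH1 (by omega)) (pow_le_pow_right₀ ht1 (by omega))
        (by positivity) (by positivity)
    have h6 : t * t ^ M' ≤ (6 * V ^ 3 * Q * H ^ (9 * M)) * t ^ M' := by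
      calc t * t ^ M' = t ^ M := by rw [hM']; ring
        _ ≤ H ^ M * (2 * V * (Q * (H ^ (3 * M) * t ^ M') * H ^ (3 * M))) := by
            refine hlowk.trans (mul_le_mul_of_nonneg_left (h4.trans ?_) (by positivity))
            gcongr
        _ = (2 * V ^ 1 * Q * H ^ (7 * M)) * t ^ M' := by ring
        _ ≤ _ := by
            have : H ^ (7 * M) ≤ H ^ (9 * M) := pow_le_pow_right₀ hH1 (by omega)
            have : V ^ 1 ≤ V ^ 3 := pow_le_pow_right₀ hV1 (by omega)
            gcongr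
            norm_num
    have := le_of_mul_le_mul_right h6 (by positivity)
    linarith
  · have hWt : (wronskian (P 0) (P 1)).eval t ≠ 0 := by
      refine eval_ne_zero_of_large hW ?_
      have h1 := nrm_wronskian_le _ _ (hdeg' 0) (hdeg' 1)
      have h2 : (M : ℤ) * (nrm (P 0) * nrm (P 1)) ≤ H ^ (9 * M) := by
        calc (M : ℤ) * (nrm (P 0) * nrm (P 1)) ≤ H ^ M * (H ^ (3 * M) * H ^ (3 * M)) := by
              have := nrm_nonneg (P 0)
              have := nrm_nonneg (P 1)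
              have := hnrm' 0
              have := hnrm' 1
              gcongr
          _ = H ^ (7 * M) := by ring
          _ ≤ _ := pow_le_pow_right₀ hH1 (by omega)
      nlinarith
    choose p hp using hder
    have hpb : ∀ i, t * |p i| ≤ r i * H ^ (5 * M) := by
      intro i
      obtain ⟨e, he⟩ : ∃ e, m i = e + 1 := ⟨m i - 1, by have := hm i; omega⟩
      have h1 : |(derivative (P i)).eval t| ≤ M * H ^ (3 * M) * t ^ e := by
        refine (abs_eval_le _ (n := e) ((natDegree_derivative_le _).trans (by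
          have := hdeg i; omega)) (by rw [abs_of_pos ht0]) ht1).trans ?_
        refine mul_le_mul_of_nonneg_right ((nrm_derivative_le _ (hdeg' i)).trans ?_) (by positivity)
        exact mul_le_mul_of_nonneg_left (hnrm' i) (by positivity)
      have h2 : x i * |p i| = r i * |(derivative (P i)).eval t| := by
        rw [← abs_of_pos (hx i), ← abs_of_pos (hr0 i), ← abs_mul, ← abs_mul, hp i]
      have h3 : t ^ e * (t * |p i|) ≤ t ^ e * (r i * H ^ (5 * M)) := by
        calc t ^ e * (t * |p i|) = t ^ m i * |p i| := by rw [he]; ring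
          _ ≤ 2 ^ m i * x i * |p i| := mul_le_mul_of_nonneg_right (hlow i) (abs_nonneg _)
          _ = 2 ^ m i * (r i * |(derivative (P i)).eval t|) := by rw [← h2]; ring
          _ ≤ H ^ M * (r i * (H ^ M * H ^ (3 * M) * t ^ e)) := by
              have := (h2H (m i)).trans (pow_le_pow_right₀ hH1 (hmM i))
              have := hr0 i
              refine mul_le_mul ‹_› (mul_le_mul_of_nonneg_left (h1.trans ?_) (hr0 i).le)
                (by positivity) (by positivity)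
              gcongr
          _ = _ := by ring
      exact le_of_mul_le_mul_left h3 (by positivity)
    have hD' := congrArg (fun q => (derivative q).eval t) hD
    simp only [derivative_add, derivative_C_mul, eval_add, eval_mul, eval_C, derivative_zero,
      eval_zero] at hD'
    obtain ⟨s₁, hs₁⟩ := hRr 1
    obtain ⟨s₂, hs₂⟩ := hRr 2
    rw [Fin.sum_univ_three] at hs
    set α := a 0 * a 1 * s₂ * (p 1 * r 0 - p 0 * r 1) with hα
    set β := a 0 * a 2 * s₁ * (p 0 * r 2 - p 2 * r 0) with hβ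
    have hrel : α * x 1 = β * x 2 := by
      have h1 : R * (α * x 1) = R * (β * x 2) := by
        have e1 : R * α = a 0 * a 1 * r 2 * (p 1 * r 0 - p 0 * r 1) := by rw [hα, hs₂]; ring
        have e2 : R * β = a 0 * a 2 * r 1 * (p 0 * r 2 - p 2 * r 0) := by
          rw [hβ]; nth_rewrite 1 [hs₁]; ring
        rw [← mul_assoc R α, ← mul_assoc R β, e1, e2]
        linear_combination (a 0 * r 0 * r 1 * r 2) * hD' - (a 0 * p 0 * r 1 * r 2) * hs -
          (a 0 * a 0 * r 1 * r 2) * hp 0 - (a 0 * a 1 * r 0 * r 2) * hp 1 -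
          (a 0 * a 2 * r 0 * r 1) * hp 2
      exact mul_left_cancel₀ hR.ne' h1
    have hα0 : α ≠ 0 := by
      have h1 : p 1 * r 0 - p 0 * r 1 ≠ 0 := by
        intro h1
        apply mul_ne_zero (mul_ne_zero (hr0 0).ne' (hr0 1).ne') hWt
        simp only [wronskian, eval_sub, eval_mul, heval]
        linear_combination (x 0 * x 1) * h1 + (r 0 * x 0) * hp 1 - (r 1 * x 1) * hp 0
      have h2 : s₂ ≠ 0 := by
        rintro rfl
        exact (hr0 2).ne' (by rw [hs₂, mul_zero])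
      exact mul_ne_zero (mul_ne_zero (mul_ne_zero (ha 0) (ha 1)) h2) h1
    have hβ0 : β ≠ 0 := by
      intro h0
      rw [h0, zero_mul] at hrel
      exact mul_ne_zero hα0 (hx 1).ne' hrel
    set B := 2 * V ^ 2 * (r 0 * r 1 * r 2) * H ^ (5 * M) with hB
    have hgen : ∀ (i j l : Fin 3) (c d s : ℤ), |c| ≤ V → |d| ≤ V → r l = R * s →
        r i * r j * r l = r 0 * r 1 * r 2 →
        t * (R * |c * d * s * (p i * r j - p j * r i)|) ≤ B := by
      intro i j l c d s hc hd hl hprod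
      have h1 : t * |p i * r j - p j * r i| ≤ 2 * (r i * r j) * H ^ (5 * M) := by
        have h2 : |p i * r j - p j * r i| ≤ |p i| * r j + |p j| * r i := by
          refine (abs_sub _ _).trans ?_
          rw [abs_mul, abs_mul, abs_of_pos (hr0 i), abs_of_pos (hr0 j)]
        have h3 := mul_le_mul_of_nonneg_right (hpb i) (hr0 j).le
        have h4 := mul_le_mul_of_nonneg_right (hpb j) (hr0 i).le
        have h5 := mul_le_mul_of_nonneg_left h2 ht0.le
        nlinarith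
      have h6 : R * |s| = r l := by
        rw [← abs_of_pos hR, ← abs_mul, ← hl, abs_of_pos (hr0 l)]
      calc t * (R * |c * d * s * (p i * r j - p j * r i)|)
          = |c| * |d| * (R * |s|) * (t * |p i * r j - p j * r i|) := by
            rw [abs_mul, abs_mul, abs_mul]; ring
        _ ≤ V * V * r l * (2 * (r i * r j) * H ^ (5 * M)) := by
            rw [h6]
            have := hr0 l
            gcongr
        _ = 2 * V ^ 2 * (r i * r j * r l) * H ^ (5 * M) := by ring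
        _ = B := by rw [hprod]
    have hαb : t * (R * |α|) ≤ B := hgen 1 0 2 _ _ _ (haV 0) (haV 1) hs₂ (by ring)
    have hβb : t * (R * |β|) ≤ B := hgen 0 2 1 _ _ _ (haV 0) (haV 2) hs₁ (by ring)
    have h2 : |t * x 2| ≤ Q * B := by
      have := (abs_le_gcd_mul hα0 (hx 2).ne' hrel).trans
        (mul_le_mul_of_nonneg_right (hG 1 2 (by decide)) (abs_nonneg _))
      rw [abs_mul, abs_of_pos ht0]
      calc t * |x 2| ≤ t * (Q * R * |α|) := mul_le_mul_of_nonneg_left this ht0.le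
        _ = Q * (t * (R * |α|)) := by ring
        _ ≤ _ := mul_le_mul_of_nonneg_left hαb (by linarith)
    have h1 : |t * x 1| ≤ Q * B := by
      have := (abs_le_gcd_mul hβ0 (hx 1).ne' hrel.symm).trans
        (mul_le_mul_of_nonneg_right (hG 2 1 (by decide)) (abs_nonneg _))
      rw [abs_mul, abs_of_pos ht0]
      calc t * |x 1| ≤ t * (Q * R * |β|) := mul_le_mul_of_nonneg_left this ht0.le
        _ = Q * (t * (R * |β|)) := by ring
        _ ≤ _ := mul_le_mul_of_nonneg_left hβb (by linarith)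
    have h4 := third_le (fun i => t * x i) a ha haV
      (by rw [Fin.sum_univ_three]; linear_combination t * hs) (show (1 : Fin 3) ≠ 2 by decide)
      h1 h2 k
    rw [abs_of_pos (mul_pos ht0 (hx k))] at h4
    have h5 : r 0 * r 1 * r 2 ≤ H ^ (3 * M) * t ^ M := by
      calc r 0 * r 1 * r 2 ≤ (H ^ (3 * N 0) * t ^ N 0) * (H ^ (3 * N 1) * t ^ N 1) *
            (H ^ (3 * N 2) * t ^ N 2) := by
            have := hr 0; have := hr 1; have := hr 2
            have := hr0 0; have := hr0 1; have := hr0 2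
            gcongr
        _ = H ^ (3 * (N 0 + N 1 + N 2)) * t ^ (N 0 + N 1 + N 2) := by ring
        _ ≤ _ := mul_le_mul (pow_le_pow_right₀ hH1 (by omega)) (pow_le_pow_right₀ ht1 hNM)
            (by positivity) (by positivity)
    have h6 : t * t ^ M ≤ (6 * V ^ 3 * Q * H ^ (9 * M)) * t ^ M := by
      calc t * t ^ M ≤ t * (H ^ M * x k) := mul_le_mul_of_nonneg_left hlowk ht0.le
        _ = H ^ M * (t * x k) := by ring
        _ ≤ H ^ M * (2 * V * (Q * (2 * V ^ 2 * (H ^ (3 * M) * t ^ M) * H ^ (5 * M)))) := by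
            refine mul_le_mul_of_nonneg_left (h4.trans ?_) (by positivity)
            rw [hB]
            gcongr
        _ = (4 * V ^ 3 * Q * H ^ (9 * M)) * t ^ M := by ring
        _ ≤ _ := by gcongr; norm_num
    have := le_of_mul_le_mul_right h6 (by positivity)
    linarith

end Pool.Agent.Lib.MP_4ffbf9_nt
end
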