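import Mathlib
import Pool.Agent.Lib.MP_4ffbf9_nt.Core

/-!
Finiteness of the unit equation over the rationals (Mahler), by the method of Thue.
-/

set_option autoImplicit false

namespace Pool.Agent.Lib.MP_4ffbf9_nt

open Polynomial Finset

theorem hsub_pow {t u r : ℤ} (hu : u ≠ 0) {p : ℤ[X]} (hp : p.natDegree ≤ 1) (n : ℕ) :
    hsub t u r n (p ^ n) = hsub t u r 1 p ^ n := by
  induction n with
  | zero => simp [hsub]
  | succ n ih =>
    rw [pow_succ, hsub_mul hu (natDegree_pow_le.trans (by nlinarith)) hp, ih, pow_succ]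

theorem hsub_const (t u r : ℤ) (n : ℕ) : hsub t u r n 1 = C (u ^ n) := by
  rw [hsub, sum_eq_single 0]
  · simp
  · intro b _ hb
    rw [coeff_one, if_neg hb]; simp
  · simp

/-- The Thue step for the forms `T ^ n`, `U ^ n`, `(T + U) ^ n`. -/
theorem sunit_step {a b : ℤ} (ha : 0 < a) (hb : 0 < b) (hab : IsCoprime a b)
    (hbig : 2 ^ (63 * 64) ≤ max a b) {n : ℕ} (hn : 64 ≤ n) (v : Fin 3 → ℤ) (hv : ∀ i, v i ≠ 0)
    (hV : ∀ i, |v i| ≤ max a b ^ (n / 64 + 1))
    (hs : v 0 * a ^ n + v 1 * b ^ n + v 2 * (a + b) ^ n = 0) : False := by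
  set h := max a b with hh
  set K := n / 64 + 1 with hK
  have hah : a ≤ h := le_max_left _ _
  have hbh : b ≤ h := le_max_right _ _
  have h2 : 2 ≤ h := le_trans (by
    calc (2 : ℤ) = 2 ^ 1 := by norm_num
      _ ≤ 2 ^ (63 * 64) := pow_le_pow_right₀ (by norm_num) (by norm_num)) hbig
  have hc : 0 < a + b := by linarith
  have hr : a * (a + b) ≠ 0 := by positivity
  have hE8 : (n : ℤ) + 1 ≤ 2 ^ n := by exact_mod_cast Nat.lt_two_pow_self
  have hE4 : (4 : ℤ) ≤ 2 ^ n := by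
    calc (4 : ℤ) = 2 ^ 2 := by norm_num
      _ ≤ 2 ^ n := pow_le_pow_right₀ (by norm_num) (by omega)
  have hE : (2 : ℤ) ^ (3 * n) = 2 ^ n * 2 ^ n * 2 ^ n := by ring
  have hn0 : (0 : ℤ) ≤ n := Int.natCast_nonneg n
  have hE1 : 4 * (n : ℤ) + 3 ≤ 2 ^ (3 * n) := by rw [hE]; nlinarith
  have hKn : (K : ℤ) ≤ n := by exact_mod_cast (by omega : K ≤ n)
  have hE3 : (2 : ℤ) ^ n ≤ 2 ^ (3 * n) := pow_le_pow_right₀ (by norm_num) (by omega)
  have hEK : ((2 : ℤ) ^ (3 * n)) ^ 21 < h ^ K := by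
    calc ((2 : ℤ) ^ (3 * n)) ^ 21 = 2 ^ (63 * n) := by rw [← pow_mul]; congr 1; ring
      _ < 2 ^ (63 * 64 * K) := pow_lt_pow_right₀ (by norm_num) (by omega)
      _ = (2 ^ (63 * 64)) ^ K := by rw [← pow_mul]
      _ ≤ h ^ K := pow_le_pow_left₀ (by positivity) hbig K
  have hX1 : (X + 1 : ℤ[X]).natDegree ≤ 1 := by
    rw [← C_1, natDegree_X_add_C]
  have e0 : hsub a b (a * (a + b)) n (X ^ n) = C (a ^ n) * (C 1 + C (a + b) * X) ^ n := by
    rw [hsub_pow hb.ne' natDegree_X_le, C_pow, ← mul_pow]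
    congr 1
    simp [hsub, coeff_X]
    ring
  have e2 : hsub a b (a * (a + b)) n ((X + 1) ^ n) = C ((a + b) ^ n) * (C 1 + C a * X) ^ n := by
    rw [hsub_pow hb.ne' hX1, C_pow, ← mul_pow]
    congr 1
    simp [hsub, sum_range_succ, coeff_X, coeff_one]
    ring
  have hlin : ∀ s : ℤ, |s| ≤ |a * (a + b)| → ∀ k,
      |((C 1 + C s * X) ^ n).coeff k| ≤ 2 ^ (3 * n) * |a * (a + b)| ^ k := by
    intro s hs k
    refine (abs_coeff_lin_pow_le (h := 1) (by simp) le_rfl n k).trans ?_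
    rw [mul_one]
    exact mul_le_mul hE3 (pow_le_pow_left₀ (abs_nonneg _) hs k) (by positivity) (by positivity)
  have hcop2 : IsCoprime a (a + b) := by
    have := hab.add_mul_left_right 1
    rwa [mul_one, add_comm] at this
  have hcop3 : IsCoprime b (a + b) := by
    have := hab.symm.add_mul_left_right 1
    rwa [mul_one] at this
  have main := key_uniform (t := a) (u := b) (r := a * (a + b)) (h := h) hb.ne' ha.ne' hr hab
    (by rwa [abs_of_pos ha]) (by rwa [abs_of_pos hb])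
    (by rw [abs_of_pos ha, abs_of_pos hb]; exact (max_choice a b).imp le_of_eq le_of_eq)
    ![X ^ n, 1, (X + 1) ^ n] ![(C 1 + C (a + b) * X) ^ n, 1, (C 1 + C a * X) ^ n]
    n ((3 * n + 3) / 4) K (by omega) (by omega) (2 ^ (3 * n)) hE1 (by linarith) hE3 hEK
    (by
      intro i
      fin_cases i
      · simp
      · simp
      · exact natDegree_pow_le.trans (by nlinarith))
    (by
      intro i
      fin_cases i
      · refine (nrm_pow_le _ _).trans ?_
        rw [nrm_X, one_pow]; linarith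
      · simp only [Fin.mk_one, Matrix.cons_val_one, Matrix.cons_val_zero, nrm_one]; linarith
      · refine (nrm_pow_le _ _).trans (le_trans ?_ hE3)
        refine pow_le_pow_left₀ (nrm_nonneg _) ((nrm_add_le _ _).trans ?_) n
        simp)
    ![a ^ n, b ^ n, (a + b) ^ n]
    (by
      intro i
      fin_cases i
      · exact pow_ne_zero _ ha.ne'
      · exact pow_ne_zero _ hb.ne'
      · exact pow_ne_zero _ hc.ne')
    (by
      intro i
      fin_cases i
      · exact e0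
      · simp [hsub_const]
      · exact e2)
    (by
      intro i
      fin_cases i
      · change (hsub a b (a * (a + b)) n (X ^ n)).coeff 0 = a ^ n
        rw [e0, coeff_zero_eq_eval_zero]; simp
      · change (hsub a b (a * (a + b)) n 1).coeff 0 = b ^ n
        rw [hsub_const, coeff_C_zero]
      · change (hsub a b (a * (a + b)) n ((X + 1) ^ n)).coeff 0 = (a + b) ^ n
        rw [e2, coeff_zero_eq_eval_zero]; simp)
    (by
      intro i k
      fin_cases i
      · refine hlin _ ?_ k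
        rw [abs_of_pos hc, abs_of_pos (mul_pos ha hc)]; nlinarith
      · change |(1 : ℤ[X]).coeff k| ≤ _
        rw [coeff_one]
        split_ifs with hk
        · rw [hk]; simp; linarith
        · rw [abs_zero]; positivity
      · refine hlin _ ?_ k
        rw [abs_of_pos ha, abs_of_pos (mul_pos ha hc)]; nlinarith)
    v (h ^ K) hv hV (by rw [Fin.sum_univ_three]; exact hs) 1
    (by
      have g : ∀ x y : ℤ, IsCoprime x y → (Int.gcd (x ^ n) (y ^ n) : ℤ) ≤ 1 := by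
        intro x y hxy
        rw [Int.isCoprime_iff_gcd_eq_one.1 hxy.pow]; simp
      intro i j hij
      fin_cases i <;> fin_cases j
      · exact absurd rfl hij
      · exact g _ _ hab
      · exact g _ _ hcop2
      · exact g _ _ hab.symm
      · exact absurd rfl hij
      · exact g _ _ hcop3
      · exact g _ _ hcop2.symm
      · exact g _ _ hcop3.symm
      · exact absurd rfl hij) 2
  change |(a + b) ^ n| ≤ _ at main
  have hlow : h ^ n ≤ |(a + b) ^ n| := by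
    rw [abs_of_pos (pow_pos hc n)]
    exact pow_le_pow_left₀ (by linarith) (max_le (by linarith) (by linarith)) n
  have hr3 : |a * (a + b)| ^ K ≤ (h ^ 3) ^ K := by
    refine pow_le_pow_left₀ (abs_nonneg _) ?_ K
    rw [abs_of_pos (mul_pos ha hc)]
    have : a + b ≤ h * h := by nlinarith
    calc a * (a + b) ≤ h * (h * h) := mul_le_mul hah this hc.le (by linarith)
      _ = h ^ 3 := by ring
  have hE20 : 4 * ((2 : ℤ) ^ (3 * n)) ^ 20 ≤ h ^ K := by
    refine le_trans ?_ hEK.le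
    rw [pow_succ _ 20, mul_comm]
    exact mul_le_mul_of_nonneg_left (by linarith) (by positivity)
  have hfin : h ^ n ≤ h ^ (6 * K + (3 * n + 3) / 4) := by
    calc h ^ n ≤ 4 * (h ^ K) ^ 2 * 1 * (2 ^ (3 * n)) ^ 20 * h ^ ((3 * n + 3) / 4) *
          |a * (a + b)| ^ K := hlow.trans main
      _ = (4 * (2 ^ (3 * n)) ^ 20) * ((h ^ K) ^ 2 * h ^ ((3 * n + 3) / 4)) * |a * (a + b)| ^ K := by
          ring
      _ ≤ h ^ K * ((h ^ K) ^ 2 * h ^ ((3 * n + 3) / 4)) * (h ^ 3) ^ K := by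
          gcongr
      _ = h ^ (6 * K + (3 * n + 3) / 4) := by ring
  have := (pow_le_pow_iff_right₀ (by linarith : (1 : ℤ) < h)).1 hfin
  omega

theorem log_compare {c₁ c₂ q₁ q₂ n D : ℕ} (hc₁ : 2 ≤ c₁) (hq₁ : 0 < q₁) (hq₂ : 0 < q₂)
    (hqc : q₁ ≤ c₁) (h1 : c₁ ^ n ≤ c₂) (h2 : c₂ < c₁ ^ (n + 1)) (hD : D + 1 ≤ n)
    (hlog : Nat.log c₁ (q₁ ^ D) = Nat.log c₂ (q₂ ^ D)) :
    (q₁ ^ n) ^ D ≤ c₁ ^ (2 * n) * q₂ ^ D ∧ q₂ ^ D ≤ c₁ ^ (2 * n) * (q₁ ^ n) ^ D := by
  have hc₂ : 1 < c₂ := lt_of_lt_of_le (Nat.one_lt_pow (by omega) (by omega)) h1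
  set j := Nat.log c₁ (q₁ ^ D) with hj
  have a1 : c₁ ^ j ≤ q₁ ^ D := Nat.pow_log_le_self _ (by positivity)
  have a2 : q₁ ^ D < c₁ ^ (j + 1) := Nat.lt_pow_succ_log_self (by omega) _
  have a3 : c₂ ^ j ≤ q₂ ^ D := by rw [hlog]; exact Nat.pow_log_le_self _ (by positivity)
  have a4 : q₂ ^ D < c₂ ^ (j + 1) := by rw [hlog]; exact Nat.lt_pow_succ_log_self hc₂ _
  have hjD : j ≤ D := by
    have : c₁ ^ j ≤ c₁ ^ D := a1.trans (Nat.pow_le_pow_left hqc D)
    exact (Nat.pow_le_pow_iff_right (by omega)).1 this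
  constructor
  · calc (q₁ ^ n) ^ D = (q₁ ^ D) ^ n := by rw [← pow_mul, ← pow_mul, mul_comm]
      _ ≤ (c₁ ^ (j + 1)) ^ n := Nat.pow_le_pow_left a2.le n
      _ = c₁ ^ n * (c₁ ^ n) ^ j := by ring
      _ ≤ c₁ ^ (2 * n) * q₂ ^ D :=
          Nat.mul_le_mul (Nat.pow_le_pow_right (by omega) (by omega))
            ((Nat.pow_le_pow_left h1 j).trans a3)
  · calc q₂ ^ D ≤ (c₁ ^ (n + 1)) ^ (j + 1) := a4.le.trans (Nat.pow_le_pow_left h2.le _)
      _ = c₁ ^ (n + j + 1) * (c₁ ^ j) ^ n := by ring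
      _ ≤ c₁ ^ (2 * n) * (q₁ ^ D) ^ n :=
          Nat.mul_le_mul (Nat.pow_le_pow_right (by omega) (by omega)) (Nat.pow_le_pow_left a1 n)
      _ = c₁ ^ (2 * n) * (q₁ ^ n) ^ D := by rw [← pow_mul, ← pow_mul, mul_comm D n]

theorem pow_sub_le {p e f D B : ℕ} (hB : 1 ≤ B) (hf : 0 < p ^ f)
    (h : (p ^ e) ^ D ≤ B * (p ^ f) ^ D) : (p ^ (e - f)) ^ D ≤ B := by
  rcases le_total e f with hef | hef
  · rw [Nat.sub_eq_zero_of_le hef]; simpa using hB
  · have h1 : (p ^ e) ^ D = (p ^ (e - f)) ^ D * (p ^ f) ^ D := by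
      rw [← mul_pow, ← pow_add, Nat.sub_add_cancel hef]
    rw [h1] at h
    exact Nat.le_of_mul_le_mul_right h (by positivity)

theorem eq_prod_of_subset {x : ℕ} (hx : x ≠ 0) {S : Finset ℕ} (hS : x.primeFactors ⊆ S) :
    x = ∏ p ∈ S, p ^ x.factorization p := by
  conv_lhs => rw [← Nat.prod_factorization_pow_eq_self hx]
  exact Finsupp.prod_of_support_subset _ (by simpa using hS) _ (fun _ _ => pow_zero _)

theorem exists_ratio {S : Finset ℕ} {x₁ x₂ c₁ c₂ n D : ℕ} (hx₁ : 0 < x₁) (hx₂ : 0 < x₂)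
    (hS₁ : x₁.primeFactors ⊆ S) (hS₂ : x₂.primeFactors ⊆ S) (hc₁ : 2 ≤ c₁) (hxc : x₁ ≤ c₁)
    (h1 : c₁ ^ n ≤ c₂) (h2 : c₂ < c₁ ^ (n + 1)) (hD : D + 1 ≤ n)
    (hlog : ∀ p ∈ S, Nat.log c₁ ((p ^ x₁.factorization p) ^ D) =
      Nat.log c₂ ((p ^ x₂.factorization p) ^ D)) :
    ∃ α β : ℕ, 0 < α ∧ 0 < β ∧ x₂ * β = x₁ ^ n * α ∧ α ^ D ≤ c₁ ^ (2 * n * S.card) ∧
      β ^ D ≤ c₁ ^ (2 * n * S.card) := by
  have hq : ∀ x p : ℕ, 0 < x → 0 < p ^ x.factorization p := fun x p hx =>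
    Nat.pos_of_dvd_of_pos (Nat.ordProj_dvd x p) hx
  have hB : 1 ≤ c₁ ^ (2 * n) := Nat.one_le_pow _ _ (by omega)
  have hcmp := fun p (hp : p ∈ S) => log_compare hc₁ (hq x₁ p hx₁) (hq x₂ p hx₂)
    ((Nat.le_of_dvd hx₁ (Nat.ordProj_dvd x₁ p)).trans hxc) h1 h2 hD (hlog p hp)
  have hmain : x₂ * ∏ p ∈ S, p ^ (x₁.factorization p * n - x₂.factorization p) =
      x₁ ^ n * ∏ p ∈ S, p ^ (x₂.factorization p - x₁.factorization p * n) := by
    conv_lhs => rw [eq_prod_of_subset hx₂.ne' hS₂]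
    conv_rhs => rw [eq_prod_of_subset hx₁.ne' hS₁]
    rw [← eq_prod_of_subset hx₂.ne' hS₂, ← eq_prod_of_subset hx₁.ne' hS₁]
    nth_rewrite 1 [eq_prod_of_subset hx₂.ne' hS₂]
    nth_rewrite 2 [eq_prod_of_subset hx₁.ne' hS₁]
    rw [← prod_pow, ← prod_mul_distrib, ← prod_mul_distrib]
    refine prod_congr rfl fun p _ => ?_
    rw [← pow_mul, ← pow_add, ← pow_add]
    congr 1
    omega
  have hpos : ∀ p e f : ℕ, 0 < p ^ e → 0 < p ^ (e - f) := fun p e f h =>
    Nat.pos_of_dvd_of_pos (pow_dvd_pow p (Nat.sub_le e f)) h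
  refine ⟨∏ p ∈ S, p ^ (x₂.factorization p - x₁.factorization p * n),
    ∏ p ∈ S, p ^ (x₁.factorization p * n - x₂.factorization p),
    prod_pos fun p _ => hpos _ _ _ (hq x₂ p hx₂),
    prod_pos fun p _ => hpos _ _ _ (by rw [pow_mul]; exact pow_pos (hq x₁ p hx₁) n), hmain, ?_, ?_⟩
  · rw [← prod_pow, pow_mul, ← prod_const]
    refine prod_le_prod' fun p hp => pow_sub_le hB
      (by rw [pow_mul]; exact pow_pos (hq x₁ p hx₁) n) ?_
    rw [pow_mul p]; exact (hcmp p hp).2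
  · rw [← prod_pow, pow_mul, ← prod_const]
    refine prod_le_prod' fun p hp => pow_sub_le hB (hq x₂ p hx₂) ?_
    rw [pow_mul p]; exact (hcmp p hp).1

/-- Mahler: finitely many coprime `a + b = c` built from a finite set of primes. -/
theorem sunit_finite (S : Finset ℕ) :
    {p : ℕ × ℕ | 0 < p.1 ∧ 0 < p.2 ∧ Nat.Coprime p.1 p.2 ∧ p.1.primeFactors ⊆ S ∧
      p.2.primeFactors ⊆ S ∧ (p.1 + p.2).primeFactors ⊆ S}.Finite := by
  classical
  set D := 12 * 64 * (S.card + 1) with hD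
  let comp : ℕ × ℕ → Fin 3 → ℕ := fun p => ![p.1, p.2, p.1 + p.2]
  let κ : ℕ × ℕ → (Fin 3 × S → ℕ) := fun p z =>
    Nat.log (p.1 + p.2) (((z.2 : ℕ) ^ (comp p z.1).factorization z.2) ^ D)
  have hbox : ∀ B : ℕ, {p : ℕ × ℕ | p.1 + p.2 ≤ B}.Finite := fun B =>
    ((Set.finite_le_nat B).prod (Set.finite_le_nat B)).subset fun p hp =>
      ⟨le_trans (Nat.le_add_right _ _) hp, le_trans (Nat.le_add_left _ _) hp⟩
  have hcomp : ∀ p : ℕ × ℕ, 0 < p.1 → 0 < p.2 → ∀ i, 0 < comp p i ∧ comp p i ≤ p.1 + p.2 := by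
    intro p h1 h2 i
    fin_cases i <;> simp [comp] <;> omega
  refine Set.Finite.of_finite_fibers κ ?_ ?_
  · refine (Set.Finite.pi' (fun _ : Fin 3 × S => Set.finite_le_nat D)).subset ?_
    rintro _ ⟨p, ⟨h1, h2, -⟩, rfl⟩ z
    have h3 := hcomp p h1 h2 z.1
    have h4 : ((z.2 : ℕ) ^ (comp p z.1).factorization z.2) ^ D ≤ (p.1 + p.2) ^ D :=
      Nat.pow_le_pow_left ((Nat.le_of_dvd h3.1 (Nat.ordProj_dvd _ _)).trans h3.2) D
    refine (Nat.log_mono_right h4).trans ?_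
    rw [Nat.log_pow (by omega)]
  · intro f _
    by_cases hex : ∃ p : ℕ × ℕ, (p ∈ {p : ℕ × ℕ | 0 < p.1 ∧ 0 < p.2 ∧ Nat.Coprime p.1 p.2 ∧
        p.1.primeFactors ⊆ S ∧ p.2.primeFactors ⊆ S ∧ (p.1 + p.2).primeFactors ⊆ S} ∩ κ ⁻¹' {f}) ∧
        2 ^ (63 * 64) ≤ max p.1 p.2
    · obtain ⟨p, ⟨⟨h1, h2, h3, h4, h5, h6⟩, hf⟩, hbig⟩ := hex
      refine (hbox ((p.1 + p.2) ^ (D + 64))).subset ?_
      rintro q ⟨⟨g1, g2, -, g4, g5, g6⟩, hg⟩
      by_contra hq
      simp only [Set.mem_ofPred_eq, not_le] at hq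
      have hκ : κ p = κ q := by
        rw [Set.mem_preimage, Set.mem_singleton_iff] at hf hg
        rw [hf, hg]
      have hc : 2 ≤ p.1 + p.2 := by omega
      set n := Nat.log (p.1 + p.2) (q.1 + q.2) with hn
      have hn1 : (p.1 + p.2) ^ n ≤ q.1 + q.2 := Nat.pow_log_le_self _ (by omega)
      have hn2 : q.1 + q.2 < (p.1 + p.2) ^ (n + 1) := Nat.lt_pow_succ_log_self (by omega) _
      have hn3 : D + 64 ≤ n := by
        have := (Nat.pow_lt_pow_iff_right (by omega : 1 < p.1 + p.2)).1 (hq.trans hn2)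
        omega
      have hS : ∀ r : ℕ × ℕ, r.1.primeFactors ⊆ S → r.2.primeFactors ⊆ S →
          (r.1 + r.2).primeFactors ⊆ S → ∀ i, (comp r i).primeFactors ⊆ S := by
        intro r a b c i
        fin_cases i
        · exact a
        · exact b
        · exact c
      have hrat := fun i : Fin 3 => exists_ratio (S := S) (D := D) (hcomp p h1 h2 i).1
        (hcomp q g1 g2 i).1 (hS p h4 h5 h6 i) (hS q g4 g5 g6 i) hc (hcomp p h1 h2 i).2 hn1 hn2
        (by omega) (fun s hs => congrFun hκ (i, ⟨s, hs⟩))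
      choose α β hα hβ he hαb hβb using hrat
      set h := max p.1 p.2 with hh
      have hh2 : 2 ≤ h := le_trans (by
        calc 2 = 2 ^ 1 := by norm_num
          _ ≤ 2 ^ (63 * 64) := Nat.pow_le_pow_right (by norm_num) (by norm_num)) hbig
      have hch : p.1 + p.2 ≤ h ^ 2 := by
        have := le_max_left p.1 p.2
        have := le_max_right p.1 p.2
        nlinarith
      have hprod : ∀ i j k, α i * β j * β k ≤ h ^ (n / 64 + 1) := by
        intro i j k
        have e1 : (α i * β j * β k) ^ D ≤ (h ^ (n / 64 + 1)) ^ D := by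
          calc (α i * β j * β k) ^ D = α i ^ D * β j ^ D * β k ^ D := by rw [mul_pow, mul_pow]
            _ ≤ (p.1 + p.2) ^ (2 * n * S.card) * (p.1 + p.2) ^ (2 * n * S.card) *
                (p.1 + p.2) ^ (2 * n * S.card) :=
                Nat.mul_le_mul (Nat.mul_le_mul (hαb i) (hβb j)) (hβb k)
            _ = (p.1 + p.2) ^ (6 * n * S.card) := by ring
            _ ≤ (h ^ 2) ^ (6 * n * S.card) := Nat.pow_le_pow_left hch _
            _ = h ^ (12 * S.card * n) := by rw [← pow_mul]; congr 1; ring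
            _ ≤ h ^ ((n / 64 + 1) * D) := by
                refine Nat.pow_le_pow_right (by omega) ?_
                have : n ≤ 64 * (n / 64 + 1) := by omega
                calc 12 * S.card * n ≤ 12 * (S.card + 1) * (64 * (n / 64 + 1)) :=
                      Nat.mul_le_mul (by omega) this
                  _ = (n / 64 + 1) * D := by rw [hD]; ring
            _ = (h ^ (n / 64 + 1)) ^ D := by rw [pow_mul]
        exact (Nat.pow_le_pow_iff_left (by omega)).1 e1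
      have hmax : max (p.1 : ℤ) (p.2 : ℤ) = (h : ℤ) := by rw [hh]; push_cast; rfl
      refine sunit_step (a := p.1) (b := p.2) (by exact_mod_cast h1) (by exact_mod_cast h2)
        (Nat.isCoprime_iff_coprime.2 h3) (by rw [hmax]; exact_mod_cast hbig) (n := n) (by omega)
        ![((α 0 * β 1 * β 2 : ℕ) : ℤ), ((α 1 * β 0 * β 2 : ℕ) : ℤ), -((α 2 * β 0 * β 1 : ℕ) : ℤ)]
        ?_ ?_ ?_
      · intro i
        have := hα 0; have := hα 1; have := hα 2; have := hβ 0; have := hβ 1; have := hβ 2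
        fin_cases i <;> simp <;> omega
      · intro i
        rw [hmax]
        fin_cases i
        · change |((α 0 * β 1 * β 2 : ℕ) : ℤ)| ≤ _
          rw [Nat.abs_cast]; exact_mod_cast hprod 0 1 2
        · change |((α 1 * β 0 * β 2 : ℕ) : ℤ)| ≤ _
          rw [Nat.abs_cast]; exact_mod_cast hprod 1 0 2
        · change |-((α 2 * β 0 * β 1 : ℕ) : ℤ)| ≤ _
          rw [abs_neg, Nat.abs_cast]; exact_mod_cast hprod 2 0 1
      · have e0 : (q.1 : ℤ) * β 0 = (p.1 : ℤ) ^ n * α 0 := by exact_mod_cast he 0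
        have e1 : (q.2 : ℤ) * β 1 = (p.2 : ℤ) ^ n * α 1 := by exact_mod_cast he 1
        have e2 : ((q.1 : ℤ) + q.2) * β 2 = ((p.1 : ℤ) + p.2) ^ n * α 2 := by exact_mod_cast he 2
        change ((α 0 * β 1 * β 2 : ℕ) : ℤ) * _ + ((α 1 * β 0 * β 2 : ℕ) : ℤ) * _ +
          -((α 2 * β 0 * β 1 : ℕ) : ℤ) * _ = 0
        push_cast
        linear_combination -(β 1 * β 2 : ℤ) * e0 - (β 0 * β 2 : ℤ) * e1 + (β 0 * β 1 : ℤ) * e2
    · push Not at hex
      refine (hbox (2 * 2 ^ (63 * 64))).subset fun q hq => ?_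
      have h1 := hex q hq
      have h2 := le_max_left q.1 q.2
      have h3 := le_max_right q.1 q.2
      simp only [Set.mem_ofPred_eq]
      generalize 2 ^ (63 * 64) = B at *
      omega

end Pool.Agent.Lib.MP_4ffbf9_nt
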