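import Mathlib
import Pool.Agent.Lib.MP_4ffbf9_nt.Core
import Pool.Agent.Lib.MP_4ffbf9_nt.SUnit

/-!
Products whose base is a value of a small polynomial: the facts used by the core lemmas.
-/

set_option autoImplicit false

namespace Pool.Agent.Lib.MP_4ffbf9_nt

open Polynomial Finset

theorem C_eval_dvd_comp (φ : ℤ[X]) (t r : ℤ) (h : φ.eval t ∣ r) :
    C (φ.eval t) ∣ φ.comp (C t + C r * X) := by
  have h1 := sub_dvd_eval_sub (C t + C r * X) (C t) (φ.map C)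
  rw [add_sub_cancel_left, eval_map, eval_map] at h1
  change C r * X ∣ φ.comp (C t + C r * X) - φ.comp (C t) at h1
  rw [comp_C] at h1
  have h2 : C (φ.eval t) ∣ C r * X := (map_dvd C h).mul_right _
  have h3 := dvd_add (h2.trans h1) (dvd_refl (C (φ.eval t)))
  rwa [sub_add_cancel] at h3

theorem nrm_add_C_le {f : ℤ[X]} {H j : ℤ} (hH : 2 ≤ H) (hd : 0 < f.natDegree)
    (hf : ∀ i, |f.coeff i| ≤ H) (hj : |j| ≤ H) : nrm (f + C j) ≤ H ^ (3 * f.natDegree) := by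
  have h1 : nrm (f + C j) ≤ (f.natDegree + 1) * H + H :=
    (nrm_add_le _ _).trans (add_le_add (nrm_le_of_coeff f le_rfl hf) (by rwa [nrm_C]))
  have h2 := two_pow_ge f.natDegree
  have h3 : (2 : ℤ) ^ f.natDegree ≤ H ^ f.natDegree := pow_le_pow_left₀ (by norm_num) hH _
  have h4 : H ^ f.natDegree * H ^ 2 ≤ H ^ (3 * f.natDegree) := by
    rw [← pow_add]; exact pow_le_pow_right₀ (by linarith) (by omega)
  have h5 : (0 : ℤ) ≤ f.natDegree := Int.natCast_nonneg _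
  have h6 : ((f.natDegree : ℤ) + 1) * (2 * H) ≤ H ^ f.natDegree * H ^ 2 :=
    mul_le_mul (h2.trans h3) (by nlinarith) (by linarith) (by positivity)
  nlinarith

theorem prod_facts {n b s H : ℕ} {t : ℤ} (x : Fin n → ℕ) (f : ℤ[X]) (hb : 0 < b)
    (hx : ∀ i, b ≤ x i ∧ x i ≤ b + s) (hH : 2 ≤ H) (hs : s ≤ H) (hd : 0 < f.natDegree)
    (hf : ∀ i, |f.coeff i| ≤ H) (hft : f.eval t = b)
    (hbig : 2 * (H : ℤ) ^ (3 * f.natDegree) ≤ t) :
    ∃ (P : ℤ[X]) (r : ℤ), P.natDegree ≤ n * f.natDegree ∧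
      nrm P ≤ (H : ℤ) ^ (3 * (n * f.natDegree)) ∧ P.eval t = ((∏ i, x i : ℕ) : ℤ) ∧
      t ^ (n * f.natDegree) ≤ 2 ^ (n * f.natDegree) * ((∏ i, x i : ℕ) : ℤ) ∧ 0 < r ∧
      r ≤ (H : ℤ) ^ (3 * ((1 + s) * f.natDegree)) * t ^ ((1 + s) * f.natDegree) ∧
      (∀ r', r ∣ r' → C ((∏ i, x i : ℕ) : ℤ) ∣ P.comp (C t + C r' * X)) ∧
      ((∏ i, x i : ℕ) : ℤ) ∣ r * (derivative P).eval t ∧
      ∀ p : ℕ, p.Prime → p ∣ ∏ i, x i → (p : ℤ) ∣ r := by
  have hH' : (2 : ℤ) ≤ H := by exact_mod_cast hH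
  have hs' : (s : ℤ) ≤ H := by exact_mod_cast hs
  have hb' : (0 : ℤ) < b := by exact_mod_cast hb
  have ht1 : 1 ≤ t := by
    have : (1 : ℤ) ≤ (H : ℤ) ^ (3 * f.natDegree) := one_le_pow₀ (by linarith)
    linarith
  set d := f.natDegree with hd'
  let φ : Fin n → ℤ[X] := fun i => f + C ((x i : ℤ) - b)
  have hφe : ∀ i, (φ i).eval t = x i := fun i => by simp [φ, hft]
  have hφd : ∀ i, (φ i).natDegree = d := fun i => natDegree_add_C
  have hφn : ∀ i, nrm (φ i) ≤ (H : ℤ) ^ (3 * d) := by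
    intro i
    refine nrm_add_C_le hH' hd hf ?_
    have h1 : (b : ℤ) ≤ x i := by exact_mod_cast (hx i).1
    have h2 : (x i : ℤ) ≤ b + s := by exact_mod_cast (hx i).2
    rw [abs_le]; constructor <;> linarith
  set r : ℤ := ∏ j ∈ range (1 + s), ((b : ℤ) + j) with hr
  have hxr : ∀ i, (x i : ℤ) ∣ r := by
    intro i
    have h1 : (x i : ℤ) = b + ((x i - b : ℕ) : ℤ) := by
      have := (hx i).1
      push_cast [this]; ring
    rw [h1]
    exact dvd_prod_of_mem _ (mem_range.2 (by have := (hx i).2; omega))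
  have hcast : ((∏ i, x i : ℕ) : ℤ) = ∏ i, (φ i).eval t := by
    rw [Nat.cast_prod]; exact prod_congr rfl fun i _ => (hφe i).symm
  refine ⟨∏ i, φ i, r, ?_, ?_, ?_, ?_, ?_, ?_, ?_, ?_, ?_⟩
  · refine (natDegree_prod_le _ _).trans ?_
    simp [hφd]
  · refine (nrm_prod_le _ _).trans ((prod_le_prod (fun i _ => nrm_nonneg _)
      (fun i _ => hφn i)).trans (le_of_eq ?_))
    rw [prod_const, card_univ, Fintype.card_fin, ← pow_mul]; congr 1; ring
  · rw [hcast, eval_prod]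
  · have h1 : ∀ i, t ^ d ≤ 2 ^ d * (x i : ℤ) := by
      intro i
      have h0 : φ i ≠ 0 := by
        intro h0
        have := hφd i
        rw [h0, natDegree_zero] at this
        omega
      have h2 := pow_le_two_mul_abs_eval (φ i) h0 (t := t) (by linarith [hφn i])
      rw [hφd, hφe, Nat.abs_cast] at h2
      refine h2.trans (mul_le_mul_of_nonneg_right ?_ (Int.natCast_nonneg _))
      calc (2 : ℤ) = 2 ^ 1 := by norm_num
        _ ≤ 2 ^ d := pow_le_pow_right₀ (by norm_num) hd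
    calc t ^ (n * d) = ∏ _i : Fin n, t ^ d := by
          rw [prod_const, card_univ, Fintype.card_fin, ← pow_mul, mul_comm]
      _ ≤ ∏ i, 2 ^ d * (x i : ℤ) := prod_le_prod (fun _ _ => by positivity) fun i _ => h1 i
      _ = _ := by
          rw [prod_mul_distrib, prod_const, card_univ, Fintype.card_fin, ← pow_mul, mul_comm d,
            Nat.cast_prod]
  · exact prod_pos fun j _ => by positivity
  · have h1 : ∀ j ∈ range (1 + s), (b : ℤ) + j ≤ (H : ℤ) ^ (3 * d) * t ^ d := by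
      intro j hj
      have hj' : (j : ℤ) ≤ s := by
        have := mem_range.1 hj
        exact_mod_cast (by omega : j ≤ s)
      have h2 := abs_eval_le (f + C (j : ℤ)) (n := d) natDegree_add_C.le (t := t) (R := t)
        (by rw [abs_of_pos (by linarith)]) ht1
      rw [eval_add, eval_C, hft, abs_of_pos (by positivity)] at h2
      refine h2.trans (mul_le_mul_of_nonneg_right (nrm_add_C_le hH' hd hf ?_) (by positivity))
      rw [Nat.abs_cast]; linarith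
    refine (prod_le_prod (fun j _ => by positivity) h1).trans (le_of_eq ?_)
    rw [prod_const, card_range, mul_pow, ← pow_mul, ← pow_mul]
    congr 2 <;> ring
  · intro r' hr'
    rw [hcast, map_prod, Polynomial.prod_comp]
    exact prod_dvd_prod_of_dvd _ _ fun i _ =>
      C_eval_dvd_comp _ _ _ (by rw [hφe]; exact (hxr i).trans hr')
  · rw [hcast]
    have : ∀ S : Finset (Fin n), ∏ i ∈ S, (φ i).eval t ∣ r * (derivative (∏ i ∈ S, φ i)).eval t := by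
      intro S
      induction S using Finset.induction_on with
      | empty => simp
      | insert a S ha ih =>
        rw [prod_insert ha, prod_insert ha, derivative_mul, eval_add (p := _ * _), eval_mul,
          eval_mul, mul_add, eval_prod]
        refine dvd_add ?_ ?_
        · rw [← mul_assoc]
          exact mul_dvd_mul (Dvd.dvd.mul_right (by rw [hφe]; exact hxr a) _) dvd_rfl
        · rw [mul_left_comm]
          exact mul_dvd_mul dvd_rfl ih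
    exact this univ
  · intro p hp hpx
    obtain ⟨i, -, hi⟩ := (Prime.dvd_finsetProd_iff hp.prime _).1 hpx
    exact (Int.natCast_dvd_natCast.2 hi).trans (hxr i)

theorem prod_primes_dvd_int {T : Finset ℕ} (hT : ∀ p ∈ T, p.Prime) {r : ℤ}
    (h : ∀ p ∈ T, (p : ℤ) ∣ r) : ((∏ p ∈ T, p : ℕ) : ℤ) ∣ r := by
  rw [Int.natCast_dvd]
  exact Finset.prod_primes_dvd _ (fun p hp => (hT p hp).prime)
    (fun p hp => Int.natCast_dvd.1 (h p hp))

theorem aux_const {V Q t : ℤ} (hV : 1 ≤ V) (hQ : 1 ≤ Q) (ht : (6 * V ^ 3 * Q) ^ 2 < t) :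
    1 ≤ 6 * V ^ 3 * Q ∧ 4 * V ^ 2 * Q ≤ t := by
  have h0 : 1 ≤ V ^ 3 := one_le_pow₀ hV
  have h1 : V ^ 2 ≤ V ^ 3 := pow_le_pow_right₀ hV (by norm_num)
  have h2 : 4 * V ^ 2 * Q ≤ 6 * V ^ 3 * Q := by
    have : 0 ≤ V ^ 2 := by positivity
    nlinarith
  have h3 : 1 ≤ 6 * V ^ 3 * Q := by nlinarith
  exact ⟨h3, by nlinarith⟩

theorem aux_sigma {sX sY sZ nX nY nZ dX dY dZ M : ℕ} (hnX : 0 < nX) (hnY : 0 < nY) (hnZ : 0 < nZ)
    (hσ : (1 + (sX : ℝ)) / nX + (1 + (sY : ℝ)) / nY + (1 + (sZ : ℝ)) / nZ ≤ 1)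
    (hX : nX * dX ≤ M) (hY : nY * dY ≤ M) (hZ : nZ * dZ ≤ M) :
    (1 + sX) * dX + (1 + sY) * dY + (1 + sZ) * dZ ≤ M := by
  have e : ∀ (s n d : ℕ), 0 < n → n * d ≤ M →
      (((1 + s) * d : ℕ) : ℝ) ≤ (1 + (s : ℝ)) / n * M := by
    intro s n d hn hnd
    have hn' : (0 : ℝ) < n := by exact_mod_cast hn
    have h1 : ((n * d : ℕ) : ℝ) ≤ M := by exact_mod_cast hnd
    rw [div_mul_eq_mul_div, le_div_iff₀ hn']
    push_cast at h1 ⊢
    have : (0 : ℝ) ≤ 1 + s := by positivity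
    nlinarith
  have e0 := e sX nX _ hnX hX
  have e1 := e sY nY _ hnY hY
  have e2 := e sZ nZ _ hnZ hZ
  have e3 : (((1 + sX) * dX + (1 + sY) * dY + (1 + sZ) * dZ : ℕ) : ℝ) ≤ M := by
    have h0 : (0 : ℝ) ≤ M := Nat.cast_nonneg _
    have h1 := mul_le_mul_of_nonneg_right hσ h0
    rw [Nat.cast_add, Nat.cast_add]
    linarith
  exact_mod_cast e3

/-- No solutions with a large parameter. -/
theorem large_false {A B D q H X Y Z : ℕ} {t : ℤ} (hA : 0 < A) (hB : 0 < B) (hD : 0 < D)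
    (heq : A * X + B * Y = D * Z)
    (hq : Nat.gcd X Y ≤ q * ∏ p ∈ (Nat.gcd X Y).primeFactors, p)
    {nX nY nZ bX bY bZ sX sY sZ : ℕ} (x : Fin nX → ℕ) (y : Fin nY → ℕ) (z : Fin nZ → ℕ)
    (hnX : 0 < nX) (hnY : 0 < nY) (hnZ : 0 < nZ) (hbX : 0 < bX) (hbY : 0 < bY) (hbZ : 0 < bZ)
    (hx : ∀ i, bX ≤ x i ∧ x i ≤ bX + sX) (hy : ∀ i, bY ≤ y i ∧ y i ≤ bY + sY)
    (hz : ∀ i, bZ ≤ z i ∧ z i ≤ bZ + sZ) (hX : ∏ i, x i = X) (hY : ∏ i, y i = Y)
    (hZ : ∏ i, z i = Z)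
    (hσ : (1 + (sX : ℝ)) / nX + (1 + (sY : ℝ)) / nY + (1 + (sZ : ℝ)) / nZ ≤ 1)
    (f g h : ℤ[X]) (hf : 0 < f.natDegree) (hg : 0 < g.natDegree) (hh : 0 < h.natDegree)
    (hft : f.eval t = bX) (hgt : g.eval t = bY) (hht : h.eval t = bZ) (hH : 2 ≤ H)
    (hc : ∀ i, |f.coeff i| ≤ H ∧ |g.coeff i| ≤ H ∧ |h.coeff i| ≤ H)
    (hsX : sX ≤ H) (hsY : sY ≤ H) (hsZ : sZ ≤ H)
    (hHt : (H : ℤ) ^ (30000 * ((1 + sX) * f.natDegree + (1 + sY) * g.natDegree +
      (1 + sZ) * h.natDegree)) ≤ t ^ 2)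
    (ht : (6 * ((A + B + D : ℕ) : ℤ) ^ 3 * (((A + B) * (q + 1) * D : ℕ) : ℤ)) ^ 2 < t) : False := by
  classical
  have hH' : (2 : ℤ) ≤ H := by exact_mod_cast hH
  have hH1 : (1 : ℤ) ≤ H := by linarith
  set V : ℤ := ((A + B + D : ℕ) : ℤ) with hV
  set Q : ℤ := (((A + B) * (q + 1) * D : ℕ) : ℤ) with hQ
  have hV1 : 1 ≤ V := by rw [hV]; exact_mod_cast (by omega : 1 ≤ A + B + D)
  have hQ1 : 1 ≤ Q := by
    rw [hQ]; exact_mod_cast Nat.succ_le_of_lt (by positivity : 0 < (A + B) * (q + 1) * D)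
  set N0 := (1 + sX) * f.natDegree with hN0
  set N1 := (1 + sY) * g.natDegree with hN1
  set N2 := (1 + sZ) * h.natDegree with hN2
  have hN0d : f.natDegree ≤ N0 := Nat.le_mul_of_pos_left _ (by omega)
  have hN1d : g.natDegree ≤ N1 := Nat.le_mul_of_pos_left _ (by omega)
  have hN2d : h.natDegree ≤ N2 := Nat.le_mul_of_pos_left _ (by omega)
  set N := N0 + N1 + N2 with hN
  have ht0 : 0 < t := lt_of_le_of_lt (by positivity) ht
  have hy2 : ((H : ℤ) ^ (288 * N)) ^ 2 ≤ t := by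
    refine le_of_pow_le_pow_left₀ two_ne_zero ht0.le (le_trans ?_ hHt)
    rw [← pow_mul, ← pow_mul]
    exact pow_le_pow_right₀ hH1 (by omega)
  have hbig : ∀ d, 0 < d → d ≤ N → 2 * (H : ℤ) ^ (3 * d) ≤ t := by
    intro d hd hdN
    refine le_trans ?_ hy2
    rw [← pow_mul]
    calc 2 * (H : ℤ) ^ (3 * d) ≤ H * (H : ℤ) ^ (3 * d) := by gcongr
      _ = (H : ℤ) ^ (3 * d + 1) := by ring
      _ ≤ _ := pow_le_pow_right₀ hH1 (by omega)
  obtain ⟨P0, r0, a1, a2, a3, a4, a5, a6, a7, a8, a9⟩ :=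
    prod_facts x f hbX hx hH hsX hf (fun i => (hc i).1) hft (hbig _ hf (by omega))
  obtain ⟨P1, r1, b1, b2, b3, b4, b5, b6, b7, b8, b9⟩ :=
    prod_facts y g hbY hy hH hsY hg (fun i => (hc i).2.1) hgt (hbig _ hg (by omega))
  obtain ⟨P2, r2, c1, c2, c3, c4, c5, c6, c7, c8, c9⟩ :=
    prod_facts z h hbZ hz hH hsZ hh (fun i => (hc i).2.2) hht (hbig _ hh (by omega))
  rw [hX] at a3 a4 a7 a8 a9
  rw [hY] at b3 b4 b7 b8 b9
  rw [hZ] at c3 c4 c7 c8 c9
  set G := Nat.gcd X Y with hG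
  set T := G.primeFactors.filter (fun p => ¬ p ∣ D) with hT
  set R : ℕ := ∏ p ∈ T, p with hR
  have hTp : ∀ p ∈ T, p.Prime ∧ p ∣ G ∧ ¬ p ∣ D := fun p hp => by
    have h1 := mem_filter.1 hp
    exact ⟨Nat.prime_of_mem_primeFactors h1.1, Nat.dvd_of_mem_primeFactors h1.1, h1.2⟩
  have hR0 : 0 < R := prod_pos fun p hp => (hTp p hp).1.pos
  have hGR : G ≤ (q + 1) * D * R := by
    refine hq.trans ?_
    rw [← prod_filter_mul_prod_filter_not G.primeFactors (fun p => p ∣ D), mul_assoc]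
    refine Nat.mul_le_mul (by omega) (Nat.mul_le_mul_right _ (Nat.le_of_dvd hD ?_))
    exact Finset.prod_primes_dvd _
      (fun p hp => (Nat.prime_of_mem_primeFactors (mem_filter.1 hp).1).prime)
      (fun p hp => (mem_filter.1 hp).2)
  have hX0 : 0 < X := by rw [← hX]; exact prod_pos fun i _ => lt_of_lt_of_le hbX (hx i).1
  have hG0 : 0 < G := Nat.gcd_pos_of_pos_left _ hX0
  have hXY : Nat.gcd X Y ≤ (A + B) * (q + 1) * D * R := by
    calc G ≤ 1 * ((q + 1) * D * R) := by rw [one_mul]; exact hGR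
      _ ≤ (A + B) * ((q + 1) * D * R) := Nat.mul_le_mul_right _ (by omega)
      _ = _ := by ring
  have hXZ : Nat.gcd X Z ≤ (A + B) * (q + 1) * D * R := by
    have h1 : Nat.gcd X Z ∣ B * G := by
      rw [hG, ← Nat.gcd_mul_left]
      refine Nat.dvd_gcd ((Nat.gcd_dvd_left _ _).mul_left _) ?_
      refine (Nat.dvd_add_right ((Nat.gcd_dvd_left X Z).mul_left A)).1 ?_
      rw [heq]; exact (Nat.gcd_dvd_right _ _).mul_left _
    calc Nat.gcd X Z ≤ B * G := Nat.le_of_dvd (by positivity) h1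
      _ ≤ (A + B) * ((q + 1) * D * R) := Nat.mul_le_mul (by omega) hGR
      _ = _ := by ring
  have hYZ : Nat.gcd Y Z ≤ (A + B) * (q + 1) * D * R := by
    have h1 : Nat.gcd Y Z ∣ A * G := by
      rw [hG, ← Nat.gcd_mul_left]
      refine Nat.dvd_gcd ?_ ((Nat.gcd_dvd_left _ _).mul_left _)
      refine (Nat.dvd_add_left ((Nat.gcd_dvd_left Y Z).mul_left B)).1 ?_
      rw [heq]; exact (Nat.gcd_dvd_right _ _).mul_left _
    calc Nat.gcd Y Z ≤ A * G := Nat.le_of_dvd (by positivity) h1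
      _ ≤ (A + B) * ((q + 1) * D * R) := Nat.mul_le_mul (by omega) hGR
      _ = _ := by ring
  have hR0' : (R : ℤ) ∣ r0 := prod_primes_dvd_int (fun p hp => (hTp p hp).1) fun p hp =>
    a9 p (hTp p hp).1 ((hTp p hp).2.1.trans (Nat.gcd_dvd_left _ _))
  have hR1' : (R : ℤ) ∣ r1 := prod_primes_dvd_int (fun p hp => (hTp p hp).1) fun p hp =>
    b9 p (hTp p hp).1 ((hTp p hp).2.1.trans (Nat.gcd_dvd_right _ _))
  have hR2' : (R : ℤ) ∣ r2 := prod_primes_dvd_int (fun p hp => (hTp p hp).1) fun p hp => by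
    refine c9 p (hTp p hp).1 ?_
    have h1 : p ∣ D * Z := by
      rw [← heq]
      exact dvd_add (((hTp p hp).2.1.trans (Nat.gcd_dvd_left _ _)).mul_left _)
        (((hTp p hp).2.1.trans (Nat.gcd_dvd_right _ _)).mul_left _)
    exact ((Nat.Prime.dvd_mul (hTp p hp).1).1 h1).resolve_left (hTp p hp).2.2
  let m : Fin 3 → ℕ := ![nX * f.natDegree, nY * g.natDegree, nZ * h.natDegree]
  obtain ⟨k, -, hk⟩ := exists_max_image univ m univ_nonempty
  have hmM : ∀ i, m i ≤ m k := fun i => hk i (mem_univ i)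
  have hNM : N ≤ m k := aux_sigma hnX hnY hnZ hσ (hmM 0) (hmM 1) (hmM 2)
  have ha : ∀ i, (![(A : ℤ), (B : ℤ), -(D : ℤ)] : Fin 3 → ℤ) i ≠ 0 := by
    intro i; fin_cases i <;> simp <;> omega
  have haV : ∀ i, |(![(A : ℤ), (B : ℤ), -(D : ℤ)] : Fin 3 → ℤ) i| ≤ V := by
    intro i; rw [hV]; fin_cases i <;> simp <;> omega
  have hs : ∑ i, (![(A : ℤ), (B : ℤ), -(D : ℤ)] : Fin 3 → ℤ) i *
      (![(X : ℤ), (Y : ℤ), (Z : ℤ)] : Fin 3 → ℤ) i = 0 := by
    have : (A : ℤ) * X + B * Y = D * Z := by exact_mod_cast heq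
    rw [Fin.sum_univ_three]
    simp only [Matrix.cons_val_zero, Matrix.cons_val_one, Matrix.cons_val]
    linarith
  have hGG : ∀ i j, i ≠ j → (Int.gcd ((![(X : ℤ), (Y : ℤ), (Z : ℤ)] : Fin 3 → ℤ) i)
      ((![(X : ℤ), (Y : ℤ), (Z : ℤ)] : Fin 3 → ℤ) j) : ℤ) ≤ Q * R := by
    have e : ∀ u w : ℕ, Nat.gcd u w ≤ (A + B) * (q + 1) * D * R →
        (Int.gcd (u : ℤ) (w : ℤ) : ℤ) ≤ Q * R := by
      intro u w huw
      rw [Int.gcd_natCast_natCast, hQ]; exact_mod_cast huw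
    intro i j hij
    fin_cases i <;> fin_cases j
    · exact absurd rfl hij
    · exact e _ _ hXY
    · exact e _ _ hXZ
    · exact e _ _ (by rwa [Nat.gcd_comm])
    · exact absurd rfl hij
    · exact e _ _ hYZ
    · exact e _ _ (by rwa [Nat.gcd_comm])
    · exact e _ _ (by rwa [Nat.gcd_comm])
    · exact absurd rfl hij
  have hdeg : ∀ i, ((![P0, P1, P2] : Fin 3 → ℤ[X]) i).natDegree ≤ m i := by
    intro i; fin_cases i; exacts [a1, b1, c1]
  have hnrm : ∀ i, nrm ((![P0, P1, P2] : Fin 3 → ℤ[X]) i) ≤ (H : ℤ) ^ (3 * m i) := by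
    intro i; fin_cases i; exacts [a2, b2, c2]
  have heval : ∀ i, ((![P0, P1, P2] : Fin 3 → ℤ[X]) i).eval t =
      (![(X : ℤ), (Y : ℤ), (Z : ℤ)] : Fin 3 → ℤ) i := by
    intro i; fin_cases i; exacts [a3, b3, c3]
  have hlow : ∀ i, t ^ m i ≤ 2 ^ m i * (![(X : ℤ), (Y : ℤ), (Z : ℤ)] : Fin 3 → ℤ) i := by
    intro i; fin_cases i; exacts [a4, b4, c4]
  obtain ⟨hκ1, hκ2⟩ := aux_const hV1 hQ1 ht
  by_cases hcase : 32 * N ≤ m k
  · refine core_large (r := r0 * r1 * r2) (N := N) (V := V) (Q := Q) (R := R) ![P0, P1, P2]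
      ![(X : ℤ), (Y : ℤ), (Z : ℤ)] _ m hH' (by omega) hmM k rfl hcase hdeg hnrm heval hlow
      (by positivity) ?_ ?_ ha haV hs ?_ hQ1 hGG hHt ?_
    · calc r0 * r1 * r2 ≤ ((H : ℤ) ^ (3 * N0) * t ^ N0) * ((H : ℤ) ^ (3 * N1) * t ^ N1) *
            ((H : ℤ) ^ (3 * N2) * t ^ N2) := by gcongr
        _ = _ := by rw [hN]; ring
    · intro i
      fin_cases i
      · exact a7 _ ⟨r1 * r2, by ring⟩
      · exact b7 _ ⟨r0 * r2, by ring⟩
      · exact c7 _ ⟨r0 * r1, by ring⟩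
    · exact Int.le_of_dvd (by positivity) ((hR0'.mul_right _).mul_right _)
    · exact hκ2
  · refine core_small (V := V) (Q := Q) (R := R) ![P0, P1, P2] ![(X : ℤ), (Y : ℤ), (Z : ℤ)]
      ![r0, r1, r2] _ m ![N0, N1, N2] hH' ?_ ?_ hmM k rfl hNM hdeg hnrm heval hlow ?_ ?_ ?_ ha haV hs
      (by exact_mod_cast hR0) ?_ hQ1 hGG ?_
    · intro i; fin_cases i
      · exact hf.trans_le hN0d
      · exact hg.trans_le hN1d
      · exact hh.trans_le hN2d
    · intro i; fin_cases i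
      · exact Nat.mul_pos hnX hf
      · exact Nat.mul_pos hnY hg
      · exact Nat.mul_pos hnZ hh
    · intro i; fin_cases i; exacts [a5, b5, c5]
    · intro i; fin_cases i; exacts [a6, b6, c6]
    · intro i; fin_cases i; exacts [a8, b8, c8]
    · intro i; fin_cases i; exacts [hR0', hR1', hR2']
    · have h1 : (H : ℤ) ^ (9 * m k) ≤ (H : ℤ) ^ (288 * N) := pow_le_pow_right₀ hH1 (by omega)
      refine lt_of_le_of_lt (mul_le_mul_of_nonneg_left h1 (le_trans zero_le_one hκ1)) ?_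
      refine lt_of_pow_lt_pow_left₀ 2 ht0.le ?_
      rw [mul_pow]
      calc (6 * V ^ 3 * Q) ^ 2 * ((H : ℤ) ^ (288 * N)) ^ 2 ≤ (6 * V ^ 3 * Q) ^ 2 * t :=
            mul_le_mul_of_nonneg_left hy2 (by positivity)
        _ < t * t := mul_lt_mul_of_pos_right ht ht0
        _ = t ^ 2 := by ring

/-- Finiteness when all prime factors are bounded. -/
theorem smooth_finite {A B D : ℕ} (hA : 0 < A) (hB : 0 < B) (hD : 0 < D) (q L : ℕ) :
    {w : ℕ × ℕ × ℕ | 0 < w.1 ∧ 0 < w.2.1 ∧ A * w.1 + B * w.2.1 = D * w.2.2 ∧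
      Nat.gcd w.1 w.2.1 ≤ q * ∏ p ∈ (Nat.gcd w.1 w.2.1).primeFactors, p ∧
      ∀ p : ℕ, p.Prime → p ∣ w.1 ∨ p ∣ w.2.1 ∨ p ∣ w.2.2 → p ≤ L}.Finite := by
  classical
  obtain ⟨Bd, hBd⟩ := ((sunit_finite (range (L + A + B + D + 1))).image
    (fun p : ℕ × ℕ => p.1 + p.2)).bddAbove
  set W := Bd * (A * B * (q * ∏ p ∈ Icc 1 L, p)) with hW
  refine ((Set.finite_le_nat W).prod ((Set.finite_le_nat W).prod (Set.finite_le_nat W))).subset ?_
  rintro ⟨X, Y, Z⟩ ⟨hX, hY, heq, hq, hp⟩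
  simp only at hX hY heq hq hp
  set g := Nat.gcd (A * X) (B * Y) with hg
  have hg0 : 0 < g := Nat.gcd_pos_of_pos_left _ (by positivity)
  obtain ⟨a, ha⟩ : g ∣ A * X := Nat.gcd_dvd_left _ _
  obtain ⟨b, hb⟩ : g ∣ B * Y := Nat.gcd_dvd_right _ _
  have ha0 : 0 < a := by
    have : 0 < g * a := by rw [← ha]; positivity
    exact Nat.pos_of_mul_pos_left this
  have hb0 : 0 < b := by
    have : 0 < g * b := by rw [← hb]; positivity
    exact Nat.pos_of_mul_pos_left this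
  have hab : Nat.Coprime a b := by
    have h1 : g = g * Nat.gcd a b := by
      conv_lhs => rw [hg, ha, hb, Nat.gcd_mul_left]
    have h2 : g * 1 = g * Nat.gcd a b := by rw [mul_one]; exact h1
    exact (Nat.eq_of_mul_eq_mul_left hg0 h2).symm
  have hsum : D * Z = g * (a + b) := by rw [← heq, ha, hb]; ring
  have hsub' : ∀ c E U : ℕ, 0 < E → E ≤ A + B + D → c ∣ E * U →
      (∀ p : ℕ, p.Prime → p ∣ U → p ≤ L) → c.primeFactors ⊆ range (L + A + B + D + 1) := by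
    intro c E U hE hE' hc hU p hpc
    have h1 := Nat.prime_of_mem_primeFactors hpc
    rw [mem_range]
    rcases (Nat.Prime.dvd_mul h1).1 ((Nat.dvd_of_mem_primeFactors hpc).trans hc) with h | h
    · have := Nat.le_of_dvd hE h; omega
    · have := hU p h1 h; omega
  have hmem : a + b ≤ Bd := hBd ⟨(a, b), ⟨ha0, hb0, hab,
    hsub' a A X hA (by omega) ⟨g, by rw [ha]; ring⟩ (fun p h1 h2 => hp p h1 (Or.inl h2)),
    hsub' b B Y hB (by omega) ⟨g, by rw [hb]; ring⟩ (fun p h1 h2 => hp p h1 (Or.inr (Or.inl h2))),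
    hsub' (a + b) D Z hD (by omega) ⟨g, by rw [hsum]; ring⟩
      (fun p h1 h2 => hp p h1 (Or.inr (Or.inr h2)))⟩, rfl⟩
  have hgb : g ≤ A * B * (q * ∏ p ∈ Icc 1 L, p) := by
    have h1 : g ∣ A * B * Nat.gcd X Y := by
      rw [← Nat.gcd_mul_left]
      exact Nat.dvd_gcd ⟨a * B, by rw [mul_right_comm, ha]; ring⟩
        ⟨b * A, by rw [mul_assoc, hb]; ring⟩
    refine (Nat.le_of_dvd (by have := Nat.gcd_pos_of_pos_left Y hX; positivity) h1).trans
      (Nat.mul_le_mul_left _ (hq.trans (Nat.mul_le_mul_left _ ?_)))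
    refine prod_le_prod_of_subset_of_one_le' (fun p hpg => ?_) (fun p hp _ => (mem_Icc.1 hp).1)
    have h2 := Nat.prime_of_mem_primeFactors hpg
    exact mem_Icc.2 ⟨h2.one_le, hp p h2
      (Or.inl ((Nat.dvd_of_mem_primeFactors hpg).trans (Nat.gcd_dvd_left _ _)))⟩
  have htot : D * Z ≤ W := by rw [hsum, hW, mul_comm]; exact Nat.mul_le_mul hmem hgb
  have h1 : X ≤ A * X := Nat.le_mul_of_pos_left _ hA
  have h2 : Y ≤ B * Y := Nat.le_mul_of_pos_left _ hB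
  have h3 : Z ≤ D * Z := Nat.le_mul_of_pos_left _ hD
  refine ⟨?_, ?_, ?_⟩ <;> simp only [Set.mem_ofPred_eq] <;> omega

theorem prime_le_of_small {n b s H B T p : ℕ} {t : ℕ} (x : Fin n → ℕ) (f : ℤ[X])
    (hb : 0 < b) (hx : ∀ i, b ≤ x i ∧ x i ≤ b + s) (hs : s ≤ H) (hHB : H ≤ B)
    (hd : f.natDegree ≤ B) (hf : ∀ i, |f.coeff i| ≤ H) (hft : f.eval (t : ℤ) = b) (htT : t ≤ T)
    (hp : p.Prime) (hpx : p ∣ ∏ i, x i) : p ≤ (B + 1) * B * (T + 1) ^ B + B := by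
  obtain ⟨i, -, hi⟩ := (Prime.dvd_finsetProd_iff hp.prime _).1 hpx
  have h1 := Nat.le_of_dvd (lt_of_lt_of_le hb (hx i).1) hi
  have h2 := abs_eval_le f hd (t := t) (R := (T : ℤ) + 1)
    (by rw [Nat.abs_cast]; exact_mod_cast (by omega : t ≤ T + 1)) (by omega)
  have h3 := nrm_le_of_coeff f hd (B := B) (fun i => (hf i).trans (by exact_mod_cast hHB))
  rw [hft, Nat.abs_cast] at h2
  have h4 : (b : ℤ) ≤ ((B : ℤ) + 1) * B * ((T : ℤ) + 1) ^ B :=
    h2.trans (mul_le_mul_of_nonneg_right h3 (by positivity))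
  have h5 : b ≤ (B + 1) * B * (T + 1) ^ B := by exact_mod_cast h4
  have := (hx i).2
  omega

end Pool.Agent.Lib.MP_4ffbf9_nt
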