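import Mathlib
import Pool.Agent.Lib.MP_4ffbf9_nt.Param

/-!
Fermat type equations at points lying on a line of small height.
-/

set_option autoImplicit false

namespace Pool.Agent.Lib.MP_4ffbf9_nt

open Polynomial Finset

theorem fermat_key {t u : ℤ} (ht : t ≠ 0) (hu : u ≠ 0) (htu : t + u ≠ 0) (hcop : IsCoprime t u)
    {J n : ℕ} (hJ : 1 ≤ J) (hn : 64 * J ≤ n)
    (hbig : 2 ^ (3 * (256 * J + 5) * (64 * J)) ≤ max |t| |u|) (v₀ v₁ : ℤ) (hv : v₁ ≠ 0) :
    ∃ w : Fin 3 → ℤ, w 0 * t ^ n + w 1 * u ^ n + w 2 * (t + u) ^ n = 0 ∧ v₀ * w 1 ≠ v₁ * w 0 ∧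
      ∀ i, |w i| ≤ max |t| |u| ^ (n / 2 + 5 * (n / (64 * J)) + 5) := by
  set h := max |t| |u| with hh
  set j := n / (64 * J) with hj
  set K := j + 1 with hK
  set μ := n / 2 + j + 1 with hμ
  set κ := 64 * J with hκ
  have hj1 : 1 ≤ j := (Nat.le_div_iff_mul_le (by omega)).2 (by omega)
  have hjn : j * κ ≤ n := Nat.div_mul_le_self _ _
  have hnj : n < κ * K := by
    have := Nat.lt_div_mul_add (a := n) (b := κ) (by omega)
    rw [hK, mul_add, mul_one, mul_comm κ]; exact this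
  have hj64 : 64 * j ≤ n := le_trans (by nlinarith) hjn
  have hμn : μ ≤ n := by omega
  have hth : |t| ≤ h := le_max_left _ _
  have huh : |u| ≤ h := le_max_right _ _
  have h2 : 2 ≤ h := le_trans (by
    calc (2 : ℤ) = 2 ^ 1 := by norm_num
      _ ≤ _ := pow_le_pow_right₀ (by norm_num) (Nat.succ_le_of_lt (by positivity))) hbig
  have hh1 : 1 ≤ h := by linarith
  have hr : t * (t + u) ≠ 0 := mul_ne_zero ht htu
  set E : ℤ := 2 ^ (3 * n) with hE
  have hE8 := two_pow_ge n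
  have hE4 : (4 : ℤ) ≤ 2 ^ n := by
    calc (4 : ℤ) = 2 ^ 2 := by norm_num
      _ ≤ 2 ^ n := pow_le_pow_right₀ (by norm_num) (by omega)
  have hn0 : (0 : ℤ) ≤ n := Int.natCast_nonneg n
  have hE1 : 4 * (n : ℤ) + 3 ≤ E := by
    have : E = 2 ^ n * 2 ^ n * 2 ^ n := by rw [hE]; ring
    rw [this]; nlinarith
  have hE0 : 1 ≤ E := by linarith
  have hE3 : (2 : ℤ) ^ n ≤ E := pow_le_pow_right₀ (by norm_num) (by omega)
  have hKn : (K : ℤ) ≤ n := by exact_mod_cast (by omega : K ≤ n)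
  have hμn' : (μ : ℤ) ≤ n := by exact_mod_cast hμn
  have hEK : E ^ (4 * κ + 5) < h ^ K := by
    calc E ^ (4 * κ + 5) = 2 ^ (3 * (4 * κ + 5) * n) := by rw [hE, ← pow_mul]; congr 1; ring
      _ < 2 ^ (3 * (4 * κ + 5) * (κ * K)) :=
          pow_lt_pow_right₀ (by norm_num) (Nat.mul_lt_mul_of_pos_left hnj (by positivity))
      _ = (2 ^ (3 * (256 * J + 5) * (64 * J))) ^ K := by
          rw [← pow_mul]; congr 1; rw [hκ]; ring
      _ ≤ h ^ K := pow_le_pow_left₀ (by positivity) hbig K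
  have hX1 : (X + 1 : ℤ[X]).natDegree ≤ 1 := by rw [← C_1, natDegree_X_add_C]
  let P : Fin 3 → ℤ[X] := ![X ^ n, 1, (X + 1) ^ n]
  have hPm : ∀ i, (P i).natDegree ≤ n := by
    intro i
    fin_cases i
    · simp [P]
    · simp [P]
    · exact natDegree_pow_le.trans (by nlinarith)
  have hPn : ∀ i, nrm (P i) ≤ E := by
    intro i
    fin_cases i
    · refine (nrm_pow_le _ _).trans ?_
      rw [nrm_X, one_pow]; exact hE0
    · change nrm 1 ≤ E
      rw [nrm_one]; exact hE0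
    · refine (nrm_pow_le _ _).trans (le_trans ?_ hE3)
      refine pow_le_pow_left₀ (nrm_nonneg _) ((nrm_add_le _ _).trans ?_) n
      simp
  obtain ⟨U, hU0, hUμ, hsum, hUc⟩ := exists_syzygy P (fun _ => μ) (μ + n) κ E hE0
    (fun i k => (abs_coeff_le_nrm _ _).trans (hPn i)) (fun i => by have := hPm i; omega)
    (by
      have h1 : n + 2 * j + 3 ≤ 2 * μ + 2 := by omega
      have h3 : κ * (n + 2 * j + 3) ≤ κ * (2 * μ + 2) := Nat.mul_le_mul_left _ h1
      rw [hK] at hnj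
      nlinarith)
  have hUn : ∀ i, nrm (U i) ≤ E ^ (2 * κ + 1) := by
    intro i
    refine (nrm_le_of_coeff _ (hUμ i) (hUc i)).trans ?_
    have h1 : ((μ + μ + μ + 3 : ℕ) : ℤ) ≤ E := by push_cast; linarith
    calc ((μ : ℤ) + 1) * (((μ + μ + μ + 3 : ℕ) : ℤ) * E) ^ κ ≤ E * (E * E) ^ κ := by
          gcongr; linarith
      _ = E ^ (2 * κ + 1) := by ring
  have hN : ∀ i, nrm (U i * P i) ≤ E ^ (2 * κ + 2) := fun i =>
    (nrm_mul_le _ _).trans (by
      rw [pow_succ _ (2 * κ + 1)]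
      exact mul_le_mul (hUn i) (hPn i) (nrm_nonneg _) (by positivity))
  have h2h : (2 * h) ^ μ ≤ E * h ^ μ := by
    rw [mul_pow]
    exact mul_le_mul_of_nonneg_right ((pow_le_pow_right₀ (by norm_num) hμn).trans hE3)
      (by positivity)
  have hUh : ∀ i, nrm (U i) * (2 * h) ^ μ ≤ E ^ (2 * κ + 2) * h ^ μ := fun i =>
    calc nrm (U i) * (2 * h) ^ μ ≤ E ^ (2 * κ + 1) * (E * h ^ μ) :=
          mul_le_mul (hUn i) h2h (by positivity) (by positivity)
      _ = _ := by ring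
  have hK' : 2 * ((μ + n : ℕ) : ℤ) * (E ^ (2 * κ + 2) * E ^ (2 * κ + 2)) < h ^ K := by
    refine lt_of_le_of_lt ?_ hEK
    have : 2 * ((μ + n : ℕ) : ℤ) ≤ E := by push_cast; linarith
    calc _ ≤ E * (E ^ (2 * κ + 2) * E ^ (2 * κ + 2)) :=
          mul_le_mul_of_nonneg_right this (by positivity)
      _ = _ := by ring
  have e0 : hsub t u (t * (t + u)) n (X ^ n) = C (t ^ n) * (C 1 + C (t + u) * X) ^ n := by
    rw [hsub_pow hu natDegree_X_le, C_pow, ← mul_pow]
    congr 1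
    simp [hsub, coeff_X]
    ring
  have e2 : hsub t u (t * (t + u)) n ((X + 1) ^ n) = C ((t + u) ^ n) * (C 1 + C t * X) ^ n := by
    rw [hsub_pow hu hX1, C_pow, ← mul_pow]
    congr 1
    simp [hsub, sum_range_succ, coeff_X, coeff_one]
    ring
  have hlin : ∀ s : ℤ, |s| ≤ |t * (t + u)| → ∀ k,
      |((C 1 + C s * X) ^ n).coeff k| ≤ E * |t * (t + u)| ^ k := by
    intro s hs k
    refine (abs_coeff_lin_pow_le (h := 1) (by simp) le_rfl n k).trans ?_
    rw [mul_one]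
    exact mul_le_mul hE3 (pow_le_pow_left₀ (abs_nonneg _) hs k) (by positivity) (by positivity)
  let b : Fin 3 → ℤ := ![t, u, t + u]
  have hb0 : ∀ i, b i ≠ 0 := by intro i; fin_cases i; exacts [ht, hu, htu]
  rcases key hu ht hr hcop hth huh ((max_choice |t| |u|).imp le_of_eq le_of_eq) P U
    ![(C 1 + C (t + u) * X) ^ n, 1, (C 1 + C t * X) ^ n] (fun _ => n) (fun _ => μ) (μ + n) K
    (fun _ => rfl) hPm hUμ hU0 hsum (fun i => b i ^ n) (fun _ => E)
    (fun i => pow_ne_zero _ (hb0 i))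
    (by
      intro i
      fin_cases i
      · exact e0
      · change hsub t u (t * (t + u)) n 1 = C (u ^ n) * 1
        rw [hsub_const, mul_one]
      · exact e2)
    (by
      intro i
      fin_cases i
      · change (hsub t u (t * (t + u)) n (X ^ n)).coeff 0 = t ^ n
        rw [e0, coeff_zero_eq_eval_zero]; simp
      · change (hsub t u (t * (t + u)) n 1).coeff 0 = u ^ n
        rw [hsub_const, coeff_C_zero]
      · change (hsub t u (t * (t + u)) n ((X + 1) ^ n)).coeff 0 = (t + u) ^ n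
        rw [e2, coeff_zero_eq_eval_zero]; simp)
    (by
      intro i k
      fin_cases i
      · refine hlin _ ?_ k
        rw [abs_mul]; exact le_mul_of_one_le_left (abs_nonneg _) (Int.one_le_abs ht)
      · change |(1 : ℤ[X]).coeff k| ≤ _
        rw [coeff_one]
        split_ifs with hk
        · rw [hk]; simpa using hE0
        · rw [abs_zero]; positivity
      · refine hlin _ ?_ k
        rw [abs_mul]; exact le_mul_of_one_le_right (abs_nonneg _) (Int.one_le_abs htu))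
    v₀ v₁ hv (E ^ (2 * κ + 2)) hN hK' with ⟨w, hw, hne, hwb⟩ | ⟨i, k, hik, a, c, ha, hac, h1, h3⟩
  · rw [Fin.sum_univ_three] at hw
    refine ⟨w, hw, hne, fun i => (hwb i).trans ?_⟩
    have hr3 : |t * (t + u)| ^ K ≤ (h ^ 3) ^ K := by
      refine pow_le_pow_left₀ (abs_nonneg _) ?_ K
      rw [abs_mul]
      have h4 : |t + u| ≤ h * h := (abs_add_le _ _).trans (by nlinarith)
      calc |t| * |t + u| ≤ h * (h * h) := mul_le_mul hth h4 (abs_nonneg _) (by linarith)
        _ = h ^ 3 := by ring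
    have h5 : ((K : ℤ) + 1) * (nrm (U i) * (2 * h) ^ μ * E) ≤ h ^ K * h ^ μ := by
      calc ((K : ℤ) + 1) * (nrm (U i) * (2 * h) ^ μ * E) ≤ E * (E ^ (2 * κ + 2) * h ^ μ * E) :=
            mul_le_mul (by linarith) (mul_le_mul_of_nonneg_right (hUh i) (by linarith))
              (mul_nonneg (mul_nonneg (nrm_nonneg _) (by positivity)) (by linarith)) (by linarith)
        _ = E ^ (2 * κ + 4) * h ^ μ := by ring
        _ ≤ h ^ K * h ^ μ := mul_le_mul_of_nonneg_right
            ((pow_le_pow_right₀ hE0 (by omega)).trans hEK.le) (by positivity)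
    calc _ ≤ h ^ K * h ^ μ * (h ^ 3) ^ K := mul_le_mul h5 hr3 (by positivity) (by positivity)
      _ = h ^ (μ + 4 * K) := by ring
      _ = _ := by congr 1; omega
  · exfalso
    have hc : c ≠ 0 := by
      rintro rfl
      rw [zero_mul] at hac
      exact mul_ne_zero ha (pow_ne_zero _ (hb0 i)) hac
    have hcop2 : IsCoprime t (t + u) := by
      have := hcop.add_mul_left_right 1
      rwa [mul_one, add_comm] at this
    have hcop3 : IsCoprime u (t + u) := by
      have := hcop.symm.add_mul_left_right 1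
      rwa [mul_one] at this
    have hbc : IsCoprime (b i) (b k) := by
      fin_cases i <;> fin_cases k
      · exact absurd rfl hik
      · exact hcop
      · exact hcop2
      · exact hcop.symm
      · exact absurd rfl hik
      · exact hcop3
      · exact hcop2.symm
      · exact hcop3.symm
      · exact absurd rfl hik
    have hB : ∀ l, E ^ (2 * κ + 2) * (nrm (U l) * (2 * h) ^ μ) ≤ E ^ (4 * κ + 4) * h ^ μ := by
      intro l
      calc _ ≤ E ^ (2 * κ + 2) * (E ^ (2 * κ + 2) * h ^ μ) :=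
            mul_le_mul_of_nonneg_left (hUh l) (by positivity)
        _ = _ := by ring
    have g1 := abs_le_gcd_mul ha (pow_ne_zero n (hb0 k)) hac
    have g2 := abs_le_gcd_mul hc (pow_ne_zero n (hb0 i)) hac.symm
    rw [Int.isCoprime_iff_gcd_eq_one.1 hbc.pow, Nat.cast_one, one_mul, abs_pow] at g1
    rw [Int.isCoprime_iff_gcd_eq_one.1 hbc.symm.pow, Nat.cast_one, one_mul, abs_pow] at g2
    have hM : max |b i| |b k| ^ n ≤ E ^ (4 * κ + 4) * h ^ μ := by
      rcases max_choice |b i| |b k| with h4 | h4 <;> rw [h4]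
      · exact g2.trans (h3.trans (hB k))
      · exact g1.trans (h1.trans (hB i))
    have h3rd := third_le b ![1, 1, -1] (V := 1) (by intro l; fin_cases l <;> simp)
      (by intro l; fin_cases l <;> simp) (by rw [Fin.sum_univ_three]; simp [b]) hik
      (le_max_left |b i| |b k|) (le_max_right _ _)
    have hhM : h ≤ 2 * max |b i| |b k| := by
      have a0 := h3rd 0
      have a1 := h3rd 1
      rw [mul_one] at a0 a1
      exact max_le a0 a1
    have hfin : h ^ n < h ^ (K + μ) := by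
      calc h ^ n ≤ (2 * max |b i| |b k|) ^ n := pow_le_pow_left₀ (by linarith) hhM n
        _ ≤ E * (E ^ (4 * κ + 4) * h ^ μ) := by
            rw [mul_pow]
            exact mul_le_mul hE3 hM (pow_nonneg (le_max_of_le_left (abs_nonneg _)) _) (by linarith)
        _ = E ^ (4 * κ + 5) * h ^ μ := by ring
        _ < h ^ K * h ^ μ := mul_lt_mul_of_pos_right hEK (by positivity)
        _ = _ := by ring
    have := (pow_lt_pow_iff_right₀ (by linarith : (1 : ℤ) < h)).1 hfin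
    omega

theorem aux_exp {J n j : ℕ} (hJ : 1 ≤ J) (hj : 1 ≤ j) (hn : j * (64 * J) ≤ n) :
    ¬ 3 * J * n ≤ 3 * J + (J - 1) * (n + (n / 2 + 5 * j + 5)) + 3 * J * (n / 2 + 5 * j + 5) := by
  obtain ⟨I, rfl⟩ : ∃ I, J = I + 1 := ⟨J - 1, by omega⟩
  rw [Nat.add_sub_cancel]
  have h1 : 2 * (n / 2) ≤ n := by omega
  generalize n / 2 = m at *
  intro h
  have h2 : (4 * I + 3) * (2 * m) ≤ (4 * I + 3) * n := Nat.mul_le_mul_left _ h1
  nlinarith

/-- No solution of large height on a line of small height. -/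
theorem lines_false (x a α : Fin 3 → ℤ) {V G H h : ℤ} {J n : ℕ} (hJ : 1 ≤ J) (hn : 64 * J ≤ n)
    (hx : ∀ i, 0 < x i) (hxh : ∀ i, x i ≤ h) (k : Fin 3) (hk : x k = h)
    (ha : ∀ i, a i ≠ 0) (haV : ∀ i, |a i| ≤ V) (hs : ∑ i, a i * x i ^ n = 0)
    (hG : ∀ i j, i ≠ j → (Int.gcd (x i ^ n) (x j ^ n) : ℤ) ≤ G)
    (hα0 : α ≠ 0) (hαH : ∀ i, |α i| ≤ H) (hl : ∑ i, α i * x i = 0)
    (hHh : H ^ (3 * J) ≤ h ^ (J - 1))
    (hbig : (4 * V ^ 2 * G * 2 ^ (3 * (256 * J + 5) * (64 * J))) ^ 3 < h) : False := by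
  have hV1 : 1 ≤ V := (Int.one_le_abs (ha 0)).trans (haV 0)
  have hn0 : n ≠ 0 := by omega
  have hG1 : 1 ≤ G := by
    refine le_trans ?_ (hG 0 1 (by decide))
    have := Int.gcd_pos_of_ne_zero_left (x 1 ^ n) (pow_ne_zero n (hx 0).ne')
    exact_mod_cast this
  have hh1 : 1 ≤ h := (hx 0).trans_le (hxh 0)
  have hH1 : 1 ≤ H := by
    obtain ⟨i, hi⟩ := Function.ne_iff.1 hα0
    exact (Int.one_le_abs hi).trans (hαH i)
  set B : ℤ := 2 ^ (3 * (256 * J + 5) * (64 * J)) with hB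
  have hB1 : 1 ≤ B := one_le_pow₀ (by norm_num)
  have hH3 : H ^ 3 ≤ h := by
    refine le_of_pow_le_pow_left₀ (n := J) (by omega) (by linarith) ?_
    rw [← pow_mul]
    exact hHh.trans (pow_le_pow_right₀ hh1 (by omega))
  have hG' : ∀ i j, i ≠ j → (Int.gcd (x i) (x j) : ℤ) ≤ G := by
    intro i j hij
    refine le_trans ?_ (hG i j hij)
    have h1 : Int.gcd (x i) (x j) ∣ Int.gcd (x i ^ n) (x j ^ n) :=
      Int.dvd_gcd ((Int.gcd_dvd_left _ _).trans (dvd_pow_self _ hn0))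
        ((Int.gcd_dvd_right _ _).trans (dvd_pow_self _ hn0))
    exact_mod_cast Nat.le_of_dvd
      (Int.gcd_pos_of_ne_zero_left _ (pow_ne_zero n (hx i).ne')) h1
  -- if two of the bases are at most `W`, all are at most `2 V W`
  have hthird : ∀ (i j : Fin 3) (W : ℤ), i ≠ j → x i ≤ W → x j ≤ W → h ≤ 2 * V * W := by
    intro i j W hij hi hj
    have hW : 0 ≤ W := (hx i).le.trans hi
    have h1 := third_le (fun i => x i ^ n) a ha haV hs hij (B := W ^ n)
      (by rw [abs_of_pos (pow_pos (hx i) n)]; exact pow_le_pow_left₀ (hx i).le hi n)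
      (by rw [abs_of_pos (pow_pos (hx j) n)]; exact pow_le_pow_left₀ (hx j).le hj n) k
    simp only [hk] at h1
    refine le_of_pow_le_pow_left₀ hn0 (by positivity) ((le_abs_self _).trans (h1.trans ?_))
    rw [mul_pow]
    exact mul_le_mul_of_nonneg_right (le_self_pow₀ (by linarith) hn0) (by positivity)
  -- a bound `h ≤ 2 V G H ^ 2 B` is impossible
  have hnot : ¬ h ≤ 2 * V * (G * H ^ 2 * B) := by
    intro h1
    have h2 : h ^ 3 ≤ (4 * V ^ 2 * G * B) ^ 3 * h ^ 2 := by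
      calc h ^ 3 ≤ (2 * V * (G * H ^ 2 * B)) ^ 3 := pow_le_pow_left₀ (by linarith) h1 3
        _ = (2 * V ^ 1 * G * B) ^ 3 * (H ^ 3) ^ 2 := by ring
        _ ≤ _ := by
            have : V ^ 1 ≤ V ^ 2 := pow_le_pow_right₀ hV1 (by norm_num)
            gcongr
            norm_num
    have h3 : (4 * V ^ 2 * G * B) ^ 3 * h ^ 2 < h * h ^ 2 :=
      mul_lt_mul_of_pos_right hbig (by positivity)
    have h4 : h * h ^ 2 = h ^ 3 := by ring
    linarith
  have hGH : G * H ≤ G * H ^ 2 * B := by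
    calc G * H = G * H ^ 1 * 1 := by ring
      _ ≤ _ := by
          have : H ^ 1 ≤ H ^ 2 := pow_le_pow_right₀ hH1 (by norm_num)
          gcongr
  have hdeg : ∀ (i j : Fin 3) (p q : ℤ), i ≠ j → p ≠ 0 → |p| ≤ H → |q| ≤ H →
      p * x i = q * x j → False := by
    intro i j p q hij hp hpH hqH hpq
    have hq : q ≠ 0 := by
      rintro rfl
      rw [zero_mul] at hpq
      exact mul_ne_zero hp (hx i).ne' hpq
    have h1 := (abs_le_gcd_mul hp (hx j).ne' hpq).trans
      (mul_le_mul (hG' i j hij) hpH (abs_nonneg _) (by linarith))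
    have h2 := (abs_le_gcd_mul hq (hx i).ne' hpq.symm).trans
      (mul_le_mul (hG' j i hij.symm) hqH (abs_nonneg _) (by linarith))
    exact hnot (hthird i j _ hij ((le_abs_self _).trans (h2.trans hGH))
      ((le_abs_self _).trans (h1.trans hGH)))
  rw [Fin.sum_univ_three] at hl
  by_cases h0 : α 0 = 0
  · by_cases h1 : α 1 = 0
    · have h2 : α 2 = 0 := by
        rw [h0, h1, zero_mul, zero_mul, zero_add, zero_add] at hl
        exact (mul_eq_zero.1 hl).resolve_right (hx 2).ne'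
      apply hα0
      funext i
      fin_cases i
      exacts [h0, h1, h2]
    · exact hdeg 1 2 (α 1) (-α 2) (by decide) h1 (hαH 1) (by rw [abs_neg]; exact hαH 2)
        (by rw [h0] at hl; linarith)
  by_cases h1 : α 1 = 0
  · exact hdeg 0 2 (α 0) (-α 2) (by decide) h0 (hαH 0) (by rw [abs_neg]; exact hαH 2)
      (by rw [h1] at hl; linarith)
  by_cases h2 : α 2 = 0
  · exact hdeg 0 1 (α 0) (-α 1) (by decide) h0 (hαH 0) (by rw [abs_neg]; exact hαH 1)
      (by rw [h2] at hl; linarith)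
  have hp : α 0 * x 0 ≠ 0 := mul_ne_zero h0 (hx 0).ne'
  have hq : α 1 * x 1 ≠ 0 := mul_ne_zero h1 (hx 1).ne'
  obtain ⟨g, t, u, hg, hcop, ht, hu⟩ := Int.exists_gcd_one' (Int.gcd_pos_of_ne_zero_left (α 1 * x 1) hp)
  have hcop' : IsCoprime t u := Int.isCoprime_iff_gcd_eq_one.2 hcop
  have hg' : (0 : ℤ) < g := by exact_mod_cast hg
  have ht0 : t ≠ 0 := by rintro rfl; exact hp (by rw [ht, zero_mul])
  have hu0 : u ≠ 0 := by rintro rfl; exact hq (by rw [hu, zero_mul])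
  have htu : (t + u) * g = -α 2 * x 2 := by linarith
  have htu0 : t + u ≠ 0 := by
    intro h3
    rw [h3, zero_mul] at htu
    exact mul_ne_zero (neg_ne_zero.2 h2) (hx 2).ne' htu.symm
  have hgb : (g : ℤ) ≤ G * H ^ 2 := by
    have h3 : (g : ℤ) ∣ (Int.gcd (x 0) (x 1) : ℤ) * (α 0 * α 1) := by
      rw [Int.gcd_eq_gcd_ab]
      exact ⟨t * α 1 * Int.gcdA (x 0) (x 1) + u * α 0 * Int.gcdB (x 0) (x 1), by
        linear_combination (α 1 * Int.gcdA (x 0) (x 1)) * ht + (α 0 * Int.gcdB (x 0) (x 1)) * hu⟩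
    have h4 : (0 : ℤ) < Int.gcd (x 0) (x 1) := by
      exact_mod_cast Int.gcd_pos_of_ne_zero_left _ (hx 0).ne'
    have h5 := Int.le_of_dvd (abs_pos.2 (mul_ne_zero h4.ne' (mul_ne_zero h0 h1)))
      ((dvd_abs _ _).2 h3)
    rw [abs_mul, abs_mul, abs_of_pos h4] at h5
    refine h5.trans (mul_le_mul (hG' 0 1 (by decide)) ?_ (by positivity) (by linarith))
    rw [sq]; exact mul_le_mul (hαH 0) (hαH 1) (abs_nonneg _) (by linarith)
  have hbig' : B ≤ max |t| |u| := by
    by_contra h3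
    rw [not_le, max_lt_iff] at h3
    have e : ∀ (c y s : ℤ), c ≠ 0 → 0 < y → c * y = s * g → |s| < B → y ≤ G * H ^ 2 * B := by
      intro c y s hc hy hcy hs
      calc y ≤ |c * y| := by
            rw [abs_mul, abs_of_pos hy]; exact le_mul_of_one_le_left hy.le (Int.one_le_abs hc)
        _ = g * |s| := by rw [hcy, abs_mul, abs_of_pos hg', mul_comm]
        _ ≤ _ := mul_le_mul hgb hs.le (abs_nonneg _) (by positivity)
    exact hnot (hthird 0 1 _ (by decide) (e _ _ _ h0 (hx 0) ht h3.1) (e _ _ _ h1 (hx 1) hu h3.2))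
  obtain ⟨w, hw, hne, hwb⟩ := fermat_key ht0 hu0 htu0 hcop' hJ hn hbig' (a 0 * α 1 ^ n)
    (a 1 * α 0 ^ n) (mul_ne_zero (ha 1) (pow_ne_zero _ h0))
  set e := n / 2 + 5 * (n / (64 * J)) + 5 with he
  have hh' : max |t| |u| ≤ H * h := by
    have e1 : ∀ (i : Fin 3) (s : ℤ), α i * x i = s * g → |s| ≤ H * h := by
      intro i s hs
      calc |s| ≤ |s * g| := by
            rw [abs_mul, abs_of_pos hg']; exact le_mul_of_one_le_right (abs_nonneg _) hg'
        _ = |α i| * x i := by rw [← hs, abs_mul, abs_of_pos (hx i)]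
        _ ≤ H * h := mul_le_mul (hαH i) (hxh i) (hx i).le (by linarith)
    exact max_le (e1 0 t ht) (e1 1 u hu)
  have hW : ∀ i (c : ℤ), |c| ≤ H → |w i * c ^ n| ≤ H ^ n * (H * h) ^ e := by
    intro i c hc
    rw [abs_mul, abs_pow, mul_comm]
    exact mul_le_mul (pow_le_pow_left₀ (abs_nonneg _) hc n) ((hwb i).trans
      (pow_le_pow_left₀ (le_max_of_le_left (abs_nonneg _)) hh' e)) (abs_nonneg _) (by positivity)
  have hrel : w 0 * α 0 ^ n * x 0 ^ n + w 1 * α 1 ^ n * x 1 ^ n + w 2 * (-α 2) ^ n * x 2 ^ n = 0 := by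
    rw [mul_assoc, mul_assoc, mul_assoc, ← mul_pow, ← mul_pow, ← mul_pow, ht, hu, ← htu, mul_pow,
      mul_pow, mul_pow]
    linear_combination (g : ℤ) ^ n * hw
  have hΔ : ∀ (i j : Fin 3) (p q : ℤ), |p| ≤ H ^ n * (H * h) ^ e → |q| ≤ H ^ n * (H * h) ^ e →
      |a i * p - a j * q| ≤ 2 * V * (H ^ n * (H * h) ^ e) := by
    intro i j p q hp hq
    refine (abs_sub _ _).trans ?_
    rw [abs_mul, abs_mul]
    have b1 := mul_le_mul (haV i) hp (abs_nonneg _) (by linarith)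
    have b2 := mul_le_mul (haV j) hq (abs_nonneg _) (by linarith)
    linarith
  have hs' := hs
  rw [Fin.sum_univ_three] at hs'
  have hΔ0 : a 0 * (w 1 * α 1 ^ n) - a 1 * (w 0 * α 0 ^ n) ≠ 0 := by
    intro h3; apply hne; linear_combination h3
  have hrel2 : (a 0 * (w 1 * α 1 ^ n) - a 1 * (w 0 * α 0 ^ n)) * x 1 ^ n =
      (a 2 * (w 0 * α 0 ^ n) - a 0 * (w 2 * (-α 2) ^ n)) * x 2 ^ n := by
    linear_combination (a 0) * hrel - (w 0 * α 0 ^ n) * hs'
  have hΔ1 : a 2 * (w 0 * α 0 ^ n) - a 0 * (w 2 * (-α 2) ^ n) ≠ 0 := by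
    intro h3
    rw [h3, zero_mul] at hrel2
    exact mul_ne_zero hΔ0 (pow_ne_zero n (hx 1).ne') hrel2
  have b2 := (abs_le_gcd_mul hΔ0 (pow_ne_zero n (hx 2).ne') hrel2).trans
    (mul_le_mul (hG 1 2 (by decide)) (hΔ 0 1 _ _ (hW 1 _ (hαH 1)) (hW 0 _ (hαH 0)))
      (abs_nonneg _) (by linarith))
  have b1 := (abs_le_gcd_mul hΔ1 (pow_ne_zero n (hx 1).ne') hrel2.symm).trans
    (mul_le_mul (hG 2 1 (by decide)) (hΔ 2 0 _ _ (hW 0 _ (hαH 0))
      (hW 2 _ (by rw [abs_neg]; exact hαH 2))) (abs_nonneg _) (by linarith))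
  have b3 := third_le (fun i => x i ^ n) a ha haV hs (show (1 : Fin 3) ≠ 2 by decide) b1 b2 k
  simp only [hk] at b3
  have hc : 4 * V ^ 2 * G ≤ h := by
    have c1 : 1 ≤ 4 * V ^ 2 * G := by
      have : 1 ≤ V ^ 2 := one_le_pow₀ hV1
      nlinarith
    calc 4 * V ^ 2 * G ≤ 4 * V ^ 2 * G * B := le_mul_of_one_le_right (by linarith) hB1
      _ ≤ (4 * V ^ 2 * G * B) ^ 3 :=
          le_self_pow₀ (c1.trans (le_mul_of_one_le_right (by linarith) hB1)) (by norm_num)
      _ ≤ h := hbig.le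
  have hh2 : 1 < h := by
    have c1 : 1 ≤ V ^ 2 := one_le_pow₀ hV1
    have c2 : 4 ≤ 4 * V ^ 2 * G := by
      calc (4 : ℤ) = 4 * 1 * 1 := by norm_num
        _ ≤ _ := by gcongr
    linarith
  have hfin : h ^ (3 * J * n) ≤ h ^ (3 * J + (J - 1) * (n + e) + 3 * J * e) := by
    have c1 : h ^ n ≤ h * (H ^ (n + e) * h ^ e) := by
      calc h ^ n ≤ 2 * V * (G * (2 * V * (H ^ n * (H * h) ^ e))) := (le_abs_self _).trans b3
        _ = (4 * V ^ 2 * G) * (H ^ (n + e) * h ^ e) := by ring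
        _ ≤ _ := mul_le_mul_of_nonneg_right hc (by positivity)
    calc h ^ (3 * J * n) = (h ^ n) ^ (3 * J) := by rw [← pow_mul, mul_comm]
      _ ≤ (h * (H ^ (n + e) * h ^ e)) ^ (3 * J) := pow_le_pow_left₀ (by positivity) c1 _
      _ = h ^ (3 * J) * (H ^ (3 * J)) ^ (n + e) * h ^ (3 * J * e) := by
          rw [mul_pow, mul_pow, ← pow_mul, ← pow_mul, ← pow_mul, mul_comm (n + e), mul_comm e,
            ← mul_assoc (h ^ (3 * J))]
      _ ≤ h ^ (3 * J) * (h ^ (J - 1)) ^ (n + e) * h ^ (3 * J * e) := by gcongr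
      _ = _ := by rw [← pow_mul, ← pow_add, ← pow_add]
  exact aux_exp hJ ((Nat.le_div_iff_mul_le (by omega)).2 (by omega)) (Nat.div_mul_le_self _ _)
    ((pow_le_pow_iff_right₀ hh2).1 hfin)

end Pool.Agent.Lib.MP_4ffbf9_nt
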