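import Mathlib
import Pool.Agent.Lib.MP_4ffbf9_nt.Core

-- part Pool.Agent.Lib.MP_4ffbf9_nt.Root
section

/-!
Truncated `d`-th roots of integer polynomials, and a weighted truncated norm.
-/

set_option autoImplicit false

namespace Pool.Agent.Lib.MP_4ffbf9_nt

open Polynomial Finset

theorem exists_root_aux {d : ℕ} (F : ℤ[X]) (h0 : F.coeff 0 = 1)
    (hdiv : C ((d : ℤ) ^ 2) ∣ F - 1) (N : ℕ) :
    ∃ h : ℤ[X], h.natDegree ≤ N ∧ h.coeff 0 = 1 ∧ C (d : ℤ) ∣ h - 1 ∧ X ^ (N + 1) ∣ F - h ^ d := by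
  induction N with
  | zero =>
    refine ⟨1, by simp, by simp, by simp, ?_⟩
    rw [zero_add, pow_one, one_pow, X_dvd_iff, coeff_sub, h0]; simp
  | succ N ih =>
    obtain ⟨h, hdeg, hh0, hd, e, he⟩ := ih
    have h1 : C ((d : ℤ) ^ 2) ∣ h ^ d - 1 := by
      have h2 := sq_dvd_add_pow_sub_sub (h - 1) 1 d
      rw [add_sub_cancel, one_pow, one_pow, one_mul] at h2
      have h3 : C ((d : ℤ) ^ 2) ∣ (h - 1) ^ 2 := by rw [C_pow]; exact pow_dvd_pow_of_dvd hd 2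
      have h4 : C ((d : ℤ) ^ 2) ∣ (h - 1) * (d : ℤ[X]) := by
        rw [C_pow, sq]; exact mul_dvd_mul hd (by simp)
      have h5 := dvd_add (h3.trans h2) h4
      rwa [show h ^ d - (h - 1) * (d : ℤ[X]) - 1 + (h - 1) * (d : ℤ[X]) = h ^ d - 1 by ring] at h5
    have h6 : C ((d : ℤ) ^ 2) ∣ X ^ (N + 1) * e := by
      rw [← he, show F - h ^ d = (F - 1) - (h ^ d - 1) by ring]
      exact dvd_sub hdiv h1
    obtain ⟨c, hc⟩ : (d : ℤ) ^ 2 ∣ e.coeff 0 := by
      have := (C_dvd_iff_dvd_coeff _ _).1 h6 (0 + (N + 1))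
      rwa [coeff_X_pow_mul] at this
    refine ⟨h + C (d * c) * X ^ (N + 1), ?_, ?_, ?_, ?_⟩
    · exact (natDegree_add_le _ _).trans
        (max_le (hdeg.trans (Nat.le_succ N)) (natDegree_C_mul_X_pow_le _ _))
    · rw [coeff_add, hh0, coeff_C_mul, coeff_X_pow, if_neg (by omega)]; simp
    · rw [add_sub_right_comm]
      exact dvd_add hd ⟨C c * X ^ (N + 1), by rw [C_mul]; ring⟩
    · obtain ⟨q, hq⟩ := sq_dvd_add_pow_sub_sub (C (d * c) * X ^ (N + 1)) h d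
      have h7 : F - (h + C (d * c) * X ^ (N + 1)) ^ d =
          X ^ (N + 1) * (e - h ^ (d - 1) * C ((d : ℤ) ^ 2 * c)) -
            X ^ (N + 1) * (X * (X ^ N * C (d * c) ^ 2 * q)) := by
        have h8 : (d : ℤ[X]) = C (d : ℤ) := by simp
        rw [h8] at hq
        simp only [C_mul, C_pow] at hq ⊢
        linear_combination he - hq
      rw [h7, pow_succ _ (N + 1)]
      refine dvd_sub (mul_dvd_mul_left _ ?_) (mul_dvd_mul_left _ (dvd_mul_right _ _))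
      rw [X_dvd_iff, coeff_sub, coeff_mul_C, coeff_zero_eq_eval_zero (h ^ (d - 1)), eval_pow,
        ← coeff_zero_eq_eval_zero, hh0, hc]
      ring

theorem root_bound {d : ℕ} (hd : 1 ≤ d) {F h : ℤ[X]} (h0 : F.coeff 0 = 1) (hh0 : h.coeff 0 = 1)
    {N : ℕ} (hN : X ^ (N + 1) ∣ F - h ^ d) {Φ : ℝ} (hΦ : 0 ≤ Φ)
    (hF : ∀ j, |(F.coeff j : ℝ)| ≤ Φ ^ j) : ∀ n ≤ N, |(h.coeff n : ℝ)| ≤ (2 * Φ) ^ n := by
  have h1 : X ^ N ∣ derivative F * h - C (d : ℤ) * (F * derivative h) := by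
    have h2 := pow_sub_one_dvd_derivative_of_pow_dvd hN
    rw [Nat.add_sub_cancel, derivative_sub, derivative_pow] at h2
    have h3 : X ^ N ∣ F - h ^ d := (pow_dvd_pow _ (Nat.le_succ N)).trans hN
    obtain ⟨e, rfl⟩ : ∃ e, d = e + 1 := ⟨d - 1, by omega⟩
    rw [Nat.add_sub_cancel] at h2
    have h4 := dvd_sub (h2.mul_right h) (h3.mul_left (C ((e + 1 : ℕ) : ℤ) * derivative h))
    convert h4 using 1
    ring
  intro n
  induction n using Nat.strong_induction_on with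
  | _ n ih =>
    intro hn
    cases n with
    | zero => simp [hh0]
    | succ n =>
      have h5 := (X_pow_dvd_iff.1 h1) n (by omega)
      rw [coeff_sub, coeff_C_mul, coeff_mul, coeff_mul,
        Finset.Nat.sum_antidiagonal_eq_sum_range_succ_mk,
        Finset.Nat.sum_antidiagonal_eq_sum_range_succ_mk, sum_range_succ' (fun k => F.coeff k * _)]
        at h5
      simp only [coeff_derivative, h0, Nat.sub_zero, one_mul] at h5
      have h6 : ∑ k ∈ range n, F.coeff (k + 1) *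
          (h.coeff (n - (k + 1) + 1) * (((n - (k + 1) : ℕ) : ℤ) + 1)) =
          ∑ k ∈ range (n + 1), F.coeff (k + 1) * (h.coeff (n - k) * ((n : ℤ) - k)) := by
        rw [sum_range_succ, sub_self, mul_zero, mul_zero, add_zero]
        refine sum_congr rfl fun k hk => ?_
        have hk' := mem_range.1 hk
        rw [show n - (k + 1) + 1 = n - k by omega, Nat.cast_sub (by omega)]
        push_cast; ring
      rw [h6] at h5
      have h7 : (d : ℤ) * (n + 1) * h.coeff (n + 1) = ∑ k ∈ range (n + 1),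
          F.coeff (k + 1) * h.coeff (n - k) * (((k : ℤ) + 1) - d * ((n : ℤ) - k)) := by
        have : ∑ k ∈ range (n + 1),
            F.coeff (k + 1) * h.coeff (n - k) * (((k : ℤ) + 1) - d * ((n : ℤ) - k)) =
            ∑ k ∈ range (n + 1), F.coeff (k + 1) * ((k : ℤ) + 1) * h.coeff (n - k) -
              d * ∑ k ∈ range (n + 1), F.coeff (k + 1) * (h.coeff (n - k) * ((n : ℤ) - k)) := by
          rw [mul_sum, ← sum_sub_distrib]
          exact sum_congr rfl fun k _ => by ring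
        rw [this]
        linear_combination -h5
      have h8 : (d : ℝ) * (n + 1) * h.coeff (n + 1) = ∑ k ∈ range (n + 1),
          (F.coeff (k + 1) : ℝ) * h.coeff (n - k) * (((k : ℝ) + 1) - d * ((n : ℝ) - k)) := by
        exact_mod_cast h7
      have hd' : (1 : ℝ) ≤ d := by exact_mod_cast hd
      have hpos : (0 : ℝ) < d * (n + 1) := by positivity
      have h9 : (d : ℝ) * (n + 1) * |(h.coeff (n + 1) : ℝ)| ≤ d * (n + 1) * (2 * Φ) ^ (n + 1) := by
        rw [← abs_of_pos hpos, ← abs_mul, h8, abs_of_pos hpos]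
        refine (abs_sum_le_sum_abs _ _).trans ?_
        have h10 : ∀ k ∈ range (n + 1), |(F.coeff (k + 1) : ℝ) * h.coeff (n - k) *
            (((k : ℝ) + 1) - d * ((n : ℝ) - k))| ≤ d * (n + 1) * Φ ^ (n + 1) * 2 ^ (n - k) := by
          intro k hk
          have hk' : k ≤ n := Nat.lt_succ_iff.1 (mem_range.1 hk)
          have hkr : (k : ℝ) ≤ n := by exact_mod_cast hk'
          have hk0 : (0 : ℝ) ≤ k := Nat.cast_nonneg k
          have h11 : |((k : ℝ) + 1) - d * ((n : ℝ) - k)| ≤ d * (n + 1) := by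
            rw [abs_le]; constructor <;> nlinarith
          rw [abs_mul, abs_mul]
          calc _ ≤ Φ ^ (k + 1) * (2 * Φ) ^ (n - k) * (d * (n + 1)) :=
                mul_le_mul (mul_le_mul (hF _) (ih (n - k) (by omega) (by omega)) (abs_nonneg _)
                  (by positivity)) h11 (abs_nonneg _) (by positivity)
            _ = d * (n + 1) * (Φ ^ (k + 1) * Φ ^ (n - k)) * 2 ^ (n - k) := by rw [mul_pow]; ring
            _ = _ := by rw [← pow_add, show k + 1 + (n - k) = n + 1 by omega]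
        refine (sum_le_sum h10).trans ?_
        rw [← mul_sum, mul_pow, mul_comm (2 ^ (n + 1)), ← mul_assoc]
        refine mul_le_mul_of_nonneg_left ?_ (by positivity)
        have h12 := sum_range_reflect (fun k => (2 : ℝ) ^ k) (n + 1)
        simp only [Nat.add_sub_cancel] at h12
        rw [h12, geom_sum_eq (by norm_num)]
        norm_num
      exact le_of_mul_le_mul_left h9 hpos

theorem exists_root {d : ℕ} (hd : 1 ≤ d) (F : ℤ[X]) (h0 : F.coeff 0 = 1)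
    (hdiv : C ((d : ℤ) ^ 2) ∣ F - 1) {Φ : ℝ} (hΦ : 0 ≤ Φ) (hF : ∀ j, |(F.coeff j : ℝ)| ≤ Φ ^ j)
    (N : ℕ) : ∃ h : ℤ[X], h.natDegree ≤ N ∧ h.coeff 0 = 1 ∧ X ^ (N + 1) ∣ F - h ^ d ∧
      ∀ n, |(h.coeff n : ℝ)| ≤ (2 * Φ) ^ n := by
  obtain ⟨h, h1, h2, -, h3⟩ := exists_root_aux F h0 hdiv N
  refine ⟨h, h1, h2, h3, fun n => ?_⟩
  by_cases hn : n ≤ N
  · exact root_bound hd h0 h2 h3 hΦ hF n hn
  · rw [coeff_eq_zero_of_natDegree_lt (by omega)]; simp only [Int.cast_zero, abs_zero]; positivity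

/-- Coefficients of a product of linear factors with constant term one. -/
theorem lin_prod_facts {ι : Type*} (s : Finset ι) (c : ι → ℤ) (e : ι → ℕ) {β : ℝ} (hβ : 0 ≤ β)
    (hc : ∀ i ∈ s, |(c i : ℝ)| ≤ β) (m : ℤ) (hm : ∀ i ∈ s, m ∣ c i) :
    (∏ i ∈ s, (1 + C (c i) * X) ^ e i).coeff 0 = 1 ∧
    C m ∣ (∏ i ∈ s, (1 + C (c i) * X) ^ e i) - 1 ∧
    (∏ i ∈ s, (1 + C (c i) * X) ^ e i).natDegree ≤ ∑ i ∈ s, e i ∧
    ∀ j, |((∏ i ∈ s, (1 + C (c i) * X) ^ e i).coeff j : ℝ)| ≤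
      ((∑ i ∈ s, e i).choose j : ℝ) * β ^ j := by
  classical
  have step : ∀ (p : ℤ[X]) (n : ℕ) (a : ℤ), |(a : ℝ)| ≤ β →
      (∀ j, |(p.coeff j : ℝ)| ≤ (n.choose j : ℝ) * β ^ j) →
      ∀ j, |((p * (1 + C a * X)).coeff j : ℝ)| ≤ ((n + 1).choose j : ℝ) * β ^ j := by
    intro p n a ha hp j
    rw [mul_add, mul_one, coeff_add, ← mul_assoc]
    cases j with
    | zero => simpa using hp 0
    | succ j =>
      rw [coeff_mul_X, coeff_mul_C, Nat.choose_succ_succ]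
      push_cast
      refine (abs_add_le _ _).trans ?_
      rw [abs_mul]
      have h1 := hp (j + 1)
      have h2 := mul_le_mul (hp j) ha (abs_nonneg _) (by positivity)
      rw [pow_succ] at h1 ⊢
      nlinarith
  have stepn : ∀ (p : ℤ[X]) (n : ℕ) (a : ℤ), |(a : ℝ)| ≤ β →
      (∀ j, |(p.coeff j : ℝ)| ≤ (n.choose j : ℝ) * β ^ j) → ∀ k : ℕ,
      ∀ j, |((p * (1 + C a * X) ^ k).coeff j : ℝ)| ≤ ((n + k).choose j : ℝ) * β ^ j := by
    intro p n a ha hp k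
    induction k with
    | zero => simpa using hp
    | succ k ih => rw [pow_succ, ← mul_assoc]; exact step _ _ _ ha ih
  refine ⟨?_, ?_, ?_, ?_⟩
  · rw [coeff_zero_eq_eval_zero, eval_prod]; simp
  · refine Finset.induction_on (motive := fun s => (∀ i ∈ s, m ∣ c i) →
      C m ∣ (∏ i ∈ s, (1 + C (c i) * X) ^ e i) - 1) s (by simp) ?_ hm
    intro a s ha ih h
    rw [prod_insert ha]
    have h1 : C m ∣ (1 + C (c a) * X) ^ e a - 1 := by
      have h2 := sub_dvd_pow_sub_pow (1 + C (c a) * X) 1 (e a)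
      rw [add_sub_cancel_left, one_pow] at h2
      exact ((map_dvd C (h a (mem_insert_self _ _))).mul_right _).trans h2
    have h3 := ih fun i hi => h i (mem_insert_of_mem hi)
    have h4 := dvd_add (h1.mul_right (∏ i ∈ s, (1 + C (c i) * X) ^ e i)) h3
    convert h4 using 1
    ring
  · refine (natDegree_prod_le _ _).trans (sum_le_sum fun i _ => natDegree_pow_le.trans ?_)
    have : (1 + C (c i) * X : ℤ[X]).natDegree ≤ 1 :=
      (natDegree_add_le _ _).trans (max_le (by simp) ((natDegree_C_mul_le _ _).trans natDegree_X_le))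
    nlinarith
  · refine Finset.induction_on (motive := fun s => (∀ i ∈ s, |(c i : ℝ)| ≤ β) → ∀ j,
      |((∏ i ∈ s, (1 + C (c i) * X) ^ e i).coeff j : ℝ)| ≤
      ((∑ i ∈ s, e i).choose j : ℝ) * β ^ j) s ?_ ?_ hc
    · intro _ j
      rw [prod_empty, sum_empty, coeff_one]
      split_ifs with hj
      · simp [hj]
      · simp only [Int.cast_zero, abs_zero]; positivity
    · intro a s ha ih h j
      rw [prod_insert ha, sum_insert ha, mul_comm, add_comm (e a)]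
      exact stepn _ _ _ (h a (mem_insert_self _ _)) (ih fun i hi => h i (mem_insert_of_mem hi)) _ j

/-- Weighted norm of the truncation at degree `K`. -/
noncomputable def wn (K : ℕ) (ω : ℝ) (p : ℝ[X]) : ℝ := ∑ i ∈ range (K + 1), |p.coeff i| * ω ^ i

section wn

variable {K : ℕ} {ω : ℝ}

theorem wn_nonneg (hω : 0 ≤ ω) (p : ℝ[X]) : 0 ≤ wn K ω p :=
  sum_nonneg fun _ _ => by positivity

theorem coeff_le_wn (hω : 0 ≤ ω) (p : ℝ[X]) {i : ℕ} (hi : i ≤ K) :
    |p.coeff i| * ω ^ i ≤ wn K ω p :=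
  single_le_sum (f := fun i => |p.coeff i| * ω ^ i) (fun _ _ => by positivity)
    (mem_range.2 (Nat.lt_succ_of_le hi))

theorem wn_add_le (hω : 0 ≤ ω) (p q : ℝ[X]) : wn K ω (p + q) ≤ wn K ω p + wn K ω q := by
  unfold wn
  rw [← sum_add_distrib]
  refine sum_le_sum fun i _ => ?_
  rw [coeff_add, ← add_mul]
  exact mul_le_mul_of_nonneg_right (abs_add_le _ _) (by positivity)

theorem wn_neg (p : ℝ[X]) : wn K ω (-p) = wn K ω p := by simp [wn]

theorem wn_sub_le (hω : 0 ≤ ω) (p q : ℝ[X]) : wn K ω (p - q) ≤ wn K ω p + wn K ω q := by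
  rw [sub_eq_add_neg, ← wn_neg q]; exact wn_add_le hω _ _

theorem wn_C_mul (a : ℝ) (p : ℝ[X]) : wn K ω (C a * p) = |a| * wn K ω p := by
  simp only [wn, coeff_C_mul, abs_mul, mul_sum, mul_assoc]

theorem wn_one : wn K ω 1 = 1 := by
  rw [wn, sum_eq_single 0]
  · simp
  · intro b _ hb; rw [coeff_one, if_neg hb]; simp
  · simp

theorem wn_C (a : ℝ) : wn K ω (C a) = |a| := by
  rw [← mul_one (C a), wn_C_mul, wn_one, mul_one]

theorem wn_sum_le (hω : 0 ≤ ω) {ι : Type*} (s : Finset ι) (f : ι → ℝ[X]) :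
    wn K ω (∑ i ∈ s, f i) ≤ ∑ i ∈ s, wn K ω (f i) := by
  classical
  induction s using Finset.induction_on with
  | empty => simp [wn]
  | insert a s ha ih =>
    rw [sum_insert ha, sum_insert ha]
    exact (wn_add_le hω _ _).trans (by linarith)

theorem wn_congr {p q : ℝ[X]} (h : X ^ (K + 1) ∣ p - q) : wn K ω p = wn K ω q := by
  refine sum_congr rfl fun i hi => ?_
  have := X_pow_dvd_iff.1 h i (mem_range.1 hi)
  rw [coeff_sub, sub_eq_zero] at this
  rw [this]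

theorem wn_mul_le (hω : 0 ≤ ω) (p q : ℝ[X]) : wn K ω (p * q) ≤ wn K ω p * wn K ω q := by
  have h1 : wn K ω (p * q) ≤ ∑ i ∈ range (K + 1), ∑ c ∈ antidiagonal i,
      (|p.coeff c.1| * ω ^ c.1) * (|q.coeff c.2| * ω ^ c.2) := by
    refine sum_le_sum fun i _ => ?_
    rw [coeff_mul]
    refine (mul_le_mul_of_nonneg_right (abs_sum_le_sum_abs _ _) (by positivity)).trans ?_
    rw [sum_mul]
    refine sum_le_sum fun c hc => le_of_eq ?_
    rw [abs_mul, ← mem_antidiagonal.1 hc, pow_add]; ring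
  refine h1.trans ?_
  rw [wn, wn, sum_mul_sum, ← sum_product', ← sum_biUnion]
  · refine sum_le_sum_of_subset_of_nonneg ?_ fun _ _ _ => by positivity
    intro c hc
    simp only [mem_biUnion, mem_range, Finset.HasAntidiagonal.mem_antidiagonal, mem_product] at hc ⊢
    obtain ⟨i, hi, hc⟩ := hc
    omega
  · intro i _ j _ hij
    rw [Function.onFun, disjoint_left]
    intro c h1 h2
    exact hij ((mem_antidiagonal.1 h1).symm.trans (mem_antidiagonal.1 h2))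

theorem wn_pow_le (hω : 0 ≤ ω) (p : ℝ[X]) (n : ℕ) : wn K ω (p ^ n) ≤ wn K ω p ^ n := by
  induction n with
  | zero => rw [pow_zero, pow_zero, wn_one]
  | succ n ih =>
    rw [pow_succ, pow_succ]
    exact (wn_mul_le hω _ _).trans (mul_le_mul_of_nonneg_right ih (wn_nonneg hω _))

theorem wn_lin_le (hω : 0 ≤ ω) (a b : ℝ) : wn K ω (C a + C b * X) ≤ |a| + |b| * ω := by
  refine (wn_add_le hω _ _).trans ?_
  rw [wn_C, wn_C_mul]
  refine add_le_add le_rfl (mul_le_mul_of_nonneg_left ?_ (abs_nonneg _))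
  rw [wn]
  by_cases hK : 1 ∈ range (K + 1)
  · rw [sum_eq_single_of_mem 1 hK]
    · simp
    · intro b _ hb; rw [coeff_X, if_neg hb.symm]; simp
  · rw [sum_eq_zero]
    · exact hω
    · intro b hb
      rw [coeff_X, if_neg (by rintro rfl; exact hK hb)]; simp

theorem wn_mul_sub_one_le (hω : 0 ≤ ω) {p q : ℝ[X]} {α β : ℝ} (hp : wn K ω (p - 1) ≤ α - 1)
    (hq : wn K ω (q - 1) ≤ β - 1) : wn K ω (p * q - 1) ≤ α * β - 1 := by
  have h1 : p * q - 1 = (p - 1) * (q - 1) + (p - 1) + (q - 1) := by ring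
  have h2 := wn_mul_le (K := K) hω (p - 1) (q - 1)
  have h3 := mul_le_mul hp hq (wn_nonneg hω _) ((wn_nonneg hω _).trans hp)
  rw [h1]
  refine (wn_add_le hω _ _).trans (le_trans (add_le_add (wn_add_le hω _ _) le_rfl) ?_)
  nlinarith

theorem wn_pow_sub_one_le (hω : 0 ≤ ω) {p : ℝ[X]} {α : ℝ} (hp : wn K ω (p - 1) ≤ α - 1) (n : ℕ) :
    wn K ω (p ^ n - 1) ≤ α ^ n - 1 := by
  induction n with
  | zero => simp [wn]
  | succ n ih => rw [pow_succ, pow_succ]; exact wn_mul_sub_one_le hω ih hp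

/-- Two elements close to `1` whose `d`-th powers are close are close. -/
theorem wn_sub_le_of_pow (hω : 0 ≤ ω) {d : ℕ} (hd : 1 ≤ d) {a b : ℝ[X]}
    (ha : wn K ω (a - 1) ≤ 1 / (4 * d)) (hb : wn K ω (b - 1) ≤ 1 / (4 * d)) :
    wn K ω (a - b) ≤ 2 * wn K ω (a ^ d - b ^ d) := by
  have hd' : (1 : ℝ) ≤ d := by exact_mod_cast hd
  set x : ℝ := 1 / (4 * d) with hx
  have hx0 : 0 ≤ x := by positivity
  have hdx : d * x = 1 / 4 := by rw [hx]; field_simp
  have hx1 : x ≤ 1 / 4 := by nlinarith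
  have hpow : (1 + x) ^ (d - 1) ≤ 3 / 2 := by
    have h1 : 1 + (d : ℝ) * (-x) ≤ (1 + -x) ^ d := one_add_mul_le_pow (by linarith) d
    have h2 : (1 + x) ^ d * (1 + -x) ^ d ≤ 1 := by
      rw [← mul_pow]; exact pow_le_one₀ (by nlinarith) (by nlinarith)
    have h3 : (1 + x) ^ (d - 1) ≤ (1 + x) ^ d := pow_le_pow_right₀ (by linarith) (by omega)
    have h4 : 0 ≤ (1 + x) ^ d := by positivity
    nlinarith
  set M := ∑ i ∈ range d, a ^ i * b ^ (d - 1 - i) with hM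
  have h1 : M * (a - b) = a ^ d - b ^ d := geom_sum₂_mul a b d
  have h2 : wn K ω (M - C (d : ℝ)) ≤ d * (1 / 2) := by
    have h3 : M - C (d : ℝ) = ∑ i ∈ range d, (a ^ i * b ^ (d - 1 - i) - 1) := by
      rw [sum_sub_distrib]; simp [hM]
    rw [h3]
    refine (wn_sum_le hω _ _).trans ?_
    have h4 : ∀ i ∈ range d, wn K ω (a ^ i * b ^ (d - 1 - i) - 1) ≤ 1 / 2 := by
      intro i hi
      have h5 := wn_mul_sub_one_le hω
        (wn_pow_sub_one_le hω (α := 1 + x) (by linarith) i : wn K ω (a ^ i - 1) ≤ _)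
        (wn_pow_sub_one_le hω (α := 1 + x) (by linarith) (d - 1 - i) : wn K ω (b ^ _ - 1) ≤ _)
      rw [← pow_add, show i + (d - 1 - i) = d - 1 by have := mem_range.1 hi; omega] at h5
      linarith
    refine (sum_le_sum h4).trans ?_
    simp
  have h6 : C (d : ℝ) * (a - b) = (a ^ d - b ^ d) - (M - C (d : ℝ)) * (a - b) := by
    rw [← h1]; ring
  have h7 := congrArg (wn K ω) h6
  rw [wn_C_mul, Nat.abs_cast] at h7
  have h8 := wn_sub_le (K := K) hω (a ^ d - b ^ d) ((M - C (d : ℝ)) * (a - b))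
  have h9 := (wn_mul_le (K := K) hω (M - C (d : ℝ)) (a - b)).trans
    (mul_le_mul_of_nonneg_right h2 (wn_nonneg hω _))
  have h10 := wn_nonneg (K := K) hω (a - b)
  have h11 := wn_nonneg (K := K) hω (a ^ d - b ^ d)
  nlinarith

theorem geom_tail {x : ℝ} (hx0 : 0 ≤ x) (hx : x ≤ 1 / 2) (n : ℕ) :
    ∑ i ∈ range n, x ^ (i + 1) ≤ 2 * x := by
  induction n with
  | zero => simp; linarith
  | succ n ih =>
    rw [sum_range_succ']
    have : ∑ i ∈ range n, x ^ (i + 1 + 1) = x * ∑ i ∈ range n, x ^ (i + 1) := by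
      rw [mul_sum]; exact sum_congr rfl fun i _ => by ring
    rw [this]
    have h1 := mul_le_mul_of_nonneg_left ih hx0
    simp only [zero_add, pow_one]
    nlinarith

/-- Substitution of a small element into an integer polynomial. -/
theorem wn_comp_le (hω : 0 ≤ ω) {l : ℝ[X]} {y : ℝ} (hl : wn K ω l ≤ y) (p : ℤ[X]) {n : ℕ}
    (hp : p.natDegree < n) : wn K ω ((p.map (Int.castRingHom ℝ)).comp l) ≤
      ∑ i ∈ range n, |(p.coeff i : ℝ)| * y ^ i := by
  rw [comp, eval₂_eq_sum_range' _ (natDegree_map_le.trans_lt hp)]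
  refine (wn_sum_le hω _ _).trans (sum_le_sum fun i _ => ?_)
  rw [wn_C_mul, coeff_map, eq_intCast]
  exact mul_le_mul_of_nonneg_left ((wn_pow_le hω _ _).trans
    (pow_le_pow_left₀ (wn_nonneg hω _) hl i)) (abs_nonneg _)

theorem wn_comp_le_nrm (hω : 0 ≤ ω) {l : ℝ[X]} {y : ℝ} (hl : wn K ω l ≤ y) (hy : y ≤ 1)
    {p : ℤ[X]} {L : ℕ} (hL : X ^ L ∣ p) :
    wn K ω ((p.map (Int.castRingHom ℝ)).comp l) ≤ nrm p * y ^ L := by
  have hy0 : 0 ≤ y := (wn_nonneg hω _).trans hl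
  refine (wn_comp_le hω hl p (Nat.lt_succ_self _)).trans ?_
  rw [nrm_eq_range p le_rfl]
  push_cast
  rw [sum_mul]
  refine sum_le_sum fun i _ => ?_
  by_cases hi : i < L
  · rw [X_pow_dvd_iff.1 hL i hi]; simp
  · exact mul_le_mul_of_nonneg_left (pow_le_pow_of_le_one hy0 hy (by omega)) (abs_nonneg _)

theorem wn_comp_sub_one_le (hω : 0 ≤ ω) {l : ℝ[X]} {y : ℝ} (hl : wn K ω l ≤ y) {p : ℤ[X]}
    (h0 : p.coeff 0 = 1) {β : ℝ} (hβ : 0 ≤ β) (hp : ∀ i, |(p.coeff i : ℝ)| ≤ β ^ i)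
    (hx : β * y ≤ 1 / 2) : wn K ω ((p.map (Int.castRingHom ℝ)).comp l - 1) ≤ 2 * (β * y) := by
  have hy0 : 0 ≤ y := (wn_nonneg hω _).trans hl
  have h1 : (p.map (Int.castRingHom ℝ)).comp l - 1 = ((p - 1).map (Int.castRingHom ℝ)).comp l := by
    simp
  rw [h1]
  refine (wn_comp_le hω hl (p - 1) (Nat.lt_succ_self _)).trans ?_
  rw [sum_range_succ', coeff_sub, h0, coeff_one_zero, sub_self, Int.cast_zero, abs_zero, zero_mul,
    add_zero]
  refine le_trans (sum_le_sum fun i _ => ?_) (geom_tail (by positivity) hx _)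
  rw [coeff_sub, coeff_one, if_neg (by omega), sub_zero, mul_pow]
  exact mul_le_mul_of_nonneg_right (hp _) (by positivity)

end wn

end Pool.Agent.Lib.MP_4ffbf9_nt
end

-- part Pool.Agent.Lib.MP_4ffbf9_nt.Pade1
section

/-!
Approximants of small height to the `d`-th root of a product of linear factors.
-/

set_option autoImplicit false

namespace Pool.Agent.Lib.MP_4ffbf9_nt

open Polynomial Finset

/-- Product of powers of linear factors with constant term one. -/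
noncomputable def lp (S : ℕ) (c : ℕ → ℤ) (e : ℕ → ℕ) : ℤ[X] :=
  ∏ j ∈ range (S + 1), (1 + C (c j) * X) ^ e j

theorem nrm_lp_le {S : ℕ} {c : ℕ → ℤ} (e : ℕ → ℕ) {β : ℤ}
    (hc : ∀ j ≤ S, |c j| ≤ β) : nrm (lp S c e) ≤ (1 + β) ^ (∑ j ∈ range (S + 1), e j) := by
  rw [← prod_pow_eq_pow_sum]
  refine (nrm_prod_le _ _).trans (prod_le_prod (fun _ _ => nrm_nonneg _) fun j hj =>
    (nrm_pow_le _ _).trans (pow_le_pow_left₀ (nrm_nonneg _) ((nrm_add_le _ _).trans ?_) _))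
  have h1 := nrm_mul_le (C (c j)) X
  rw [nrm_C, nrm_X, mul_one] at h1
  have h2 := hc j (Nat.lt_succ_iff.1 (mem_range.1 hj))
  rw [nrm_one]; linarith

theorem lp_split (S : ℕ) (c : ℕ → ℤ) (e : ℕ → ℕ) (d : ℕ) :
    lp S c (fun j => e j / d) ^ d * lp S c (fun j => e j % d) = lp S c e := by
  simp only [lp]
  rw [← prod_pow, ← prod_mul_distrib]
  exact prod_congr rfl fun j _ => by rw [← pow_mul, ← pow_add, Nat.div_add_mod']

theorem lp_facts (S : ℕ) (c : ℕ → ℤ) (e : ℕ → ℕ) :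
    (lp S c e).coeff 0 = 1 ∧ (lp S c e).natDegree ≤ ∑ j ∈ range (S + 1), e j := by
  have h := lin_prod_facts (range (S + 1)) c e (β := ∑ j ∈ range (S + 1), |(c j : ℝ)|)
    (sum_nonneg fun _ _ => abs_nonneg _)
    (fun i hi => single_le_sum (f := fun j => |(c j : ℝ)|) (fun _ _ => abs_nonneg _) hi) 1
    (fun _ _ => one_dvd _)
  exact ⟨h.1, h.2.2.1⟩

theorem sum_mod_le (S : ℕ) (e : ℕ → ℕ) {d : ℕ} (hd : 1 ≤ d) :
    ∑ j ∈ range (S + 1), e j % d ≤ (S + 1) * d := by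
  refine (sum_le_card_nsmul _ _ d fun j _ => (Nat.mod_lt _ hd).le).trans_eq ?_
  simp

theorem sum_div_le {S k d : ℕ} {e : ℕ → ℕ} (hd : 1 ≤ d) (he : ∑ j ∈ range (S + 1), e j = k * d) :
    ∑ j ∈ range (S + 1), e j / d ≤ k := by
  refine Nat.le_of_mul_le_mul_right ?_ hd
  rw [← he, sum_mul]
  exact sum_le_sum fun j _ => Nat.div_mul_le_self _ _

theorem root_lp {S d : ℕ} (hd : 1 ≤ d) {c : ℕ → ℤ} (e : ℕ → ℕ) {β : ℝ} (hβ : 0 ≤ β)
    (hc : ∀ j ≤ S, |(c j : ℝ)| ≤ β) (hm : ∀ j ≤ S, (d : ℤ) ^ 2 ∣ c j) (N : ℕ) :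
    ∃ h : ℤ[X], h.natDegree ≤ N ∧ h.coeff 0 = 1 ∧
      X ^ (N + 1) ∣ lp S c (fun j => e j % d) - h ^ d ∧
      ∀ n, |(h.coeff n : ℝ)| ≤ (2 * ((S + 1) * d * β)) ^ n := by
  obtain ⟨h1, h2, -, h3⟩ := lin_prod_facts (range (S + 1)) c (fun j => e j % d) hβ
    (fun i hi => hc i (Nat.lt_succ_iff.1 (mem_range.1 hi))) ((d : ℤ) ^ 2)
    (fun i hi => hm i (Nat.lt_succ_iff.1 (mem_range.1 hi)))
  refine exists_root hd _ h1 h2 (by positivity) (fun j => (h3 j).trans ?_) N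
  rw [mul_pow]
  refine mul_le_mul_of_nonneg_right ?_ (by positivity)
  have h4 := (Nat.choose_le_pow (∑ j ∈ range (S + 1), e j % d) j).trans
    (Nat.pow_le_pow_left (sum_mod_le S e hd) j)
  exact_mod_cast h4

theorem succ_le_pow {b : ℤ} (hb : 2 ≤ b) {n m : ℕ} (h : n ≤ m) : (n : ℤ) + 1 ≤ b ^ m :=
  (two_pow_ge n).trans ((pow_le_pow_left₀ (by norm_num) hb n).trans
    (pow_le_pow_right₀ (by linarith) h))

theorem pade_exists {d : ℕ} (hd : 1 ≤ d) (S M : ℕ) : ∃ B : ℤ, 2 ≤ B ∧ ∀ (k lam : ℕ) (e : ℕ → ℕ),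
    1 ≤ lam → lam ≤ k → k < M * (lam + 1) → ∑ j ∈ range (S + 1), e j = k * d →
    ∃ U₀ U₁ U₂ h : ℤ[X], U₁ ≠ 0 ∧ U₀.natDegree ≤ k + 2 * lam ∧ U₁.natDegree ≤ 2 * lam ∧
      U₀ + U₁ * (lp S (fun j => j * d ^ 2) (fun j => e j / d) * h) + U₂ * X ^ (k + 3 * lam) = 0 ∧
      h.coeff 0 = 1 ∧ (∀ n, |(h.coeff n : ℝ)| ≤ (2 * ((S + 1) * d * (S * d ^ 2))) ^ n) ∧
      X ^ (k + 3 * lam) ∣ lp S (fun j => j * d ^ 2) (fun j => e j % d) - h ^ d ∧
      nrm U₀ ≤ B ^ k ∧ nrm U₁ ≤ B ^ k ∧ nrm U₂ ≤ B ^ k ∧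
      nrm (lp S (fun j => j * d ^ 2) (fun j => e j % d) - h ^ d) ≤ B ^ k ∧
      nrm (lp S (fun j => j * d ^ 2) e) ≤ B ^ k := by
  set b : ℤ := 2 * ((S + 1) * d * ((S + 1) * d ^ 2)) with hb
  have hd' : (1 : ℤ) ≤ d := by exact_mod_cast hd
  have hS : (0 : ℤ) ≤ S := Int.natCast_nonneg S
  have hd2 : (1 : ℤ) ≤ d ^ 2 := one_le_pow₀ hd'
  have hSd : (1 : ℤ) ≤ (S + 1) * d := one_le_mul_of_one_le_of_one_le (by linarith) hd'
  have hb1 : (S + 1 : ℤ) * d ^ 2 ≤ (S + 1) * d * ((S + 1) * d ^ 2) :=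
    le_mul_of_one_le_left (by positivity) hSd
  have hb0 : 1 + (S : ℤ) * d ^ 2 ≤ (S + 1) * d ^ 2 := by linarith
  have hSd2 : (0 : ℤ) ≤ S * d ^ 2 := by positivity
  have hb2 : 2 ≤ b := by linarith
  have hb3 : 1 + (S : ℤ) * d ^ 2 ≤ b := by linarith
  have hb4 : (1 : ℤ) ≤ b := by linarith
  set κ := 2 * M + 5 with hκ
  refine ⟨b ^ (20 * κ + 9 * d + 3), hb2.trans (le_self_pow₀ hb4 (by omega)), ?_⟩
  intro k lam e hl hlk hkM he
  set c : ℕ → ℤ := fun j => j * d ^ 2 with hc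
  have hcb : ∀ j ≤ S, |c j| ≤ S * d ^ 2 := fun j hj => by
    rw [hc, abs_of_nonneg (by positivity)]
    exact mul_le_mul_of_nonneg_right (by exact_mod_cast hj) (by positivity)
  have hlp : ∀ e' : ℕ → ℕ, ∀ n, ∑ j ∈ range (S + 1), e' j ≤ n → nrm (lp S c e') ≤ b ^ n :=
    fun e' n hn => (nrm_lp_le e' hcb).trans ((pow_le_pow_left₀ (by linarith) hb3 _).trans
      (pow_le_pow_right₀ hb4 hn))
  obtain ⟨h, hh1, hh0, hh2, hh3⟩ := root_lp hd (c := c) e (β := S * d ^ 2) (by positivity)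
    (fun j hj => by exact_mod_cast hcb j hj) (fun j _ => dvd_mul_left _ _) (k + 3 * lam)
  have hnh : nrm h ≤ b ^ (8 * k) := by
    have h1 : ∀ i, |h.coeff i| ≤ b ^ (4 * k) := by
      intro i
      by_cases hi : i ≤ 4 * k
      · have h2 : 2 * ((S + 1 : ℤ) * d * (S * d ^ 2)) ≤ b :=
          mul_le_mul_of_nonneg_left (mul_le_mul_of_nonneg_left (by linarith) (by linarith))
            (by norm_num)
        have h3 : |h.coeff i| ≤ (2 * ((S + 1 : ℤ) * d * (S * d ^ 2))) ^ i := by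
          exact_mod_cast hh3 i
        exact h3.trans ((pow_le_pow_left₀ (by positivity) h2 i).trans (pow_le_pow_right₀ hb4 hi))
      · rw [coeff_eq_zero_of_natDegree_lt (by omega), abs_zero]; positivity
    refine (nrm_le_of_coeff h (n := 4 * k) (by omega) h1).trans ?_
    rw [show 8 * k = 4 * k + 4 * k by ring, pow_add]
    exact mul_le_mul_of_nonneg_right (succ_le_pow hb2 le_rfl) (by positivity)
  have hG := sum_div_le hd he
  have hΛ : nrm (lp S c (fun j => e j / d) * h) ≤ b ^ (9 * k) := by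
    rw [show 9 * k = k + 8 * k by ring, pow_add]
    exact (nrm_mul_le _ _).trans (mul_le_mul (hlp _ _ hG) hnh (nrm_nonneg _) (by positivity))
  have hΛ1 : 1 ≤ b ^ (9 * k) := one_le_pow₀ hb4
  obtain ⟨U, hU0, hUd, hUs, hUc⟩ := exists_syzygy
    ![1, lp S c (fun j => e j / d) * h, X ^ (k + 3 * lam)] ![k + 2 * lam, 2 * lam, k + 2 * lam]
    (2 * k + 5 * lam) κ (b ^ (9 * k)) hΛ1
    (by
      intro i j
      refine (abs_coeff_le_nrm _ j).trans ?_
      fin_cases i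
      · simpa using hΛ1
      · exact hΛ
      · exact (nrm_pow_le _ _).trans (by simpa using hΛ1))
    (by
      intro i
      fin_cases i
      · simp; omega
      · have := (natDegree_mul_le (p := lp S c (fun j => e j / d)) (q := h)).trans
          (add_le_add ((lp_facts _ _ _).2.trans hG) hh1)
        simp only [Fin.mk_one, Matrix.cons_val_one, Matrix.cons_val_zero]
        omega
      · simp; omega)
    (by
      simp only [Matrix.cons_val_zero, Matrix.cons_val_one, Matrix.cons_val]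
      rw [hκ]; nlinarith)
  rw [Fin.sum_univ_three] at hUs
  simp only [Matrix.cons_val_zero, Matrix.cons_val_one, Matrix.cons_val, mul_one] at hUs hUc
  have hU0d : (U 0).natDegree ≤ k + 2 * lam := hUd 0
  have hU1d : (U 1).natDegree ≤ 2 * lam := hUd 1
  have hU2d : (U 2).natDegree ≤ k + 2 * lam := hUd 2
  have hmono : ∀ n, n ≤ (20 * κ + 9 * d + 3) * k → b ^ n ≤ (b ^ (20 * κ + 9 * d + 3)) ^ k :=
    fun n hn => by rw [← pow_mul]; exact pow_le_pow_right₀ hb4 hn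
  have hnU : ∀ i, (U i).natDegree ≤ 3 * k → nrm (U i) ≤ (b ^ (20 * κ + 9 * d + 3)) ^ k := by
    intro i hi
    refine (nrm_le_of_coeff _ hi (hUc i)).trans (le_trans ?_ (hmono (3 * k + (11 * k + 9 * k) * κ)
      (by nlinarith)))
    rw [pow_add b, pow_mul b (11 * k + 9 * k), pow_add b (11 * k)]
    refine mul_le_mul (succ_le_pow hb2 le_rfl) (pow_le_pow_left₀ (by positivity)
      (mul_le_mul_of_nonneg_right ?_ (by positivity)) _) (by positivity) (by positivity)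
    exact le_trans (by linarith) (succ_le_pow hb2 (n := k + 2 * lam + 2 * lam + (k + 2 * lam) + 3)
      (by omega))
  refine ⟨U 0, U 1, U 2, h, ?_, hU0d, hU1d, hUs, hh0, hh3,
    (pow_dvd_pow _ (Nat.le_succ _)).trans hh2, hnU 0 (by omega), hnU 1 (by omega),
    hnU 2 (by omega), ?_, (hlp e _ he.le).trans (hmono _ (by nlinarith))⟩
  · intro h1
    rw [h1, zero_mul, add_zero] at hUs
    have h2 : U 0 = 0 := eq_zero_of_dvd_of_natDegree_lt (p := X ^ (k + 3 * lam))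
      ⟨-U 2, by linear_combination hUs⟩ (by rw [natDegree_X_pow]; omega)
    rw [h2, zero_add, mul_eq_zero] at hUs
    apply hU0
    ext1 i
    fin_cases i
    · exact h2
    · exact h1
    · exact hUs.resolve_right (pow_ne_zero _ X_ne_zero)
  · have h1 := hlp (fun j => e j % d) (8 * k * d) ((sum_le_sum fun j _ => Nat.mod_le _ _).trans
      (by rw [he]; nlinarith))
    have h2 : nrm (h ^ d) ≤ b ^ (8 * k * d) := by
      rw [pow_mul]; exact (nrm_pow_le _ _).trans (pow_le_pow_left₀ (nrm_nonneg _) hnh d)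
    have h4 : 1 ≤ k * d := Nat.mul_pos (by omega) hd
    refine (nrm_sub_le _ _).trans (le_trans ?_ (hmono (8 * k * d + 1)
      (le_trans (by linarith) (Nat.mul_le_mul_right k (by omega : 9 * d ≤ 20 * κ + 9 * d + 3)))))
    have h3 := mul_le_mul_of_nonneg_left hb2 (by positivity : 0 ≤ b ^ (8 * k * d))
    rw [pow_succ]; linarith

end Pool.Agent.Lib.MP_4ffbf9_nt
end

-- part Pool.Agent.Lib.MP_4ffbf9_nt.Pade2
section

/-!
Zero estimate and local expansion for the approximants.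
-/

set_option autoImplicit false

namespace Pool.Agent.Lib.MP_4ffbf9_nt

open Polynomial Finset

theorem dvd_map_of_dvd_C_mul {a : ℤ} (ha : a ≠ 0) {p : ℤ[X]} {q : ℚ[X]}
    (h : q ∣ (C a * p).map (Int.castRingHom ℚ)) : q ∣ p.map (Int.castRingHom ℚ) := by
  rw [Polynomial.map_mul, map_C] at h
  exact (IsUnit.dvd_mul_left (isUnit_C.2 (IsUnit.mk0 _ (by simpa using ha)))).1 h

theorem pade_zero {d k μ L K : ℕ} {t r σ γ Z N : ℤ} {U₀ U₁ U₂ G F h : ℤ[X]} (hd : 1 ≤ d)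
    (hk : 1 ≤ k) (ht : 0 < t) (hr : r ≠ 0) (hU₁ : U₁ ≠ 0) (d0 : U₀.natDegree ≤ k + μ)
    (d1 : U₁.natDegree ≤ μ) (dR : (G ^ d * F).natDegree ≤ k * d) (hR0 : (G ^ d * F).coeff 0 = 1)
    (hsyz : U₀ + U₁ * (G * h) + U₂ * X ^ L = 0) (hF : X ^ L ∣ F - h ^ d) (hμL : μ * d < L)
    (n0 : nrm U₀ ≤ N) (n1 : nrm U₁ ≤ N) (nR : nrm (G ^ d * F) ≤ N)
    (hbig : 2 * (((k + μ) * d : ℕ) : ℤ) * (N ^ d * (N ^ d * N)) < t ^ K) (hγZ : γ ^ d * Z ≠ 0)
    (hdiv : X ^ (K + 1) ∣ hsub 1 t r ((k + μ) * d)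
      (C (γ ^ d * Z) * (-U₀) ^ d - C (σ ^ d) * (U₁ ^ d * (G ^ d * F)))) : γ ^ d * Z = σ ^ d := by
  set P₁ := (-U₀) ^ d with hP₁
  set P₂ := U₁ ^ d * (G ^ d * F) with hP₂
  have hX : ¬ X ∣ G ^ d * F := by rw [X_dvd_iff, hR0]; exact one_ne_zero
  have hcop : ∀ a : ℤ, X ^ L ∣ C a * P₂ → a = 0 := by
    intro a ha
    rw [hP₂, ← mul_assoc] at ha
    have h1 := eq_zero_of_dvd_of_natDegree_lt (prime_X.pow_dvd_of_dvd_mul_right L hX ha) (by
      rw [natDegree_X_pow]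
      exact ((natDegree_C_mul_le _ _).trans (natDegree_pow_le.trans
        ((Nat.mul_le_mul_left d d1).trans_eq (mul_comm _ _)))).trans_lt hμL)
    exact C_eq_zero.1 ((mul_eq_zero.1 h1).resolve_right (pow_ne_zero _ hU₁))
  have hcong : X ^ L ∣ P₁ - P₂ := by
    have h1 : X ^ L ∣ -U₀ - U₁ * (G * h) := ⟨U₂, by linear_combination -hsyz⟩
    have h2 := dvd_sub (h1.trans (sub_dvd_pow_sub_pow _ _ d)) (hF.mul_left (U₁ ^ d * G ^ d))
    convert h2 using 1
    rw [hP₁, hP₂, mul_pow, mul_pow]; ring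
  have hP₂0 : P₂ ≠ 0 := fun h0 => one_ne_zero (hcop 1 (by rw [h0, mul_zero]; exact dvd_zero _))
  have hP₁0 : P₁ ≠ 0 := fun h0 => one_ne_zero (hcop 1 (by
    rw [h0, zero_sub, dvd_neg] at hcong; exact hcong.mul_left _))
  have dP₁ : P₁.natDegree ≤ (k + μ) * d := natDegree_pow_le.trans (by
    rw [natDegree_neg, mul_comm]; exact Nat.mul_le_mul_right d d0)
  have dP₂ : P₂.natDegree ≤ (k + μ) * d := natDegree_mul_le.trans (by
    have := (natDegree_pow_le (p := U₁) (n := d)).trans (Nat.mul_le_mul_left d d1)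
    rw [add_mul, mul_comm μ]; omega)
  have hN : 1 ≤ N := (one_le_nrm hU₁).trans n1
  have nP₁ : nrm P₁ ≤ N ^ d := (nrm_pow_le _ _).trans
    (pow_le_pow_left₀ (nrm_nonneg _) (by rwa [nrm_neg]) d)
  have nP₂ : nrm P₂ ≤ N ^ d * N := (nrm_mul_le _ _).trans (mul_le_mul ((nrm_pow_le _ _).trans
    (pow_le_pow_left₀ (nrm_nonneg _) n1 d)) nR (nrm_nonneg _) (by positivity))
  have hD := pow_dvd_of_X_pow_dvd_hsub ht.ne' hr ((natDegree_sub_le _ _).trans
    (max_le ((natDegree_C_mul_le _ _).trans dP₁) ((natDegree_C_mul_le _ _).trans dP₂))) hdiv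
  have hW : wronskian P₁ P₂ = 0 := by
    by_contra hW
    have h1 : C (γ ^ d * Z) * wronskian P₁ P₂ =
        (C (γ ^ d * Z) * P₁ - C (σ ^ d) * P₂) * derivative P₂ -
          derivative (C (γ ^ d * Z) * P₁ - C (σ ^ d) * P₂) * P₂ := by
      rw [wronskian, derivative_sub, derivative_C_mul, derivative_C_mul]; ring
    have h2 : (X - C (((1 : ℤ) : ℚ) / t)) ^ K ∣
        (C (γ ^ d * Z) * wronskian P₁ P₂).map (Int.castRingHom ℚ) := by
      rw [h1, Polynomial.map_sub, Polynomial.map_mul, Polynomial.map_mul (p := derivative _),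
        ← derivative_map (C _ * P₁ - _)]
      exact dvd_sub (((pow_dvd_pow _ (Nat.le_succ K)).trans hD).mul_right _)
        ((pow_sub_one_dvd_derivative_of_pow_dvd hD).mul_right _)
    have h3 := (pow_le_nrm_of_dvd ht.ne' one_ne_zero isCoprime_one_left hW
      (dvd_map_of_dvd_C_mul hγZ h2)).2
    rw [abs_of_pos ht] at h3
    refine absurd (h3.trans ((nrm_wronskian_le _ _ dP₁ dP₂).trans ?_)) (not_le.2 hbig)
    exact mul_le_mul_of_nonneg_left (mul_le_mul nP₁ nP₂ (nrm_nonneg _) (by positivity))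
      (by positivity)
  have h4 := proportional_of_wronskian_eq_zero hP₁0 hP₂0 hW
  have h5 : P₁.leadingCoeff - P₂.leadingCoeff = 0 := hcop _ (by
    have := hcong.mul_left (C P₂.leadingCoeff)
    rwa [mul_sub, h4, ← sub_mul, ← C_sub] at this)
  rw [sub_eq_zero.1 h5] at h4
  have h6 : P₁ = P₂ := mul_left_cancel₀ (C_ne_zero.2 (leadingCoeff_ne_zero.2 hP₂0)) h4
  by_contra hne
  rw [h6, ← sub_mul, ← C_sub] at hD
  have h7 := (pow_le_nrm_of_dvd ht.ne' one_ne_zero isCoprime_one_left hP₂0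
    (dvd_map_of_dvd_C_mul (sub_ne_zero.2 hne) hD)).2
  rw [abs_of_pos ht] at h7
  have h8 : t ^ K ≤ t ^ (K + 1) := pow_le_pow_right₀ ht (Nat.le_succ K)
  have h9 : (1 : ℤ) ≤ (((k + μ) * d : ℕ) : ℤ) := by
    exact_mod_cast Nat.mul_pos (by omega) hd
  have h10 : N ^ d * N ≤ N ^ d * (N ^ d * N) :=
    le_mul_of_one_le_left (by positivity) (one_le_pow₀ hN)
  have h11 : N ^ d * (N ^ d * N) ≤ 2 * (((k + μ) * d : ℕ) : ℤ) * (N ^ d * (N ^ d * N)) :=
    le_mul_of_one_le_left (by positivity) (by linarith)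
  linarith

theorem hsub_mapR {t u r : ℤ} (hu : u ≠ 0) {e : ℕ} {p : ℤ[X]} (hp : p.natDegree ≤ e) :
    (hsub t u r e p).map (Int.castRingHom ℝ) = C ((u : ℝ) ^ e) *
      (p.map (Int.castRingHom ℝ)).comp (C ((t : ℝ) / u) + C ((r : ℝ) / u) * X) := by
  have h := congrArg (Polynomial.map (Rat.castHom ℝ)) (hsub_map (t := t) (r := r) hu hp)
  have h1 : (Rat.castHom ℝ).comp (Int.castRingHom ℚ) = Int.castRingHom ℝ := RingHom.ext_int _ _
  rw [Polynomial.map_mul, Polynomial.map_comp, Polynomial.map_map, Polynomial.map_map, h1] at h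
  simpa using h

theorem X_pow_dvd_of_mapR {n : ℕ} {p : ℤ[X]} (h : X ^ n ∣ p.map (Int.castRingHom ℝ)) :
    X ^ n ∣ p := by
  rw [X_pow_dvd_iff] at h ⊢
  intro i hi
  simpa using h i hi

theorem wn_X_le {K : ℕ} {ω : ℝ} (hω : 0 ≤ ω) : wn K ω X ≤ ω := by
  simpa using wn_lin_le (K := K) hω 0 1

theorem wn_lp_le {K S : ℕ} {ω : ℝ} (hω : 0 ≤ ω) {c : ℕ → ℤ} (e : ℕ → ℕ)
    (hc : ∀ j ≤ S, |(c j : ℝ)| * ω ≤ 1) :
    wn K ω ((lp S c e).map (Int.castRingHom ℝ)) ≤ 2 ^ (∑ j ∈ range (S + 1), e j) := by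
  have key : ∀ n ≤ S + 1, wn K ω ((∏ j ∈ range n, (1 + C (c j) * X) ^ e j).map
      (Int.castRingHom ℝ)) ≤ 2 ^ (∑ j ∈ range n, e j) := by
    intro n hn
    induction n with
    | zero => simp [wn_one]
    | succ n ih =>
      rw [prod_range_succ, sum_range_succ, Polynomial.map_mul, pow_add, Polynomial.map_pow]
      refine (wn_mul_le hω _ _).trans (mul_le_mul (ih (by omega)) ((wn_pow_le hω _ _).trans
        (pow_le_pow_left₀ (wn_nonneg hω _) ?_ _)) (wn_nonneg hω _) (by positivity))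
      have h1 := wn_lin_le (K := K) hω 1 (c n)
      have h2 := hc n (by omega)
      rw [Polynomial.map_add, Polynomial.map_mul, map_C, map_X, Polynomial.map_one, eq_intCast,
        ← C_1]
      rw [abs_one] at h1
      linarith
  exact key _ le_rfl

theorem comp_lp {S : ℕ} {z D r : ℝ} (hz : 0 < z) (hD : D ≠ 0) {c c' : ℕ → ℤ}
    (hc : ∀ j, (c j : ℝ) = j * D) (hc' : ∀ j ≤ S, c' j * (z + j) = j * r) (e : ℕ → ℕ) :
    ((lp S c e).map (Int.castRingHom ℝ)).comp (C (1 / (D * z)) + C (r / (D * z)) * X) =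
      C (∏ j ∈ range (S + 1), ((z + j) / z) ^ e j) * (lp S c' e).map (Int.castRingHom ℝ) := by
  rw [lp, lp, Polynomial.map_prod, Polynomial.map_prod, Polynomial.prod_comp, map_prod,
    ← prod_mul_distrib]
  refine prod_congr rfl fun j hj => ?_
  rw [Polynomial.map_pow, Polynomial.map_pow, pow_comp, C_pow, ← mul_pow]
  congr 1
  simp only [Polynomial.map_add, Polynomial.map_mul, map_C, map_X, Polynomial.map_one, add_comp,
    mul_comp, C_comp, X_comp, one_comp, eq_intCast (Int.castRingHom ℝ)]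
  have h1 : (z + j) / z = 1 + c j * (1 / (D * z)) := by rw [hc]; field_simp
  have h2 : (z + j) / z * c' j = c j * (r / (D * z)) := by
    rw [hc, div_mul_eq_mul_div, mul_comm (z + j), hc' j (Nat.lt_succ_iff.1 (mem_range.1 hj))]
    field_simp
  rw [mul_add, mul_add, ← mul_assoc, ← mul_assoc, ← C_mul, ← C_mul, ← C_mul, h2, h1, C_add, C_1]
  ring

theorem prod_ratio_le {S : ℕ} {z : ℝ} (hz : 0 < z) (e : ℕ → ℕ) :
    1 ≤ ∏ j ∈ range (S + 1), ((z + j) / z) ^ e j ∧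
    ∏ j ∈ range (S + 1), ((z + j) / z) ^ e j ≤ (1 + S / z) ^ (∑ j ∈ range (S + 1), e j) := by
  constructor
  · exact Finset.one_le_prod fun j _ => one_le_pow₀ ((one_le_div hz).2 (by simp))
  · rw [← prod_pow_eq_pow_sum]
    refine prod_le_prod (fun _ _ => by positivity) fun j hj => pow_le_pow_left₀ (by positivity) ?_ _
    have : (j : ℝ) ≤ S := by exact_mod_cast Nat.lt_succ_iff.1 (mem_range.1 hj)
    rw [add_div, div_self hz.ne']
    gcongr

end Pool.Agent.Lib.MP_4ffbf9_nt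
end

-- part Pool.Agent.Lib.MP_4ffbf9_nt.Pade3
section

/-!
Local expansion of the approximants at the point given by the base.
-/

set_option autoImplicit false

namespace Pool.Agent.Lib.MP_4ffbf9_nt

open Polynomial Finset

theorem aux_small {d δ : ℝ} (hd : 1 ≤ d) (hδ0 : 0 ≤ δ) (hδ : 32 * d * δ ≤ 1) :
    δ ≤ 1 / 32 ∧ 8 * δ ≤ 1 / (4 * d) ∧ (1 + 2 * δ) * (1 + 4 * δ) - 1 ≤ 1 / (4 * d) := by
  have h1 : δ ≤ 1 / 32 := by nlinarith
  have h2 : 8 * δ ≤ 1 / (4 * d) := by rw [le_div_iff₀ (by positivity)]; linarith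
  exact ⟨h1, h2, le_trans (by nlinarith) h2⟩

theorem aux_exp {y δ : ℝ} {n : ℕ} (hy : 0 ≤ y) (h : n * y ≤ δ) (hδ : δ ≤ 1) :
    (1 + y) ^ n ≤ 1 + 2 * δ := by
  have hδ0 : 0 ≤ δ := le_trans (by positivity) h
  have h1 : (1 + y) ^ n ≤ Real.exp y ^ n :=
    pow_le_pow_left₀ (by positivity) (by linarith [Real.add_one_le_exp y]) n
  rw [← Real.exp_nat_mul] at h1
  have h2 := Real.abs_exp_sub_one_le (x := δ) (by rwa [abs_of_nonneg hδ0])
  rw [abs_of_nonneg hδ0] at h2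
  linarith [Real.exp_le_exp.2 h, le_abs_self (Real.exp δ - 1)]

theorem pade_local {d S k μ L K : ℕ} (hd : 1 ≤ d) {z : ℕ} (hz2 : 2 ≤ z)
    (hz : 32 * d * ((S + 1) * d * S) ≤ z) {e : ℕ → ℕ} (he : ∑ j ∈ range (S + 1), e j = k * d)
    {σ γ Z : ℤ} (hγ : 0 ≤ γ) (hZ : Z = ∏ j ∈ range (S + 1), ((z : ℤ) + j) ^ e j) {ψ : ℝ}
    (hψ0 : 0 < ψ) (hψ : ψ ^ d = Z) {U₀ U₁ U₂ h : ℤ[X]} (d0 : U₀.natDegree ≤ k + μ)
    (d1 : U₁.natDegree ≤ μ)
    (hsyz : U₀ + U₁ * (lp S (fun j => j * d ^ 2) (fun j => e j / d) * h) + U₂ * X ^ L = 0)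
    (h0 : h.coeff 0 = 1) (hh : ∀ n, |(h.coeff n : ℝ)| ≤ (2 * ((S + 1) * d * (S * d ^ 2))) ^ n)
    (hF : X ^ L ∣ lp S (fun j => j * d ^ 2) (fun j => e j % d) - h ^ d) {N : ℤ}
    (n1 : nrm U₁ ≤ N) (n2 : nrm U₂ ≤ N)
    (nF : nrm (lp S (fun j => j * d ^ 2) (fun j => e j % d) - h ^ d) ≤ N) {t r : ℤ}
    (ht : t = d ^ 2 * z) (hr : r = d ^ 2 * ∏ i ∈ range (S + 1), ((z : ℤ) + i))
    (hnum : (((d : ℝ) ^ 2) ^ k * |σ - γ * ψ| * ((t : ℝ) ^ μ * N * 2 ^ k * 2) +
      γ * ((t : ℝ) ^ k * 2 ^ k) * ((t : ℝ) ^ μ * N * 2 ^ k * (2 * (N * (2 / t) ^ L))) +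
      γ * (t : ℝ) ^ (k + μ) * (N * (2 / t) ^ L)) * (r : ℝ) ^ K < 1) :
    X ^ (K + 1) ∣ hsub 1 t r ((k + μ) * d) (C (γ ^ d * Z) * (-U₀) ^ d -
      C (σ ^ d) * (U₁ ^ d * lp S (fun j => j * d ^ 2) e)) := by
  have hd' : (1 : ℝ) ≤ d := by exact_mod_cast hd
  have hz' : (2 : ℝ) ≤ z := by exact_mod_cast hz2
  have hz0 : (0 : ℝ) < z := by linarith
  set D : ℝ := (d : ℝ) ^ 2 with hD
  have hD1 : 1 ≤ D := one_le_pow₀ hd'
  have ht' : (t : ℝ) = D * z := by rw [ht]; push_cast; rfl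
  have ht2 : (2 : ℝ) ≤ t := by rw [ht']; exact hz'.trans (le_mul_of_one_le_left hz0.le hD1)
  have ht0 : (0 : ℝ) < t := by linarith
  have htz : t ≠ 0 := by exact_mod_cast ht0.ne'
  have hr1 : (1 : ℝ) ≤ r := by
    rw [hr]; push_cast
    exact one_le_mul_of_one_le_of_one_le hD1
      (Finset.one_le_prod fun i _ => by have : (0 : ℝ) ≤ i := Nat.cast_nonneg i; linarith)
  have hr0 : (0 : ℝ) < r := by linarith
  set c : ℕ → ℤ := fun j => j * d ^ 2 with hc
  set c' : ℕ → ℤ := fun j => j * (d ^ 2 * ∏ i ∈ (range (S + 1)).erase j, ((z : ℤ) + i)) with hc'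
  have hcc : ∀ j ≤ S, (c' j : ℝ) * (z + j) = j * r := by
    intro j hj
    rw [hr, ← prod_erase_mul _ _ (mem_range.2 (Nat.lt_succ_of_le hj)), hc']
    push_cast; ring
  have hcb : ∀ j ≤ S, |(c' j : ℝ)| ≤ S * r / z := by
    intro j hj
    have hj0 : (0 : ℝ) ≤ j := Nat.cast_nonneg j
    have hjS : (j : ℝ) ≤ S := by exact_mod_cast hj
    rw [eq_div_of_mul_eq (by positivity) (hcc j hj), abs_of_nonneg (by positivity)]
    gcongr
    linarith
  set δ : ℝ := (S + 1) * d * S / z with hδ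
  have hδ0 : 0 ≤ δ := by positivity
  obtain ⟨hδ1, hδ2, hδ3⟩ := aux_small hd' hδ0 (by
    rw [hδ, ← mul_div_assoc, div_le_one hz0]; exact_mod_cast hz)
  have hSz : (S : ℝ) / z ≤ 1 := by
    have h1 : (S : ℝ) / z ≤ δ := by
      rw [hδ]
      refine div_le_div_of_nonneg_right (le_mul_of_one_le_left (Nat.cast_nonneg S)
        (one_le_mul_of_one_le_of_one_le (by simp) hd')) hz0.le
    linarith
  set ω : ℝ := 1 / r with hω
  have hω0 : 0 ≤ ω := by positivity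
  set l : ℝ[X] := C (1 / (D * z)) + C (r / (D * z)) * X with hl
  have hlw : wn K ω l ≤ 2 / t := by
    refine (wn_lin_le hω0 _ _).trans_eq ?_
    rw [← ht', abs_of_pos (by positivity), abs_of_pos (by positivity), hω]
    field_simp; norm_num
  have h2t : (2 : ℝ) / t ≤ 1 := (div_le_one ht0).2 ht2
  let φl : ℤ[X] →+* ℝ[X] := (compRingHom l).comp (mapRingHom (Int.castRingHom ℝ))
  have hφ : ∀ p, φl p = (p.map (Int.castRingHom ℝ)).comp l := fun p => rfl
  have hsubφ : ∀ {n : ℕ} {p : ℤ[X]}, p.natDegree ≤ n →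
      (hsub 1 t r n p).map (Int.castRingHom ℝ) = C ((t : ℝ) ^ n) * φl p := by
    intro n p hp
    rw [hsub_mapR htz hp, hφ, hl, ← ht', Int.cast_one]
  have hlp : ∀ e' : ℕ → ℕ, φl (lp S c e') =
      C (∏ j ∈ range (S + 1), (((z : ℝ) + j) / z) ^ e' j) * (lp S c' e').map (Int.castRingHom ℝ) :=
    fun e' => comp_lp hz0 (by positivity) (fun j => by rw [hc]; push_cast; rfl) hcc e'
  obtain ⟨Ξ, -, hΞ0, hΞ1, hΞ2⟩ := root_lp hd (c := c') e (β := S * r / z) (by positivity) hcb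
    (fun j _ => (dvd_mul_right _ _).mul_left _) K
  set g : ℝ := ∏ j ∈ range (S + 1), (((z : ℝ) + j) / z) ^ (e j / d) with hg
  set f : ℝ := ∏ j ∈ range (S + 1), (((z : ℝ) + j) / z) ^ (e j % d) with hf
  set Gh := (lp S c' (fun j => e j / d)).map (Int.castRingHom ℝ) with hGh
  set Fh := (lp S c' (fun j => e j % d)).map (Int.castRingHom ℝ) with hFh
  set Xh := Ξ.map (Int.castRingHom ℝ) with hXh
  have hG := sum_div_le hd he
  obtain ⟨hg1, hg2⟩ := prod_ratio_le (S := S) hz0 fun j => e j / d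
  obtain ⟨hf1, hf2⟩ := prod_ratio_le (S := S) hz0 fun j => e j % d
  rw [← hg] at hg1 hg2
  rw [← hf] at hf1 hf2
  have hg3 : g ≤ 2 ^ k := hg2.trans ((pow_le_pow_left₀ (by positivity) (by linarith) _).trans
    (pow_le_pow_right₀ one_le_two hG))
  have hf3 : f ≤ 1 + 2 * δ := by
    refine hf2.trans (aux_exp (by positivity) ?_ (by linarith))
    rw [hδ, mul_div_assoc]
    exact mul_le_mul_of_nonneg_right (by exact_mod_cast sum_mod_le S e hd) (by positivity)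
  have hgf : g ^ d * f * ((z : ℝ) ^ k) ^ d = Z := by
    rw [hg, hf, ← prod_pow, ← prod_mul_distrib, ← pow_mul, ← he, ← prod_pow_eq_pow_sum,
      ← prod_mul_distrib, hZ]
    push_cast
    refine prod_congr rfl fun j _ => ?_
    rw [← pow_mul, ← pow_add, Nat.div_add_mod', ← mul_pow, div_mul_cancel₀ _ hz0.ne']
  set φ : ℝ := ψ / (z ^ k * g) with hφdef
  have hφ0 : 0 < φ := by positivity
  have hφd : φ ^ d = f := by
    rw [hφdef, div_pow, hψ, ← hgf, mul_pow]; field_simp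
  have hφ1 : 1 ≤ φ := by
    by_contra h1
    have := pow_lt_one₀ hφ0.le (not_le.1 h1) (by omega : d ≠ 0)
    linarith
  have hφ2 : φ ≤ 1 + 2 * δ := (le_self_pow₀ hφ1 (by omega : d ≠ 0)).trans (hφd ▸ hf3)
  have hX1 : wn K ω (Xh - 1) ≤ 1 + 4 * δ - 1 := by
    have h1 : 2 * ((S + 1) * d * (S * r / z)) * ω = 2 * δ := by rw [hω, hδ]; field_simp
    have h2 := wn_comp_sub_one_le (K := K) hω0 (wn_X_le hω0) hΞ0 (by positivity) hΞ2
      (by rw [h1]; linarith)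
    rw [comp_X, h1] at h2
    linarith
  have hX2 : wn K ω Xh ≤ 2 := by
    have h1 := wn_add_le (K := K) hω0 (Xh - 1) 1
    rw [sub_add_cancel, wn_one] at h1
    linarith
  have ha : wn K ω (φl h - 1) ≤ 1 / (4 * d) := by
    have h1 : 2 * ((S + 1) * d * (S * D)) * (2 / (t : ℝ)) = 4 * δ := by
      rw [ht', hδ]; field_simp; ring
    have h2 := wn_comp_sub_one_le (K := K) hω0 hlw h0 (by positivity) hh (by rw [h1]; linarith)
    rw [h1] at h2
    rw [hφ]; linarith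
  have hb : wn K ω (C φ * Xh - 1) ≤ 1 / (4 * d) := by
    refine (wn_mul_sub_one_le hω0 (α := 1 + 2 * δ) ?_ hX1).trans hδ3
    rw [← C_1, ← C_sub, wn_C, abs_of_nonneg (by linarith)]
    linarith
  have hFX : X ^ (K + 1) ∣ Fh - Xh ^ d := by
    have := Polynomial.map_dvd (Int.castRingHom ℝ) hΞ1
    rwa [Polynomial.map_pow, map_X, Polynomial.map_sub, Polynomial.map_pow] at this
  have hN : (0 : ℝ) ≤ N := by exact_mod_cast (nrm_nonneg _).trans n1
  have hab : wn K ω (φl h - C φ * Xh) ≤ 2 * (N * (2 / t) ^ L) := by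
    refine (wn_sub_le_of_pow hω0 hd ha hb).trans (mul_le_mul_of_nonneg_left ?_ zero_le_two)
    have h1 : wn K ω (φl h ^ d - (C φ * Xh) ^ d) =
        wn K ω (-φl (lp S c (fun j => e j % d) - h ^ d)) := by
      refine wn_congr ?_
      rw [map_sub, hlp, map_pow, mul_pow, ← C_pow, hφd]
      convert hFX.mul_left (C f) using 1
      ring
    rw [h1, wn_neg, hφ]
    exact (wn_comp_le_nrm hω0 hlw h2t hF).trans
      (mul_le_mul_of_nonneg_right (by exact_mod_cast nF) (by positivity))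
  have hU1 : wn K ω (C ((t : ℝ) ^ μ) * φl U₁) ≤ (t : ℝ) ^ μ * N := by
    rw [wn_C_mul, abs_of_pos (by positivity), hφ]
    refine mul_le_mul_of_nonneg_left ((wn_comp_le_nrm hω0 hlw h2t (L := 0) (by simp)).trans ?_)
      (by positivity)
    rw [pow_zero, mul_one]; exact_mod_cast n1
  have hU2 : wn K ω (φl (U₂ * X ^ L)) ≤ N * (2 / t) ^ L := by
    refine (wn_comp_le_nrm hω0 hlw h2t (dvd_mul_left _ _)).trans
      (mul_le_mul_of_nonneg_right ?_ (by positivity))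
    have h1 : nrm (U₂ * X ^ L) ≤ N := (nrm_mul_le _ _).trans ((mul_le_of_le_one_right
      (nrm_nonneg _) ((nrm_pow_le _ _).trans (by simp))).trans n2)
    exact_mod_cast h1
  have hGw : wn K ω Gh ≤ 2 ^ k := by
    refine (wn_lp_le hω0 _ fun j hj => ?_).trans (pow_le_pow_right₀ one_le_two hG)
    refine (mul_le_mul_of_nonneg_right (hcb j hj) hω0).trans (le_trans (le_of_eq ?_) hSz)
    rw [hω]; field_simp
  have hUG : wn K ω (C ((t : ℝ) ^ μ) * φl U₁ * Gh) ≤ (t : ℝ) ^ μ * N * 2 ^ k :=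
    (wn_mul_le hω0 _ _).trans (mul_le_mul hU1 hGw (wn_nonneg hω0 _) (by positivity))
  set Θ : ℤ[X] := C γ * hsub 1 t r (k + μ) U₀ +
    C ((d ^ 2) ^ k * σ) * (hsub 1 t r μ U₁ * lp S c' (fun j => e j / d) * Ξ) with hΘ
  have hΘ1 : Θ.map (Int.castRingHom ℝ) = C (γ : ℝ) * (C ((t : ℝ) ^ (k + μ)) * φl U₀) +
      C (D ^ k * σ) * (C ((t : ℝ) ^ μ) * φl U₁ * Gh * Xh) := by
    rw [hΘ, Polynomial.map_add, Polynomial.map_mul, Polynomial.map_mul, Polynomial.map_mul,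
      Polynomial.map_mul, hsubφ d0, hsubφ d1, map_C, map_C]
    simp [hD, hGh, hXh]
  have hs := congrArg φl hsyz
  rw [map_add, map_add, map_mul φl U₁, map_mul φl _ h, hlp, map_zero, ← hg, ← hGh] at hs
  have hcc' : C ((t : ℝ) ^ k) * C g * C φ = C (D ^ k) * C ψ := by
    rw [← C_mul, ← C_mul, ← C_mul, hφdef, ht', mul_pow]
    congr 1
    field_simp
  have hΘ2 : Θ.map (Int.castRingHom ℝ) =
      C (D ^ k * (σ - γ * ψ)) * (C ((t : ℝ) ^ μ) * φl U₁ * Gh * Xh) -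
      C (γ * ((t : ℝ) ^ k * g)) * (C ((t : ℝ) ^ μ) * φl U₁ * Gh * (φl h - C φ * Xh)) -
      C (γ * (t : ℝ) ^ (k + μ)) * φl (U₂ * X ^ L) := by
    rw [hΘ1]
    simp only [C_mul, C_sub, pow_add]
    linear_combination (C (γ : ℝ) * C ((t : ℝ) ^ k) * C ((t : ℝ) ^ μ)) * hs -
      (C (γ : ℝ) * C ((t : ℝ) ^ μ) * φl U₁ * Gh * Xh) * hcc'
  have hγ' : (0 : ℝ) ≤ γ := by exact_mod_cast hγ
  have hΘ3 : wn K ω (Θ.map (Int.castRingHom ℝ)) * (r : ℝ) ^ K < 1 := by
    refine lt_of_le_of_lt (mul_le_mul_of_nonneg_right ?_ (by positivity)) hnum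
    rw [hΘ2]
    refine (wn_sub_le hω0 _ _).trans (add_le_add ((wn_sub_le hω0 _ _).trans (add_le_add ?_ ?_)) ?_)
    · rw [wn_C_mul, abs_mul, abs_of_pos (by positivity)]
      exact mul_le_mul_of_nonneg_left ((wn_mul_le hω0 _ _).trans
        (mul_le_mul hUG hX2 (wn_nonneg hω0 _) (by positivity))) (by positivity)
    · rw [wn_C_mul, abs_of_nonneg (by positivity)]
      exact mul_le_mul (by gcongr) ((wn_mul_le hω0 _ _).trans
        (mul_le_mul hUG hab (wn_nonneg hω0 _) (by positivity))) (wn_nonneg hω0 _) (by positivity)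
    · rw [wn_C_mul, abs_of_nonneg (by positivity)]
      exact mul_le_mul_of_nonneg_left hU2 (by positivity)
  have hΘ4 : X ^ (K + 1) ∣ Θ.map (Int.castRingHom ℝ) := by
    rw [X_pow_dvd_iff]
    intro i hi
    have h1 := coeff_le_wn (K := K) hω0 (Θ.map (Int.castRingHom ℝ)) (Nat.lt_succ_iff.1 hi)
    have h2 : 1 ≤ ω ^ i * (r : ℝ) ^ K := by
      refine le_trans (le_of_eq ?_) (mul_le_mul_of_nonneg_left
        (pow_le_pow_right₀ hr1 (Nat.lt_succ_iff.1 hi)) (by positivity))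
      rw [← mul_pow, hω, one_div_mul_cancel hr0.ne', one_pow]
    have h3 : |(Θ.map (Int.castRingHom ℝ)).coeff i| < 1 :=
      lt_of_le_of_lt ((le_mul_of_one_le_right (abs_nonneg _) h2).trans (by
        rw [← mul_assoc]; exact mul_le_mul_of_nonneg_right h1 (by positivity))) hΘ3
    rw [coeff_map, eq_intCast] at h3 ⊢
    exact_mod_cast Int.abs_lt_one_iff.1 (by exact_mod_cast h3)
  apply X_pow_dvd_of_mapR
  have dP₁ : ((-U₀) ^ d).natDegree ≤ (k + μ) * d := natDegree_pow_le.trans (by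
    rw [natDegree_neg, mul_comm]; exact Nat.mul_le_mul_right d d0)
  have dP₂ : (U₁ ^ d * lp S c e).natDegree ≤ (k + μ) * d := natDegree_mul_le.trans (by
    have h1 := (natDegree_pow_le (p := U₁) (n := d)).trans (Nat.mul_le_mul_left d d1)
    have h2 := (lp_facts S c e).2
    rw [add_mul, mul_comm μ]; omega)
  rw [hsubφ ((natDegree_sub_le _ _).trans (max_le ((natDegree_C_mul_le _ _).trans dP₁)
    ((natDegree_C_mul_le _ _).trans dP₂)))]
  have h5 : X ^ (K + 1) ∣ C (γ : ℝ) * (C ((t : ℝ) ^ (k + μ)) * -φl U₀) -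
      C (D ^ k * σ) * (C ((t : ℝ) ^ μ) * φl U₁ * Gh * Xh) := by
    rw [hΘ1] at hΘ4
    convert hΘ4.neg_right using 1
    ring
  have h6 := dvd_sub (h5.trans (sub_dvd_pow_sub_pow _ _ d))
    (hFX.mul_left ((C (D ^ k * σ) * (C ((t : ℝ) ^ μ) * φl U₁ * Gh)) ^ d))
  have hφC : ∀ a : ℤ, φl (C a) = C (a : ℝ) := fun a => by rw [hφ]; simp
  have h7 : C ((t : ℝ) ^ k) ^ d * (C g ^ d * C f) = C (D ^ k) ^ d * C (Z : ℝ) := by
    rw [← hgf, ht']
    simp only [← C_pow, ← C_mul]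
    congr 1
    rw [mul_pow, mul_pow]; ring
  convert h6.mul_left (C (Z : ℝ)) using 1
  rw [← lp_split S c e d]
  simp only [map_sub, map_mul, map_pow φl, map_neg, hlp, hφC, ← hg, ← hf, ← hGh, ← hFh, pow_mul,
    pow_add, C_pow, mul_pow] at h7 ⊢
  linear_combination (-(C (t : ℝ) ^ μ) ^ d * C (σ : ℝ) ^ d * φl U₁ ^ d * Gh ^ d * Fh) * h7

theorem aux_num {D B γ T R x : ℝ} {k lam g K M : ℕ} (hD : 1 ≤ D) (hB : 1 ≤ B) (hγ : 1 ≤ γ)
    (hl : 1 ≤ lam) (hlk : lam ≤ k) (hk : k ≤ 2 * M * lam) (hK : 2 * (g * K) ≤ lam) (hx0 : 0 ≤ x)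
    (hx : x * T ^ (3 * lam) ≤ 1) (hT : (3 * (128 * γ * D * B ^ 2)) ^ (4 * M) < T) (hR0 : 0 ≤ R)
    (hR : R ≤ T ^ g) :
    (D ^ k * x * (T ^ (2 * lam) * B ^ k * 2 ^ k * 2) + γ * (T ^ k * 2 ^ k) *
      (T ^ (2 * lam) * B ^ k * 2 ^ k * (2 * (B ^ k * (2 / T) ^ (k + 3 * lam)))) +
      γ * T ^ (k + 2 * lam) * (B ^ k * (2 / T) ^ (k + 3 * lam))) * R ^ K < 1 := by
  have hB2 : B ≤ B ^ 2 := le_self_pow₀ hB two_ne_zero
  have hγD : 1 ≤ γ * D := one_le_mul_of_one_le_of_one_le hγ hD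
  have e0 : B ^ 2 ≤ γ * D * B ^ 2 := le_mul_of_one_le_left (by positivity) hγD
  have e1 : D * B * 2 * 2 ≤ 128 * γ * D * B ^ 2 := by
    have : D * B ≤ γ * D * B ^ 2 :=
      mul_le_mul (le_mul_of_one_le_left (by positivity) hγ) hB2 (by positivity) (by positivity)
    linarith
  have e2 : γ * 2 * 2 * 2 * B * B * 16 ≤ 128 * γ * D * B ^ 2 := by
    have : γ * B ^ 2 ≤ γ * D * B ^ 2 :=
      mul_le_mul_of_nonneg_right (le_mul_of_one_le_right (by positivity) hD) (by positivity)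
    linarith
  have e3 : γ * B * 16 ≤ 128 * γ * D * B ^ 2 := by
    have : γ * B ≤ γ * D * B ^ 2 :=
      mul_le_mul (le_mul_of_one_le_right (by positivity) hD) hB2 (by positivity) (by positivity)
    have : 0 ≤ γ * B := by positivity
    linarith
  have hE : 1 ≤ 128 * γ * D * B ^ 2 := by linarith
  generalize 128 * γ * D * B ^ 2 = E at *
  have hT1 : 1 ≤ T := (one_le_pow₀ (by linarith)).trans hT.le
  have hT0 : 0 < T := by linarith
  have hk0 : k ≠ 0 := by omega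
  have h2k : (2 : ℝ) ≤ 2 ^ k := le_self_pow₀ one_le_two hk0
  have h3k : (3 : ℝ) ≤ 3 ^ k := le_self_pow₀ (by norm_num) hk0
  have hγk : γ ≤ γ ^ k := le_self_pow₀ hγ hk0
  have h16 : (2 : ℝ) ^ (k + 3 * lam) ≤ 16 ^ k := by
    rw [show (16 : ℝ) = 2 ^ 4 by norm_num, ← pow_mul]
    exact pow_le_pow_right₀ one_le_two (by omega)
  have t1 : D ^ k * x * (T ^ (2 * lam) * B ^ k * 2 ^ k * 2) * T ^ lam ≤ E ^ k := by
    calc _ = D ^ k * B ^ k * 2 ^ k * 2 * (x * T ^ (3 * lam)) := by ring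
      _ ≤ D ^ k * B ^ k * 2 ^ k * 2 ^ k * 1 := by gcongr
      _ = (D * B * 2 * 2) ^ k := by simp only [mul_pow, mul_one]
      _ ≤ _ := pow_le_pow_left₀ (by positivity) e1 k
  have t2 : γ * (T ^ k * 2 ^ k) * (T ^ (2 * lam) * B ^ k * 2 ^ k *
      (2 * (B ^ k * (2 / T) ^ (k + 3 * lam)))) * T ^ lam ≤ E ^ k := by
    calc _ = γ * 2 * 2 ^ k * 2 ^ k * B ^ k * B ^ k * 2 ^ (k + 3 * lam) := by
          rw [div_pow]; field_simp; ring
      _ ≤ γ ^ k * 2 ^ k * 2 ^ k * 2 ^ k * B ^ k * B ^ k * 16 ^ k := by gcongr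
      _ = (γ * 2 * 2 * 2 * B * B * 16) ^ k := by simp only [mul_pow]
      _ ≤ _ := pow_le_pow_left₀ (by positivity) e2 k
  have t3 : γ * T ^ (k + 2 * lam) * (B ^ k * (2 / T) ^ (k + 3 * lam)) * T ^ lam ≤ E ^ k := by
    calc _ = γ * B ^ k * 2 ^ (k + 3 * lam) := by rw [div_pow]; field_simp; ring
      _ ≤ γ ^ k * B ^ k * 16 ^ k := by gcongr
      _ = (γ * B * 16) ^ k := by simp only [mul_pow]
      _ ≤ _ := pow_le_pow_left₀ (by positivity) e3 k
  have h4 : (3 * E) ^ k * T ^ (g * K) < T ^ lam := by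
    refine lt_of_pow_lt_pow_left₀ 2 (by positivity) ?_
    calc _ = (3 * E) ^ (k * 2) * T ^ (g * K * 2) := by rw [mul_pow _ _ 2, ← pow_mul, ← pow_mul]
      _ ≤ (3 * E) ^ (4 * M * lam) * T ^ lam :=
          mul_le_mul (pow_le_pow_right₀ (by linarith) (by linarith))
            (pow_le_pow_right₀ hT1 (by linarith)) (by positivity) (by positivity)
      _ < T ^ lam * T ^ lam := by
          rw [pow_mul]
          exact mul_lt_mul_of_pos_right (pow_lt_pow_left₀ hT (by positivity) (by omega))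
            (by positivity)
      _ = _ := (sq _).symm
  have h5 : R ^ K ≤ T ^ (g * K) := by rw [pow_mul]; exact pow_le_pow_left₀ hR0 hR K
  refine lt_of_mul_lt_mul_right ?_ (pow_pos hT0 lam).le
  rw [mul_right_comm, one_mul]
  refine lt_of_le_of_lt (mul_le_mul ?_ h5 (by positivity) (by positivity)) h4
  have h6 := mul_le_mul_of_nonneg_right h3k (by positivity : 0 ≤ E ^ k)
  rw [mul_pow 3, add_mul, add_mul]
  linarith

theorem aux_big {B t : ℤ} {d k lam K W : ℕ} (hB : 1 ≤ B) (hlk : lam ≤ k) (hK : 1 ≤ K)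
    (hk : k ≤ W * K) (ht : ((1 + 6 * d) * B ^ (2 * d + 1)) ^ W < t) :
    2 * (((k + 2 * lam) * d : ℕ) : ℤ) * ((B ^ k) ^ d * ((B ^ k) ^ d * B ^ k)) < t ^ K := by
  have hd : (0 : ℤ) ≤ d := Int.natCast_nonneg d
  have h1 : 2 * (((k + 2 * lam) * d : ℕ) : ℤ) ≤ (1 + 6 * d) ^ k := by
    have h2 := one_add_mul_le_pow (a := 6 * (d : ℤ)) (by linarith) k
    have h3 : (lam : ℤ) * d ≤ k * d := mul_le_mul_of_nonneg_right (by exact_mod_cast hlk) hd
    push_cast
    linarith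
  have h4 : 1 ≤ (1 + 6 * (d : ℤ)) * B ^ (2 * d + 1) :=
    one_le_mul_of_one_le_of_one_le (by linarith) (one_le_pow₀ hB)
  calc _ ≤ (1 + 6 * (d : ℤ)) ^ k * ((B ^ k) ^ d * ((B ^ k) ^ d * B ^ k)) :=
        mul_le_mul_of_nonneg_right h1 (by positivity)
    _ = ((1 + 6 * d) * B ^ (2 * d + 1)) ^ k := by rw [mul_pow]; ring
    _ ≤ (((1 + 6 * d) * B ^ (2 * d + 1)) ^ W) ^ K := by
        rw [← pow_mul]; exact pow_le_pow_right₀ h4 hk
    _ < _ := pow_lt_pow_left₀ ht (by positivity) (by omega)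

/-- An integer very close to a multiple of the `d`-th root of a long product equals it. -/
theorem pade_large {d : ℕ} (hd : 1 ≤ d) (S : ℕ) {M : ℕ} (hM : 2 * d ≤ M) {γ : ℤ} (hγ : 0 < γ) :
    ∃ z₀ k₀ : ℕ, ∀ (z k : ℕ) (e : ℕ → ℕ) (σ : ℤ) (ψ : ℝ), z₀ ≤ z → k₀ ≤ k →
      ∑ j ∈ range (S + 1), e j = k * d → 0 < ψ →
      ψ ^ d = ((∏ j ∈ range (S + 1), (z + j) ^ e j : ℕ) : ℝ) →
      |σ - γ * ψ| * ((d : ℝ) ^ 2 * z) ^ (3 * (k / M)) ≤ 1 → σ = γ * ψ := by
  obtain ⟨B, hB, hP⟩ := pade_exists hd S M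
  set g := 2 * S + 3 with hg
  set E₁ : ℤ := (3 * (128 * γ * d ^ 2 * B ^ 2)) ^ (4 * M) with hE₁
  set E₂ : ℤ := ((1 + 6 * d) * B ^ (2 * d + 1)) ^ (4 * g * M) with hE₂
  refine ⟨2 + S + 32 * d * ((S + 1) * d * S) + E₁.toNat + E₂.toNat, 2 * g * M, ?_⟩
  intro z k e σ ψ hz hk he hψ0 hψ hσ
  have hM0 : 0 < M := by omega
  set lam := k / M with hlam
  have hl1 : 2 * g ≤ lam := (Nat.le_div_iff_mul_le hM0).2 hk
  have hl2 : lam * M ≤ k := Nat.div_mul_le_self k M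
  have hl3 : k < M * (lam + 1) := Nat.lt_mul_div_succ k hM0
  have hlk : lam ≤ k := Nat.div_le_self k M
  set K := lam / (2 * g) with hK
  have hK1 : 1 ≤ K := (Nat.le_div_iff_mul_le (by omega)).2 (by omega)
  have hK2 : K * (2 * g) ≤ lam := Nat.div_mul_le_self _ _
  have hK3 : lam < 2 * g * (K + 1) := Nat.lt_mul_div_succ lam (by omega)
  obtain ⟨U₀, U₁, U₂, h, hU₁, d0, d1, hsyz, h0, hh, hF, n0, n1, n2, nF, nR⟩ :=
    hP k lam e (by omega) hlk hl3 he
  have hd' : (1 : ℤ) ≤ d ^ 2 := one_le_pow₀ (by exact_mod_cast hd)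
  have hz2 : (2 : ℤ) ≤ z := by exact_mod_cast (by omega : 2 ≤ z)
  set t : ℤ := d ^ 2 * z with ht
  set r : ℤ := d ^ 2 * ∏ i ∈ range (S + 1), ((z : ℤ) + i) with hr
  have hzt : (z : ℤ) ≤ t := le_mul_of_one_le_left (by linarith) hd'
  have hr0 : 0 < r := mul_pos (by linarith) (prod_pos fun i _ => by positivity)
  have hrt : r ≤ t ^ g := by
    rw [hg, show t ^ (2 * S + 3) = t * (t ^ 2) ^ (S + 1) by ring]
    refine mul_le_mul (le_mul_of_one_le_right (by linarith) (by linarith)) ?_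
      (prod_nonneg fun i _ => by positivity) (by linarith)
    refine (prod_le_prod (g := fun _ => t ^ 2) (fun i _ => by positivity) fun i hi => ?_).trans_eq
      (by rw [prod_const, card_range])
    have h1 : (i : ℤ) ≤ z := by exact_mod_cast (by have := mem_range.1 hi; omega : i ≤ z)
    have h2 : 2 * t ≤ t * t := mul_le_mul_of_nonneg_right (by linarith) (by linarith)
    rw [sq]; linarith
  have hE₁z : E₁ < t := by
    have h1 : (E₁.toNat : ℤ) < z := by exact_mod_cast (by omega : E₁.toNat < z)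
    linarith [Int.self_le_toNat E₁]
  have hE₂z : E₂ < t := by
    have h1 : (E₂.toNat : ℤ) < z := by exact_mod_cast (by omega : E₂.toNat < z)
    linarith [Int.self_le_toNat E₂]
  have htR : (t : ℝ) = (d : ℝ) ^ 2 * z := by rw [ht]; push_cast; rfl
  rw [← htR] at hσ
  have hγ1 : (1 : ℝ) ≤ γ := by exact_mod_cast hγ
  have hZ : ψ ^ d = ((∏ j ∈ range (S + 1), ((z : ℤ) + j) ^ e j : ℤ) : ℝ) := by
    rw [hψ]; push_cast; rfl
  have hZ1 : 1 ≤ ∏ j ∈ range (S + 1), ((z : ℤ) + j) ^ e j :=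
    Finset.one_le_prod fun i _ => one_le_pow₀ (by linarith [Int.natCast_nonneg i])
  have hdiv := pade_local (K := K) hd (by omega) (by omega) he (σ := σ) hγ.le rfl hψ0 hZ d0 d1 hsyz
    h0 hh hF n1 n2 nF ht hr (by
      push_cast
      refine aux_num (g := g) (M := M) (by exact_mod_cast hd') (by exact_mod_cast (by linarith))
        hγ1 (by omega) hlk (hl3.le.trans ?_) (by linarith) (abs_nonneg _) hσ
        (by exact_mod_cast hE₁z) (by exact_mod_cast hr0.le) (by exact_mod_cast hrt)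
      rw [mul_comm 2 M, mul_assoc]
      exact Nat.mul_le_mul_left M (by omega))
  rw [← lp_split S _ e d] at hdiv nR
  have hR := lp_facts S (fun j => (j : ℤ) * d ^ 2) e
  rw [← lp_split S _ e d, he] at hR
  have hfin := pade_zero hd (by omega) (by linarith) hr0.ne' hU₁ d0 d1 hR.2 hR.1 hsyz hF
    (by have := Nat.mul_le_mul_left lam hM; linarith) n0 n1 nR
    (aux_big (W := 4 * g * M) (by linarith) hlk hK1 (by
      have h1 := Nat.mul_le_mul_left M (show lam + 1 ≤ 2 * g * (2 * K) from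
        (Nat.succ_le_of_lt hK3).trans (Nat.mul_le_mul_left _ (by omega)))
      linarith) hE₂z) (by positivity) hdiv
  have hψ1 : 1 ≤ ψ := by
    by_contra h1
    have h2 := pow_lt_one₀ hψ0.le (not_le.1 h1) (by omega : d ≠ 0)
    rw [hZ] at h2
    exact absurd hZ1 (not_le.2 (by exact_mod_cast h2))
  have hσ0 : (0 : ℝ) ≤ σ := by
    have h1 : (1 : ℝ) ≤ t := by exact_mod_cast (by linarith : 1 ≤ t)
    have h2 := (le_mul_of_one_le_right (abs_nonneg _) (one_le_pow₀ h1)).trans hσ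
    linarith [neg_abs_le (σ - γ * ψ), one_le_mul_of_one_le_of_one_le hγ1 hψ1]
  refine (pow_left_inj₀ hσ0 (by positivity) (by omega : d ≠ 0)).1 ?_
  rw [mul_pow, hZ]
  exact_mod_cast hfin.symm

end Pool.Agent.Lib.MP_4ffbf9_nt
end
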