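import Mathlib
import Pool.Agent.Lib.MP_4ffbf9_nt.SUnit
import Pool.Agent.Shared.Subspace.Main
import Pool.Agent.Lib.MP_4ffbf9_nt.Pade3
import Pool.Agent.Lib.MP_4ffbf9_nt.Shape
import Pool.Agent.Lib.MP_4ffbf9_nt.Conic

-- part Pool.Agent.Lib.MP_4ffbf9_nt.Ridout
section

/-!
Approximation of algebraic multiples of smooth numbers by integers.
-/

set_option autoImplicit false

namespace Pool.Agent.Lib.MP_4ffbf9_nt

open Finset Filter

theorem exists_direction {P : Finset ℕ} (hP : ∀ p ∈ P, 2 ≤ p) {N : ℕ} (hN : 1 ≤ N) (f : ℕ → ℕ)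
    (hW : (∏ p ∈ P, p) ^ N < ∏ p ∈ P, p ^ f p) :
    ∃ B m : ℕ, B ≤ (∏ p ∈ P, p) ^ (2 * N) ∧ B ^ m ∣ ∏ p ∈ P, p ^ f p ∧
      ∏ p ∈ P, p ^ f p ≤ B ^ m * (∏ p ∈ P, p) ^ m ∧ 2 ^ (m * N) ≤ ∏ p ∈ P, p ^ f p := by
  have hfs : ∀ p ∈ P, f p ≤ ∑ q ∈ P, f q := fun p hp =>
    single_le_sum (f := f) (fun _ _ => Nat.zero_le _) hp
  have hs : N ≤ ∑ q ∈ P, f q := by
    by_contra h
    refine absurd hW (not_lt.2 ?_)
    rw [← prod_pow]
    exact prod_le_prod' fun p hp => Nat.pow_le_pow_right (by have := hP p hp; omega)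
      (by have := hfs p hp; omega)
  set m := (∑ q ∈ P, f q) / N with hm
  have hm1 : 1 ≤ m := (Nat.le_div_iff_mul_le hN).2 (by omega)
  have hm2 : ∑ q ∈ P, f q < N * (m + 1) := Nat.lt_mul_div_succ _ hN
  refine ⟨∏ p ∈ P, p ^ (f p / m), m, ?_, ?_, ?_, ?_⟩
  · rw [← prod_pow]
    refine prod_le_prod' fun p hp => Nat.pow_le_pow_right (by have := hP p hp; omega)
      (Nat.div_le_of_le_mul ?_)
    have := Nat.mul_le_mul_left N (show m + 1 ≤ 2 * m by omega)
    have := hfs p hp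
    linarith
  · rw [← prod_pow]
    exact prod_dvd_prod_of_dvd _ _ fun p _ => by
      rw [← pow_mul]; exact pow_dvd_pow _ (Nat.div_mul_le_self _ _)
  · rw [← prod_pow, ← prod_pow, ← prod_mul_distrib]
    refine prod_le_prod' fun p hp => ?_
    rw [← pow_mul, ← pow_add]
    refine Nat.pow_le_pow_right (by have := hP p hp; omega) ?_
    have := Nat.lt_mul_div_succ (f p) hm1
    linarith
  · refine (Nat.pow_le_pow_right (by norm_num) (Nat.div_mul_le_self _ N)).trans ?_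
    rw [← prod_pow_eq_pow_sum]
    exact prod_le_prod' fun p hp => Nat.pow_le_pow_left (hP p hp) _

theorem ridout_base {θ : ℝ} (hθ : IsAlgebraic ℚ θ) {B : ℕ} (hB : 2 ≤ B) (K : ℝ) {η : ℝ}
    (hη : 0 < η) : ∀ᶠ W : ℕ in atTop, ∀ (m : ℕ) (σ : ℤ), B ^ m ∣ W →
      (W : ℝ) ≤ B ^ m * (W : ℝ) ^ (η / 4) → |σ - θ * W| ≤ K * (W : ℝ) ^ (-η) → σ = θ * W := by
  obtain ⟨Ψ, hΨ0, hΨ⟩ := Pool.Agent.Subspace.subspace B hB
    (!![1, -θ; 0, 1] : Matrix (Fin 2) (Fin 2) ℝ)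
    (by
      intro i j
      fin_cases i <;> fin_cases j
      · exact isAlgebraic_one
      · exact hθ.neg
      · exact isAlgebraic_zero
      · exact isAlgebraic_one)
    (by simp [Matrix.det_fin_two]) (half_pos hη)
  have h1 : ∀ᶠ W : ℕ in atTop, ∀ ψ ∈ Ψ, θ + (ψ 1 : ℝ) / ψ 0 ≠ 0 →
      |K| < |θ + (ψ 1 : ℝ) / ψ 0| * W := by
    refine (eventually_all_finset Ψ).2 fun ψ _ => ?_
    by_cases h : θ + (ψ 1 : ℝ) / ψ 0 = 0
    · exact Eventually.of_forall fun W h2 => absurd h h2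
    · filter_upwards [(tendsto_natCast_atTop_atTop.const_mul_atTop
        (abs_pos.2 h)).eventually_gt_atTop |K|] with W hW _ using hW
  have h2 := ((tendsto_rpow_atTop (by positivity : 0 < η / 4)).comp
    tendsto_natCast_atTop_atTop).eventually_ge_atTop (|K| * (|θ| + |K| + 1) ^ (η / 2))
  filter_upwards [h1, h2, eventually_ge_atTop 1] with W hW1 hW2 hW3 m σ hm hle hσ
  have hW4 : (1 : ℝ) ≤ W := by exact_mod_cast hW3
  have hW0 : (0 : ℝ) < W := by linarith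
  have hσ1 : |σ - θ * W| ≤ |K| * (W : ℝ) ^ (-η) :=
    hσ.trans (mul_le_mul_of_nonneg_right (le_abs_self K) (by positivity))
  have hσ2 : |σ - θ * W| ≤ |K| := hσ1.trans (mul_le_of_le_one_right (abs_nonneg _)
    (Real.rpow_le_one_of_one_le_of_nonpos hW4 (by linarith)))
  obtain ⟨ψ, hψ, h3⟩ := hΨ ![σ, W] ![0, m] ((|θ| + |K| + 1) * W)
    (by
      intro i
      have h4 := le_mul_of_one_le_right (abs_nonneg K) hW4
      have h5 : 0 ≤ |θ| * W := by positivity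
      fin_cases i
      · have h6 := abs_add_le ((σ : ℝ) - θ * W) (θ * W)
        rw [sub_add_cancel, abs_mul, Nat.abs_cast] at h6
        simp only [Fin.zero_eta, Matrix.cons_val_zero]
        linarith
      · simp only [Fin.mk_one, Matrix.cons_val_one, Matrix.cons_val_zero, Int.cast_natCast,
          Nat.abs_cast]
        linarith [abs_nonneg K])
    (by
      intro i
      fin_cases i
      · simp
      · simpa using (Int.natCast_dvd_natCast.2 hm))
    (by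
      simp only [Fin.prod_univ_two, Fin.sum_univ_two]
      simp
      rw [Real.mul_rpow (by positivity) hW0.le, ← sub_eq_add_neg]
      refine le_of_mul_le_mul_right (le_trans ?_ hle) (Real.rpow_pos_of_pos hW0 (η / 4))
      have h7 : (W : ℝ) ^ (-η) * (W : ℝ) ^ (η / 2) * (W : ℝ) ^ (η / 4) * (W : ℝ) ^ (η / 4) = 1 := by
        rw [← Real.rpow_add hW0, ← Real.rpow_add hW0, ← Real.rpow_add hW0,
          show -η + η / 2 + η / 4 + η / 4 = 0 by ring, Real.rpow_zero]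
      calc _ = |σ - θ * W| * (|θ| + |K| + 1) ^ (η / 2) *
            ((W : ℝ) ^ (η / 2) * (W : ℝ) ^ (η / 4) * W) := by ring
        _ ≤ |K| * (W : ℝ) ^ (-η) * (|θ| + |K| + 1) ^ (η / 2) *
            ((W : ℝ) ^ (η / 2) * (W : ℝ) ^ (η / 4) * W) := by gcongr
        _ = |K| * (|θ| + |K| + 1) ^ (η / 2) *
            ((W : ℝ) ^ (-η) * (W : ℝ) ^ (η / 2) * (W : ℝ) ^ (η / 4) * W) := by ring
        _ ≤ (W : ℝ) ^ (η / 4) *
            ((W : ℝ) ^ (-η) * (W : ℝ) ^ (η / 2) * (W : ℝ) ^ (η / 4) * W) :=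
          mul_le_mul_of_nonneg_right hW2 (by positivity)
        _ = W := by linear_combination (W : ℝ) * h7)
  rw [Fin.sum_univ_two] at h3
  simp only [Matrix.cons_val_zero, Matrix.cons_val_one] at h3
  have h0 : ψ 0 ≠ 0 := by
    intro h
    rw [h, zero_mul, zero_add, mul_eq_zero] at h3
    apply hΨ0 ψ hψ
    ext i
    fin_cases i
    · exact h
    · exact h3.resolve_right (by omega)
  have h0' : (ψ 0 : ℝ) ≠ 0 := by exact_mod_cast h0
  have h4 : (ψ 0 : ℝ) * σ + ψ 1 * W = 0 := by exact_mod_cast h3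
  have h5 : σ - θ * W = -((θ + (ψ 1 : ℝ) / ψ 0) * W) := by field_simp; linear_combination h4
  by_contra hne
  have h6 := hW1 ψ hψ fun h => hne (by rw [← sub_eq_zero, h5, h]; simp)
  rw [h5, abs_neg, abs_mul, Nat.abs_cast] at hσ2
  linarith

theorem ridout_smooth {θ : ℝ} (hθ : IsAlgebraic ℚ θ) {P : Finset ℕ} (hP : ∀ p ∈ P, 2 ≤ p) (K : ℝ)
    {η : ℝ} (hη : 0 < η) : ∀ᶠ W : ℕ in atTop, ∀ (f : ℕ → ℕ) (σ : ℤ), W = ∏ p ∈ P, p ^ f p →
      |σ - θ * W| ≤ K * (W : ℝ) ^ (-η) → σ = θ * W := by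
  set c := ∏ p ∈ P, p with hc
  obtain ⟨N, hN⟩ := exists_nat_gt (c / min (η / 4) (1 / 2))
  have hη' : 0 < min (η / 4) (1 / 2) := by positivity
  have hN0 : (0 : ℝ) < N := lt_of_le_of_lt (by positivity) hN
  rw [div_lt_comm₀ hη' hN0] at hN
  have hN1 : 1 ≤ N := by exact_mod_cast hN0
  have h1 := (eventually_all_finset (Icc 2 (c ^ (2 * N)))).2 fun B hB =>
    ridout_base hθ (mem_Icc.1 hB).1 K hη
  filter_upwards [h1, eventually_gt_atTop (c ^ N), eventually_gt_atTop 1] with W hW1 hW2 hW3 f σ hW hσ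
  obtain ⟨B, m, h2, h3, h4, h5⟩ := exists_direction hP hN1 f (by rw [← hW]; exact hW2)
  rw [← hW, ← hc] at *
  have hW4 : (1 : ℝ) < W := by exact_mod_cast hW3
  have h6 : (c : ℝ) ^ m ≤ (W : ℝ) ^ ((c : ℝ) / N) := by
    have h7 : (c ^ m) ^ N ≤ W ^ c := by
      calc (c ^ m) ^ N = c ^ (m * N) := (pow_mul _ _ _).symm
        _ ≤ (2 ^ c) ^ (m * N) := Nat.pow_le_pow_left Nat.lt_two_pow_self.le _
        _ = (2 ^ (m * N)) ^ c := by rw [← pow_mul, ← pow_mul, mul_comm]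
        _ ≤ W ^ c := Nat.pow_le_pow_left h5 c
    refine le_of_pow_le_pow_left₀ (by omega : N ≠ 0) (by positivity) ?_
    rw [← Real.rpow_natCast (_ ^ (_ / _ : ℝ)), ← Real.rpow_mul (by positivity),
      div_mul_cancel₀ _ hN0.ne', Real.rpow_natCast]
    exact_mod_cast h7
  have h8 : (W : ℝ) ≤ B ^ m * (W : ℝ) ^ ((c : ℝ) / N) :=
    le_trans (by exact_mod_cast h4) (mul_le_mul_of_nonneg_left h6 (by positivity))
  have hB : 2 ≤ B := by
    by_contra h
    have h9 : (B : ℝ) ^ m ≤ 1 := pow_le_one₀ (by positivity) (by exact_mod_cast (by omega : B ≤ 1))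
    have h10 := Real.rpow_lt_rpow_of_exponent_lt hW4 (show (c : ℝ) / N < 1 by
      linarith [min_le_right (η / 4) (1 / 2)])
    rw [Real.rpow_one] at h10
    linarith [mul_le_of_le_one_left (by positivity : 0 ≤ (W : ℝ) ^ ((c : ℝ) / N)) h9]
  exact hW1 B (mem_Icc.2 ⟨hB, h2⟩) m σ h3 (h8.trans (mul_le_mul_of_nonneg_left
    (Real.rpow_le_rpow_of_exponent_le hW4.le (by linarith [min_le_left (η / 4) (1 / 2)]))
    (by positivity))) hσ

/-- Roots of smooth numbers are not too close to integers. -/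
theorem near_smooth {d : ℕ} (hd : 1 ≤ d) (γ : ℤ) (L : ℕ) (K : ℝ) {η : ℝ} (hη : 0 < η) :
    ∀ᶠ Z : ℕ in atTop, ∀ (σ : ℤ) (ψ : ℝ), (∀ p : ℕ, p.Prime → p ∣ Z → p ≤ L) → 0 < ψ → ψ ^ d = Z →
      |σ - γ * ψ| ≤ K * (Z : ℝ) ^ (-η) → σ = γ * ψ := by
  set P := (range (L + 1)).filter Nat.Prime with hPdef
  have hP : ∀ p ∈ P, 2 ≤ p := fun p hp => (mem_filter.1 hp).2.two_le
  set c := ∏ p ∈ P, p with hc
  have h1 := (eventually_all_finset (range (c ^ d + 1))).2 fun Z₀ _ =>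
    ridout_smooth (θ := γ * (Z₀ : ℝ) ^ ((d : ℝ)⁻¹)) ((isAlgebraic_intCast γ).mul
      (IsAlgebraic.of_pow hd (by
        rw [Real.rpow_inv_natCast_pow (Nat.cast_nonneg _) (by omega)]
        exact isAlgebraic_natCast Z₀))) hP |K| hη
  obtain ⟨W₀, hW₀⟩ := eventually_atTop.1 h1
  filter_upwards [eventually_gt_atTop (c ^ d * W₀ ^ d)] with Z hZ σ ψ hs hψ0 hψ hσ
  have hZ0 : Z ≠ 0 := by omega
  have h2 := eq_prod_of_subset hZ0 (S := P) fun p hp => mem_filter.2 ⟨mem_range.2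
    (Nat.lt_succ_of_le (hs p (Nat.prime_of_mem_primeFactors hp) (Nat.dvd_of_mem_primeFactors hp))),
    Nat.prime_of_mem_primeFactors hp⟩
  set Z₀ := ∏ p ∈ P, p ^ (Z.factorization p % d) with hZ₀
  set W := ∏ p ∈ P, p ^ (Z.factorization p / d) with hW
  have h3 : Z = Z₀ * W ^ d := by
    rw [hZ₀, hW, ← prod_pow, ← prod_mul_distrib]
    refine h2.trans (prod_congr rfl fun p _ => ?_)
    rw [← pow_mul, ← pow_add, Nat.mod_add_div']
  have h4 : Z₀ ≤ c ^ d := by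
    rw [hc, ← prod_pow]
    exact prod_le_prod' fun p hp => Nat.pow_le_pow_right (by have := hP p hp; omega)
      (Nat.mod_lt _ hd).le
  have h5 : W₀ ≤ W := by
    by_contra h
    exact absurd hZ (not_lt.2 (h3.trans_le
      (Nat.mul_le_mul h4 (Nat.pow_le_pow_left (not_le.1 h).le d))))
  have hW0 : 0 < W := prod_pos fun p hp => pow_pos (by have := hP p hp; omega) _
  have h6 : ψ = (Z₀ : ℝ) ^ ((d : ℝ)⁻¹) * W := by
    refine (pow_left_inj₀ hψ0.le (by positivity) (by omega : d ≠ 0)).1 ?_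
    rw [mul_pow, Real.rpow_inv_natCast_pow (Nat.cast_nonneg _) (by omega), hψ]
    exact_mod_cast h3
  have h7 : W ≤ Z := Nat.le_of_dvd (by omega) (h3 ▸ (dvd_pow_self W (by omega)).mul_left Z₀)
  rw [h6, ← mul_assoc] at hσ ⊢
  exact hW₀ W h5 Z₀ (mem_range.2 (Nat.lt_succ_of_le h4)) _ σ hW (hσ.trans
    (mul_le_mul (le_abs_self K) (Real.rpow_le_rpow_of_nonpos (by exact_mod_cast hW0)
      (by exact_mod_cast h7) (by linarith)) (by positivity) (abs_nonneg K)))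

end Pool.Agent.Lib.MP_4ffbf9_nt
end

-- part Pool.Agent.Lib.MP_4ffbf9_nt.Near
section

/-!
Roots of long products of bounded spread are not too close to integers.
-/

set_option autoImplicit false

namespace Pool.Agent.Lib.MP_4ffbf9_nt

open Finset Filter

theorem near_power {d : ℕ} (hd : 1 ≤ d) (S : ℕ) {γ : ℤ} (hγ : 0 < γ) (K : ℝ) {η : ℝ}
    (hη : 0 < η) : ∃ m₀ : ℕ, ∀ᶠ Z : ℕ in atTop, ∀ (m : ℕ) (z : Fin m → ℕ) (σ : ℤ) (ψ : ℝ),
      m₀ ≤ m → d ∣ m → (∀ i, 0 < z i) → (∀ i j, z i ≤ z j + S) → ∏ i, z i = Z → 0 < ψ →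
      ψ ^ d = Z → |σ - γ * ψ| ≤ K * (Z : ℝ) ^ (-η) → σ = γ * ψ := by
  obtain ⟨M₀, hM₀⟩ := exists_nat_ge (12 / η)
  obtain ⟨z₀, k₀, hL⟩ := pade_large hd S (M := 2 * d + M₀) (Nat.le_add_right _ _) hγ
  refine ⟨k₀ * d + 1, ?_⟩
  filter_upwards [near_smooth hd γ (z₀ + d ^ 2 + S) K hη, eventually_ge_atTop 1,
    ((tendsto_rpow_atTop (half_pos hη)).comp tendsto_natCast_atTop_atTop).eventually_ge_atTop K]
    with Z h1 hZ1 h2 m z σ ψ hm ⟨k, hk⟩ hz0 hzS hZ hψ0 hψ hσ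
  obtain ⟨b, o, hb, hzo, -⟩ := exists_shape (by omega) z hz0 hzS
  by_cases hbz : b < z₀ + d ^ 2
  · refine h1 σ ψ (fun p hp hpZ => ?_) hψ0 hψ hσ
    rw [← hZ] at hpZ
    obtain ⟨i, -, hi⟩ := (Prime.dvd_finsetProd_iff hp.prime _).1 hpZ
    have h3 := Nat.le_of_dvd (hz0 i) hi
    have h4 := (o i).2
    rw [hzo i] at h3
    omega
  have hmap : ∀ i ∈ (univ : Finset (Fin m)), (o i : ℕ) ∈ range (S + 1) :=
    fun i _ => mem_range.2 (o i).2
  have hk' : m = k * d := hk.trans (mul_comm _ _)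
  refine hL b k (fun j => (univ.filter fun i => (o i : ℕ) = j).card) σ ψ (by omega)
    (Nat.le_of_mul_le_mul_right (by omega) hd) ?_ hψ0 ?_ ?_
  · rw [← card_eq_sum_card_fiberwise hmap, card_univ, Fintype.card_fin, hk']
  · rw [hψ, ← hZ, prod_congr rfl fun i _ => hzo i,
      ← prod_fiberwise_of_maps_to' hmap fun j => b + j]
    simp only [prod_const]
  have hb1 : (1 : ℝ) ≤ b := by exact_mod_cast hb
  have hZ0 : (0 : ℝ) < Z := by exact_mod_cast hZ1
  have h3 : (b : ℝ) ^ k ≤ Z := by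
    have h4 : b ^ m ≤ Z := by
      rw [← hZ]
      refine le_trans (le_of_eq (by simp)) (pow_card_le_prod univ z b fun i _ => ?_)
      rw [hzo i]; omega
    exact_mod_cast (Nat.pow_le_pow_right hb (hk' ▸ Nat.le_mul_of_pos_right k hd)).trans h4
  have h5 : ((d : ℝ) ^ 2 * b) ^ (3 * (k / (2 * d + M₀))) ≤ (Z : ℝ) ^ (η / 2) := by
    have h6 : (d : ℝ) ^ 2 ≤ b := by exact_mod_cast (by omega : d ^ 2 ≤ b)
    have h7 : ((k / (2 * d + M₀) : ℕ) : ℝ) * M₀ ≤ k := by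
      exact_mod_cast (Nat.mul_le_mul_left _ (Nat.le_add_left _ _)).trans (Nat.div_mul_le_self k _)
    rw [div_le_iff₀ hη] at hM₀
    have h8 := mul_le_mul_of_nonneg_left hM₀ (Nat.cast_nonneg (k / (2 * d + M₀)) : (0 : ℝ) ≤ _)
    have h9 := mul_le_mul_of_nonneg_right h7 hη.le
    calc _ ≤ ((b : ℝ) * b) ^ (3 * (k / (2 * d + M₀))) := by gcongr
      _ = (b : ℝ) ^ (((6 * (k / (2 * d + M₀)) : ℕ) : ℝ)) := by
          rw [Real.rpow_natCast, ← sq, ← pow_mul]; congr 1; ring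
      _ ≤ (b : ℝ) ^ ((k : ℝ) * (η / 2)) :=
          Real.rpow_le_rpow_of_exponent_le hb1 (by push_cast; linarith)
      _ = ((b : ℝ) ^ k) ^ (η / 2) := by rw [Real.rpow_mul (by positivity), Real.rpow_natCast]
      _ ≤ _ := Real.rpow_le_rpow (by positivity) h3 (by positivity)
  calc _ ≤ (Z : ℝ) ^ (η / 2) * (Z : ℝ) ^ (-η) * (Z : ℝ) ^ (η / 2) :=
        mul_le_mul (hσ.trans (mul_le_mul_of_nonneg_right h2 (by positivity))) h5 (by positivity)
          (by positivity)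
    _ = 1 := by
        rw [← Real.rpow_add hZ0, ← Real.rpow_add hZ0, show η / 2 + -η + η / 2 = 0 by ring,
          Real.rpow_zero]

end Pool.Agent.Lib.MP_4ffbf9_nt
end

-- part Pool.Agent.Lib.MP_4ffbf9_nt.Runge
section

/-!
Polynomial parts of roots of split polynomials, and branches of separated curves.
-/

set_option autoImplicit false

namespace Pool.Agent.Lib.MP_4ffbf9_nt

open Polynomial Filter Topology Finset

theorem reflect_pow' {h : ℤ[X]} {a : ℕ} (hh : h.natDegree ≤ a) (d : ℕ) :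
    reflect (a * d) (h ^ d) = reflect a h ^ d := by
  induction d with
  | zero => simp
  | succ d ih =>
    rw [pow_succ, pow_succ, Nat.mul_succ, reflect_mul _ _ (natDegree_pow_le.trans
      ((Nat.mul_le_mul_left d hh).trans_eq (mul_comm _ _))) hh, ih]

theorem reflect_prod_lin {ι : Type*} (s : Finset ι) (c : ι → ℤ) :
    (∏ i ∈ s, (1 + C (c i) * X)).natDegree ≤ s.card ∧
    reflect s.card (∏ i ∈ s, (1 + C (c i) * X)) = ∏ i ∈ s, (X + C (c i)) := by
  classical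
  induction s using Finset.induction_on with
  | empty => simp
  | insert a s ha ih =>
    have h1 : (1 + C (c a) * X : ℤ[X]).natDegree ≤ 1 :=
      (natDegree_add_le _ _).trans (max_le (by simp) ((natDegree_C_mul_le _ _).trans natDegree_X_le))
    rw [prod_insert ha, prod_insert ha, card_insert_of_notMem ha, add_comm s.card]
    refine ⟨natDegree_mul_le.trans (add_le_add h1 ih.1), ?_⟩
    rw [reflect_mul _ _ h1 ih.1, ih.2, reflect_add, reflect_C_mul, reflect_one, reflect_one_X,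
      pow_one, mul_one]

theorem runge_poly {d a n : ℕ} (hd : 1 ≤ d) (hn : n = a * d) (o : Fin n → ℤ) :
    ∃ p E : ℤ[X], p.natDegree = a ∧ p.coeff a = ((d : ℤ) ^ 2) ^ a ∧
      C (((d : ℤ) ^ 2) ^ n) * ∏ i, (X + C (o i)) = p ^ d + E ∧ ∀ j, n ≤ j + a → E.coeff j = 0 := by
  obtain ⟨h1, h2, -, -⟩ := lin_prod_facts univ (fun i => o i * d ^ 2) (fun _ => 1)
    (β := ∑ i, |((o i * d ^ 2 : ℤ) : ℝ)|) (sum_nonneg fun _ _ => abs_nonneg _)
    (fun i hi => single_le_sum (f := fun i => |((o i * d ^ 2 : ℤ) : ℝ)|) (fun _ _ => abs_nonneg _) hi)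
    ((d : ℤ) ^ 2) (fun _ _ => dvd_mul_left _ _)
  simp only [pow_one] at h1 h2
  obtain ⟨h3, h4⟩ := reflect_prod_lin univ fun i => o i * d ^ 2
  rw [card_univ, Fintype.card_fin] at h3 h4
  obtain ⟨h, hd1, hh0, -, hdiv⟩ := exists_root_aux _ h1 h2 a
  have hc : ((reflect a h).comp (C ((d : ℤ) ^ 2) * X)).coeff a = ((d : ℤ) ^ 2) ^ a := by
    rw [comp_C_mul_X_coeff, coeff_reflect, revAt_le le_rfl, Nat.sub_self, hh0, one_mul]
  refine ⟨(reflect a h).comp (C ((d : ℤ) ^ 2) * X),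
    (reflect n (∏ i, (1 + C (o i * d ^ 2) * X) - h ^ d)).comp (C ((d : ℤ) ^ 2) * X), ?_, hc, ?_, ?_⟩
  · refine natDegree_eq_of_le_of_coeff_ne_zero (natDegree_le_iff_coeff_eq_zero.2 fun j hj => ?_)
      (by rw [hc]; positivity)
    rw [comp_C_mul_X_coeff, coeff_reflect, revAt_eq_self_of_lt hj,
      coeff_eq_zero_of_natDegree_lt (hd1.trans_lt hj), zero_mul]
  · have h5 : reflect n (h ^ d) = reflect a h ^ d := hn ▸ reflect_pow' hd1 d
    rw [reflect_sub, h4, h5, sub_comp, pow_comp, add_sub_cancel, Polynomial.prod_comp,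
      show C (((d : ℤ) ^ 2) ^ n) = ∏ _i : Fin n, C ((d : ℤ) ^ 2) by simp, ← prod_mul_distrib]
    exact prod_congr rfl fun i _ => by rw [add_comp, X_comp, C_comp, C_mul]; ring
  · intro j hj
    rw [comp_C_mul_X_coeff, coeff_reflect]
    by_cases hjn : j ≤ n
    · rw [revAt_le hjn, X_pow_dvd_iff.1 hdiv _ (by omega), zero_mul]
    · rw [revAt_eq_self_of_lt (not_le.1 hjn), coeff_eq_zero_of_natDegree_lt, zero_mul]
      refine lt_of_le_of_lt ((natDegree_sub_le _ _).trans (max_le h3 (natDegree_pow_le.trans ?_)))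
        (not_le.1 hjn)
      rw [hn, mul_comm a]
      exact Nat.mul_le_mul_left d hd1

theorem mason_bound {P p E ρ π : ℤ[X]} {d : ℕ} (hP : P ≠ 0) (hE : E ≠ 0) (hρ : ρ ≠ 0)
    (h : P = p ^ (d + 1) + E) (hne : P.natDegree ≠ E.natDegree) (h₁ : ρ * derivative P = π * P) :
    d * p.natDegree < ρ.natDegree + E.natDegree := by
  have hW : wronskian P E ≠ 0 := fun h0 => hne (natDegree_eq_of_wronskian_eq_zero hP hE h0)
  have h2 : ρ * wronskian P E = p ^ d * P * (π * p - C ((d + 1 : ℕ) : ℤ) * ρ * derivative p) := by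
    have h3 : E = P - p ^ (d + 1) := by rw [h]; ring
    rw [wronskian, h3, derivative_sub, derivative_pow, Nat.add_sub_cancel]
    linear_combination p ^ (d + 1) * h₁
  have h4 := mul_ne_zero hρ hW
  have h5 := natDegree_le_of_dvd ⟨_, h2⟩ h4
  rw [h2] at h4
  rw [natDegree_mul (left_ne_zero_of_mul (left_ne_zero_of_mul h4)) hP, natDegree_pow,
    natDegree_mul hρ hW] at h5
  have h6 := natDegree_wronskian_lt_add hW
  omega

theorem abs_sub_mul_le {u w : ℝ} (hu : 0 ≤ u) (hw : 0 ≤ w) (d : ℕ) :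
    |u - w| * w ^ d ≤ |u ^ (d + 1) - w ^ (d + 1)| := by
  rw [← geom_sum₂_mul, abs_mul, mul_comm]
  refine mul_le_mul_of_nonneg_right (le_trans ?_ (le_abs_self _)) (abs_nonneg _)
  simpa using single_le_sum (f := fun i => u ^ i * w ^ (d + 1 - 1 - i)) (fun _ _ => by positivity)
    (mem_range.2 (Nat.succ_pos d))

theorem root_indep {θ : ℝ} (hθ : 0 < θ) {g : ℕ} {β : ℚ} (h : θ ^ g = β) {φ : ℚ[X]} (hφ : φ ≠ 0)
    (hd : φ.natDegree < g) (h0 : aeval θ φ = 0) :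
    ∃ p, 2 ≤ p ∧ p ∣ g ∧ ∃ β' : ℚ, 0 < β' ∧ β' ^ p = β := by
  have hint : IsIntegral ℚ θ := IsAlgebraic.isIntegral ⟨φ, hφ, h0⟩
  set μ := (minpoly ℚ θ).natDegree with hμ
  have hμ0 : 0 < μ := minpoly.natDegree_pos hint
  have hμ1 : μ < g := (natDegree_le_of_dvd (minpoly.dvd ℚ θ h0) hφ).trans_lt hd
  have h1 : IntermediateField.AdjoinSimple.gen ℚ θ ^ g = algebraMap ℚ _ β := by
    apply Subtype.ext
    simpa using h
  have h2 := congrArg (Algebra.norm ℚ) h1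
  rw [map_pow, Algebra.norm_algebraMap, IntermediateField.adjoin.finrank hint, ← hμ] at h2
  set ν := Algebra.norm ℚ (IntermediateField.AdjoinSimple.gen ℚ θ)
  have h3 : θ ^ μ = ((|ν| : ℚ) : ℝ) := by
    refine (pow_left_inj₀ (by positivity) (by positivity) (by omega : g ≠ 0)).1 ?_
    rw [← pow_mul, mul_comm, pow_mul, h, ← Rat.cast_pow, ← Rat.cast_pow, ← abs_pow, h2, abs_of_nonneg]
    have : (0 : ℝ) < β := h ▸ pow_pos hθ g
    have : 0 < β := by exact_mod_cast this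
    positivity
  have h4 : θ ^ Nat.gcd μ g = ((|ν| ^ Nat.gcdA μ g * β ^ Nat.gcdB μ g : ℚ) : ℝ) := by
    rw [← zpow_natCast, Nat.gcd_eq_gcd_ab, zpow_add₀ hθ.ne', zpow_mul, zpow_mul, zpow_natCast,
      zpow_natCast, h3, h]
    push_cast; rfl
  obtain ⟨p, hp⟩ := Nat.gcd_dvd_right μ g
  have h5 := Nat.gcd_le_left g hμ0
  refine ⟨p, ?_, Dvd.intro_left _ hp.symm, |ν| ^ Nat.gcdA μ g * β ^ Nat.gcdB μ g, ?_, ?_⟩
  · by_contra h6
    have := Nat.mul_le_mul_left (Nat.gcd μ g) (show p ≤ 1 by omega)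
    omega
  · have := pow_pos hθ (Nat.gcd μ g)
    rw [h4] at this
    exact_mod_cast this
  · have : ((|ν| ^ Nat.gcdA μ g * β ^ Nat.gcdB μ g : ℚ) : ℝ) ^ p = β := by
      rw [← h4, ← pow_mul, ← hp, h]
    exact_mod_cast this

theorem weight_indep {ξ : ℝ} (hξ : 0 < ξ) {a k : ℕ} (ha : 0 < a) {β : ℚ} (h : ξ ^ a = β)
    (hβ : ¬ ∃ p, 2 ≤ p ∧ p ∣ Nat.gcd a k ∧ ∃ β' : ℚ, 0 < β' ∧ β' ^ p = β) (e : ℕ) (φ : ℚ[X])
    (hφ : φ ≠ 0) (hd : φ.natDegree < a) (hs : ∀ i, φ.coeff i ≠ 0 → ∃ j, k * i + a * j = e) :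
    aeval ξ φ ≠ 0 := by
  intro h0
  have hg := Nat.gcd_pos_of_pos_left k ha
  obtain ⟨a₁, k₁, hcop, ha₁, hk₁⟩ := Nat.exists_coprime a k
  have ha0 : 0 < a₁ := Nat.pos_of_ne_zero fun h1 => by rw [h1] at ha₁; omega
  have hmod : ∀ i ∈ φ.support, i % a₁ = φ.natDegree % a₁ := by
    intro i hi
    obtain ⟨j, hj⟩ := hs i (mem_support_iff.1 hi)
    obtain ⟨j', hj'⟩ := hs _ (leadingCoeff_ne_zero.2 hφ)
    have h1 : k₁ * i + a₁ * j = k₁ * φ.natDegree + a₁ * j' := by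
      refine Nat.eq_of_mul_eq_mul_right hg ?_
      rw [← hj'] at hj
      rw [add_mul, add_mul, mul_right_comm, ← hk₁, mul_right_comm, ← ha₁, mul_right_comm, ← hk₁,
        mul_right_comm, ← ha₁, hj]
    have h2 : k₁ * i ≡ k₁ * φ.natDegree [MOD a₁] := by
      have := congrArg (· % a₁) h1
      simpa [Nat.ModEq] using this
    exact Nat.ModEq.cancel_left_of_coprime hcop h2
  refine hβ (root_indep (θ := ξ ^ a₁) (by positivity) (by rw [← pow_mul, ← ha₁, h])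
    (φ := ∑ i ∈ φ.support, monomial (i / a₁) (φ.coeff i)) ?_ ?_ ?_)
  · intro h1
    have h2 := congrArg (coeff · (φ.natDegree / a₁)) h1
    simp only [finsetSum_coeff, coeff_zero] at h2
    rw [sum_eq_single φ.natDegree, coeff_monomial, if_pos rfl] at h2
    · exact leadingCoeff_ne_zero.2 hφ h2
    · intro b hb hb'
      rw [coeff_monomial, if_neg]
      intro h3
      exact hb' (by rw [← Nat.div_add_mod b a₁, h3, hmod b hb, Nat.div_add_mod])
    · intro h3; exact absurd (natDegree_mem_support_of_nonzero hφ) h3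
  · refine lt_of_le_of_lt (natDegree_sum_le_of_forall_le _ _ fun i hi =>
      (natDegree_monomial_le _).trans (Nat.div_le_div_right (le_natDegree_of_mem_supp i hi))) ?_
    exact Nat.div_lt_of_lt_mul (ha₁ ▸ hd)
  · refine (mul_eq_zero.1 ?_).resolve_right (pow_ne_zero (φ.natDegree % a₁) hξ.ne')
    rw [← h0, map_sum, sum_mul, aeval_def ξ φ, eval₂_eq_sum, Polynomial.sum]
    refine sum_congr rfl fun i hi => ?_
    rw [aeval_monomial, mul_assoc, ← pow_mul, ← pow_add, ← hmod i hi, Nat.div_add_mod]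

end Pool.Agent.Lib.MP_4ffbf9_nt
end

-- part Pool.Agent.Lib.MP_4ffbf9_nt.Sep
section

/-!
The gap in the case of Runge: fixed shapes, and a long second product.
-/

set_option autoImplicit false

namespace Pool.Agent.Lib.MP_4ffbf9_nt

open Polynomial Filter Topology Finset

theorem tendsto_eval_div {ι : Type*} {l : Filter ι} {x : ι → ℤ} {t : ι → ℝ} {k : ℕ} {ξ : ℝ}
    (ht : Tendsto t l atTop) (hk : 0 < k) (hx : Tendsto (fun p => (x p : ℝ) / t p ^ k) l (𝓝 ξ))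
    {P : ℤ[X]} {n : ℕ} (hP : P.natDegree ≤ n) :
    Tendsto (fun p => ((P.eval (x p) : ℤ) : ℝ) / t p ^ (k * n)) l (𝓝 (P.coeff n * ξ ^ n)) := by
  simpa only [aeval_map_int, coeff_map, eq_intCast, Rat.cast_intCast] using
    tendsto_aeval_div ht hk hx (P := P.map (Int.castRingHom ℚ)) (natDegree_map_le.trans hP)

theorem sep_bound {ι : Type*} {l : Filter ι} {x z : ι → ℤ} {t : ι → ℝ} {k a : ℕ} {ξ : ℝ}
    (ht : Tendsto t l atTop) (hk : 0 < k) (ha : 0 < a)
    (hx : Tendsto (fun p => (x p : ℝ) / t p ^ k) l (𝓝 ξ)) (hξ : 0 < ξ)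
    (hz : Tendsto (fun p => (z p : ℝ) / t p ^ a) l (𝓝 1)) {q₁ q₂ : ℤ[X]}
    (d₁ : q₁.natDegree = a) (d₂ : q₂.natDegree = k) {υ : ℝ} (hυ : 0 < υ)
    (c₁ : q₁.coeff a * ξ ^ a = υ) (c₂ : q₂.coeff k = υ)
    (hq : ∀ᶠ p in l, q₁.eval (x p) = q₂.eval (z p))
    (hind : ∀ (e : ℕ) (φ : ℚ[X]), φ ≠ 0 → φ.natDegree < a →
      (∀ i, φ.coeff i ≠ 0 → ∃ j, k * i + a * j = e) → aeval ξ φ ≠ 0)
    {n m N : ℕ} (hn : 0 < n) (hm : 0 < m) (c : Fin n → ℤ) (c' : Fin m → ℤ) {A B : ℤ} (hA : A ≠ 0)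
    (hB : B ≠ 0) (hN₁ : k * n = N) (hN₂ : a * m = N) :
    ∃ κ : ℝ, 0 < κ ∧ ∀ᶠ p in l, A * ∏ i, (x p + c i) ≠ B * ∏ i, (z p + c' i) →
      κ * t p ^ (N + k + a) ≤ |((A * ∏ i, (x p + c i) - B * ∏ i, (z p + c' i) : ℤ) : ℝ)| *
        t p ^ (a * k + (k * (univ.image c).card + a * (univ.image c').card)) := by
  obtain ⟨P, ρ₁, π₁, hP, hρ₁, hPd, hd₁, h₁, eP⟩ := split_facts c A hA
  obtain ⟨R, ρ₂, π₂, hR, hρ₂, hRd, hd₂, h₂, eR⟩ := split_facts c' B hB
  have hpos := ht.eventually_ge_atTop 1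
  have hr : 1 ≤ (univ.image c).card := card_pos.2 ⟨c ⟨0, hn⟩, mem_image_of_mem c (mem_univ _)⟩
  have hr' : 1 ≤ (univ.image c').card := card_pos.2 ⟨c' ⟨0, hm⟩, mem_image_of_mem c' (mem_univ _)⟩
  have hlc : (q₁.coeff a : ℚ) ≠ 0 := by
    intro h
    rw [show q₁.coeff a = 0 by exact_mod_cast h] at c₁
    simp at c₁
    exact hυ.ne c₁
  have hq₁ : q₁ ≠ 0 := fun h => hlc (by simp [h])
  have hqm : (C (q₁.coeff a : ℚ)⁻¹ * q₁.map (Int.castRingHom ℚ)).Monic := by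
    refine monic_C_mul_of_mul_leadingCoeff_eq_one ?_
    rw [leadingCoeff, (map_facts hq₁).2, d₁, coeff_map, eq_intCast, inv_mul_cancel₀ hlc]
  have hqd : (C (q₁.coeff a : ℚ)⁻¹ * q₁.map (Int.castRingHom ℚ)).natDegree = a := by
    rw [natDegree_C_mul (inv_ne_zero hlc), (map_facts hq₁).2, d₁]
  set Q : ℚ[X][X] := (C (q₁.coeff a : ℚ)⁻¹ * q₁.map (Int.castRingHom ℚ)).map C -
    C (C (q₁.coeff a : ℚ)⁻¹ * q₂.map (Int.castRingHom ℚ)) with hQ
  have hQd : Q.natDegree = a := by rw [hQ, natDegree_sub_C, hqm.natDegree_map, hqd]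
  have hQm : Q.Monic := (hqm.map C).sub_of_left (degree_C_le.trans_lt (by
    rw [← natDegree_pos_iff_degree_pos, hqm.natDegree_map, hqd]; exact ha))
  have L₁ := tendsto_eval_div ht hk hx ((natDegree_X_mul_derivative_le q₁).trans d₁.le)
  have L₂ := tendsto_eval_div ht ha hz ((natDegree_X_mul_derivative_le q₂).trans d₂.le)
  rw [coeff_X_mul_derivative] at L₁ L₂
  have hx0 := hx.eventually_ne hξ.ne'
  have hz0 := hz.eventually_ne one_ne_zero
  obtain ⟨κ, hκ, hb⟩ := branch_bound (s := fun p => υ / ξ * t p ^ (a * k) / (t p ^ k * t p ^ a))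
    ht hk ha hx hξ.ne' hz (Q := Q) (V₁ := C ((derivative q₂).map (Int.castRingHom ℚ)))
    (V₂ := ((derivative q₁).map (Int.castRingHom ℚ)).map C) hQm
    (fun h => by rw [h, natDegree_one] at hQd; omega)
    (by
      filter_upwards [hq] with p hp
      rw [hQ, map_sub, ev_map, ev_C, map_mul, map_mul, aeval_map_int, aeval_map_int, hp, aeval_C,
        aeval_C, sub_self])
    (by
      rw [hQ, derivative_sub, derivative_C, derivative_map, dz_sub, dz_map, dz_C, derivative_C_mul,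
        derivative_C_mul, derivative_map, derivative_map, Polynomial.map_mul, map_C, C_mul]
      ring)
    (by
      have h3 := ((L₂.mul (hz.inv₀ one_ne_zero)).mul (hx.inv₀ hξ.ne')).mul_const (ξ / υ)
      convert h3.congr' ?_ using 2
      · push_cast; rw [c₂, one_pow]; field_simp
      · filter_upwards [hpos, hx0, hz0] with p h4 h5 h6
        have h7 : t p ≠ 0 := by linarith
        have h8 : (z p : ℝ) ≠ 0 := fun h => h6 (by rw [h, zero_div])
        rw [ev_C, aeval_map_int, eval_mul, eval_X]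
        push_cast
        field_simp)
    (by
      have h3 := ((L₁.mul (hz.inv₀ one_ne_zero)).mul (hx.inv₀ hξ.ne')).mul_const (ξ / υ)
      convert h3.congr' ?_ using 2
      · push_cast; rw [mul_assoc (a : ℝ), c₁]; field_simp
      · filter_upwards [hpos, hx0, hz0] with p h4 h5 h6
        have h7 : t p ≠ 0 := by linarith
        have h8 : (x p : ℝ) ≠ 0 := fun h => h5 (by rw [h, zero_div])
        rw [ev_map, aeval_map_int, eval_mul, eval_X, mul_comm k a]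
        push_cast
        field_simp)
    (by rw [hQd]; exact hind) (map_facts hP).1 (map_facts hR).1
    (N := N) (by rw [(map_facts hP).2, hPd, hN₁]) (by rw [(map_facts hR).2, hRd, hN₂])
    (ρ₁ := ρ₁.map (Int.castRingHom ℚ)) (π₁ := π₁.map (Int.castRingHom ℚ))
    (ρ₂ := ρ₂.map (Int.castRingHom ℚ)) (π₂ := π₂.map (Int.castRingHom ℚ))
    (by rw [derivative_map, ← Polynomial.map_mul, h₁, Polynomial.map_mul])
    (by rw [derivative_map, ← Polynomial.map_mul, h₂, Polynomial.map_mul])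
    (map_facts hρ₁).1 (map_facts hρ₂).1 ((map_facts hρ₁).2.trans hd₁) ((map_facts hρ₂).2.trans hd₂)
    (Eventually.of_forall fun p => by
      refine ⟨(derivative q₂).eval (z p) * π₁.eval (x p) * ρ₂.eval (z p) -
        (derivative q₁).eval (x p) * π₂.eval (z p) * ρ₁.eval (x p), ?_⟩
      simp only [ev_C, ev_map, aeval_map_int]; push_cast; ring)
    ⟨υ / ξ, by positivity, by
      filter_upwards [hpos] with p hp
      have h0 : 0 < t p := by linarith
      rw [abs_of_pos (by positivity), mul_div_assoc (υ / ξ), mul_assoc,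
        div_mul_eq_mul_div (t p ^ _), ← pow_add, ← pow_add]
      refine le_mul_of_one_le_right (by positivity) ((one_le_div (by positivity)).2
        (pow_le_pow_right₀ hp ?_))
      have := Nat.mul_le_mul_left k hr
      have := Nat.mul_le_mul_left a hr'
      omega⟩
  refine ⟨κ * (ξ / υ), by positivity, ?_⟩
  filter_upwards [hb, hpos] with p h1 h3 h4
  simp only [aeval_map_int, eP, eR] at h1
  have h6 := h1 (by exact_mod_cast h4)
  have h0 : 0 < t p := by linarith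
  rw [← Int.cast_sub, abs_of_pos (a := _ / _) (by positivity)] at h6
  calc _ = κ * t p ^ N * (ξ / υ * (t p ^ k * t p ^ a)) := by ring
    _ ≤ _ := mul_le_mul_of_nonneg_right h6 (by positivity)
    _ = _ := by rw [pow_add (t p) (a * k)]; field_simp

theorem cast_prod_add {n : ℕ} (x : ℕ) (o : Fin n → ℕ) :
    ∏ i, ((x : ℤ) + (o i : ℤ)) = ((∏ i, (x + o i) : ℕ) : ℤ) := by push_cast; rfl

theorem card_image_cast {n : ℕ} (o : Fin n → ℕ) :
    (univ.image fun i => (o i : ℤ)).card = (univ.image o).card := by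
  rw [← card_image_of_injective (univ.image o) (Nat.cast_injective (R := ℤ)), image_image]; rfl

/-- A small difference forces the ratio of the first base to a root of the second product. -/
theorem ratio_of_close {ι : Type*} {l : Filter ι} {x Z : ι → ℕ} {t : ι → ℝ} {A D n k : ℕ}
    (hA : 0 < A) (hD : 0 < D) (hn : 0 < n) (hk : 0 < k) (o : Fin n → ℕ) (ht : Tendsto t l atTop)
    (hZ : Tendsto (fun p => (Z p : ℝ) / t p ^ (k * n)) l (𝓝 1)) {θ : ℝ} (hθ : θ < 1)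
    (h : ∀ᶠ p in l, |(A : ℝ) * (∏ i, (x p + o i) : ℕ) - D * Z p| ≤ (Z p : ℝ) ^ θ) :
    Tendsto (fun p => ((x p : ℤ) : ℝ) / t p ^ k) l (𝓝 (((D : ℝ) / A) ^ ((n : ℝ)⁻¹))) := by
  have hA' : (0 : ℝ) < A := by exact_mod_cast hA
  have hpos := ht.eventually_gt_atTop 0
  have hZ1 : Tendsto (fun p => (Z p : ℝ)) l atTop := by
    refine (((tendsto_pow_atTop (Nat.mul_pos hk hn).ne').comp ht).atTop_mul_pos one_pos hZ).congr' ?_
    filter_upwards [hpos] with p hp
    simp only [Function.comp]; field_simp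
  have h1 : Tendsto (fun p => ((A : ℝ) * (∏ i, (x p + o i) : ℕ) - D * Z p) / Z p) l (𝓝 0) := by
    refine squeeze_zero_norm' ?_ ((tendsto_rpow_neg_atTop (sub_pos.2 hθ)).comp hZ1)
    filter_upwards [h, hZ1.eventually_gt_atTop 0] with p hp hq
    simp only [Function.comp]
    rw [Real.norm_eq_abs, abs_div, abs_of_pos hq, neg_sub, Real.rpow_sub_one hq.ne']
    exact div_le_div_of_nonneg_right hp hq.le
  have h2 := ((h1.add_const (D : ℝ)).mul hZ).div_const (A : ℝ)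
  rw [zero_add, mul_one] at h2
  refine tendsto_ratio hn hk (fun i => (o i : ℤ)) ht (Eventually.of_forall fun p => by positivity)
    (by positivity) (h2.congr' ?_)
  filter_upwards [hZ1.eventually_gt_atTop 0] with p hp
  push_cast
  field_simp
  ring

theorem tendsto_root {ι : Type*} {l : Filter ι} {z : ι → ℕ} (hz : Tendsto (fun p => (z p : ℝ)) l atTop)
    {a : ℕ} (ha : 0 < a) : Tendsto (fun p => (z p : ℝ) ^ ((a : ℝ)⁻¹)) l atTop ∧
      Tendsto (fun p => (z p : ℝ) / ((z p : ℝ) ^ ((a : ℝ)⁻¹)) ^ a) l (𝓝 1) := by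
  refine ⟨(tendsto_rpow_atTop (by positivity)).comp hz, tendsto_const_nhds.congr' ?_⟩
  filter_upwards [hz.eventually_gt_atTop 0] with p hp
  rw [Real.rpow_inv_natCast_pow hp.le ha.ne', div_self hp.ne']

theorem natDegree_le_of_vanish {E : ℤ[X]} {n a b : ℕ} (h : ∀ j, n ≤ j + a → E.coeff j = 0)
    (hb : n ≤ b + a) : E.natDegree ≤ b :=
  natDegree_le_iff_coeff_eq_zero.2 fun j hj => h j (by omega)

theorem fixed_core {A D n m d a k : ℕ} (hA : 0 < A) (hD : 0 < D) (ha : 0 < a) (hk : 0 < k)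
    (hn : n = a * (d + 1)) (hm : m = k * (d + 1)) (o : Fin n → ℕ) (o' : Fin m → ℕ) {ε : ℝ}
    (hε : 0 < ε) {l : Filter (ℕ × ℕ)} (hl : Tendsto (fun q : ℕ × ℕ => (q.2 : ℝ)) l atTop) {β : ℚ}
    (hβ0 : 0 < β) (hβ : A * β ^ (d + 1) = D)
    (hmax : ¬ ∃ p, 2 ≤ p ∧ p ∣ Nat.gcd a k ∧ ∃ β' : ℚ, 0 < β' ∧ β' ^ p = β)
    (hF : ∀ᶠ q in l, A * ∏ i, (q.1 + o i) ≠ D * ∏ i, (q.2 + o' i) ∧
      |(A : ℝ) * (∏ i, (q.1 + o i) : ℕ) - D * (∏ i, (q.2 + o' i) : ℕ)| ≤
        ((∏ i, (q.2 + o' i) : ℕ) : ℝ) ^ (1 - 1 / ((d + 1 : ℕ) : ℝ) -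
          (((univ.image o).card : ℝ) - 1) / n - (((univ.image o').card : ℝ) - 1) / m - ε)) :
    ∀ᶠ _q in l, False := by
  have hn0 : 0 < n := hn ▸ Nat.mul_pos ha (Nat.succ_pos d)
  have hm0 : 0 < m := hm ▸ Nat.mul_pos hk (Nat.succ_pos d)
  have hr : 1 ≤ (univ.image o).card := card_pos.2 ⟨o ⟨0, hn0⟩, mem_image_of_mem o (mem_univ _)⟩
  have hr' : 1 ≤ (univ.image o').card := card_pos.2 ⟨o' ⟨0, hm0⟩, mem_image_of_mem o' (mem_univ _)⟩
  set θ : ℝ := 1 - 1 / ((d + 1 : ℕ) : ℝ) - (((univ.image o).card : ℝ) - 1) / n -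
    (((univ.image o').card : ℝ) - 1) / m - ε with hθ
  have hθ1 : θ < 1 := by
    have h1 : (0 : ℝ) ≤ ((univ.image o).card - 1) / n :=
      div_nonneg (sub_nonneg.2 (by exact_mod_cast hr)) (Nat.cast_nonneg _)
    have h2 : (0 : ℝ) ≤ ((univ.image o').card - 1) / m :=
      div_nonneg (sub_nonneg.2 (by exact_mod_cast hr')) (Nat.cast_nonneg _)
    have h3 : (0 : ℝ) ≤ 1 / ((d + 1 : ℕ) : ℝ) := by positivity
    linarith
  obtain ⟨ht, hz⟩ := tendsto_root hl ha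
  set t : ℕ × ℕ → ℝ := fun q => (q.2 : ℝ) ^ ((a : ℝ)⁻¹) with htdef
  have hpos := ht.eventually_ge_atTop 1
  have hkn : k * n = a * m := by rw [hn, hm]; ring
  have hZ : Tendsto (fun q : ℕ × ℕ => ((∏ i, (q.2 + o' i) : ℕ) : ℝ) / t q ^ (k * n)) l (𝓝 1) := by
    obtain ⟨h1, h2, -, h3⟩ := monic_facts fun i => (o' i : ℤ)
    have h4 := tendsto_aeval_div ht ha hz h2.le
    have h5 := h1.coeff_natDegree
    rw [h2] at h5
    simp only [h3, h5, Rat.cast_one, one_pow, mul_one] at h4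
    rw [hkn]
    exact h4.congr fun q => by push_cast; rfl
  have hx := ratio_of_close hA hD hn0 hk o ht hZ hθ1 (hF.mono fun q hq => hq.2)
  have hA' : (0 : ℝ) < A := by exact_mod_cast hA
  have hD' : (0 : ℝ) < D := by exact_mod_cast hD
  have hβ1 : (0 : ℝ) < β := by exact_mod_cast hβ0
  have hβ2 : (A : ℝ) * β ^ (d + 1) = D := by exact_mod_cast hβ
  set ξ : ℝ := ((D : ℝ) / A) ^ ((n : ℝ)⁻¹) with hξdef
  have hξ : 0 < ξ := Real.rpow_pos_of_pos (by positivity) _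
  have hξa : ξ ^ a = β := by
    refine (pow_left_inj₀ (by positivity) hβ1.le (Nat.succ_ne_zero d)).1 ?_
    rw [← pow_mul, ← hn, hξdef, Real.rpow_inv_natCast_pow (by positivity) hn0.ne', ← hβ2]
    field_simp
  have hb : ∀ᶠ q in l, |(A : ℝ) * (∏ i, (q.1 + o i) : ℕ) - D * (∏ i, (q.2 + o' i) : ℕ)| *
      t q ^ (a * k + (k * (univ.image o).card + a * (univ.image o').card)) *
      t q ^ ((k * n : ℕ) * ε) ≤ 2 * t q ^ (k * n + k + a) := by
    filter_upwards [hF, hpos, hl.eventually_gt_atTop 1, hZ.eventually (gt_mem_nhds one_lt_two)]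
      with q h1 h2 h3 h4
    have h0 : 0 < t q := by linarith
    rw [div_lt_iff₀ (by positivity)] at h4
    have h5 := h1.2.trans (rpow_le_of_one_le (h3.trans_le (by exact_mod_cast le_prod_add hm0 _ o'))
      h4.le (le_trans (by exact_mod_cast one_le_abs_sub h1.1) h1.2))
    have h6 : (2 : ℝ) ^ θ ≤ 2 := by
      simpa using Real.rpow_le_rpow_of_exponent_le one_le_two hθ1.le
    rw [Real.mul_rpow zero_le_two (by positivity), ← Real.rpow_natCast, ← Real.rpow_mul h0.le] at h5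
    refine (mul_le_mul_of_nonneg_right (mul_le_mul_of_nonneg_right (h5.trans
      (mul_le_mul_of_nonneg_right h6 (by positivity))) (by positivity)) (by positivity)).trans_eq ?_
    rw [mul_assoc, mul_assoc, ← Real.rpow_natCast, ← Real.rpow_natCast (t q) (k * n + k + a),
      ← Real.rpow_add h0, ← Real.rpow_add h0]
    congr 2
    have h7 : (n : ℝ) = a * (d + 1) := by rw [hn]; push_cast; rfl
    have h8 : (m : ℝ) = k * (d + 1) := by rw [hm]; push_cast; rfl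
    rw [hθ]
    push_cast
    rw [h7, h8]
    field_simp
    ring
  obtain ⟨p₁, E₁, dp₁, cp₁, e₁, v₁⟩ := runge_poly (d := d + 1) (Nat.succ_pos d) hn fun i => (o i : ℤ)
  obtain ⟨p₂, E₂, dp₂, cp₂, e₂, v₂⟩ := runge_poly (d := d + 1) (Nat.succ_pos d) hm fun i => (o' i : ℤ)
  set δ : ℤ := ((d + 1 : ℕ) : ℤ) ^ 2 with hδ
  have hδ0 : 0 < δ := by positivity
  have hδ1 : (0 : ℝ) < δ := by exact_mod_cast hδ0
  have hnum : (β.num : ℝ) = β * β.den := by exact_mod_cast (Rat.mul_den_eq_num β).symm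
  have hden : (0 : ℝ) < β.den := by exact_mod_cast β.den_pos
  have hnum0 : 0 < β.num := Rat.num_pos.2 hβ0
  have d₁ : (C (β.den * δ ^ k) * p₁).natDegree = a := by
    rw [natDegree_C_mul (by have := β.den_pos; positivity), dp₁]
  have d₂ : (C (β.num * δ ^ a) * p₂).natDegree = k := by rw [natDegree_C_mul (by positivity), dp₂]
  have hυ : (0 : ℝ) < β * β.den * δ ^ a * δ ^ k := by positivity
  have c₁ : ((C (β.den * δ ^ k) * p₁).coeff a : ℝ) * ξ ^ a = β * β.den * δ ^ a * δ ^ k := by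
    rw [coeff_C_mul, cp₁, hξa]; push_cast; ring
  have c₂ : ((C (β.num * δ ^ a) * p₂).coeff k : ℝ) = β * β.den * δ ^ a * δ ^ k := by
    rw [coeff_C_mul, cp₂]; push_cast; rw [hnum]
  have hz' : Tendsto (fun q : ℕ × ℕ => ((q.2 : ℤ) : ℝ) / t q ^ a) l (𝓝 1) := by simpa using hz
  have Lu := tendsto_eval_div ht hk hx d₁.le
  have Lw := tendsto_eval_div ht ha hz' d₂.le
  rw [c₁] at Lu
  rw [c₂, one_pow, mul_one] at Lw
  have L₁ := tendsto_eval_div ht hk hx (natDegree_le_of_vanish v₁ (b := a * d) (by rw [hn]; rfl))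
  have L₂ := tendsto_eval_div ht ha hz' (natDegree_le_of_vanish v₂ (b := k * d) (by rw [hm]; rfl))
  rw [v₁ _ (by rw [hn]; rfl), Int.cast_zero, zero_mul] at L₁
  rw [v₂ _ (by rw [hm]; rfl), Int.cast_zero, zero_mul] at L₂
  have hη : 0 < (k * n : ℕ) * ε := mul_pos (by exact_mod_cast Nat.mul_pos hk hn0) hε
  have L₃ : Tendsto (fun q : ℕ × ℕ => ((A : ℝ) * (∏ i, (q.1 + o i) : ℕ) -
      D * (∏ i, (q.2 + o' i) : ℕ)) / t q ^ (a * k * d)) l (𝓝 0) := by
    have h1 := ((tendsto_rpow_neg_atTop hη).comp ht).const_mul 2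
    rw [mul_zero] at h1
    refine squeeze_zero_norm' ?_ h1
    filter_upwards [hb, hpos] with q h2 h3
    have h0 : 0 < t q := by linarith
    simp only [Function.comp]
    rw [Real.norm_eq_abs, abs_div, abs_of_pos (pow_pos h0 _), Real.rpow_neg h0.le, ← div_eq_mul_inv,
      div_le_div_iff₀ (pow_pos h0 _) (Real.rpow_pos_of_pos h0 _)]
    refine le_of_mul_le_mul_right ?_ (pow_pos h0 (a * k + (k + a)))
    rw [mul_assoc 2, ← pow_add, show a * k * d + (a * k + (k + a)) = k * n + k + a by rw [hn]; ring,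
      mul_right_comm]
    refine le_trans (mul_le_mul_of_nonneg_right (mul_le_mul_of_nonneg_left (pow_le_pow_right₀ h3 ?_)
      (abs_nonneg _)) (by positivity)) h2
    have := Nat.mul_le_mul_left k hr
    have := Nat.mul_le_mul_left a hr'
    omega
  have L₄ := (((L₃.const_mul ((δ : ℝ) ^ n * δ ^ m * β.den ^ (d + 1) / A)).sub
    (L₁.const_mul (((β.den : ℝ) * δ ^ k) ^ (d + 1)))).add
    (L₂.const_mul (((β.num : ℝ) * δ ^ a) ^ (d + 1)))).abs.div (Lw.pow d) (by positivity)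
  simp only [mul_zero, sub_zero, add_zero, abs_zero, zero_div] at L₄
  have hq : ∀ᶠ q : ℕ × ℕ in l, (C (β.den * δ ^ k) * p₁).eval (q.1 : ℤ) =
      (C (β.num * δ ^ a) * p₂).eval (q.2 : ℤ) := by
    filter_upwards [hpos, L₄.eventually (gt_mem_nhds one_pos), Lu.eventually (lt_mem_nhds hυ),
      Lw.eventually (lt_mem_nhds hυ)] with q h1 h2 h3 h4
    have h0 : 0 < t q := by linarith
    have h5 := (div_pos_iff_of_pos_right (pow_pos h0 _)).1 h3
    have h6 := (div_pos_iff_of_pos_right (pow_pos h0 _)).1 h4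
    have h7 := abs_sub_mul_le h5.le h6.le d
    have a₁ := congrArg (fun P => ((eval (q.1 : ℤ) P : ℤ) : ℝ)) e₁
    have a₂ := congrArg (fun P => ((eval (q.2 : ℤ) P : ℤ) : ℝ)) e₂
    simp only [eval_mul, eval_C, eval_prod, eval_add, eval_X, eval_pow, cast_prod_add, Int.cast_mul,
      Int.cast_pow, Int.cast_add, Int.cast_natCast] at a₁ a₂
    have h8 : (((C (β.den * δ ^ k) * p₁).eval (q.1 : ℤ) : ℤ) : ℝ) ^ (d + 1) -
        (((C (β.num * δ ^ a) * p₂).eval (q.2 : ℤ) : ℤ) : ℝ) ^ (d + 1) =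
        ((δ : ℝ) ^ n * δ ^ m * β.den ^ (d + 1) / A * (((A : ℝ) * (∏ i, (q.1 + o i) : ℕ) -
          D * (∏ i, (q.2 + o' i) : ℕ)) / t q ^ (a * k * d)) -
        ((β.den : ℝ) * δ ^ k) ^ (d + 1) * ((E₁.eval (q.1 : ℤ) : ℤ) / t q ^ (k * (a * d))) +
        ((β.num : ℝ) * δ ^ a) ^ (d + 1) * ((E₂.eval (q.2 : ℤ) : ℤ) / t q ^ (a * (k * d)))) *
          t q ^ (a * k * d) := by
      rw [show k * (a * d) = a * k * d by ring, ← mul_assoc a k d, ← hβ2]
      simp only [eval_mul, eval_C, Int.cast_mul, Int.cast_pow, Int.cast_natCast, mul_pow, hnum,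
        ← pow_mul, ← hn, ← hm]
      field_simp
      linear_combination (-(δ : ℝ) ^ m) * a₁ + (β : ℝ) ^ (d + 1) * δ ^ n * a₂
    rw [h8, abs_mul, abs_of_pos (pow_pos h0 _)] at h7
    simp only [Pi.div_apply] at h2
    rw [div_lt_one (by positivity), div_pow, ← pow_mul (t q), lt_div_iff₀ (pow_pos h0 _)] at h2
    have h9 := lt_of_mul_lt_mul_right ((h7.trans_lt h2).trans_eq (one_mul _).symm) (by positivity)
    rw [← Int.cast_sub, ← Int.cast_abs] at h9
    exact sub_eq_zero.1 (Int.abs_lt_one_iff.1 (by exact_mod_cast h9))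
  obtain ⟨κ, hκ, hs⟩ := sep_bound ht hk ha hx hξ hz' d₁ d₂ hυ c₁ c₂ hq
    (weight_indep hξ ha hξa hmax) hn0 hm0 (fun i => (o i : ℤ)) (fun i => (o' i : ℤ)) (A := A)
    (B := D) (by exact_mod_cast hA.ne') (by exact_mod_cast hD.ne') rfl hkn.symm
  filter_upwards [hs, hb, hF, hpos, false_of_gap (K := 2) ht hκ hη] with q h1 h2 h3 h4 h5
  have h0 : 0 < t q := by linarith
  rw [cast_prod_add, cast_prod_add, card_image_cast, card_image_cast] at h1
  have h6 := h1 (by exact_mod_cast h3.1)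
  simp only [Int.cast_sub, Int.cast_mul, Int.cast_natCast] at h6
  refine h5 (le_of_mul_le_mul_right ?_ (pow_pos h0 (k * n + k + a)))
  rw [mul_right_comm]
  exact (mul_le_mul_of_nonneg_right h6 (by positivity)).trans h2

theorem fixed_false {A D n m : ℕ} (hA : 0 < A) (hD : 0 < D) (hn : 0 < n) (hm : 0 < m)
    (o : Fin n → ℕ) (o' : Fin m → ℕ) {ε : ℝ} (hε : 0 < ε) {l : Filter (ℕ × ℕ)}
    (hl : Tendsto (fun q : ℕ × ℕ => (q.2 : ℝ)) l atTop) (j : ℕ) : ∀ (d : ℕ) (β : ℚ), n < d + j →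
    d ∣ n → d ∣ m → 0 < β → A * β ^ d = D →
    (∀ᶠ q in l, A * ∏ i, (q.1 + o i) ≠ D * ∏ i, (q.2 + o' i) ∧
      |(A : ℝ) * (∏ i, (q.1 + o i) : ℕ) - D * (∏ i, (q.2 + o' i) : ℕ)| ≤
        ((∏ i, (q.2 + o' i) : ℕ) : ℝ) ^ (1 - 1 / (d : ℝ) -
          (((univ.image o).card : ℝ) - 1) / n - (((univ.image o').card : ℝ) - 1) / m - ε)) →
    ∀ᶠ _q in l, False := by
  induction j with
  | zero => intro d β h1 h2; exact absurd (Nat.le_of_dvd hn h2) (by omega)
  | succ j ih =>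
    intro d β h1 h2 h3 hβ0 hβ hF
    have hd : 0 < d := Nat.pos_of_dvd_of_pos h2 hn
    obtain ⟨a, ha⟩ := h2
    obtain ⟨k, hk⟩ := h3
    by_cases hmax : ∃ p, 2 ≤ p ∧ p ∣ Nat.gcd a k ∧ ∃ β' : ℚ, 0 < β' ∧ β' ^ p = β
    · obtain ⟨p, hp, hpg, β', hβ', h4⟩ := hmax
      have h5 : d * 2 ≤ d * p := Nat.mul_le_mul_left d hp
      refine ih (d * p) β' (by omega)
        (ha ▸ Nat.mul_dvd_mul_left d (hpg.trans (Nat.gcd_dvd_left a k)))
        (hk ▸ Nat.mul_dvd_mul_left d (hpg.trans (Nat.gcd_dvd_right a k))) hβ'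
        (by rw [mul_comm d, pow_mul, h4, hβ]) ?_
      filter_upwards [hF, hl.eventually_ge_atTop 1] with q h6 h7
      refine ⟨h6.1, h6.2.trans (Real.rpow_le_rpow_of_exponent_le
        (h7.trans (by exact_mod_cast le_prod_add hm _ o')) ?_)⟩
      have : (1 : ℝ) / ((d * p : ℕ) : ℝ) ≤ 1 / d :=
        one_div_le_one_div_of_le (by exact_mod_cast hd) (by exact_mod_cast (by omega : d ≤ d * p))
      linarith
    · obtain ⟨d, rfl⟩ : ∃ d', d = d' + 1 := ⟨d - 1, by omega⟩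
      exact fixed_core hA hD (Nat.pos_of_ne_zero fun h => by rw [h] at ha; omega)
        (Nat.pos_of_ne_zero fun h => by rw [h] at hk; omega) (ha.trans (mul_comm _ _))
        (hk.trans (mul_comm _ _)) o o' hε hl hβ0 hβ hmax hF

theorem long_false {A D n d a : ℕ} (hA : 0 < A) (hD : 0 < D) (ha : 0 < a) (hn : n = a * (d + 1))
    (S : ℕ) (o : Fin n → ℕ) {ε : ℝ} (hε : 0 < ε) {β : ℚ} (hβ0 : 0 < β)
    (hβ : A * β ^ (d + 1) = D) : ∃ m₀ : ℕ, ∀ᶠ Z : ℕ in atTop, ∀ (x m : ℕ) (z : Fin m → ℕ),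
      m₀ ≤ m → d + 1 ∣ m → (∀ i, 0 < z i) → (∀ i j, z i ≤ z j + S) → ∏ i, z i = Z →
      A * ∏ i, (x + o i) ≠ D * Z → ¬ |(A : ℝ) * (∏ i, (x + o i) : ℕ) - D * Z| ≤
        (Z : ℝ) ^ (1 - 1 / ((d + 1 : ℕ) : ℝ) - (((univ.image o).card : ℝ) - 1) / n - ε) := by
  have hn0 : 0 < n := hn ▸ Nat.mul_pos ha (Nat.succ_pos d)
  have hr : 1 ≤ (univ.image o).card := card_pos.2 ⟨o ⟨0, hn0⟩, mem_image_of_mem o (mem_univ _)⟩
  set θ : ℝ := 1 - 1 / ((d + 1 : ℕ) : ℝ) - (((univ.image o).card : ℝ) - 1) / n - ε with hθ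
  have hθ1 : θ < 1 := by
    have h1 : (0 : ℝ) ≤ ((univ.image o).card - 1) / n :=
      div_nonneg (sub_nonneg.2 (by exact_mod_cast hr)) (Nat.cast_nonneg _)
    have h3 : (0 : ℝ) ≤ 1 / ((d + 1 : ℕ) : ℝ) := by positivity
    linarith
  set l : Filter (ℕ × ℕ) := comap Prod.snd atTop ⊓
    𝓟 {q | |(A : ℝ) * (∏ i, (q.1 + o i) : ℕ) - D * q.2| ≤ (q.2 : ℝ) ^ θ} with hldef
  have hl0 : Tendsto Prod.snd l atTop := tendsto_comap.mono_left inf_le_left
  have hl : Tendsto (fun q : ℕ × ℕ => (q.2 : ℝ)) l atTop := tendsto_natCast_atTop_atTop.comp hl0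
  have hF : ∀ᶠ q in l, |(A : ℝ) * (∏ i, (q.1 + o i) : ℕ) - D * q.2| ≤ (q.2 : ℝ) ^ θ :=
    eventually_inf_principal.2 (Eventually.of_forall fun _ h => h)
  obtain ⟨ht, hz⟩ := tendsto_root hl hn0
  set t : ℕ × ℕ → ℝ := fun q => (q.2 : ℝ) ^ ((n : ℝ)⁻¹) with htdef
  have htn : ∀ q : ℕ × ℕ, t q ^ n = q.2 := fun q =>
    Real.rpow_inv_natCast_pow (Nat.cast_nonneg _) hn0.ne'
  have hpos := ht.eventually_ge_atTop 1
  have hx := ratio_of_close (k := 1) hA hD hn0 one_pos o ht (by simpa using hz) hθ1 hF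
  have hA' : (0 : ℝ) < A := by exact_mod_cast hA
  have hD' : (0 : ℝ) < D := by exact_mod_cast hD
  have hβ2 : (A : ℝ) * β ^ (d + 1) = D := by exact_mod_cast hβ
  set ξ : ℝ := ((D : ℝ) / A) ^ ((n : ℝ)⁻¹) with hξdef
  have hξ : 0 < ξ := Real.rpow_pos_of_pos (by positivity) _
  have hb : ∀ᶠ q in l, |(A : ℝ) * (∏ i, (q.1 + o i) : ℕ) - D * q.2| *
      t q ^ (univ.image o).card * t q ^ (n * ε) ≤ t q ^ (a * d + 1) := by
    filter_upwards [hF, hpos] with q h1 h2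
    have h0 : 0 < t q := by linarith
    rw [← htn q, ← Real.rpow_natCast, ← Real.rpow_mul h0.le, Real.rpow_natCast, htn q] at h1
    refine (mul_le_mul_of_nonneg_right (mul_le_mul_of_nonneg_right h1 (by positivity))
      (by positivity)).trans_eq ?_
    rw [← Real.rpow_natCast, ← Real.rpow_natCast (t q) (a * d + 1), ← Real.rpow_add h0,
      ← Real.rpow_add h0]
    congr 1
    have h7 : (n : ℝ) = a * (d + 1) := by rw [hn]; push_cast; rfl
    rw [hθ]
    push_cast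
    rw [h7]
    field_simp
    ring
  obtain ⟨p, E, dp, cp, e₁, v₁⟩ := runge_poly (d := d + 1) (Nat.succ_pos d) hn fun i => (o i : ℤ)
  set δ : ℤ := ((d + 1 : ℕ) : ℤ) ^ 2 with hδ
  have hδ0 : 0 < δ := by positivity
  have hδ1 : (0 : ℝ) < δ := by exact_mod_cast hδ0
  have hnum : (β.num : ℝ) = β * β.den := by exact_mod_cast (Rat.mul_den_eq_num β).symm
  have hden : (0 : ℝ) < β.den := by exact_mod_cast β.den_pos
  have hnum0 : 0 < β.num := Rat.num_pos.2 hβ0
  have hγ : 0 < β.num * δ ^ a := by positivity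
  have hγ1 : (1 : ℝ) ≤ ((β.num * δ ^ a : ℤ) : ℝ) := by exact_mod_cast hγ
  have hid : ∀ q : ℕ × ℕ, ((β.den * p.eval (q.1 : ℤ) : ℤ) : ℝ) ^ (d + 1) -
      (((β.num * δ ^ a : ℤ) : ℝ) * t q ^ a) ^ (d + 1) = (β.den : ℝ) ^ (d + 1) *
        (δ ^ n / A * ((A : ℝ) * (∏ i, (q.1 + o i) : ℕ) - D * q.2) - (E.eval (q.1 : ℤ) : ℤ)) := by
    intro q
    have a₁ := congrArg (fun P => ((eval (q.1 : ℤ) P : ℤ) : ℝ)) e₁
    simp only [eval_mul, eval_C, eval_prod, eval_add, eval_X, eval_pow, cast_prod_add, Int.cast_mul,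
      Int.cast_pow, Int.cast_add, Int.cast_natCast] at a₁
    simp only [Int.cast_mul, Int.cast_pow, Int.cast_natCast, mul_pow, hnum, ← pow_mul, ← hn, htn,
      ← hβ2]
    field_simp
    linear_combination -a₁
  have Lp := tendsto_eval_div ht one_pos hx dp.le
  have hXE : (X * E).natDegree ≤ a * d := natDegree_le_iff_coeff_eq_zero.2 fun j hj => by
    obtain ⟨j, rfl⟩ : ∃ i, j = i + 1 := ⟨j - 1, by omega⟩
    rw [coeff_X_mul, v₁ j (by rw [hn, Nat.mul_succ]; omega)]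
  have LE := ((tendsto_eval_div ht one_pos hx hXE).div hx hξ.ne').abs
  set K₀ := |((X * E).coeff (a * d) : ℝ) * ξ ^ (a * d) / ξ| + 1 with hK₀
  have hK₀0 : 0 ≤ K₀ := by positivity
  obtain ⟨m₀, hm₀⟩ := near_power (Nat.succ_pos d) S hγ ((β.den : ℝ) ^ (d + 1) * (δ ^ n / A + K₀))
    (η := min ε (n : ℝ)⁻¹) (by positivity)
  have hclose : ∀ᶠ q in l, |((β.den * p.eval (q.1 : ℤ) : ℤ) : ℝ) - (β.num * δ ^ a : ℤ) * t q ^ a| ≤
      (β.den : ℝ) ^ (d + 1) * (δ ^ n / A + K₀) * (q.2 : ℝ) ^ (-min ε (n : ℝ)⁻¹) := by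
    filter_upwards [hb, hpos, Lp.eventually (lt_mem_nhds (by rw [cp]; positivity)),
      LE.eventually (gt_mem_nhds (lt_add_one _)), hx.eventually (lt_mem_nhds hξ),
      hl.eventually_ge_atTop 1] with q h1 h2 h3 h4 h5 h6
    have h0 : 0 < t q := by linarith
    have h7 := (div_pos_iff_of_pos_right (pow_pos h0 _)).1 h3
    have h8 := (div_pos_iff_of_pos_right (pow_pos h0 _)).1 h5
    have h9 := abs_sub_mul_le (u := ((β.den * p.eval (q.1 : ℤ) : ℤ) : ℝ))
      (w := (β.num * δ ^ a : ℤ) * t q ^ a) (by push_cast; positivity) (by positivity) d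
    rw [hid, abs_mul, abs_of_pos (pow_pos hden _)] at h9
    set ω := (q.2 : ℝ) ^ (-min ε (n : ℝ)⁻¹) with hω
    have hω0 : 0 ≤ ω := by positivity
    have h10 : |(A : ℝ) * (∏ i, (q.1 + o i) : ℕ) - D * q.2| ≤ ω * t q ^ (a * d) := by
      have h11 : (t q ^ (n * ε))⁻¹ ≤ ω := by
        rw [Real.rpow_mul h0.le, Real.rpow_natCast, htn, ← Real.rpow_neg (by linarith)]
        exact Real.rpow_le_rpow_of_exponent_le h6 (neg_le_neg (min_le_left _ _))
      refine le_trans ?_ (mul_le_mul_of_nonneg_right h11 (by positivity))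
      rw [← div_eq_inv_mul, le_div_iff₀ (by positivity)]
      refine le_of_mul_le_mul_right ?_ h0
      rw [← pow_succ, mul_right_comm]
      exact le_trans (mul_le_mul_of_nonneg_right (mul_le_mul_of_nonneg_left
        (le_self_pow₀ h2 (by omega)) (abs_nonneg _)) (by positivity)) h1
    have h12 : |((E.eval (q.1 : ℤ) : ℤ) : ℝ)| ≤ K₀ * (ω * t q ^ (a * d)) := by
      have h13 : (t q)⁻¹ ≤ ω := by
        rw [htdef]
        simp only
        rw [← Real.rpow_neg (by linarith)]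
        exact Real.rpow_le_rpow_of_exponent_le h6 (neg_le_neg (min_le_right _ _))
      have h14 : |((E.eval (q.1 : ℤ) : ℤ) : ℝ)| = |(((X * E).eval (q.1 : ℤ) : ℤ) : ℝ) /
          t q ^ (1 * (a * d)) / (((q.1 : ℤ) : ℝ) / t q ^ 1)| * ((t q)⁻¹ * t q ^ (a * d)) := by
        rw [← abs_of_pos (a := (t q)⁻¹ * _) (by positivity), ← abs_mul, eval_mul, eval_X, one_mul,
          Int.cast_mul]
        congr 1
        field_simp
      rw [h14]
      exact mul_le_mul h4.le (mul_le_mul_of_nonneg_right h13 (by positivity)) (by positivity) hK₀0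
    have h15 : t q ^ (a * d) ≤ (((β.num * δ ^ a : ℤ) : ℝ) * t q ^ a) ^ d := by
      rw [pow_mul]
      exact pow_le_pow_left₀ (by positivity) (le_mul_of_one_le_left (by positivity) hγ1) d
    refine le_of_mul_le_mul_right ((mul_le_mul_of_nonneg_left h15 (abs_nonneg _)).trans
      (h9.trans ?_)) (pow_pos h0 (a * d))
    rw [mul_assoc, mul_assoc, add_mul]
    refine mul_le_mul_of_nonneg_left ((abs_sub _ _).trans (add_le_add ?_ h12)) (by positivity)
    rw [abs_mul, abs_of_pos (by positivity)]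
    exact mul_le_mul_of_nonneg_left h10 (by positivity)
  have hE : ∀ᶠ q in l, E.eval (q.1 : ℤ) ≠ 0 → ((E.eval (q.1 : ℤ) : ℤ) : ℝ) ≠
      δ ^ n / A * ((A : ℝ) * (∏ i, (q.1 + o i) : ℕ) - D * q.2) := by
    by_cases hE0 : E = 0
    · exact Eventually.of_forall fun q h => absurd (by rw [hE0, eval_zero]) h
    obtain ⟨P, ρ, π, hP, hρ, hPd, hρd, h₁, eP⟩ := split_facts (fun i => (o i : ℤ)) (δ ^ n)
      (by positivity)
    have hPE : P = p ^ (d + 1) + E := by
      rw [← e₁]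
      exact Polynomial.funext fun x => by rw [eP]; simp [eval_prod]
    have hEd := natDegree_le_of_vanish v₁ (b := a * d) (by rw [hn]; rfl)
    have hmas := mason_bound hP hE0 hρ hPE (by rw [hPd, hn, Nat.mul_succ]; omega) h₁
    rw [dp, hρd, card_image_cast, mul_comm d] at hmas
    have L := (tendsto_eval_div ht one_pos hx (P := E) le_rfl).abs
    have hc : 0 < |(E.coeff E.natDegree : ℝ) * ξ ^ E.natDegree| :=
      abs_pos.2 (mul_ne_zero (by exact_mod_cast leadingCoeff_ne_zero.2 hE0) (by positivity))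
    filter_upwards [hb, hpos, L.eventually (lt_mem_nhds (half_lt_self hc)),
      false_of_gap (K := δ ^ n / A) (η := n * ε) ht (half_pos hc) (by positivity)]
      with q h1 h2 h3 h4 _ h5
    have h0 : 0 < t q := by linarith
    rw [one_mul, abs_div, abs_of_pos (pow_pos h0 _), lt_div_iff₀ (pow_pos h0 _), h5, abs_mul (_ / _),
      abs_of_pos (a := (δ : ℝ) ^ n / A) (by positivity)] at h3
    refine h4 (le_of_mul_le_mul_right ?_ (pow_pos h0 (a * d + 1)))
    calc _ ≤ |(E.coeff E.natDegree : ℝ) * ξ ^ E.natDegree| / 2 * t q ^ (n * ε) *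
          t q ^ ((univ.image o).card + E.natDegree) :=
          mul_le_mul_of_nonneg_left (pow_le_pow_right₀ h2 hmas) (by positivity)
      _ = |(E.coeff E.natDegree : ℝ) * ξ ^ E.natDegree| / 2 * t q ^ E.natDegree *
          (t q ^ (univ.image o).card * t q ^ (n * ε)) := by ring
      _ ≤ _ := mul_le_mul_of_nonneg_right h3.le (by positivity)
      _ ≤ _ := by
          rw [mul_assoc, ← mul_assoc |_|]
          exact mul_le_mul_of_nonneg_left h1 (by positivity)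
  have hfin : ∀ᶠ q in l, ∀ (m : ℕ) (z : Fin m → ℕ), m₀ ≤ m → d + 1 ∣ m → (∀ i, 0 < z i) →
      (∀ i j, z i ≤ z j + S) → ∏ i, z i = q.2 → A * ∏ i, (q.1 + o i) = D * q.2 := by
    filter_upwards [hl0.eventually hm₀, hclose, hE, hpos] with q h1 h2 h3 h4 m z h5 h6 h7 h8 h9
    have h10 := h1 m z _ (t q ^ a) h5 h6 h7 h8 h9 (by positivity)
      (by rw [← pow_mul, ← htn q, hn]) h2
    have h11 := hid q
    rw [h10, sub_self, eq_comm, mul_eq_zero, sub_eq_zero] at h11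
    have h12 := (h11.resolve_left (by positivity)).symm
    have h13 : E.eval (q.1 : ℤ) = 0 := by_contra fun h => h3 h h12
    rw [h13, Int.cast_zero, eq_comm, mul_eq_zero, sub_eq_zero] at h12
    exact_mod_cast h12.resolve_left (by positivity)
  rw [hldef, eventually_inf_principal, eventually_comap] at hfin
  refine ⟨m₀, hfin.mono fun Z hZ x m z h1 h2 h3 h4 h5 h6 h7 => ?_⟩
  exact h6 (hZ (x, Z) rfl h7 m z h1 h2 h3 h4 h5)

end Pool.Agent.Lib.MP_4ffbf9_nt
end
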